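import Pool.Agent.H10.Strip

/-!
# Explicit bounds for `ff` and its tails
-/

namespace Pool.Agent.H10

open MeasureTheory Complex Filter Topology Set

lemma norm_fterm_le_pow (N : ℕ) (hN : 3 ≤ N) {u : ℂ} (hu : 0 < u.re) (h1 : 1 ≤ ‖u‖) (n : ℕ) :
    ‖fterm n u‖ ≤ (2 * Real.pi + 3) * (N.factorial : ℝ) / Real.pi ^ N * ‖u‖ * (u.re ^ N)⁻¹ *
      (((n : ℝ) + 1) ^ (2 * N - 4))⁻¹ := by
  have hpi := Real.pi_pos
  unfold fterm
  have hn : ‖((n : ℂ) + 1)‖ = (n : ℝ) + 1 := by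
    have : ((n : ℂ) + 1) = (((n : ℝ) + 1 : ℝ) : ℂ) := by push_cast; rfl
    rw [this, Complex.norm_real, Real.norm_eq_abs, abs_of_nonneg (by positivity)]
  rw [norm_mul, norm_mul, norm_pow, hn]
  have hre : (-(Real.pi * ((n : ℂ) + 1) ^ 2 * u)).re =
      -(Real.pi * ((n : ℝ) + 1) ^ 2 * u.re) := by
    have : ((n : ℂ) + 1) ^ 2 = ((((n : ℝ) + 1) ^ 2 : ℝ) : ℂ) := by push_cast; rfl
    rw [this, ← Complex.ofReal_mul, Complex.neg_re, Complex.re_ofReal_mul]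
  have h3 : (1 : ℝ) ≤ (n : ℝ) + 1 := by
    have : (0 : ℝ) ≤ n := Nat.cast_nonneg n
    linarith
  have e1 : ‖(2 * Real.pi * ((n : ℂ) + 1) ^ 2 * u - 3 : ℂ)‖ ≤
      (2 * Real.pi + 3) * ((n : ℝ) + 1) ^ 2 * ‖u‖ := by
    refine (norm_sub_le _ _).trans ?_
    rw [norm_mul, norm_mul, norm_mul, norm_pow, hn]
    simp only [Complex.norm_real, Real.norm_eq_abs, abs_of_pos Real.pi_pos, Complex.norm_ofNat]
    have : (1 : ℝ) ≤ ((n : ℝ) + 1) ^ 2 * ‖u‖ := by
      have : (1 : ℝ) ≤ ((n : ℝ) + 1) ^ 2 := by nlinarith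
      nlinarith
    nlinarith
  rw [Complex.norm_exp, hre]
  set m : ℝ := (n : ℝ) + 1 with hm
  have hm0 : 0 < m := by linarith
  have hy : 0 < Real.pi * m ^ 2 * u.re := by positivity
  have e2 := pow_mul_exp_neg_le hy N
  have hfac : (0 : ℝ) < N.factorial := by exact_mod_cast Nat.factorial_pos N
  calc m ^ 2 * ‖(2 * Real.pi * ((n : ℂ) + 1) ^ 2 * u - 3 : ℂ)‖ *
      Real.exp (-(Real.pi * m ^ 2 * u.re))
      ≤ m ^ 2 * ((2 * Real.pi + 3) * m ^ 2 * ‖u‖) *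
        ((N.factorial : ℝ) * ((Real.pi * m ^ 2 * u.re) ^ N)⁻¹) := by gcongr
    _ = _ := by
        have hu' : u.re ^ N ≠ 0 := by positivity
        have hp : Real.pi ^ N ≠ 0 := by positivity
        have hmm : (m ^ 2) ^ N = m ^ 4 * m ^ (2 * N - 4) := by
          rw [← pow_mul, ← pow_add]
          congr 1
          omega
        rw [mul_pow, mul_pow, hmm]
        have hm4 : m ^ (2 * N - 4) ≠ 0 := by positivity
        field_simp

/-- the constant in the tail bound -/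
noncomputable def CN (N : ℕ) : ℝ :=
  (2 * Real.pi + 3) * (Real.pi ^ 2 / 6) * (N.factorial : ℝ) / Real.pi ^ N

lemma CN_pos (N : ℕ) : 0 < CN N := by
  unfold CN
  have hpi := Real.pi_pos
  have hfac : (0 : ℝ) < N.factorial := by exact_mod_cast Nat.factorial_pos N
  positivity

theorem norm_ff_tail (N : ℕ) (hN : 3 ≤ N) (n0 : ℕ) {u : ℂ} (hu : 0 < u.re) (h1 : 1 ≤ ‖u‖) :
    ‖ff u - ∑ n ∈ Finset.range n0, fterm n u‖ ≤
      CN N * (((n0 : ℝ) + 1) ^ (2 * N - 6))⁻¹ * ‖u‖ * (u.re ^ N)⁻¹ := by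
  have hpi := Real.pi_pos
  have hfac : (0 : ℝ) < N.factorial := by exact_mod_cast Nat.factorial_pos N
  have hs := (summable_fterm hu).hasSum
  have hs2 := (hasSum_nat_add_iff' n0).2 hs
  have hz : HasSum (fun n : ℕ => (((n : ℝ) + 1) ^ 2)⁻¹) (Real.pi ^ 2 / 6) := by
    have h0 := hasSum_zeta_two
    have h2 := (hasSum_nat_add_iff' 1).2 h0
    simp only [Finset.range_one, Finset.sum_singleton, Nat.cast_zero] at h2
    norm_num at h2
    exact h2
  set K : ℝ := (2 * Real.pi + 3) * (N.factorial : ℝ) / Real.pi ^ N * ‖u‖ * (u.re ^ N)⁻¹ with hK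
  have hK0 : 0 ≤ K := by positivity
  have hg := hz.mul_left (K * (((n0 : ℝ) + 1) ^ (2 * N - 6))⁻¹)
  have hb := hs2.norm_le_of_bounded hg (by
    intro n
    refine (norm_fterm_le_pow N hN hu h1 (n + n0)).trans ?_
    rw [← hK]
    have h2 : ((((n + n0 : ℕ) : ℝ) + 1) ^ (2 * N - 4))⁻¹ ≤
        (((n0 : ℝ) + 1) ^ (2 * N - 6))⁻¹ * (((n : ℝ) + 1) ^ 2)⁻¹ := by
      rw [← mul_inv]
      apply inv_anti₀ (by positivity)
      push_cast
      have e : 2 * N - 4 = (2 * N - 6) + 2 := by omega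
      rw [e, pow_add]
      have hn : (0 : ℝ) ≤ n := Nat.cast_nonneg n
      have hn0 : (0 : ℝ) ≤ n0 := Nat.cast_nonneg n0
      gcongr
      · linarith
      · linarith
    calc K * ((((n + n0 : ℕ) : ℝ) + 1) ^ (2 * N - 4))⁻¹ ≤
        K * ((((n0 : ℝ) + 1) ^ (2 * N - 6))⁻¹ * (((n : ℝ) + 1) ^ 2)⁻¹) := by gcongr
      _ = _ := by ring)
  refine hb.trans (le_of_eq ?_)
  rw [hK]
  unfold CN
  ring

theorem norm_ff_le (N : ℕ) (hN : 3 ≤ N) {u : ℂ} (hu : 0 < u.re) (h1 : 1 ≤ ‖u‖) :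
    ‖ff u‖ ≤ CN N * ‖u‖ * (u.re ^ N)⁻¹ := by
  have h := norm_ff_tail N hN 0 hu h1
  simpa using h

theorem norm_PhiC_le (N : ℕ) (hN : 3 ≤ N) {t : ℂ} (ht : t ∈ strip) :
    ‖PhiC t‖ ≤ Real.pi * CN N * Real.exp (-((4 * N - 9) * |t.re|)) *
      (Real.cos (4 * t.im) ^ N)⁻¹ := by
  have hpi := Real.pi_pos
  have hC := CN_pos N
  have main : ∀ t ∈ strip, 0 ≤ t.re →
      ‖PhiC t‖ ≤ Real.pi * CN N * Real.exp (-((4 * N - 9) * |t.re|)) *
        (Real.cos (4 * t.im) ^ N)⁻¹ := by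
    intro t ht h0
    have h1 := norm_ff_le N hN (re_exp_pos ht) (by
      rw [norm_exp_four_mul]
      exact Real.one_le_exp (by linarith))
    have hc := cos_four_pos (show |t.im| < Real.pi / 8 from ht)
    unfold PhiC
    rw [norm_mul, norm_mul, norm_exp_five_mul, Complex.norm_real, Real.norm_eq_abs,
      abs_of_pos hpi]
    rw [norm_exp_four_mul, re_exp_four_mul] at h1
    rw [abs_of_nonneg h0]
    have e1 : Real.exp (-((4 * N - 9) * t.re)) =
        Real.exp (5 * t.re) * Real.exp (4 * t.re) * (Real.exp (4 * t.re) ^ N)⁻¹ := by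
      rw [← Real.exp_nat_mul, ← Real.exp_neg, ← Real.exp_add, ← Real.exp_add]
      congr 1
      ring
    rw [e1]
    calc Real.pi * Real.exp (5 * t.re) * ‖ff (cexp (4 * t))‖ ≤
        Real.pi * Real.exp (5 * t.re) * (CN N * Real.exp (4 * t.re) *
          ((Real.exp (4 * t.re) * Real.cos (4 * t.im)) ^ N)⁻¹) := by gcongr
      _ = _ := by
        rw [mul_pow, mul_inv]
        ring
  rcases le_total 0 t.re with h0 | h0
  · exact main t ht h0
  · have := main (-t) (neg_mem_strip ht) (by simpa using h0)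
    rw [PhiC_neg ht] at this
    simpa using this

lemma CN_three : CN 3 ≤ 3 := by
  have hpi := Real.pi_gt_three
  unfold CN
  have e : (2 * Real.pi + 3) * (Real.pi ^ 2 / 6) * ((3 : ℕ).factorial : ℝ) / Real.pi ^ 3 =
      (2 * Real.pi + 3) / Real.pi := by
    norm_num [Nat.factorial]
    field_simp
  rw [e, div_le_iff₀ Real.pi_pos]
  linarith

end Pool.Agent.H10
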