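import Pool.Agent.H10.Ball
import Pool.Agent.H10.FfBound

/-!
# Ball enclosures of `π` and of `Φ(jh)²`, `h = log(41/40)/2`
-/

namespace Pool.Agent.H10

open MeasureTheory Complex Filter Topology Set

/-! ### `π` -/

/-- partial sums of the series of `arctan (1/k)` -/
def atanB (k : ℕ) : ℕ → B
  | 0 => B.ofInt 0
  | n + 1 => (atanB k n).add (B.ofFrac (if n % 2 = 0 then 1 else -1) ((2 * n + 1) * Nat.pow k (2 * n + 1)))

lemma mem_atanB {k : ℕ} (hk : 0 < k) (n : ℕ) :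
    Mem (∑ i ∈ Finset.range n, (-1 : ℝ) ^ i * ((k : ℝ)⁻¹) ^ (2 * i + 1) / ((2 * i + 1 : ℕ) : ℝ))
      (atanB k n) := by
  induction n with
  | zero =>
    have := mem_ofInt 0
    simpa [atanB] using this
  | succ n ih =>
    rw [Finset.sum_range_succ]
    have h1 : Mem ((-1 : ℝ) ^ n * ((k : ℝ)⁻¹) ^ (2 * n + 1) / ((2 * n + 1 : ℕ) : ℝ))
        (B.ofFrac (if n % 2 = 0 then 1 else -1) ((2 * n + 1) * Nat.pow k (2 * n + 1))) := by
      have hpos : 0 < (2 * n + 1) * Nat.pow k (2 * n + 1) :=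
        Nat.mul_pos (by omega) (Nat.pow_pos hk)
      have h2 := mem_ofFrac (if n % 2 = 0 then 1 else -1) hpos
      have e1 : (((if n % 2 = 0 then 1 else -1 : ℤ)) : ℝ) = (-1 : ℝ) ^ n := by
        rcases Nat.even_or_odd n with h | h
        · rw [if_pos (Nat.even_iff.1 h), h.neg_one_pow]; simp
        · rw [if_neg (by rw [Nat.odd_iff.1 h]; norm_num), h.neg_one_pow]; simp
      have e2 : (((2 * n + 1) * Nat.pow k (2 * n + 1) : ℕ) : ℝ) =
          ((2 * n + 1 : ℕ) : ℝ) * (k : ℝ) ^ (2 * n + 1) := by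
        have : Nat.pow k (2 * n + 1) = k ^ (2 * n + 1) := rfl
        rw [this]
        push_cast
        ring
      rw [e1, e2] at h2
      have e3 : (-1 : ℝ) ^ n * ((k : ℝ)⁻¹) ^ (2 * n + 1) / ((2 * n + 1 : ℕ) : ℝ) =
          (-1 : ℝ) ^ n / (((2 * n + 1 : ℕ) : ℝ) * (k : ℝ) ^ (2 * n + 1)) := by
        rw [inv_pow]
        field_simp
      rw [e3]
      exact h2
    exact mem_add ih h1

lemma arctan_tail {x : ℝ} (hx0 : 0 < x) (hx1 : x < 1) (n : ℕ) :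
    |Real.arctan x - ∑ i ∈ Finset.range n, (-1 : ℝ) ^ i * x ^ (2 * i + 1) / ((2 * i + 1 : ℕ) : ℝ)| ≤
      x ^ (2 * n + 1) * (1 - x ^ 2)⁻¹ := by
  have hx : ‖x‖ < 1 := by rw [Real.norm_eq_abs, abs_of_pos hx0]; exact hx1
  have h1 := Real.hasSum_arctan hx
  have h2 := (hasSum_nat_add_iff' n).2 h1
  have hq : x ^ 2 < 1 := by nlinarith
  have h3 := (hasSum_geometric_of_lt_one (by positivity : 0 ≤ x ^ 2) hq).mul_left (x ^ (2 * n + 1))
  have h4 := h2.norm_le_of_bounded h3 (by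
    intro i
    rw [Real.norm_eq_abs, abs_div, abs_mul, abs_pow, abs_pow, abs_neg, abs_one, one_pow, one_mul,
      abs_of_pos hx0]
    have e1 : (1 : ℝ) ≤ |((2 * (i + n) + 1 : ℕ) : ℝ)| := by
      rw [abs_of_nonneg (by positivity)]
      push_cast
      have : (0 : ℝ) ≤ (i : ℝ) := Nat.cast_nonneg i
      have : (0 : ℝ) ≤ (n : ℝ) := Nat.cast_nonneg n
      linarith
    have e2 : x ^ (2 * (i + n) + 1) = x ^ (2 * n + 1) * (x ^ 2) ^ i := by
      rw [← pow_mul, ← pow_add]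
      congr 1
      ring
    rw [e2]
    apply div_le_self (by positivity) e1)
  rw [Real.norm_eq_abs] at h4
  exact h4

/-- a ball for `π`, before recentering -/
def piB0 : B :=
  (B.smul 16 ⟨(atanB 5 36).m, (atanB 5 36).e + 1⟩).sub (B.smul 4 ⟨(atanB 239 12).m, (atanB 239 12).e + 1⟩)

lemma mem_piB0 : Mem Real.pi piB0 := by
  have h5 : Mem (Real.arctan ((5 : ℕ) : ℝ)⁻¹) ⟨(atanB 5 36).m, (atanB 5 36).e + 1⟩ := by
    apply mem_widen (mem_atanB (k := 5) (by norm_num) 36)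
    have h := arctan_tail (x := (((5 : ℕ) : ℝ))⁻¹) (by norm_num) (by norm_num) 36
    rw [SB_cast]
    calc _ ≤ ((((5 : ℕ) : ℝ))⁻¹ ^ (2 * 36 + 1) * (1 - (((5 : ℕ) : ℝ))⁻¹ ^ 2)⁻¹) * 2 ^ 160 := by
          gcongr
      _ ≤ ((1 : ℕ) : ℝ) := by norm_num
  have h239 : Mem (Real.arctan ((239 : ℕ) : ℝ)⁻¹) ⟨(atanB 239 12).m, (atanB 239 12).e + 1⟩ := by
    apply mem_widen (mem_atanB (k := 239) (by norm_num) 12)
    have h := arctan_tail (x := (((239 : ℕ) : ℝ))⁻¹) (by norm_num) (by norm_num) 12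
    rw [SB_cast]
    calc _ ≤ ((((239 : ℕ) : ℝ))⁻¹ ^ (2 * 12 + 1) * (1 - (((239 : ℕ) : ℝ))⁻¹ ^ 2)⁻¹) * 2 ^ 160 := by
          gcongr
      _ ≤ ((1 : ℕ) : ℝ) := by norm_num
  have h := mem_sub (mem_smul h5 16) (mem_smul h239 4)
  have e : ((16 : ℤ) : ℝ) * Real.arctan ((5 : ℕ) : ℝ)⁻¹ -
      ((4 : ℤ) : ℝ) * Real.arctan ((239 : ℕ) : ℝ)⁻¹ = Real.pi := by
    have := Real.four_mul_arctan_inv_5_sub_arctan_inv_239
    push_cast
    linarith
  rw [e] at h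
  exact h

/-- a ball for `π` -/
def piB : B := ⟨4591442807048218921384805199743311128454155024418, 1000⟩

theorem mem_piB : Mem Real.pi piB := by
  apply mem_recenter mem_piB0
  decide +kernel

/-! ### The terms -/

/-- the step -/
noncomputable def hstep : ℝ := Real.log (41 / 40) / 2

lemma hstep_pos : 0 < hstep := by
  unfold hstep
  have := Real.log_pos (by norm_num : (1 : ℝ) < 41 / 40)
  positivity

lemma exp_hstep (j : ℕ) (m : ℕ) : Real.exp (2 * (m : ℝ) * (j * hstep)) = (41 / 40) ^ (m * j) := by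
  unfold hstep
  have : 2 * (m : ℝ) * (j * (Real.log (41 / 40) / 2)) = ((m * j : ℕ) : ℝ) * Real.log (41 / 40) := by
    push_cast
    ring
  rw [this, Real.exp_nat_mul, Real.exp_log (by norm_num)]

/-- real terms of `ff` -/
noncomputable def fR (n : ℕ) (u : ℝ) : ℝ :=
  ((n : ℝ) + 1) ^ 2 * (2 * Real.pi * ((n : ℝ) + 1) ^ 2 * u - 3) *
    Real.exp (-(Real.pi * ((n : ℝ) + 1) ^ 2 * u))

lemma ofReal_fR (n : ℕ) (u : ℝ) : ((fR n u : ℝ) : ℂ) = fterm n u := by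
  unfold fR fterm
  push_cast
  rfl

/-- `ff` on the real line -/
noncomputable def ffR (u : ℝ) : ℝ := ∑' n, fR n u

lemma ofReal_ffR (u : ℝ) : ((ffR u : ℝ) : ℂ) = ff u := by
  unfold ffR ff
  rw [Complex.ofReal_tsum]
  simp_rw [ofReal_fR]

/-- `a_j = Φ(jh)²` -/
noncomputable def aR (j : ℕ) : ℝ := riemannPhi (j * hstep) ^ 2

lemma aR_eq (j : ℕ) : aR j = Real.pi * Real.pi * ((41 / 40) ^ (5 * j) *
    (ffR ((41 / 40) ^ (2 * j)) * ffR ((41 / 40) ^ (2 * j)))) := by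
  have h : riemannPhi (j * hstep) = Real.pi * Real.exp (5 * (j * hstep)) *
      ffR ((41 / 40) ^ (2 * j)) := by
    have h1 := ofReal_riemannPhi (j * hstep)
    unfold PhiC at h1
    have e4 : cexp (4 * (((j : ℝ) * hstep : ℝ) : ℂ)) = (((41 / 40) ^ (2 * j) : ℝ) : ℂ) := by
      rw [← exp_hstep j 2]
      push_cast
      congr 1
      ring
    rw [e4, ← ofReal_ffR] at h1
    apply Complex.ofReal_injective
    rw [h1]
    push_cast
    rfl
  unfold aR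
  rw [h]
  have e5 : Real.exp (5 * (j * hstep)) ^ 2 = (41 / 40) ^ (5 * j) := by
    rw [← exp_hstep j 5, ← Real.exp_nat_mul]
    congr 1
    push_cast
    ring
  rw [← e5]
  ring

/-- ball for the truncated series: sum over `n = 1..6`, given balls for `π u` and `exp(-π u)` -/
def ff6B (pu q : B) : B :=
  let q2 := q.mul q
  let q4 := q2.mul q2
  let q8 := q4.mul q4
  let q9 := q8.mul q
  let q16 := q8.mul q8
  let q25 := q16.mul q9
  let q36 := q25.mul (q9.mul q2)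
  let t := fun (n : ℕ) (qq : B) =>
    B.smul (n * n : ℕ) (((B.smul (2 * n * n : ℕ) pu).sub (B.ofInt 3)).mul qq)
  (((((t 1 q).add (t 2 q4)).add (t 3 q9)).add (t 4 q16)).add (t 5 q25)).add (t 6 q36)

lemma mem_ff6B {u : ℝ} {pu q : B} (h1 : Mem (Real.pi * u) pu)
    (h2 : Mem (Real.exp (-(Real.pi * u))) q) :
    Mem (∑ n ∈ Finset.range 6, fR n u) (ff6B pu q) := by
  set Q := Real.exp (-(Real.pi * u)) with hQ
  have h3 : Mem (((3 : ℤ) : ℝ)) (B.ofInt 3) := mem_ofInt 3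
  have q2 := mem_mul h2 h2
  have q4 := mem_mul q2 q2
  have q8 := mem_mul q4 q4
  have q9 := mem_mul q8 h2
  have q16 := mem_mul q8 q8
  have q25 := mem_mul q16 q9
  have q36 := mem_mul q25 (mem_mul q9 q2)
  have ht : ∀ (n : ℕ) {x : ℝ} {qq : B}, Mem x qq →
      Mem (((n * n : ℕ) : ℤ) * ((((2 * n * n : ℕ) : ℤ) * (Real.pi * u) - ((3 : ℤ) : ℝ)) * x))
        (B.smul (n * n : ℕ) (((B.smul (2 * n * n : ℕ) pu).sub (B.ofInt 3)).mul qq)) := by
    intro n x qq hx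
    exact mem_smul (mem_mul (mem_sub (mem_smul h1 _) h3) hx) _
  have hfin := mem_add (mem_add (mem_add (mem_add (mem_add (ht 1 h2) (ht 2 q4)) (ht 3 q9))
    (ht 4 q16)) (ht 5 q25)) (ht 6 q36)
  have hexp : ∀ n : ℕ, Real.exp (-(Real.pi * ((n : ℝ) + 1) ^ 2 * u)) = Q ^ ((n + 1) ^ 2) := by
    intro n
    rw [hQ, ← Real.exp_nat_mul]
    congr 1
    push_cast
    ring
  have key : ∀ X : ℝ, Mem X (ff6B pu q) → ∑ n ∈ Finset.range 6, fR n u = X →
      Mem (∑ n ∈ Finset.range 6, fR n u) (ff6B pu q) := by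
    intro X h e
    rw [e]
    exact h
  refine key _ hfin ?_
  simp only [Finset.sum_range_succ, Finset.sum_range_zero, fR, hexp]
  push_cast
  ring

/-- ball for `a_j` -/
def ajB (j : ℕ) : B :=
  let u := B.ofFrac (Nat.pow 41 (2 * j) : ℕ) (Nat.pow 40 (2 * j))
  let pu := piB.mul u
  let q := expNegB pu
  let F := ff6B pu q
  let F' : B := ⟨F.m, F.e + 262144⟩
  (piB.mul piB).mul ((B.ofFrac (Nat.pow 41 (5 * j) : ℕ) (Nat.pow 40 (5 * j))).mul (F'.mul F'))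

lemma CN_sixty : CN 60 * ((((6 : ℕ) : ℝ) + 1) ^ (2 * 60 - 6))⁻¹ * 2 ^ 160 ≤ 262144 := by
  have h1 := Real.pi_gt_d2
  have h2 := Real.pi_lt_d2
  unfold CN
  have hp : (3.14 : ℝ) ^ 60 ≤ Real.pi ^ 60 := by gcongr
  have hq : (2 * Real.pi + 3) * (Real.pi ^ 2 / 6) ≤ (2 * 3.15 + 3) * (3.15 ^ 2 / 6) := by
    have := Real.pi_pos
    gcongr
  calc (2 * Real.pi + 3) * (Real.pi ^ 2 / 6) * ((60 : ℕ).factorial : ℝ) / Real.pi ^ 60 *
      ((((6 : ℕ) : ℝ) + 1) ^ (2 * 60 - 6))⁻¹ * 2 ^ 160 ≤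
      (2 * 3.15 + 3) * (3.15 ^ 2 / 6) * ((60 : ℕ).factorial : ℝ) / 3.14 ^ 60 *
      ((((6 : ℕ) : ℝ) + 1) ^ (2 * 60 - 6))⁻¹ * 2 ^ 160 := by gcongr
    _ ≤ 262144 := by norm_num [Nat.factorial]

lemma mem_ajB {j : ℕ} (hj : j ≤ 60) : Mem (aR j) (ajB j) := by
  have hpi := Real.pi_pos
  set u : ℝ := (41 / 40) ^ (2 * j) with hu
  have hu1 : 1 ≤ u := one_le_pow₀ (by norm_num)
  have hu2 : u ≤ 20 := by
    calc u ≤ (41 / 40 : ℝ) ^ (2 * 60) := by
          rw [hu]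
          exact pow_le_pow_right₀ (by norm_num) (by omega)
      _ ≤ 20 := by norm_num
  have hfrac : ∀ m : ℕ, Mem ((41 / 40) ^ m) (B.ofFrac (Nat.pow 41 m : ℕ) (Nat.pow 40 m)) := by
    intro m
    have h := mem_ofFrac ((Nat.pow 41 m : ℕ) : ℤ) (b := Nat.pow 40 m) (Nat.pow_pos (by norm_num))
    have e1 : Nat.pow 41 m = 41 ^ m := rfl
    have e2 : Nat.pow 40 m = 40 ^ m := rfl
    have e : (((Nat.pow 41 m : ℕ) : ℤ) : ℝ) / ((Nat.pow 40 m : ℕ) : ℝ) = (41 / 40) ^ m := by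
      rw [e1, e2]
      push_cast
      rw [div_pow]
    rw [e] at h
    exact h
  have h1 : Mem (Real.pi * u) (piB.mul (B.ofFrac (Nat.pow 41 (2 * j) : ℕ) (Nat.pow 40 (2 * j)))) :=
    mem_mul mem_piB (hfrac _)
  have h2 := mem_expNegB h1 (by positivity) (by nlinarith [Real.pi_lt_d2])
  have h3 := mem_ff6B h1 h2
  have htail : |ffR u - ∑ n ∈ Finset.range 6, fR n u| * SB ≤ ((262144 : ℕ) : ℝ) := by
    have h4 := norm_ff_tail 60 (by norm_num) 6 (u := (u : ℂ)) (by rw [Complex.ofReal_re]; linarith)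
      (by rw [Complex.norm_real, Real.norm_eq_abs, abs_of_pos (by linarith)]; exact hu1)
    have e1 : ff (u : ℂ) - ∑ n ∈ Finset.range 6, fterm n (u : ℂ) =
        ((ffR u - ∑ n ∈ Finset.range 6, fR n u : ℝ) : ℂ) := by
      rw [Complex.ofReal_sub, Complex.ofReal_sum, ofReal_ffR]
      simp_rw [ofReal_fR]
    rw [e1, Complex.norm_real, Complex.norm_real, Real.norm_eq_abs, Real.norm_eq_abs,
      Complex.ofReal_re, abs_of_pos (by linarith : 0 < u)] at h4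
    have h5 : u * (u ^ 60)⁻¹ ≤ 1 := by
      rw [← div_eq_mul_inv, div_le_one (by positivity)]
      exact le_self_pow₀ hu1 (by norm_num)
    have h6 := CN_sixty
    have h7 : 0 ≤ CN 60 * ((((6 : ℕ) : ℝ) + 1) ^ (2 * 60 - 6))⁻¹ := by
      have := CN_pos 60
      positivity
    rw [SB_cast]
    calc |ffR u - ∑ n ∈ Finset.range 6, fR n u| * 2 ^ 160 ≤
        (CN 60 * ((((6 : ℕ) : ℝ) + 1) ^ (2 * 60 - 6))⁻¹ * u * (u ^ 60)⁻¹) * 2 ^ 160 := by gcongr
      _ = (CN 60 * ((((6 : ℕ) : ℝ) + 1) ^ (2 * 60 - 6))⁻¹) * (u * (u ^ 60)⁻¹) * 2 ^ 160 := by ring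
      _ ≤ (CN 60 * ((((6 : ℕ) : ℝ) + 1) ^ (2 * 60 - 6))⁻¹) * 1 * 2 ^ 160 := by gcongr
      _ ≤ ((262144 : ℕ) : ℝ) := by
          push_cast
          linarith
  have h8 := mem_widen h3 htail
  rw [aR_eq]
  exact mem_mul (mem_mul mem_piB mem_piB) (mem_mul (hfrac _) (mem_mul h8 h8))

end Pool.Agent.H10
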