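import Pool.Agent.H10.Blowup

/-!
# All powers except `1` and `2`
-/

namespace Pool.Agent.H10

open Complex Filter Topology Set

/-- Non-integer powers: infinitely many non-real zeros. -/
theorem infinite_nonreal_zeros_of_not_nat {α : ℝ} (hα : 0 < α) (hint : ∀ n : ℕ, α ≠ n) :
    {z : ℂ | z.im ≠ 0 ∧ cosTransform α z = 0}.Infinite := by
  have hs : Real.sin (Real.pi * α) ≠ 0 := by
    intro h
    rw [Real.sin_eq_zero_iff] at h
    obtain ⟨n, hn⟩ := h
    have h1 : (n : ℝ) = α := by
      have hpi := Real.pi_ne_zero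
      have : (n : ℝ) * Real.pi = α * Real.pi := by rw [hn]; ring
      exact mul_right_cancel₀ hpi this
    have h2 : (0 : ℤ) ≤ n := by
      have : (0 : ℝ) < n := by rw [h1]; exact hα
      exact_mod_cast this.le
    obtain ⟨m, hm⟩ := Int.eq_ofNat_of_zero_le h2
    apply hint m
    rw [← h1, hm]
    rfl
  obtain ⟨X, hX, hXb⟩ := cosTransform_ne_zero_of_large hα hs
  have hd := differentiable_cosTransform hα
  have hne : ∃ z, cosTransform α z ≠ 0 := ⟨X, hXb X le_rfl⟩
  have hfin : ({z | cosTransform α z = 0} ∩ Metric.closedBall (0 : ℂ) X).Finite := by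
    by_contra hinf
    have hinf' : ({z | cosTransform α z = 0} ∩ Metric.closedBall (0 : ℂ) X).Infinite := hinf
    obtain ⟨w, _, hw⟩ := hinf'.exists_accPt_of_subset_isCompact (isCompact_closedBall (0 : ℂ) X)
      inter_subset_right
    have hfreq : ∃ᶠ z in 𝓝[≠] w, cosTransform α z = 0 := by
      rw [accPt_iff_frequently_nhdsNE] at hw
      exact hw.mono (fun z hz => hz.1)
    have han : AnalyticOnNhd ℂ (cosTransform α) univ := fun z _ => hd.analyticAt z
    have h0 := han.eqOn_zero_of_preconnected_of_frequently_eq_zero isPreconnected_univ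
      (mem_univ w) hfreq
    obtain ⟨z, hz⟩ := hne
    exact hz (h0 (mem_univ z))
  have hreal : {z : ℂ | cosTransform α z = 0 ∧ z.im = 0}.Finite := by
    refine hfin.subset ?_
    rintro z ⟨hz, him⟩
    refine ⟨hz, ?_⟩
    have hzr : z = (z.re : ℂ) := by
      apply Complex.ext <;> simp [him]
    rw [mem_closedBall_zero_iff, hzr, Complex.norm_real, Real.norm_eq_abs]
    by_contra h
    push Not at h
    rcases le_total 0 z.re with h0 | h0
    · rw [abs_of_nonneg h0] at h
      exact hXb z.re h.le (by rw [← hzr]; exact hz)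
    · rw [abs_of_nonpos h0] at h
      refine hXb (-z.re) h.le ?_
      have : ((-z.re : ℝ) : ℂ) = -z := by rw [hzr]; simp
      rw [this, cosTransform_neg]
      exact hz
  intro hnr
  have hall : {z : ℂ | cosTransform α z = 0}.Finite := by
    refine (hreal.union hnr).subset ?_
    intro z hz
    by_cases h : z.im = 0
    · exact Or.inl ⟨hz, h⟩
    · exact Or.inr ⟨h, hz⟩
  exact infinitely_many_zeros hα hall.toFinset (fun z hz => by simpa using hz)

/-- All powers except `1` and `2`. -/
theorem infinite_nonreal_zeros {α : ℝ} (hα : 0 < α) (h1 : α ≠ 1) (h2 : α ≠ 2) :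
    {z : ℂ | z.im ≠ 0 ∧ cosTransform α z = 0}.Infinite := by
  by_cases h : ∃ n : ℕ, α = n
  · obtain ⟨n, rfl⟩ := h
    have hn : 3 ≤ n := by
      have a0 : n ≠ 0 := by rintro rfl; simp at hα
      have a1 : n ≠ 1 := by rintro rfl; simp at h1
      have a2 : n ≠ 2 := by rintro rfl; simp at h2
      omega
    exact infinite_nonreal_zeros_of_three_le hn
  · push Not at h
    exact infinite_nonreal_zeros_of_not_nat hα h

end Pool.Agent.H10
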