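import Mathlib

/-!
# Fixed point ball arithmetic, evaluated by the kernel
-/

namespace Pool.Agent.H10

/-- the scale `2^160` -/
def SB : ℕ := 2 ^ 160

/-- a ball `m ± e`, in units of `2^{-160}` -/
structure B where
  m : ℤ
  e : ℕ

/-- membership -/
def Mem (x : ℝ) (b : B) : Prop := |x * (SB : ℝ) - b.m| ≤ b.e

lemma SB_pos : (0 : ℝ) < (SB : ℝ) := by
  unfold SB
  positivity

lemma SB_cast : (SB : ℝ) = 2 ^ 160 := by
  unfold SB
  norm_num

lemma int_div_bound (z : ℤ) {k : ℕ} (hk : 0 < k) :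
    |(z : ℝ) / k - ((z / (k : ℤ) : ℤ) : ℝ)| ≤ 1 := by
  have hk' : (0 : ℝ) < k := by exact_mod_cast hk
  have h1 : (k : ℤ) * (z / (k : ℤ)) + z % (k : ℤ) = z := Int.mul_ediv_add_emod z k
  have h2 : 0 ≤ z % (k : ℤ) := Int.emod_nonneg _ (by omega)
  have h3 : z % (k : ℤ) < k := Int.emod_lt_of_pos _ (by omega)
  have h1' : (k : ℝ) * ((z / (k : ℤ) : ℤ) : ℝ) + ((z % (k : ℤ) : ℤ) : ℝ) = z := by
    exact_mod_cast h1
  have h2' : (0 : ℝ) ≤ ((z % (k : ℤ) : ℤ) : ℝ) := by exact_mod_cast h2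
  have h3' : ((z % (k : ℤ) : ℤ) : ℝ) < k := by exact_mod_cast h3
  have e : (z : ℝ) / k - ((z / (k : ℤ) : ℤ) : ℝ) = ((z % (k : ℤ) : ℤ) : ℝ) / k := by
    rw [← h1']
    field_simp
    ring
  rw [e, abs_of_nonneg (by positivity), div_le_one hk']
  exact h3'.le

lemma nat_div_bound (n : ℕ) {k : ℕ} (hk : 0 < k) : (n : ℝ) / k ≤ ((n / k : ℕ) : ℝ) + 1 := by
  have hk' : (0 : ℝ) < k := by exact_mod_cast hk
  have h1 : k * (n / k) + n % k = n := Nat.div_add_mod n k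
  have h3 : n % k < k := Nat.mod_lt _ hk
  have h1' : (k : ℝ) * ((n / k : ℕ) : ℝ) + ((n % k : ℕ) : ℝ) = n := by exact_mod_cast h1
  have h3' : ((n % k : ℕ) : ℝ) < k := by exact_mod_cast h3
  rw [div_le_iff₀ hk']
  nlinarith

namespace B

/-- addition -/
def add (a b : B) : B := ⟨a.m + b.m, a.e + b.e⟩
/-- subtraction -/
def sub (a b : B) : B := ⟨a.m - b.m, a.e + b.e⟩
/-- multiplication -/
def mul (a b : B) : B :=
  ⟨(a.m * b.m) / (SB : ℤ), (a.m.natAbs * b.e + b.m.natAbs * a.e + a.e * b.e) / SB + 2⟩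
/-- division by a natural number -/
def divN (a : B) (k : ℕ) : B := ⟨a.m / (k : ℤ), a.e / k + 2⟩
/-- multiplication by an integer -/
def smul (k : ℤ) (a : B) : B := ⟨k * a.m, k.natAbs * a.e⟩
/-- an integer -/
def ofInt (n : ℤ) : B := ⟨n * (SB : ℤ), 0⟩
/-- a fraction -/
def ofFrac (a : ℤ) (b : ℕ) : B := ⟨a * (SB : ℤ) / (b : ℤ), 1⟩

end B

lemma mem_add {x y : ℝ} {a b : B} (hx : Mem x a) (hy : Mem y b) : Mem (x + y) (a.add b) := by
  unfold Mem B.add at *
  push_cast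
  have e : (x + y) * (SB : ℝ) - ((a.m : ℝ) + b.m) = (x * SB - a.m) + (y * SB - b.m) := by ring
  rw [e]
  exact (abs_add_le _ _).trans (add_le_add hx hy)

lemma mem_sub {x y : ℝ} {a b : B} (hx : Mem x a) (hy : Mem y b) : Mem (x - y) (a.sub b) := by
  unfold Mem B.sub at *
  push_cast
  have e : (x - y) * (SB : ℝ) - ((a.m : ℝ) - b.m) = (x * SB - a.m) - (y * SB - b.m) := by ring
  rw [e]
  exact (abs_sub _ _).trans (add_le_add hx hy)

lemma mem_mul {x y : ℝ} {a b : B} (hx : Mem x a) (hy : Mem y b) : Mem (x * y) (a.mul b) := by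
  unfold Mem B.mul at *
  have hS := SB_pos
  have hSN : 0 < SB := by unfold SB; positivity
  have h1 := int_div_bound (a.m * b.m) hSN
  have h2 := nat_div_bound (a.m.natAbs * b.e + b.m.natAbs * a.e + a.e * b.e) hSN
  have e1 : (a.m.natAbs : ℝ) = |(a.m : ℝ)| := by
    rw [Nat.cast_natAbs, Int.cast_abs]
  have e2 : (b.m.natAbs : ℝ) = |(b.m : ℝ)| := by
    rw [Nat.cast_natAbs, Int.cast_abs]
  have h3 : |(x * SB) * (y * SB) - (a.m : ℝ) * b.m| ≤
      |(a.m : ℝ)| * b.e + |(b.m : ℝ)| * a.e + a.e * b.e := by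
    have e : (x * SB) * (y * SB) - (a.m : ℝ) * b.m = (a.m : ℝ) * (y * SB - b.m) +
        (b.m : ℝ) * (x * SB - a.m) + (x * SB - a.m) * (y * SB - b.m) := by ring
    rw [e]
    refine (abs_add_le _ _).trans (add_le_add ((abs_add_le _ _).trans (add_le_add ?_ ?_)) ?_)
    · rw [abs_mul]; gcongr
    · rw [abs_mul]; gcongr
    · rw [abs_mul]; gcongr
  have h4 : |x * y * SB - ((a.m : ℝ) * b.m) / SB| ≤
      (|(a.m : ℝ)| * b.e + |(b.m : ℝ)| * a.e + a.e * b.e) / SB := by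
    have e : x * y * SB - ((a.m : ℝ) * b.m) / SB =
        ((x * SB) * (y * SB) - (a.m : ℝ) * b.m) / SB := by
      field_simp
    rw [e, abs_div, abs_of_pos hS]
    gcongr
  push_cast at h1 h2 ⊢
  rw [e1, e2] at h2
  have h5 : |x * y * SB - (((a.m * b.m) / (SB : ℤ) : ℤ) : ℝ)| ≤
      |x * y * SB - ((a.m : ℝ) * b.m) / SB| +
      |((a.m : ℝ) * b.m) / SB - (((a.m * b.m) / (SB : ℤ) : ℤ) : ℝ)| := abs_sub_le _ _ _
  linarith

lemma mem_divN {x : ℝ} {a : B} (hx : Mem x a) {k : ℕ} (hk : 0 < k) : Mem (x / k) (a.divN k) := by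
  unfold Mem B.divN at *
  have hk' : (0 : ℝ) < k := by exact_mod_cast hk
  have h1 := int_div_bound a.m hk
  have h2 := nat_div_bound a.e hk
  have h3 : |x / k * SB - (a.m : ℝ) / k| ≤ (a.e : ℝ) / k := by
    have e : x / k * SB - (a.m : ℝ) / k = (x * SB - a.m) / k := by ring
    rw [e, abs_div, abs_of_pos hk']
    gcongr
  push_cast
  have h5 : |x / k * SB - ((a.m / (k : ℤ) : ℤ) : ℝ)| ≤ |x / k * SB - (a.m : ℝ) / k| +
      |(a.m : ℝ) / k - ((a.m / (k : ℤ) : ℤ) : ℝ)| := abs_sub_le _ _ _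
  linarith

lemma mem_smul {x : ℝ} {a : B} (hx : Mem x a) (k : ℤ) : Mem (k * x) (B.smul k a) := by
  unfold Mem B.smul at *
  push_cast
  have e1 : (k.natAbs : ℝ) = |(k : ℝ)| := by
    rw [Nat.cast_natAbs, Int.cast_abs]
  have e : (k : ℝ) * x * SB - (k : ℝ) * a.m = k * (x * SB - a.m) := by ring
  rw [e, abs_mul]
  try rw [e1]
  gcongr

lemma mem_ofInt (n : ℤ) : Mem (n : ℝ) (B.ofInt n) := by
  unfold Mem B.ofInt
  push_cast
  simp

lemma mem_ofFrac (a : ℤ) {b : ℕ} (hb : 0 < b) : Mem ((a : ℝ) / b) (B.ofFrac a b) := by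
  unfold Mem B.ofFrac
  have h := int_div_bound (a * (SB : ℤ)) hb
  push_cast at h ⊢
  have e : (a : ℝ) / b * SB = a * SB / b := by ring
  rw [e]
  exact h

lemma mem_widen {x y : ℝ} {a : B} (hx : Mem x a) {k : ℕ} (hk : |y - x| * SB ≤ k) :
    Mem y ⟨a.m, a.e + k⟩ := by
  unfold Mem at *
  push_cast
  have e : y * SB - a.m = (y - x) * SB + (x * SB - a.m) := by ring
  rw [e]
  refine (abs_add_le _ _).trans ?_
  rw [abs_mul, abs_of_pos SB_pos]
  linarith

lemma mem_recenter {x : ℝ} {a : B} (hx : Mem x a) {m : ℤ} {e : ℕ}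
    (h : (a.m - m).natAbs + a.e ≤ e) : Mem x ⟨m, e⟩ := by
  unfold Mem at *
  have h1 : ((a.m - m).natAbs : ℝ) + a.e ≤ e := by exact_mod_cast h
  have e1 : ((a.m - m).natAbs : ℝ) = |(a.m : ℝ) - m| := by
    rw [Nat.cast_natAbs, Int.cast_abs]
    push_cast
    rfl
  rw [e1] at h1
  have h2 : |x * SB - m| ≤ |x * SB - a.m| + |(a.m : ℝ) - m| := abs_sub_le _ _ _
  show |x * SB - (m : ℝ)| ≤ (e : ℝ)
  linarith

/-! ### exponential -/

/-- Horner scheme for the exponential, real version -/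
noncomputable def hexpR (y : ℝ) : ℕ → ℕ → ℝ
  | 0, _ => 1
  | n + 1, i => 1 + y * hexpR y n (i + 1) / i

/-- Horner scheme for the exponential, ball version -/
def hexpB (y : B) : ℕ → ℕ → B
  | 0, _ => B.ofInt 1
  | n + 1, i => (B.ofInt 1).add ((y.mul (hexpB y n (i + 1))).divN i)

lemma mem_hexp {y : ℝ} {b : B} (hy : Mem y b) (n : ℕ) : ∀ i : ℕ, 0 < i →
    Mem (hexpR y n i) (hexpB b n i) := by
  induction n with
  | zero =>
    intro i _
    have := mem_ofInt 1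
    simpa [hexpR, hexpB] using this
  | succ n ih =>
    intro i hi
    have h1 := mem_ofInt 1
    rw [Int.cast_one] at h1
    exact mem_add h1 (mem_divN (mem_mul hy (ih (i + 1) (by omega))) hi)

lemma hexpR_eq (y : ℝ) (n : ℕ) : ∀ i : ℕ, 0 < i → hexpR y n i =
    ∑ m ∈ Finset.range (n + 1), y ^ m * ((i - 1).factorial : ℝ) / ((i - 1 + m).factorial : ℝ) := by
  induction n with
  | zero =>
    intro i hi
    simp only [hexpR, zero_add, Finset.range_one, Finset.sum_singleton, pow_zero, one_mul, add_zero]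
    have : ((i - 1).factorial : ℝ) ≠ 0 := by exact_mod_cast (Nat.factorial_pos _).ne'
    field_simp
  | succ n ih =>
    intro i hi
    have h1 := ih (i + 1) (by omega)
    rw [hexpR, h1, Finset.sum_range_succ' _ (n + 1)]
    have hf : ((i - 1).factorial : ℝ) ≠ 0 := by exact_mod_cast (Nat.factorial_pos _).ne'
    have hi' : (i : ℝ) ≠ 0 := by exact_mod_cast hi.ne'
    have e0 : y ^ 0 * ((i - 1).factorial : ℝ) / ((i - 1 + 0).factorial : ℝ) = 1 := by
      rw [add_zero, pow_zero, one_mul]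
      exact div_self hf
    rw [e0, add_comm, Finset.mul_sum, Finset.sum_div]
    congr 1
    apply Finset.sum_congr rfl
    intro m _
    have e1 : i + 1 - 1 = i := by omega
    have e2 : i - 1 + (m + 1) = i + m := by omega
    have e3 : (i.factorial : ℝ) = i * ((i - 1).factorial : ℝ) := by
      obtain ⟨j, rfl⟩ : ∃ j, i = j + 1 := ⟨i - 1, by omega⟩
      rw [Nat.add_sub_cancel, Nat.factorial_succ]
      push_cast
      ring
    rw [e1, e2, e3, pow_succ]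
    field_simp

lemma hexpR_one (y : ℝ) (n : ℕ) : hexpR y n 1 =
    ∑ m ∈ Finset.range (n + 1), y ^ m / (m.factorial : ℝ) := by
  rw [hexpR_eq y n 1 one_pos]
  apply Finset.sum_congr rfl
  intro m _
  simp

/-- iterated squaring -/
def sqB (b : B) : ℕ → B
  | 0 => b
  | n + 1 => sqB (b.mul b) n

lemma mem_sqB (n : ℕ) : ∀ {x : ℝ} {b : B}, Mem x b → Mem (x ^ (2 ^ n)) (sqB b n) := by
  induction n with
  | zero =>
    intro x b h
    simpa [sqB] using h
  | succ n ih =>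
    intro x b h
    have h1 := ih (mem_mul h h)
    have : x ^ 2 ^ (n + 1) = (x * x) ^ 2 ^ n := by
      rw [← pow_two, ← pow_mul]
      congr 1
      rw [pow_succ]
      ring
    rw [this]
    exact h1

/-- `exp(-x)`, for `x` in a ball with `x ≤ 64` -/
def expNegB (b : B) : B :=
  let t := hexpB (B.divN ⟨-b.m, b.e⟩ 1024) 24 1
  sqB ⟨t.m, t.e + 1⟩ 10

lemma mem_expNegB {x : ℝ} {b : B} (h : Mem x b) (h0 : 0 ≤ x) (h1 : x ≤ 64) :
    Mem (Real.exp (-x)) (expNegB b) := by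
  unfold expNegB
  have hneg : Mem (-x) ⟨-b.m, b.e⟩ := by
    unfold Mem at *
    push_cast
    have e : -x * SB - -(b.m : ℝ) = -(x * SB - b.m) := by ring
    rw [e, abs_neg]
    exact h
  have hdiv := mem_divN hneg (k := 1024) (by norm_num)
  have hh := mem_hexp hdiv 24 1 one_pos
  rw [hexpR_one] at hh
  have hsmall : |(-x) / ((1024 : ℕ) : ℝ)| ≤ 1 / 16 := by
    rw [abs_div, abs_neg, abs_of_nonneg h0]
    rw [abs_of_pos (by norm_num)]
    push_cast
    rw [div_le_iff₀ (by norm_num)]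
    linarith
  have hb := Real.exp_bound (x := (-x) / ((1024 : ℕ) : ℝ)) (by linarith) (n := 25) (by norm_num)
  have hb2 : |Real.exp ((-x) / ((1024 : ℕ) : ℝ)) -
      ∑ m ∈ Finset.range 25, ((-x) / ((1024 : ℕ) : ℝ)) ^ m / (m.factorial : ℝ)| * SB ≤
      ((1 : ℕ) : ℝ) := by
    have h2 : |(-x) / ((1024 : ℕ) : ℝ)| ^ 25 ≤ (1 / 16) ^ 25 := by gcongr
    have h3 : |Real.exp ((-x) / ((1024 : ℕ) : ℝ)) -
      ∑ m ∈ Finset.range 25, ((-x) / ((1024 : ℕ) : ℝ)) ^ m / (m.factorial : ℝ)| ≤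
      (1 / 16) ^ 25 * (((25 : ℕ).succ : ℝ) / ((25 : ℕ).factorial * (25 : ℕ))) := by
      refine hb.trans ?_
      gcongr
    rw [SB_cast]
    calc _ ≤ ((1 / 16) ^ 25 * (((25 : ℕ).succ : ℝ) / ((25 : ℕ).factorial * (25 : ℕ)))) *
        2 ^ 160 := by gcongr
      _ ≤ ((1 : ℕ) : ℝ) := by
        norm_num [Nat.factorial]
  have hw := mem_widen hh hb2
  have hs := mem_sqB 10 hw
  have e : Real.exp ((-x) / ((1024 : ℕ) : ℝ)) ^ 2 ^ 10 = Real.exp (-x) := by
    rw [← Real.exp_nat_mul]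
    congr 1
    push_cast
    ring
  rw [e] at hs
  exact hs

end Pool.Agent.H10
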