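import Pool.Agent.H10.Inversion

/-!
# Blow-up of `Φ` at `e^{4t} = 2i`, and non-real zeros of `F_k` for integers `k ≥ 3`
-/

namespace Pool.Agent.H10

open MeasureTheory Complex Filter Topology Set

/-- `u_η = η + 2i` -/
noncomputable def uη (η : ℝ) : ℂ := η + 2 * I

lemma uη_re (η : ℝ) : (uη η).re = η := by simp [uη]
lemma uη_im (η : ℝ) : (uη η).im = 2 := by simp [uη]

lemma fterm_uη_im (n : ℕ) (η : ℝ) : (fterm n (uη η)).im =
    4 * Real.pi * ((n : ℝ) + 1) ^ 4 * Real.exp (-(Real.pi * ((n : ℝ) + 1) ^ 2 * η)) := by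
  have h1 : cexp (-(Real.pi * ((n : ℂ) + 1) ^ 2 * uη η)) =
      ((Real.exp (-(Real.pi * ((n : ℝ) + 1) ^ 2 * η)) : ℝ) : ℂ) := by
    have : (-(Real.pi * ((n : ℂ) + 1) ^ 2 * uη η)) =
        ((-(Real.pi * ((n : ℝ) + 1) ^ 2 * η) : ℝ) : ℂ) +
          ((-((n : ℤ) + 1) ^ 2 : ℤ) : ℂ) * (2 * Real.pi * I) := by
      unfold uη
      push_cast
      ring
    rw [this, Complex.exp_add, Complex.exp_int_mul_two_pi_mul_I, mul_one, Complex.ofReal_exp]
  unfold fterm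
  rw [h1, Complex.im_mul_ofReal]
  have h2 : (((n : ℂ) + 1) ^ 2 * (2 * Real.pi * ((n : ℂ) + 1) ^ 2 * uη η - 3)) =
      ((((n : ℝ) + 1) ^ 2 * (2 * Real.pi * ((n : ℝ) + 1) ^ 2 * η - 3) : ℝ) : ℂ) +
      ((4 * Real.pi * ((n : ℝ) + 1) ^ 4 : ℝ) : ℂ) * I := by
    unfold uη
    push_cast
    ring
  rw [h2, Complex.add_im, Complex.ofReal_im, Complex.im_ofReal_mul, Complex.I_im]
  ring

lemma sum_pow_four (N : ℕ) : (N : ℝ) ^ 5 / 5 ≤ ∑ n ∈ Finset.range N, ((n : ℝ) + 1) ^ 4 := by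
  induction N with
  | zero => simp
  | succ N ih =>
    rw [Finset.sum_range_succ]
    push_cast
    have : (0 : ℝ) ≤ N := Nat.cast_nonneg N
    nlinarith [pow_nonneg this 2, pow_nonneg this 3, pow_nonneg this 4]

lemma norm_ff_uη_ge {N : ℕ} (hN : 1 ≤ N) :
    4 * Real.pi * Real.exp (-Real.pi) / 5 * (N : ℝ) ^ 5 ≤ ‖ff (uη (1 / (N : ℝ) ^ 2))‖ := by
  have hpi := Real.pi_pos
  have hN0 : (0 : ℝ) < N := by exact_mod_cast hN
  set η : ℝ := 1 / (N : ℝ) ^ 2 with hη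
  have hη0 : 0 < η := by positivity
  have hs := summable_fterm (u := uη η) (by rw [uη_re]; exact hη0)
  have him : HasSum (fun n => (fterm n (uη η)).im) (ff (uη η)).im :=
    Complex.hasSum_im hs.hasSum
  have hnn : ∀ n, 0 ≤ (fterm n (uη η)).im := by
    intro n
    rw [fterm_uη_im]
    positivity
  have h1 : ∑ n ∈ Finset.range N, (fterm n (uη η)).im ≤ (ff (uη η)).im :=
    sum_le_hasSum _ (fun n _ => hnn n) him
  have h2 : 4 * Real.pi * Real.exp (-Real.pi) * ∑ n ∈ Finset.range N, ((n : ℝ) + 1) ^ 4 ≤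
      ∑ n ∈ Finset.range N, (fterm n (uη η)).im := by
    rw [Finset.mul_sum]
    apply Finset.sum_le_sum
    intro n hn
    rw [Finset.mem_range] at hn
    have hn' : (n : ℝ) + 1 ≤ N := by exact_mod_cast hn
    rw [fterm_uη_im]
    have h3 : Real.exp (-Real.pi) ≤ Real.exp (-(Real.pi * ((n : ℝ) + 1) ^ 2 * η)) := by
      apply Real.exp_le_exp.2
      have : ((n : ℝ) + 1) ^ 2 * η ≤ 1 := by
        rw [hη, mul_one_div, div_le_one (by positivity)]
        have : (0 : ℝ) ≤ n := Nat.cast_nonneg n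
        gcongr
      nlinarith
    calc 4 * Real.pi * Real.exp (-Real.pi) * ((n : ℝ) + 1) ^ 4 =
        4 * Real.pi * ((n : ℝ) + 1) ^ 4 * Real.exp (-Real.pi) := by ring
      _ ≤ _ := by gcongr
  have h4 := sum_pow_four N
  have h5 : (ff (uη η)).im ≤ ‖ff (uη η)‖ := (le_abs_self _).trans (Complex.abs_im_le_norm _)
  calc 4 * Real.pi * Real.exp (-Real.pi) / 5 * (N : ℝ) ^ 5 =
      4 * Real.pi * Real.exp (-Real.pi) * ((N : ℝ) ^ 5 / 5) := by ring
    _ ≤ 4 * Real.pi * Real.exp (-Real.pi) * ∑ n ∈ Finset.range N, ((n : ℝ) + 1) ^ 4 := by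
        gcongr
    _ ≤ _ := by linarith

/-- the point `t` with `e^{4t} = u_η` -/
noncomputable def tη (η : ℝ) : ℂ := Complex.log (uη η) / 4

lemma uη_ne_zero (η : ℝ) : uη η ≠ 0 := by
  intro h
  have := congrArg Complex.im h
  rw [uη_im] at this
  simp at this

lemma exp_tη (η : ℝ) : cexp (4 * tη η) = uη η := by
  unfold tη
  have : 4 * (Complex.log (uη η) / 4) = Complex.log (uη η) := by ring
  rw [this, Complex.exp_log (uη_ne_zero η)]

lemma two_le_norm_uη (η : ℝ) : 2 ≤ ‖uη η‖ := by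
  have := Complex.abs_im_le_norm (uη η)
  rw [uη_im] at this
  norm_num at this
  exact this

lemma tη_re (η : ℝ) : (tη η).re = Real.log ‖uη η‖ / 4 := by
  unfold tη
  have : Complex.log (uη η) / 4 = Complex.log (uη η) * ((1 / 4 : ℝ) : ℂ) := by
    push_cast; ring
  rw [this, Complex.re_mul_ofReal, Complex.log_re]
  ring

lemma tη_im (η : ℝ) : (tη η).im = (uη η).arg / 4 := by
  unfold tη
  have : Complex.log (uη η) / 4 = Complex.log (uη η) * ((1 / 4 : ℝ) : ℂ) := by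
    push_cast; ring
  rw [this, Complex.im_mul_ofReal, Complex.log_im]
  ring

lemma tη_facts {η : ℝ} (h0 : 0 < η) (h1 : η ≤ 1) :
    0 ≤ (tη η).re ∧ |(tη η).im| < Real.pi / 8 ∧ η / 12 ≤ Real.pi / 8 - |(tη η).im| := by
  have hn := two_le_norm_uη η
  have hpi := Real.pi_pos
  have hn3 : ‖uη η‖ ≤ 3 := by
    unfold uη
    refine (norm_add_le _ _).trans ?_
    rw [norm_mul, Complex.norm_I, Complex.norm_real, Real.norm_eq_abs, abs_of_pos h0]
    norm_num
    linarith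
  have harg : |(uη η).arg| < Real.pi / 2 :=
    Complex.abs_arg_lt_pi_div_two_iff.2 (Or.inl (by rw [uη_re]; exact h0))
  have harg0 : 0 ≤ (uη η).arg := Complex.arg_nonneg_iff.2 (by rw [uη_im]; norm_num)
  rw [abs_of_nonneg harg0] at harg
  refine ⟨?_, ?_, ?_⟩
  · rw [tη_re]
    have := Real.log_nonneg (by linarith : (1 : ℝ) ≤ ‖uη η‖)
    positivity
  · rw [tη_im, abs_of_nonneg (by positivity)]
    linarith
  · rw [tη_im, abs_of_nonneg (by positivity)]
    have hcos : Real.cos (uη η).arg = η / ‖uη η‖ := by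
      rw [Complex.cos_arg (uη_ne_zero η), uη_re]
    have h2 : η / 3 ≤ Real.cos (uη η).arg := by
      rw [hcos]
      gcongr
    have h3 : Real.cos (uη η).arg = Real.sin (Real.pi / 2 - (uη η).arg) := by
      rw [Real.sin_pi_div_two_sub]
    have h4 : Real.sin (Real.pi / 2 - (uη η).arg) ≤ Real.pi / 2 - (uη η).arg :=
      Real.sin_le (by linarith)
    linarith

lemma norm_PhiC_tη {η : ℝ} (h0 : 0 < η) (h1 : η ≤ 1) : ‖ff (uη η)‖ ≤ ‖PhiC (tη η)‖ := by
  obtain ⟨f1, f2, f3⟩ := tη_facts h0 h1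
  unfold PhiC
  rw [exp_tη, norm_mul, norm_mul, norm_exp_five_mul, Complex.norm_real, Real.norm_eq_abs,
    abs_of_pos Real.pi_pos]
  have h2 : 1 ≤ Real.exp (5 * (tη η).re) := Real.one_le_exp (by linarith)
  have h3 := Real.pi_gt_three
  have h4 : 1 ≤ Real.pi * Real.exp (5 * (tη η).re) := by nlinarith
  have h5 := norm_nonneg (ff (uη η))
  nlinarith

/-- For an integer `k ≥ 3` the function `M_k` has zeros in `Re s > 0` at arbitrary height. -/
theorem exists_zero_MM {k : ℕ} (hk : 3 ≤ k) (T0 : ℝ) :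
    ∃ s : ℂ, 0 < s.re ∧ T0 ≤ |s.im| ∧ MM k s = 0 := by
  by_contra hcon
  push Not at hcon
  have hk3 : (3 : ℝ) ≤ k := by exact_mod_cast hk
  have hpi := Real.pi_pos
  obtain ⟨C, hC, hb⟩ := MM_line_bound (k := k) (by omega) ⟨T0, fun s h1 h2 => hcon s h1 h2⟩
    (ε := 1 / 16) (ε' := 1 / 16) (by norm_num) (by norm_num) (by norm_num)
  set p : ℝ := 1 / 16 + 1 / 16 + 9 * k / 4 - 1 / 2 with hp
  have hp0 : 0 ≤ p := by rw [hp]; linarith
  obtain ⟨C', hC', hb'⟩ := Mint_bound (k := k) (by omega) hC hp0 hb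
  set c : ℝ := 4 * Real.pi * Real.exp (-Real.pi) / 5 with hc
  have hc0 : 0 < c := by positivity
  -- the inequality for every `N`
  have key : ∀ N : ℕ, 1 ≤ N → c ^ k * (N : ℝ) ^ (5 * (k : ℝ)) ≤
      C' * 12 ^ (p + 1) * (N : ℝ) ^ (2 * (p + 1)) := by
    intro N hN
    have hN0 : (0 : ℝ) < N := by exact_mod_cast hN
    have hN1 : (1 : ℝ) ≤ N := by exact_mod_cast hN
    set η : ℝ := 1 / (N : ℝ) ^ 2 with hη
    have hη0 : 0 < η := by positivity
    have hη1 : η ≤ 1 := by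
      rw [hη, div_le_one (by positivity)]
      nlinarith
    obtain ⟨f1, f2, f3⟩ := tη_facts hη0 hη1
    have h1 := hb' (tη η) f2
    have h2 := norm_ff_uη_ge hN
    rw [← hη, ← hc] at h2
    have h3 := norm_PhiC_tη hη0 hη1
    have h4 : ‖Mint k (1 / 16 : ℝ) (tη η)‖ = ‖PhiC (tη η)‖ ^ k *
        Real.exp (4 * (1 / 16) * (tη η).re) := by
      unfold Mint
      rw [norm_mul, norm_pow, Complex.norm_exp]
      congr 2
      have : (4 * ((1 / 16 : ℝ) : ℂ) * tη η) = ((4 * (1 / 16) : ℝ) : ℂ) * tη η := by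
        push_cast
        ring
      rw [this, Complex.re_ofReal_mul]
    have h5 : 1 ≤ Real.exp (4 * (1 / 16) * (tη η).re) := Real.one_le_exp (by positivity)
    have h6 : (c * (N : ℝ) ^ 5) ^ k ≤ ‖Mint k (1 / 16 : ℝ) (tη η)‖ := by
      rw [h4]
      calc (c * (N : ℝ) ^ 5) ^ k = (c * (N : ℝ) ^ 5) ^ k * 1 := by ring
        _ ≤ ‖PhiC (tη η)‖ ^ k * Real.exp (4 * (1 / 16) * (tη η).re) := by
          gcongr
          linarith
    have h7 : (Real.pi / 8 - |(tη η).im|) ^ (-(p + 1)) ≤ (η / 12) ^ (-(p + 1)) :=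
      Real.rpow_le_rpow_of_nonpos (by positivity) f3 (by linarith)
    have h8 : (η / 12) ^ (-(p + 1)) = 12 ^ (p + 1) * (N : ℝ) ^ (2 * (p + 1)) := by
      rw [Real.rpow_neg (by positivity), ← Real.inv_rpow (by positivity)]
      have : (η / 12)⁻¹ = 12 * (N : ℝ) ^ 2 := by
        rw [hη]
        field_simp
      rw [this, Real.mul_rpow (by norm_num) (by positivity), Real.rpow_mul hN0.le]
      congr 2
      norm_num
    have h9 : c ^ k * (N : ℝ) ^ (5 * (k : ℝ)) = (c * (N : ℝ) ^ 5) ^ k := by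
      rw [mul_pow]
      congr 1
      rw [← pow_mul]
      have : 5 * (k : ℝ) = ((5 * k : ℕ) : ℝ) := by push_cast; rfl
      rw [this, Real.rpow_natCast]
    rw [h9]
    have h10 : ‖Mint k (1 / 16 : ℝ) (tη η)‖ ≤ C' * (Real.pi / 8 - |(tη η).im|) ^ (-(p + 1)) := h1
    calc (c * (N : ℝ) ^ 5) ^ k ≤ C' * (Real.pi / 8 - |(tη η).im|) ^ (-(p + 1)) := h6.trans h10
      _ ≤ C' * (12 ^ (p + 1) * (N : ℝ) ^ (2 * (p + 1))) := by
          rw [← h8]
          gcongr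
      _ = _ := by ring
  -- contradiction
  have hexp : 2 * (p + 1) + 1 / 4 ≤ 5 * (k : ℝ) := by
    rw [hp]
    linarith
  have hlim : Tendsto (fun N : ℕ => (N : ℝ) ^ (1 / 4 : ℝ)) atTop atTop :=
    (tendsto_rpow_atTop (by norm_num)).comp tendsto_natCast_atTop_atTop
  have hev := (hlim.eventually_gt_atTop (C' * 12 ^ (p + 1) / c ^ k)).and (eventually_ge_atTop 1)
  obtain ⟨N, hN1, hN2⟩ := hev.exists
  have hNpos : (0 : ℝ) < N := by exact_mod_cast hN2
  have hN1' : (1 : ℝ) ≤ N := by exact_mod_cast hN2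
  have h1 := key N hN2
  have h2 : (N : ℝ) ^ (2 * (p + 1)) * (N : ℝ) ^ (1 / 4 : ℝ) ≤ (N : ℝ) ^ (5 * (k : ℝ)) := by
    rw [← Real.rpow_add hNpos]
    exact Real.rpow_le_rpow_of_exponent_le hN1' hexp
  have hck : 0 < c ^ k := by positivity
  have hN3 : 0 < (N : ℝ) ^ (2 * (p + 1)) := Real.rpow_pos_of_pos hNpos _
  rw [div_lt_iff₀ hck] at hN1
  have h3 : c ^ k * ((N : ℝ) ^ (2 * (p + 1)) * (N : ℝ) ^ (1 / 4 : ℝ)) ≤
      C' * 12 ^ (p + 1) * (N : ℝ) ^ (2 * (p + 1)) := by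
    refine le_trans ?_ h1
    gcongr
  have h4 : C' * 12 ^ (p + 1) * (N : ℝ) ^ (2 * (p + 1)) <
      c ^ k * ((N : ℝ) ^ (2 * (p + 1)) * (N : ℝ) ^ (1 / 4 : ℝ)) := by
    calc C' * 12 ^ (p + 1) * (N : ℝ) ^ (2 * (p + 1)) <
        ((N : ℝ) ^ (1 / 4 : ℝ) * c ^ k) * (N : ℝ) ^ (2 * (p + 1)) :=
          mul_lt_mul_of_pos_right hN1 hN3
      _ = _ := by ring
  linarith

/-- For an integer `k ≥ 3` the function `F_k` has infinitely many non-real zeros. -/
theorem infinite_nonreal_zeros_of_three_le {k : ℕ} (hk : 3 ≤ k) :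
    {z : ℂ | z.im ≠ 0 ∧ cosTransform k z = 0}.Infinite := by
  intro hfin
  obtain ⟨R, hR⟩ := hfin.isBounded.exists_norm_le
  obtain ⟨s, hs1, hs2, hs3⟩ := exists_zero_MM hk (|R| + 1)
  rw [MM_eq_cosTransform (by omega)] at hs3
  have hz : cosTransform k (4 * I * s) = 0 := by
    have h2 : (2 : ℂ) ≠ 0 := two_ne_zero
    exact (mul_eq_zero.1 hs3).resolve_left h2
  have him : (4 * I * s).im = 4 * s.re := by
    simp
  have hre : (4 * I * s).re = -(4 * s.im) := by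
    simp
  have hmem : (4 * I * s) ∈ {z : ℂ | z.im ≠ 0 ∧ cosTransform k z = 0} := by
    refine ⟨?_, hz⟩
    rw [him]
    positivity
  have h1 := hR _ hmem
  have h2 := Complex.abs_re_le_norm (4 * I * s)
  rw [hre, abs_neg, abs_mul, abs_of_pos (by norm_num : (0 : ℝ) < 4)] at h2
  have h3 := le_abs_self R
  have h4 := abs_nonneg R
  linarith

end Pool.Agent.H10
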