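import Pool.Agent.H10.Region2

/-!
# The zero `ib` of the Riemann kernel and the branch of `Φ^α` in the right half strip
-/

namespace Pool.Agent.H10

open MeasureTheory Complex Filter Topology Set

/-- `b₁ = arccos(7/25)/4`, the height of the strip used below. -/
noncomputable def b1 : ℝ := Real.arccos (7 / 25) / 4

lemma cos_four_b1 : Real.cos (4 * b1) = 7 / 25 := by
  unfold b1
  rw [mul_div_cancel₀ _ (by norm_num), Real.cos_arccos (by norm_num) (by norm_num)]

lemma sin_four_b1 : Real.sin (4 * b1) = 24 / 25 := by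
  unfold b1
  rw [mul_div_cancel₀ _ (by norm_num), Real.sin_arccos]
  rw [show (1 - (7 / 25 : ℝ) ^ 2) = (24 / 25) ^ 2 by norm_num]
  exact Real.sqrt_sq (by norm_num)

lemma b1_pos : 0 < b1 := by
  unfold b1
  have : 0 < Real.arccos (7 / 25) := Real.arccos_pos.2 (by norm_num)
  positivity

lemma four_b1_lt : 4 * b1 < Real.pi / 2 := by
  unfold b1
  rw [mul_div_cancel₀ _ (by norm_num)]
  exact Real.arccos_lt_pi_div_two.2 (by norm_num)

lemma b1_lt : b1 < Real.pi / 8 := by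
  have := four_b1_lt
  linarith

/-- the closed region `Re t ≥ 0`, `0 ≤ Im t ≤ b₁`. -/
def RR : Set ℂ := {t | 0 ≤ t.re ∧ 0 ≤ t.im ∧ t.im ≤ b1}

lemma RR_subset_strip {t : ℂ} (ht : t ∈ RR) : t ∈ strip := by
  obtain ⟨_, h2, h3⟩ := ht
  show |t.im| < Real.pi / 8
  rw [abs_of_nonneg h2]
  exact lt_of_le_of_lt h3 b1_lt

lemma RR_facts {t : ℂ} (ht : t ∈ RR) :
    1 ≤ ‖cexp (4 * t)‖ ∧ ‖cexp (4 * t)‖ = Real.exp (4 * t.re) ∧
    7 / 25 * ‖cexp (4 * t)‖ ≤ (cexp (4 * t)).re ∧ 0 ≤ (cexp (4 * t)).im ∧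
    7 / 25 ≤ Real.cos (4 * t.im) := by
  obtain ⟨h1, h2, h3⟩ := ht
  have hn : ‖cexp (4 * t)‖ = Real.exp (4 * t.re) := by
    rw [Complex.norm_exp]; simp
  have hc : 7 / 25 ≤ Real.cos (4 * t.im) := by
    rw [← cos_four_b1]
    apply Real.cos_le_cos_of_nonneg_of_le_pi (by linarith)
    · have := four_b1_lt
      linarith [Real.pi_pos]
    · linarith
  have he : 1 ≤ Real.exp (4 * t.re) := Real.one_le_exp (by linarith)
  refine ⟨?_, hn, ?_, ?_, hc⟩
  · rw [hn]; exact he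
  · rw [hn, re_exp_four_mul]
    have : 0 < Real.exp (4 * t.re) := Real.exp_pos _
    nlinarith
  · rw [im_exp_four_mul]
    apply mul_nonneg (Real.exp_pos _).le
    apply Real.sin_nonneg_of_nonneg_of_le_pi (by linarith)
    have := four_b1_lt
    linarith [Real.pi_pos]

/-- `W(t) = -(1+i) h(e^{4t})`. -/
noncomputable def Wt (t : ℂ) : ℂ := -(1 + I) * hh (cexp (4 * t))

/-- derivative of `W`. -/
noncomputable def Wt1 (t : ℂ) : ℂ := -(1 + I) * (4 * (cexp (4 * t) * hh1 (cexp (4 * t))))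

lemma hasDerivAt_Wt {t : ℂ} (ht : t ∈ strip) : HasDerivAt Wt (Wt1 t) t := by
  have h1 : HasDerivAt (fun t : ℂ => cexp (4 * t)) (4 * cexp (4 * t)) t :=
    (((hasDerivAt_id' t).const_mul (4 : ℂ)).cexp).congr_deriv (by ring)
  have h2 := HasDerivAt.comp (h₂ := hh) t (hasDerivAt_hh (re_exp_pos ht)) h1
  exact (h2.const_mul (-(1 + I))).congr_deriv (by unfold Wt1; ring)

lemma Wt_eq_zero_iff (t : ℂ) : Wt t = 0 ↔ hh (cexp (4 * t)) = 0 := by
  unfold Wt
  have : (-(1 + I) : ℂ) ≠ 0 := by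
    intro h
    have := congrArg Complex.re h
    simp at this
  rw [mul_eq_zero, or_iff_right this]

lemma slit_of_outer {h : ℂ} (hh : 0 < h.im ∨ 0 < h.re + h.im) : -(1 + I) * h ∈ slitPlane := by
  rw [Complex.mem_slitPlane_iff]
  simp only [Complex.mul_re, Complex.mul_im, Complex.neg_re, Complex.neg_im, Complex.add_re,
    Complex.add_im, Complex.one_re, Complex.one_im, Complex.I_re, Complex.I_im]
  by_cases h0 : h.re + h.im = 0
  · left
    rcases hh with h1 | h1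
    · linarith
    · linarith
  · right
    intro h2
    apply h0
    linarith

/-- the small rectangle containing the zero. -/
def Rec : Set ℂ := {t | 0 ≤ t.re ∧ Real.exp (4 * t.re) ≤ 1.0893 ∧ 0 ≤ t.im ∧ t.im ≤ b1 ∧
  Real.cos (4 * t.im) ≤ 0.305}

lemma mem_Rec_of_lt {t : ℂ} (ht : t ∈ RR) (h : (cexp (4 * t)).re < 0.305) : t ∈ Rec := by
  obtain ⟨f1, f2, f3, f4, f5⟩ := RR_facts ht
  rw [f2] at f1
  refine ⟨ht.1, ?_, ht.2.1, ht.2.2, ?_⟩
  · rw [f2] at f3
    linarith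
  · rw [re_exp_four_mul] at h
    nlinarith

lemma Rec_segment {t t' : ℂ} (ht : t ∈ Rec) (ht' : t' ∈ Rec) {s : ℝ} (hs0 : 0 ≤ s) (hs1 : s ≤ 1) :
    t + s * (t' - t) ∈ Rec := by
  obtain ⟨h1, h2, h3, h4, h5⟩ := ht
  obtain ⟨g1, g2, g3, g4, g5⟩ := ht'
  have hre : (t + s * (t' - t)).re = (1 - s) * t.re + s * t'.re := by
    simp; ring
  have him : (t + s * (t' - t)).im = (1 - s) * t.im + s * t'.im := by
    simp; ring
  have hs' : 0 ≤ 1 - s := by linarith
  refine ⟨?_, ?_, ?_, ?_, ?_⟩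
  · rw [hre]; positivity
  · rw [hre]
    rcases le_total t.re t'.re with h | h
    · refine le_trans (Real.exp_le_exp.2 ?_) g2
      nlinarith
    · refine le_trans (Real.exp_le_exp.2 ?_) h2
      nlinarith
  · rw [him]; positivity
  · rw [him]; nlinarith
  · rw [him]
    have hb := four_b1_lt
    have hpi := Real.pi_pos
    rcases le_total t.im t'.im with h | h
    · refine le_trans (Real.cos_le_cos_of_nonneg_of_le_pi (by linarith) ?_ ?_) h5
      · nlinarith
      · nlinarith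
    · refine le_trans (Real.cos_le_cos_of_nonneg_of_le_pi (by linarith) ?_ ?_) g5
      · nlinarith
      · nlinarith

lemma Rec_subset_RR {t : ℂ} (ht : t ∈ Rec) : t ∈ RR := ⟨ht.1, ht.2.2.1, ht.2.2.2.1⟩

lemma Wt1_re_pos {t : ℂ} (ht : t ∈ Rec) : 0 < (Wt1 t).re := by
  have hR := Rec_subset_RR ht
  obtain ⟨f1, f2, f3, f4, f5⟩ := RR_facts hR
  obtain ⟨h1, h2, h3, h4, h5⟩ := ht
  have he : 1 ≤ Real.exp (4 * t.re) := Real.one_le_exp (by linarith)
  have hs : Real.sin (4 * t.im) ^ 2 = 1 - Real.cos (4 * t.im) ^ 2 := by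
    have := Real.sin_sq_add_cos_sq (4 * t.im)
    linarith
  have hs0 : 0 ≤ Real.sin (4 * t.im) := by
    apply Real.sin_nonneg_of_nonneg_of_le_pi (by linarith)
    have := four_b1_lt
    linarith [Real.pi_pos]
  have hs1 : 0.952 ≤ Real.sin (4 * t.im) := by
    apply le_of_sq_le_sq _ hs0
    rw [hs]
    nlinarith
  have hs2 : Real.sin (4 * t.im) ≤ 0.96 := by
    apply le_of_sq_le_sq _ (by norm_num)
    rw [hs]
    nlinarith
  have key := region_loc (u := cexp (4 * t))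
    (by rw [re_exp_four_mul]; nlinarith)
    (by rw [re_exp_four_mul]; nlinarith)
    (by rw [im_exp_four_mul]; nlinarith)
    (by rw [im_exp_four_mul]; nlinarith)
    (by rw [f2]; exact h2)
  unfold Wt1
  simp only [Complex.mul_re, Complex.mul_im, Complex.neg_re, Complex.neg_im, Complex.add_re,
    Complex.add_im, Complex.one_re, Complex.one_im, Complex.I_re, Complex.I_im, Complex.re_ofNat,
    Complex.im_ofNat] at key ⊢
  linarith

lemma riemannPhi_pos_of_nonneg {t : ℝ} (ht : 0 ≤ t) : 0 < riemannPhi t := by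
  unfold riemannPhi
  have hs : Summable (fun m : ℕ => (2 * ((m : ℝ) + 1) ^ 4 * Real.pi ^ 2 * Real.exp (9 * t)
      - 3 * ((m : ℝ) + 1) ^ 2 * Real.pi * Real.exp (5 * t)) *
    Real.exp (-((m : ℝ) + 1) ^ 2 * Real.pi * Real.exp (4 * t))) := by
    have h1 := (summable_fterm (re_exp_pos (ofReal_mem_strip t))).mul_left
      ((Real.pi : ℂ) * cexp (5 * t))
    rw [← Complex.summable_ofReal]
    refine h1.congr ?_
    intro m
    unfold fterm
    have h9 : cexp (9 * (t : ℂ)) = cexp (5 * t) * cexp (4 * t) := by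
      rw [← Complex.exp_add]; ring_nf
    push_cast
    rw [h9]
    have : (-((m : ℂ) + 1) ^ 2 * (Real.pi : ℂ) * cexp (4 * t)) =
        -((Real.pi : ℂ) * ((m : ℂ) + 1) ^ 2 * cexp (4 * t)) := by ring
    rw [this]
    ring
  have hpos : ∀ m : ℕ, 0 < (2 * ((m : ℝ) + 1) ^ 4 * Real.pi ^ 2 * Real.exp (9 * t)
      - 3 * ((m : ℝ) + 1) ^ 2 * Real.pi * Real.exp (5 * t)) *
    Real.exp (-((m : ℝ) + 1) ^ 2 * Real.pi * Real.exp (4 * t)) := by
    intro m
    apply mul_pos _ (Real.exp_pos _)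
    have hm : (1 : ℝ) ≤ (m : ℝ) + 1 := by
      have : (0 : ℝ) ≤ m := Nat.cast_nonneg m
      linarith
    have h9 : Real.exp (9 * t) = Real.exp (5 * t) * Real.exp (4 * t) := by
      rw [← Real.exp_add]; ring_nf
    have he : 1 ≤ Real.exp (4 * t) := Real.one_le_exp (by linarith)
    have hpi := Real.pi_gt_three
    have hE : 0 < Real.exp (5 * t) := Real.exp_pos _
    have e : (2 * ((m : ℝ) + 1) ^ 4 * Real.pi ^ 2 * Real.exp (9 * t)
      - 3 * ((m : ℝ) + 1) ^ 2 * Real.pi * Real.exp (5 * t)) =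
      ((m : ℝ) + 1) ^ 2 * Real.pi * Real.exp (5 * t) *
        (2 * Real.pi * ((m : ℝ) + 1) ^ 2 * Real.exp (4 * t) - 3) := by rw [h9]; ring
    rw [e]
    apply mul_pos (by positivity)
    have h2 : 1 ≤ ((m : ℝ) + 1) ^ 2 := by nlinarith
    have h3 : 1 ≤ ((m : ℝ) + 1) ^ 2 * Real.exp (4 * t) := by nlinarith
    nlinarith
  exact hs.tsum_pos (fun m => (hpos m).le) 0 (hpos 0)

lemma riemannPhi_pos (t : ℝ) : 0 < riemannPhi t := by
  rcases le_total 0 t with h | h
  · exact riemannPhi_pos_of_nonneg h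
  · rw [← riemannPhi_neg]
    exact riemannPhi_pos_of_nonneg (by linarith)

lemma PhiC_eq_hh (t : ℂ) :
    PhiC t = cexp (5 * t - Real.pi * cexp (4 * t) + Real.log Real.pi) * hh (cexp (4 * t)) := by
  unfold PhiC
  rw [ff_eq_hh, Complex.exp_add, Complex.exp_sub, ← Complex.ofReal_exp, Real.exp_log Real.pi_pos,
    Complex.exp_neg]
  field_simp

lemma PhiC_eq_zero_iff (t : ℂ) : PhiC t = 0 ↔ hh (cexp (4 * t)) = 0 := by
  rw [PhiC_eq_hh]
  simp [Complex.exp_ne_zero]

/-- `φ(s) = Φ(is)` (real-valued). -/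
noncomputable def phis (s : ℝ) : ℝ := (PhiC (s * I)).re

lemma ofReal_phis {s : ℝ} (hs : |s| < Real.pi / 8) : ((phis s : ℝ) : ℂ) = PhiC (s * I) := by
  apply Complex.ext
  · simp [phis]
  · simp [PhiC_imag_real hs]

lemma mulI_mem_strip {s : ℝ} (hs : |s| < Real.pi / 8) : (s * I : ℂ) ∈ strip := by
  show |(s * I : ℂ).im| < Real.pi / 8
  simpa using hs

lemma mulI_mem_RR {s : ℝ} (h0 : 0 ≤ s) (h1 : s ≤ b1) : (s * I : ℂ) ∈ RR := by
  refine ⟨?_, ?_, ?_⟩ <;> simp [h0, h1]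

lemma abs_lt_of_Icc {s : ℝ} (h0 : 0 ≤ s) (h1 : s ≤ b1) : |s| < Real.pi / 8 := by
  rw [abs_of_nonneg h0]
  exact lt_of_le_of_lt h1 b1_lt

lemma continuousOn_phis : ContinuousOn phis (Icc 0 b1) := by
  intro s hs
  have h1 : ContinuousAt PhiC (s * I) :=
    (differentiableAt_PhiC (mulI_mem_strip (abs_lt_of_Icc hs.1 hs.2))).continuousAt
  have h2 : ContinuousAt (fun s : ℝ => PhiC (s * I)) s :=
    ContinuousAt.comp (f := fun s : ℝ => (s * I : ℂ)) (g := PhiC) h1 (by fun_prop)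
  exact (Complex.continuous_re.continuousAt.comp h2).continuousWithinAt

lemma phis_zero_pos : 0 < phis 0 := by
  have h := riemannPhi_pos 0
  have h2 := ofReal_riemannPhi 0
  unfold phis
  simp only [Complex.ofReal_zero, zero_mul] at h2 ⊢
  rw [← h2]
  simpa using h

lemma exp_four_b1 : cexp (4 * (b1 * I)) = uu := by
  apply Complex.ext
  · rw [re_exp_four_mul]
    simp [cos_four_b1, uu]
  · rw [im_exp_four_mul]
    simp [sin_four_b1, uu]

lemma phis_b1_neg : phis b1 < 0 := by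
  have hpi := Real.pi_gt_three
  have hpi' := Real.pi_lt_d2
  have hs : |b1| < Real.pi / 8 := abs_lt_of_Icc b1_pos.le le_rfl
  have h1 := ofReal_phis hs
  rw [PhiC_eq_hh, exp_four_b1] at h1
  have h2 : hh uu = (phis b1 : ℂ) * cexp (-(5 * (b1 * I) - Real.pi * uu + Real.log Real.pi)) := by
    rw [h1, Complex.exp_neg]
    field_simp
  have h3 : (hh uu).im = phis b1 * (Real.exp (Real.pi * (7 / 25) - Real.log Real.pi) *
      Real.sin (Real.pi * (24 / 25) - 5 * b1)) := by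
    rw [h2, Complex.im_ofReal_mul, Complex.exp_im]
    congr 3
    · simp [uu]
      ring
    · simp [uu]
  have h4 : 0 < Real.sin (Real.pi * (24 / 25) - 5 * b1) := by
    have := b1_lt
    have := b1_pos
    apply Real.sin_pos_of_pos_of_lt_pi
    · linarith
    · linarith
  have h5 := hh_uu_im
  rw [h3] at h5
  have h6 : 0 < Real.exp (Real.pi * (7 / 25) - Real.log Real.pi) *
      Real.sin (Real.pi * (24 / 25) - 5 * b1) := mul_pos (Real.exp_pos _) h4
  by_contra h7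
  push Not at h7
  have := mul_nonneg h7 h6.le
  linarith

lemma exists_zero : ∃ b : ℝ, 0 < b ∧ b < b1 ∧ PhiC (b * I) = 0 := by
  have h := intermediate_value_Ioo' b1_pos.le continuousOn_phis
  obtain ⟨b, hb, hb2⟩ := h ⟨phis_b1_neg, phis_zero_pos⟩
  refine ⟨b, hb.1, hb.2, ?_⟩
  rw [← ofReal_phis (abs_lt_of_Icc hb.1.le hb.2.le), hb2]
  simp

/-- the zero -/
noncomputable def b0 : ℝ := Classical.choose exists_zero

lemma b0_pos : 0 < b0 := (Classical.choose_spec exists_zero).1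
lemma b0_lt : b0 < b1 := (Classical.choose_spec exists_zero).2.1
lemma PhiC_b0 : PhiC (b0 * I) = 0 := (Classical.choose_spec exists_zero).2.2

lemma Wt_b0 : Wt (b0 * I) = 0 := by
  rw [Wt_eq_zero_iff, ← PhiC_eq_zero_iff]
  exact PhiC_b0

lemma b0_mem_RR : (b0 * I : ℂ) ∈ RR := mulI_mem_RR b0_pos.le b0_lt.le

lemma b0_mem_Rec : (b0 * I : ℂ) ∈ Rec := by
  apply mem_Rec_of_lt b0_mem_RR
  by_contra h
  push Not at h
  obtain ⟨f1, f2, f3, f4, f5⟩ := RR_facts b0_mem_RR
  have := slit_of_outer (region_outer h f1 f4)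
  have h2 : -(1 + I) * hh (cexp (4 * (b0 * I))) = 0 := Wt_b0
  rw [h2] at this
  exact Complex.zero_notMem_slitPlane this

/-- `W` takes values in the slit plane on the closed region, except at the zero `i b₀`. -/
lemma Wt_mem_slitPlane {t : ℂ} (ht : t ∈ RR) (hne : t ≠ b0 * I) : Wt t ∈ slitPlane := by
  obtain ⟨f1, f2, f3, f4, f5⟩ := RR_facts ht
  rcases le_or_gt 0.305 (cexp (4 * t)).re with h | h
  · exact slit_of_outer (region_outer h f1 f4)
  · have hrec := mem_Rec_of_lt ht h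
    by_contra hns
    -- W t = -r with r ≥ 0
    have hns' := hns
    rw [Complex.mem_slitPlane_iff] at hns'
    push Not at hns'
    obtain ⟨hre, him⟩ := hns'
    set τ : ℂ := t - b0 * I with hτ
    have hτ0 : τ ≠ 0 := sub_ne_zero.2 hne
    have hτre : 0 ≤ τ.re := by
      rw [hτ]
      simpa using ht.1
    let g : ℝ → ℝ := fun s => (starRingEnd ℂ τ * Wt (b0 * I + s * τ)).re
    let g' : ℝ → ℝ := fun s => (starRingEnd ℂ τ * (Wt1 (b0 * I + s * τ) * τ)).re
    have hseg : ∀ s ∈ Icc (0 : ℝ) 1, (b0 * I + s * τ : ℂ) ∈ Rec := by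
      intro s hs
      have := Rec_segment b0_mem_Rec hrec hs.1 hs.2
      rwa [← hτ] at this
    have hd : ∀ s ∈ Icc (0 : ℝ) 1, HasDerivAt g (g' s) s := by
      intro s hs
      have hm : (b0 * I + s * τ : ℂ) ∈ strip := RR_subset_strip (Rec_subset_RR (hseg s hs))
      have h1 : HasDerivAt (fun s : ℝ => (b0 * I + s * τ : ℂ)) τ s := by
        have := ((Complex.ofRealCLM.hasDerivAt (x := s)).mul_const τ).const_add ((b0 : ℂ) * I)
        exact this.congr_deriv (by simp)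
      have h2 : HasDerivAt (fun s : ℝ => Wt (b0 * I + s * τ)) (Wt1 (b0 * I + s * τ) * τ) s :=
        HasDerivAt.comp_of_eq (h₂ := Wt) (h := fun s : ℝ => (b0 * I + s * τ : ℂ)) s
          (hasDerivAt_Wt hm) h1 rfl
      have h3 := h2.const_mul (starRingEnd ℂ τ)
      exact Complex.reCLM.hasFDerivAt.comp_hasDerivAt s h3
    have hcont : ContinuousOn g (Icc 0 1) := fun s hs => (hd s hs).continuousAt.continuousWithinAt
    obtain ⟨c, hc, hc2⟩ := exists_hasDerivAt_eq_slope g g' (by norm_num : (0 : ℝ) < 1) hcont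
      (fun s hs => hd s ⟨hs.1.le, hs.2.le⟩)
    have hg0 : g 0 = 0 := by
      simp [g, Wt_b0]
    have hg1 : g 1 ≤ 0 := by
      have e : (b0 * I + (1 : ℝ) * τ : ℂ) = t := by rw [hτ]; push_cast; ring
      show (starRingEnd ℂ τ * Wt (b0 * I + (1 : ℝ) * τ)).re ≤ 0
      rw [e, Complex.mul_re, him]
      simp only [Complex.conj_re, Complex.conj_im, mul_zero, sub_zero]
      exact mul_nonpos_of_nonneg_of_nonpos hτre hre
    have hgc : 0 < g' c := by
      have hcm : (b0 * I + c * τ : ℂ) ∈ Rec := hseg c ⟨hc.1.le, hc.2.le⟩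
      have e : starRingEnd ℂ τ * (Wt1 (b0 * I + c * τ) * τ) =
          ((Complex.normSq τ : ℝ) : ℂ) * Wt1 (b0 * I + c * τ) := by
        rw [Complex.normSq_eq_conj_mul_self]
        ring
      show 0 < (starRingEnd ℂ τ * (Wt1 (b0 * I + c * τ) * τ)).re
      rw [e, Complex.re_ofReal_mul]
      exact mul_pos (Complex.normSq_pos.2 hτ0) (Wt1_re_pos hcm)
    rw [hc2, hg0] at hgc
    norm_num at hgc
    linarith

end Pool.Agent.H10
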