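import Pool.Agent.H10.Decay

/-!
# Asymptotics of `F_α(x)` on the real axis by a contour shift
-/

namespace Pool.Agent.H10

open MeasureTheory Complex Filter Topology Set intervalIntegral

/-- the integrand -/
noncomputable def fint (α x : ℝ) (z : ℂ) : ℂ := Kb α z * cexp (I * x * z)

lemma continuousOn_fint {α : ℝ} (hα : 0 < α) (x : ℝ) : ContinuousOn (fint α x) RR := by
  unfold fint
  exact (continuousOn_Kb hα).mul (by fun_prop)

lemma norm_fint_le {α : ℝ} {C : ℝ} (x : ℝ) (hx : 0 ≤ x)
    (hC : ∀ t ∈ RR, ‖Kb α t‖ ≤ C * Real.exp (-(α * t.re ^ 3))) {z : ℂ} (hz : z ∈ RR) :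
    ‖fint α x z‖ ≤ C * Real.exp (-(α * z.re ^ 3)) * Real.exp (-(x * z.im)) := by
  unfold fint
  rw [norm_mul, Complex.norm_exp]
  have : (I * x * z).re = -(x * z.im) := by simp
  rw [this]
  gcongr
  exact hC z hz

lemma rect_mem_RR {X : ℝ} (hX : 0 ≤ X) {z : ℂ}
    (hz : z ∈ (uIcc (0 : ℂ).re (X + b1 * I : ℂ).re ×ℂ uIcc (0 : ℂ).im (X + b1 * I : ℂ).im)) :
    z ∈ RR := by
  rw [Complex.mem_reProdIm] at hz
  have e1 : (X + b1 * I : ℂ).re = X := by simp
  have e2 : (X + b1 * I : ℂ).im = b1 := by simp
  rw [e1, e2, Complex.zero_re, Complex.zero_im, uIcc_of_le hX, uIcc_of_le b1_pos.le] at hz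
  exact ⟨hz.1.1, hz.2.1, hz.2.2⟩

lemma rect_identity {α : ℝ} (hα : 0 < α) (x : ℝ) {X : ℝ} (hX : 0 ≤ X) :
    (∫ t in (0 : ℝ)..X, fint α x t) - (∫ t in (0 : ℝ)..X, fint α x (t + b1 * I)) +
      I * (∫ s in (0 : ℝ)..b1, fint α x (X + s * I)) -
      I * (∫ s in (0 : ℝ)..b1, fint α x (s * I)) = 0 := by
  have h := Complex.integral_boundary_rect_eq_zero_of_continuousOn_of_differentiableOn
    (fint α x) 0 (X + b1 * I) ((continuousOn_fint hα x).mono (fun z hz => rect_mem_RR hX hz)) (by
      intro z hz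
      have e1 : (X + b1 * I : ℂ).re = X := by simp
      have e2 : (X + b1 * I : ℂ).im = b1 := by simp
      rw [Complex.mem_reProdIm, e1, e2, Complex.zero_re, Complex.zero_im, min_eq_left hX,
        max_eq_right hX, min_eq_left b1_pos.le, max_eq_right b1_pos.le] at hz
      have hm : z ∈ RR := ⟨hz.1.1.le, hz.2.1.le, hz.2.2.le⟩
      have hne : z ≠ b0 * I := by
        intro h0
        have := hz.1.1
        rw [h0] at this
        simp at this
      unfold fint
      exact ((differentiableAt_Kb α hm hne).mul (by fun_prop)).differentiableWithinAt)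
  have e1 : (X + b1 * I : ℂ).re = X := by simp
  have e2 : (X + b1 * I : ℂ).im = b1 := by simp
  rw [e1, e2] at h
  simpa only [Complex.zero_re, Complex.zero_im, Complex.ofReal_zero, zero_mul, add_zero, zero_add,
    smul_eq_mul] using h

lemma measurable_line {α : ℝ} (hα : 0 < α) (x y : ℝ) (hy0 : 0 ≤ y) (hy1 : y ≤ b1) :
    ContinuousOn (fun t : ℝ => fint α x (t + y * I)) (Ici 0) := by
  have : ContinuousOn (fun t : ℝ => (t + y * I : ℂ)) (Ici 0) := by fun_prop
  refine (continuousOn_fint hα x).comp this ?_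
  intro t ht
  have ht' : (0 : ℝ) ≤ t := ht
  refine ⟨?_, ?_, ?_⟩ <;> simp [ht', hy0, hy1]

lemma integrableOn_line {α : ℝ} (hα : 0 < α) {x : ℝ} (hx : 0 ≤ x) (y : ℝ) (hy0 : 0 ≤ y)
    (hy1 : y ≤ b1) : IntegrableOn (fun t : ℝ => fint α x (t + y * I)) (Ioi 0) := by
  obtain ⟨C, hC, hb⟩ := exists_Kb_bound hα
  refine Integrable.mono' ((integrableOn_exp_cube hα).const_mul C) ?_ ?_
  · exact ((measurable_line hα x y hy0 hy1).mono Ioi_subset_Ici_self).aestronglyMeasurable
      measurableSet_Ioi
  · rw [ae_restrict_iff' measurableSet_Ioi]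
    refine Eventually.of_forall ?_
    intro t ht
    have ht' : (0 : ℝ) < t := ht
    have hm : (t + y * I : ℂ) ∈ RR := by
      refine ⟨?_, ?_, ?_⟩ <;> simp [ht'.le, hy0, hy1]
    refine (norm_fint_le x hx hb hm).trans ?_
    have e1 : (t + y * I : ℂ).re = t := by simp
    have e2 : (t + y * I : ℂ).im = y := by simp
    rw [e1, e2]
    have : Real.exp (-(x * y)) ≤ 1 := Real.exp_le_one_iff.2 (by nlinarith)
    have h0 : 0 ≤ C * Real.exp (-(α * t ^ 3)) := by positivity
    nlinarith

lemma contour_identity {α : ℝ} (hα : 0 < α) {x : ℝ} (hx : 0 ≤ x) :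
    (∫ t in Ioi (0 : ℝ), fint α x t) = I * (∫ s in (0 : ℝ)..b1, fint α x (s * I)) +
      ∫ t in Ioi (0 : ℝ), fint α x (t + b1 * I) := by
  obtain ⟨C, hC, hb⟩ := exists_Kb_bound hα
  have i0 : IntegrableOn (fun t : ℝ => fint α x t) (Ioi 0) := by
    have := integrableOn_line hα hx 0 le_rfl b1_pos.le
    simpa using this
  have i1 := integrableOn_line hα hx b1 b1_pos.le le_rfl
  have t0 := intervalIntegral_tendsto_integral_Ioi 0 i0 tendsto_id
  have t1 := intervalIntegral_tendsto_integral_Ioi 0 i1 tendsto_id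
  have t2 : Tendsto (fun X : ℝ => I * (∫ s in (0 : ℝ)..b1, fint α x (X + s * I))) atTop (𝓝 0) := by
    have hbd : ∀ᶠ X : ℝ in atTop, ‖I * (∫ s in (0 : ℝ)..b1, fint α x (X + s * I))‖ ≤
        C * Real.exp (-(α * X)) * b1 := by
      filter_upwards [eventually_ge_atTop (1 : ℝ)] with X hX
      rw [norm_mul, Complex.norm_I, one_mul]
      have := norm_integral_le_of_norm_le_const (a := 0) (b := b1)
        (f := fun s : ℝ => fint α x (X + s * I)) (C := C * Real.exp (-(α * X))) (by
          intro s hs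
          rw [uIoc_of_le b1_pos.le] at hs
          have hm : (X + s * I : ℂ) ∈ RR := by
            refine ⟨?_, ?_, ?_⟩ <;> simp [hs.1.le, hs.2]
            linarith
          refine (norm_fint_le x hx hb hm).trans ?_
          have e1 : (X + s * I : ℂ).re = X := by simp
          have e2 : (X + s * I : ℂ).im = s := by simp
          rw [e1, e2]
          have h1 : Real.exp (-(x * s)) ≤ 1 := Real.exp_le_one_iff.2 (by nlinarith [hs.1])
          have h2 : Real.exp (-(α * X ^ 3)) ≤ Real.exp (-(α * X)) := by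
            apply Real.exp_le_exp.2
            have : X ≤ X ^ 3 := by nlinarith [sq_nonneg X]
            nlinarith
          calc C * Real.exp (-(α * X ^ 3)) * Real.exp (-(x * s)) ≤
              C * Real.exp (-(α * X)) * 1 := by gcongr
            _ = _ := by ring)
      rw [sub_zero, abs_of_pos b1_pos] at this
      exact this
    have hlim : Tendsto (fun X : ℝ => C * Real.exp (-(α * X)) * b1) atTop (𝓝 0) := by
      have h1 : Tendsto (fun X : ℝ => Real.exp (-(α * X))) atTop (𝓝 0) := by
        apply Real.tendsto_exp_neg_atTop_nhds_zero.comp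
        exact tendsto_id.const_mul_atTop hα
      have := (h1.const_mul C).mul_const b1
      simpa using this
    exact squeeze_zero_norm' hbd hlim
  have t3 := ((t0.sub t1).add t2).sub_const (I * (∫ s in (0 : ℝ)..b1, fint α x (s * I)))
  have t4 : Tendsto (fun X : ℝ => (∫ t in (0 : ℝ)..(id X), fint α x t) -
      (∫ t in (0 : ℝ)..(id X), fint α x (t + b1 * I)) +
      I * (∫ s in (0 : ℝ)..b1, fint α x (X + s * I)) -
      I * (∫ s in (0 : ℝ)..b1, fint α x (s * I))) atTop (𝓝 0) := by
    apply tendsto_const_nhds.congr'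
    filter_upwards [eventually_ge_atTop (0 : ℝ)] with X hX
    exact (rect_identity hα x hX).symm
  have t5 := tendsto_nhds_unique t3 t4
  linear_combination t5

/-- the integral over the cut -/
noncomputable def Jint (α x : ℝ) : ℝ := ∫ s in b0..b1, (-phis s) ^ α * Real.exp (-(x * s))

lemma continuousOn_negphis_rpow {α : ℝ} (hα : 0 < α) :
    ContinuousOn (fun s => (-phis s) ^ α) (Icc b0 b1) := by
  have h1 : ContinuousOn (fun s => -phis s) (Icc b0 b1) :=
    (continuousOn_phis.mono (Icc_subset_Icc b0_pos.le le_rfl)).neg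
  exact h1.rpow_const (fun _ _ => Or.inr hα.le)

lemma vertical_im {α : ℝ} (hα : 0 < α) (x : ℝ) :
    (∫ s in (0 : ℝ)..b1, fint α x (s * I)).im = Real.sin (Real.pi * α) * Jint α x := by
  have hc : ContinuousOn (fun s : ℝ => fint α x (s * I)) (Icc 0 b1) := by
    have : ContinuousOn (fun s : ℝ => (s * I : ℂ)) (Icc 0 b1) := by fun_prop
    refine (continuousOn_fint hα x).comp this ?_
    intro s hs
    exact mulI_mem_RR hs.1 hs.2
  have hi : IntervalIntegrable (fun s : ℝ => fint α x (s * I)) volume 0 b1 := by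
    apply ContinuousOn.intervalIntegrable
    rwa [uIcc_of_le b1_pos.le]
  have him : (∫ s in (0 : ℝ)..b1, fint α x (s * I)).im =
      ∫ s in (0 : ℝ)..b1, (fint α x (s * I)).im := by
    have := Complex.imCLM.intervalIntegral_comp_comm hi
    simpa using this.symm
  have hfim : ∀ s : ℝ, (fint α x (s * I)).im = (Kb α (s * I)).im * Real.exp (-(x * s)) := by
    intro s
    unfold fint
    have : cexp (I * x * (s * I)) = ((Real.exp (-(x * s)) : ℝ) : ℂ) := by
      rw [Complex.ofReal_exp]
      congr 1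
      push_cast
      linear_combination (x * s : ℂ) * I_sq
    rw [this, mul_comm, Complex.im_ofReal_mul]
    ring
  have hci : ContinuousOn (fun s : ℝ => (fint α x (s * I)).im) (Icc 0 b1) :=
    Complex.continuous_im.comp_continuousOn hc
  rw [him]
  have i1 : IntervalIntegrable (fun s : ℝ => (fint α x (s * I)).im) volume 0 b0 := by
    apply ContinuousOn.intervalIntegrable
    rw [uIcc_of_le b0_pos.le]
    exact hci.mono (Icc_subset_Icc le_rfl b0_lt.le)
  have i2 : IntervalIntegrable (fun s : ℝ => (fint α x (s * I)).im) volume b0 b1 := by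
    apply ContinuousOn.intervalIntegrable
    rw [uIcc_of_le b0_lt.le]
    exact hci.mono (Icc_subset_Icc b0_pos.le le_rfl)
  rw [← integral_add_adjacent_intervals i1 i2]
  have z1 : ∫ s in (0 : ℝ)..b0, (fint α x (s * I)).im = 0 := by
    rw [intervalIntegral.integral_of_le b0_pos.le, ← integral_Ico_eq_integral_Ioc]
    apply setIntegral_eq_zero_of_forall_eq_zero
    intro s hs
    rw [hfim, Kb_im_of_lt α hs.1 hs.2, zero_mul]
  have z2 : ∫ s in b0..b1, (fint α x (s * I)).im = Real.sin (Real.pi * α) * Jint α x := by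
    unfold Jint
    rw [← intervalIntegral.integral_const_mul, intervalIntegral.integral_of_le b0_lt.le,
      intervalIntegral.integral_of_le b0_lt.le]
    apply setIntegral_congr_fun measurableSet_Ioc
    intro s hs
    show (fint α x (s * I)).im = _
    rw [hfim, Kb_im_of_gt α hs.1 hs.2]
    ring
  rw [z1, z2, zero_add]

lemma cosTransform_ofReal_eq {α : ℝ} (x : ℝ) :
    cosTransform α x = ((∫ t in Ioi (0 : ℝ), riemannPhi t ^ α * Real.cos (x * t) : ℝ) : ℂ) := by
  unfold cosTransform
  rw [← integral_complex_ofReal]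
  congr 1
  ext t
  push_cast
  rfl

/-- Main formula. -/
lemma cosTransform_formula {α : ℝ} (hα : 0 < α) {x : ℝ} (hx : 0 ≤ x) :
    (cosTransform α x).re = -(Real.sin (Real.pi * α) * Jint α x) +
      (∫ t in Ioi (0 : ℝ), fint α x (t + b1 * I)).re := by
  have h := contour_identity hα hx
  have i0 : IntegrableOn (fun t : ℝ => fint α x t) (Ioi 0) := by
    have := integrableOn_line hα hx 0 le_rfl b1_pos.le
    simpa using this
  have hre : (∫ t in Ioi (0 : ℝ), fint α x t).re = (cosTransform α x).re := by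
    rw [cosTransform_ofReal_eq, Complex.ofReal_re]
    have := Complex.reCLM.integral_comp_comm i0
    rw [Complex.reCLM_apply] at this
    rw [← this]
    apply setIntegral_congr_fun measurableSet_Ioi
    intro t ht
    show (fint α x t).re = _
    unfold fint
    rw [Kb_ofReal α (le_of_lt ht), Complex.re_ofReal_mul]
    congr 1
    have : (I * x * t : ℂ) = ((x * t : ℝ) : ℂ) * I := by push_cast; ring
    rw [this, Complex.exp_ofReal_mul_I_re]
  rw [← hre, h, Complex.add_re, ← vertical_im hα x]
  simp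

lemma Jint_lower {α : ℝ} (hα : 0 < α) : ∃ c : ℝ, 0 < c ∧ ∀ x : ℝ, 0 ≤ x →
    c * Real.exp (-(x * ((b0 + b1) / 2))) ≤ Jint α x := by
  have hb := b0_lt
  set m := (b0 + b1) / 2 with hm
  have hm0 : b0 < m := by rw [hm]; linarith
  have hm1 : m < b1 := by rw [hm]; linarith
  have hcont := continuousOn_negphis_rpow hα
  refine ⟨∫ s in b0..m, (-phis s) ^ α, ?_, ?_⟩
  · apply intervalIntegral_pos_of_pos_on
    · apply ContinuousOn.intervalIntegrable
      rw [uIcc_of_le hm0.le]
      exact hcont.mono (Icc_subset_Icc le_rfl hm1.le)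
    · intro s hs
      have := phis_neg_of_gt hs.1 (hs.2.le.trans hm1.le)
      have h2 : 0 < -phis s := by linarith
      positivity
    · exact hm0
  · intro x hx
    unfold Jint
    have hce : ContinuousOn (fun s => (-phis s) ^ α * Real.exp (-(x * s))) (Icc b0 b1) :=
      hcont.mul (by fun_prop)
    have i1 : IntervalIntegrable (fun s => (-phis s) ^ α * Real.exp (-(x * s))) volume b0 m := by
      apply ContinuousOn.intervalIntegrable
      rw [uIcc_of_le hm0.le]
      exact hce.mono (Icc_subset_Icc le_rfl hm1.le)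
    have i2 : IntervalIntegrable (fun s => (-phis s) ^ α * Real.exp (-(x * s))) volume m b1 := by
      apply ContinuousOn.intervalIntegrable
      rw [uIcc_of_le hm1.le]
      exact hce.mono (Icc_subset_Icc hm0.le le_rfl)
    have hnn : ∀ s ∈ Icc b0 b1, 0 ≤ -phis s := by
      intro s hs
      rcases hs.1.eq_or_lt with h | h
      · have hz : phis s = 0 := by
          unfold phis
          rw [← h, PhiC_b0]
          simp
        rw [hz]; simp
      · have := phis_neg_of_gt h hs.2
        linarith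
    rw [← integral_add_adjacent_intervals i1 i2]
    have p2 : 0 ≤ ∫ s in m..b1, (-phis s) ^ α * Real.exp (-(x * s)) := by
      apply intervalIntegral.integral_nonneg hm1.le
      intro s hs
      have := hnn s ⟨hm0.le.trans hs.1, hs.2⟩
      positivity
    have p1 : (∫ s in b0..m, (-phis s) ^ α) * Real.exp (-(x * m)) ≤
        ∫ s in b0..m, (-phis s) ^ α * Real.exp (-(x * s)) := by
      rw [← intervalIntegral.integral_mul_const]
      apply intervalIntegral.integral_mono_on hm0.le
      · apply ContinuousOn.intervalIntegrable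
        rw [uIcc_of_le hm0.le]
        exact (hcont.mono (Icc_subset_Icc le_rfl hm1.le)).mul continuousOn_const
      · exact i1
      · intro s hs
        have h1 := hnn s ⟨hs.1, hs.2.trans hm1.le⟩
        have h2 : Real.exp (-(x * m)) ≤ Real.exp (-(x * s)) := by
          apply Real.exp_le_exp.2
          nlinarith [hs.2]
        gcongr
    linarith

/-- For non-integer `α`, `F_α` has no large real zeros. -/
theorem cosTransform_ne_zero_of_large {α : ℝ} (hα : 0 < α) (hs : Real.sin (Real.pi * α) ≠ 0) :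
    ∃ X : ℝ, 0 < X ∧ ∀ x : ℝ, X ≤ x → cosTransform α x ≠ 0 := by
  obtain ⟨C, hC, hb⟩ := exists_Kb_bound hα
  obtain ⟨c, hc, hJ⟩ := Jint_lower hα
  have hb01 := b0_lt
  -- bound of the remainder
  set D := ∫ t in Ioi (0 : ℝ), C * Real.exp (-(α * t ^ 3)) with hD
  have hD0 : 0 ≤ D := by
    apply setIntegral_nonneg measurableSet_Ioi
    intro t _
    positivity
  have hrem : ∀ x : ℝ, 0 ≤ x → ‖∫ t in Ioi (0 : ℝ), fint α x (t + b1 * I)‖ ≤
      D * Real.exp (-(x * b1)) := by
    intro x hx
    rw [hD, ← MeasureTheory.integral_mul_const]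
    apply MeasureTheory.norm_integral_le_of_norm_le
    · exact ((integrableOn_exp_cube hα).const_mul C).mul_const _
    · rw [ae_restrict_iff' measurableSet_Ioi]
      refine Eventually.of_forall ?_
      intro t ht
      have ht' : (0 : ℝ) < t := ht
      have hm : (t + b1 * I : ℂ) ∈ RR := by
        refine ⟨?_, ?_, ?_⟩ <;> simp [ht'.le, b1_pos.le]
      refine (norm_fint_le x hx hb hm).trans ?_
      have e1 : (t + b1 * I : ℂ).re = t := by simp
      have e2 : (t + b1 * I : ℂ).im = b1 := by simp
      rw [e1, e2]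
  have hsin : 0 < |Real.sin (Real.pi * α)| := abs_pos.2 hs
  -- choose X
  set d := (b1 - b0) / 2 with hd
  have hd0 : 0 < d := by rw [hd]; linarith
  obtain ⟨X, hX⟩ := eventually_atTop.1
    ((Real.tendsto_exp_atTop.comp (tendsto_id.atTop_mul_const hd0)).eventually_gt_atTop
      (D / (|Real.sin (Real.pi * α)| * c)))
  refine ⟨max X 1, by positivity, ?_⟩
  intro x hx h0
  have hx1 : 1 ≤ x := (le_max_right _ _).trans hx
  have hx0 : 0 ≤ x := by linarith
  have hXx := hX x ((le_max_left _ _).trans hx)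
  have hf := cosTransform_formula hα hx0
  rw [h0, Complex.zero_re] at hf
  have h1 : |Real.sin (Real.pi * α)| * Jint α x ≤ D * Real.exp (-(x * b1)) := by
    have hJ0 : 0 ≤ Jint α x := by
      have := hJ x hx0
      have h2 : 0 ≤ c * Real.exp (-(x * ((b0 + b1) / 2))) := by positivity
      linarith
    have e1 : Real.sin (Real.pi * α) * Jint α x =
      (∫ t in Ioi (0 : ℝ), fint α x (t + b1 * I)).re := by linarith
    calc |Real.sin (Real.pi * α)| * Jint α x = |Real.sin (Real.pi * α) * Jint α x| := by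
          rw [abs_mul, abs_of_nonneg hJ0]
      _ = |(∫ t in Ioi (0 : ℝ), fint α x (t + b1 * I)).re| := by rw [e1]
      _ ≤ ‖∫ t in Ioi (0 : ℝ), fint α x (t + b1 * I)‖ := Complex.abs_re_le_norm _
      _ ≤ _ := hrem x hx0
  have h2 := hJ x hx0
  have h3 : |Real.sin (Real.pi * α)| * (c * Real.exp (-(x * ((b0 + b1) / 2)))) ≤
      D * Real.exp (-(x * b1)) := le_trans (by gcongr) h1
  have h4 : Real.exp (-(x * ((b0 + b1) / 2))) = Real.exp (-(x * b1)) * Real.exp (x * d) := by
    rw [← Real.exp_add]
    congr 1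
    rw [hd]
    ring
  rw [h4] at h3
  have h5 : |Real.sin (Real.pi * α)| * c * Real.exp (x * d) ≤ D := by
    have hpos : 0 < Real.exp (-(x * b1)) := Real.exp_pos _
    have : (|Real.sin (Real.pi * α)| * c * Real.exp (x * d)) * Real.exp (-(x * b1)) ≤
        D * Real.exp (-(x * b1)) := by nlinarith
    exact le_of_mul_le_mul_right this hpos
  have h6 : D / (|Real.sin (Real.pi * α)| * c) < Real.exp (x * d) := hXx
  rw [div_lt_iff₀ (by positivity)] at h6
  linarith

end Pool.Agent.H10
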