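import Pool.Agent.H10.AjBall

/-!
# Numerical data: `Φ(jh)²` for `j ≤ 60`, and the Horner scheme
-/

namespace Pool.Agent.H10

open MeasureTheory Complex Filter Topology Set

/-- centers of balls for `Φ(jh)²`, `j = 0..60`, in units of `2^{-160}` -/
def dataK2 : List ℤ := [
  291625290386187417131009217184595420068261478926,
  288313097037870545020431069825437169150970070239,
  278585730202169158107821536860297828828805126617,
  263050798617483754532653043757186414854885544080,
  242656566214630249607151603126223225711996235529,
  218603276417670588676846637903947469181422756066,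
  192233909237826403181618843430725473061128395077,
  164917030581363778737947424548779130620903298033,
  137935038948123881040077244584434037123066289181,
  112389975793843058660682982470813377466490388013,
  89136266022297458255208573990014781894215227079,
  68745701155429903174831478458301766205588317296,
  51505318043462001884622832419826568387218677767,
  37444342057048622612824428684649485984995126478,
  26382813256748349353028768494647586114390528691,
  17992464070501987755328112742264881103760783792,
  11860114863302546166786054653155406880191341867,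
  7545176271095569739203188959621506032618741927,
  4625345571088214592567307371258094552101123484,
  2727612799081244430593876187353648696513347136,
  1544580292407798415974329015391863724225612668,
  838315599458720972220696525667500893352486847,
  435217985868677629530206719065103351566070618,
  215671294166067284197335907348470415524570018,
  101788128732769299832720731262269840066535777,
  45645834897568804195916705269641354198393085,
  19401217251095694178291176836103131940702835,
  7795559497346912988701346096040331926933430,
  2952992035470274334236765915036573306234727,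
  1051518261840057301288746454762189259298734,
  350903371567920672718331558057350118359168,
  109391014881414875682294453921287038961634,
  31749261918826024652538625653091337067539,
  8548732600623551827016191955397782145511,
  2127473970025257784891664009875837794247,
  487433823903293133127541374305838483069,
  102391158487187683906898151604127140447,
  19634454766719438910560554347568873047,
  3421386809404532794934596142926832927,
  539172994291088418224488982800171483,
  76454960666779509548728313171230160,
  9703573639435597438490890207861605,
  1096189197640270086708272250865137,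
  109577870296344788298903234087455,
  9633181725917212395098322769426,
  739973254285262929410352497581,
  49329692825213051059597087932,
  2833631734797879281341208782,
  139206554641405300578206199,
  5802700447053290656069444,
  203541795825555533169046,
  5955879986365120828514,
  144055865252998818835,
  2852532492872962039,
  45777796284288798,
  589102778457492,
  6011633531247,
  48080248886,
  297681579,
  1395117,
  0]

/-- check the data -/
def chkData : ℕ → List ℤ → Bool
  | _, [] => true
  | j, m :: l => (decide (((ajB j).m - m).natAbs + (ajB j).e ≤ 16777216)) && chkData (j + 1) l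

set_option maxRecDepth 100000 in
theorem chkData_true : chkData 0 dataK2 = true := by decide +kernel

/-- relation between reals and integer centers -/
def Close (x : ℝ) (m : ℤ) : Prop := Mem x ⟨m, 16777216⟩

lemma chkData_spec (l : List ℤ) : ∀ j : ℕ, chkData j l = true → j + l.length ≤ 61 →
    ∀ (i : ℕ) (hi : i < l.length), Close (aR (j + i)) (l[i]) := by
  induction l with
  | nil =>
    intro j _ _ i hi
    simp at hi
  | cons m l ih =>
    intro j h hlen i hi
    unfold chkData at h
    rw [Bool.and_eq_true, decide_eq_true_eq] at h
    rw [List.length_cons] at hlen hi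
    rcases i with _ | i
    · show Close (aR j) m
      exact mem_recenter (mem_ajB (by omega)) h.1
    · have h2 := ih (j + 1) h.2 (by omega) i (by omega)
      have e : j + (i + 1) = j + 1 + i := by omega
      rw [e]
      exact h2

lemma dataK2_length : dataK2.length = 61 := by decide +kernel

lemma close_data {i : ℕ} (hi : i < 61) : Close (aR i) (dataK2[i]'(by rw [dataK2_length]; exact hi)) := by
  have h := chkData_spec dataK2 0 chkData_true (by rw [dataK2_length]) i
    (by rw [dataK2_length]; exact hi)
  rw [zero_add] at h
  exact h

/-! ### Horner scheme -/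

/-- integer Horner scheme: value at `(A + iC)/2^p` -/
def hz (A C : ℤ) (p : ℕ) : List ℤ → ℤ × ℤ
  | [] => (0, 0)
  | a :: l =>
    let r := hz A C p l
    ((r.1 * A - r.2 * C) / (Nat.pow 2 p : ℕ) + a, (r.1 * C + r.2 * A) / (Nat.pow 2 p : ℕ))

/-- complex Horner scheme -/
noncomputable def hC (E : ℂ) : List ℝ → ℂ
  | [] => 0
  | a :: l => hC E l * E + a

lemma norm_add_mul_I_le {x y a b : ℝ} (h1 : |x| ≤ a) (h2 : |y| ≤ b) :
    ‖(x : ℂ) + (y : ℂ) * I‖ ≤ a + b := by
  refine (norm_add_le _ _).trans (add_le_add ?_ ?_)
  · rw [Complex.norm_real]
    exact h1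
  · rw [norm_mul, Complex.norm_I, mul_one, Complex.norm_real]
    exact h2

lemma hz_spec {A C : ℤ} {p : ℕ} {E : ℂ} (hE : E = ((A : ℂ) + C * I) / 2 ^ p) (hE1 : ‖E‖ ≤ 1)
    (l : List ℝ) : ∀ l' : List ℤ, List.Forall₂ Close l l' →
    ‖hC E l * (SB : ℝ) - (((hz A C p l').1 : ℂ) + ((hz A C p l').2 : ℂ) * I)‖ ≤
      16777218 * (l.length : ℝ) := by
  induction l with
  | nil =>
    intro l' h
    rw [List.forall₂_nil_left_iff] at h
    rw [h]
    simp [hC, hz]
  | cons a l ih =>
    intro l' h
    rcases l' with _ | ⟨a', l'⟩
    · simp at h
    · rw [List.forall₂_cons] at h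
      obtain ⟨h1, h2⟩ := h
      have h3 := ih l' h2
      set x := (hz A C p l').1 with hx
      set y := (hz A C p l').2 with hy
      have hp : 0 < Nat.pow 2 p := Nat.pow_pos (by norm_num)
      have hpR : ((Nat.pow 2 p : ℕ) : ℝ) = 2 ^ p := by
        have : Nat.pow 2 p = 2 ^ p := rfl
        rw [this]; push_cast; rfl
      have e1 : hz A C p (a' :: l') = ((x * A - y * C) / (Nat.pow 2 p : ℕ) + a',
          (x * C + y * A) / (Nat.pow 2 p : ℕ)) := rfl
      rw [e1]
      have d1 := int_div_bound (x * A - y * C) hp
      have d2 := int_div_bound (x * C + y * A) hp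
      rw [hpR] at d1 d2
      have h1' : |a * (SB : ℝ) - a'| ≤ 16777216 := by
        have := h1
        unfold Close Mem at this
        exact_mod_cast this
      -- decomposition of the error
      set q1 : ℤ := (x * A - y * C) / ((Nat.pow 2 p : ℕ) : ℤ) with hq1
      set q2 : ℤ := (x * C + y * A) / ((Nat.pow 2 p : ℕ) : ℤ) with hq2
      have key : hC E (a :: l) * (SB : ℝ) - (((q1 + a' : ℤ) : ℂ) + (q2 : ℂ) * I) =
          (hC E l * (SB : ℝ) - ((x : ℂ) + (y : ℂ) * I)) * E +
          ((((((x * A - y * C : ℤ) : ℝ) / 2 ^ p - q1 : ℝ) : ℂ)) +
            (((((x * C + y * A : ℤ) : ℝ) / 2 ^ p - q2 : ℝ) : ℂ)) * I) +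
          ((a * (SB : ℝ) - a' : ℝ) : ℂ) := by
        have e2 : ((x : ℂ) + (y : ℂ) * I) * E =
            ((((x * A - y * C : ℤ) : ℝ) / 2 ^ p : ℝ) : ℂ) +
            ((((x * C + y * A : ℤ) : ℝ) / 2 ^ p : ℝ) : ℂ) * I := by
          rw [hE]
          push_cast
          have : (I : ℂ) * I = -1 := Complex.I_mul_I
          linear_combination ((y : ℂ) * C / 2 ^ p) * this
        have e3 : hC E (a :: l) = hC E l * E + a := rfl
        rw [e3]
        push_cast at e2 ⊢
        linear_combination e2
      rw [key]
      have n1 : ‖(hC E l * (SB : ℝ) - ((x : ℂ) + (y : ℂ) * I)) * E‖ ≤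
          16777218 * (l.length : ℝ) := by
        rw [norm_mul]
        calc _ ≤ 16777218 * (l.length : ℝ) * 1 := by gcongr
          _ = _ := by ring
      have n2 : ‖((((((x * A - y * C : ℤ) : ℝ) / 2 ^ p - q1 : ℝ) : ℂ)) +
            (((((x * C + y * A : ℤ) : ℝ) / 2 ^ p - q2 : ℝ) : ℂ)) * I)‖ ≤ 1 + 1 := by
        exact norm_add_mul_I_le d1 d2
      have n3 : ‖((a * (SB : ℝ) - a' : ℝ) : ℂ)‖ ≤ 16777216 := by
        rw [Complex.norm_real, Real.norm_eq_abs]
        exact h1'
      have n4 := norm_add_le ((hC E l * (SB : ℝ) - ((x : ℂ) + (y : ℂ) * I)) * E +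
          ((((((x * A - y * C : ℤ) : ℝ) / 2 ^ p - q1 : ℝ) : ℂ)) +
            (((((x * C + y * A : ℤ) : ℝ) / 2 ^ p - q2 : ℝ) : ℂ)) * I))
          ((a * (SB : ℝ) - a' : ℝ) : ℂ)
      have n5 := norm_add_le ((hC E l * (SB : ℝ) - ((x : ℂ) + (y : ℂ) * I)) * E)
          ((((((x * A - y * C : ℤ) : ℝ) / 2 ^ p - q1 : ℝ) : ℂ)) +
            (((((x * C + y * A : ℤ) : ℝ) / 2 ^ p - q2 : ℝ) : ℂ)) * I)
      have n6 : (((a :: l).length : ℕ) : ℝ) = (l.length : ℝ) + 1 := by
        rw [List.length_cons]
        push_cast
        rfl
      rw [n6]
      linarith

/-- the symmetric list of data -/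
def fullK2 : List ℤ := dataK2.reverse ++ dataK2.tail

/-- check at `E0` -/
def chkE0 : Bool :=
  let r := hz (-5905036118581440547) 17286090079015106392 64 fullK2
  decide (r.1.natAbs ≤ 68719476736) && decide (r.2.natAbs ≤ 68719476736)

/-- check at `E1` -/
def chkE1 : Bool :=
  let r := hz (-20979) 61443 16 fullK2
  decide (r.1 ≤ -500000000000000000000000000)

set_option maxRecDepth 100000 in
theorem chkE0_true : chkE0 = true := by decide +kernel

set_option maxRecDepth 100000 in
theorem chkE1_true : chkE1 = true := by decide +kernel

end Pool.Agent.H10
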