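import Pool.Agent.H10.Kern

/-!
# Super-exponential decay of the Riemann kernel in the half strip
-/

namespace Pool.Agent.H10

open MeasureTheory Complex Filter Topology Set

lemma exp_ineq {x : ℝ} (hx : 0 ≤ x) :
    9 * x - Real.pi * (7 / 25) * Real.exp (4 * x) ≤ 6 - x ^ 3 := by
  have h1 : 1 + 4 * x + (4 * x) ^ 2 / 2 + (4 * x) ^ 3 / 6 ≤ Real.exp (4 * x) := by
    have := Real.sum_le_exp_of_nonneg (x := 4 * x) (by positivity) 4
    norm_num [Finset.sum_range_succ, Nat.factorial] at this ⊢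
    linarith
  have hpi := Real.pi_gt_d4
  have h2 : 0.8 * (1 + 4 * x + (4 * x) ^ 2 / 2 + (4 * x) ^ 3 / 6) ≤
      Real.pi * (7 / 25) * Real.exp (4 * x) := by
    apply mul_le_mul _ h1 (by positivity) (by positivity)
    linarith
  have hx3 : 0 ≤ x ^ 3 := by positivity
  nlinarith [sq_nonneg (x - 1 / 2)]

lemma exists_hh_bound : ∃ C : ℝ, 0 < C ∧ ∀ u : ℂ, 7 / 25 ≤ u.re → 1 ≤ ‖u‖ → ‖hh u‖ ≤ C * ‖u‖ := by
  have hs := summable_hmaj 1 (by norm_num : (0 : ℝ) < 7 / 25)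
  have hnn : ∀ n, 0 ≤ hmaj 1 (7 / 25) n := by
    intro n
    unfold hmaj
    have := Real.pi_pos
    positivity
  have hnn' : 0 ≤ ∑' n, hmaj 1 (7 / 25) n := tsum_nonneg hnn
  refine ⟨∑' n, hmaj 1 (7 / 25) n + 1, by linarith, ?_⟩
  intro u hu hn
  have hb : ∀ n, ‖hterm n u‖ ≤ ‖u‖ * hmaj 1 (7 / 25) n := by
    intro n
    refine (norm_hterm_le (by norm_num) hu le_rfl n).trans ?_
    unfold hmaj
    have hpi := Real.pi_pos
    have h1 : Real.pi * (2 * Real.pi * ‖u‖ + 5) ≤ ‖u‖ * (Real.pi * (2 * Real.pi * 1 + 5)) := by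
      nlinarith
    calc Real.pi * (2 * Real.pi * ‖u‖ + 5) * (((n : ℝ) + 1) ^ 6 *
          Real.exp (-(Real.pi * (7 / 25) * (((n : ℝ) + 1) - 1))))
        ≤ (‖u‖ * (Real.pi * (2 * Real.pi * 1 + 5))) * (((n : ℝ) + 1) ^ 6 *
          Real.exp (-(Real.pi * (7 / 25) * (((n : ℝ) + 1) - 1)))) := by gcongr
      _ = _ := by ring
  have h1 := tsum_of_norm_bounded (hs.hasSum.mul_left ‖u‖) hb
  calc ‖hh u‖ ≤ ‖u‖ * ∑' n, hmaj 1 (7 / 25) n := h1
    _ ≤ (∑' n, hmaj 1 (7 / 25) n + 1) * ‖u‖ := by nlinarith [norm_nonneg u]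

/-- Super-exponential decay of `Φ` in the half strip. -/
lemma exists_PhiC_bound : ∃ C : ℝ, 0 < C ∧ ∀ t ∈ RR, ‖PhiC t‖ ≤ C * Real.exp (-t.re ^ 3) := by
  obtain ⟨C, hC, hb⟩ := exists_hh_bound
  refine ⟨Real.pi * C * Real.exp 6, by positivity, ?_⟩
  intro t ht
  obtain ⟨f1, f2, f3, f4, f5⟩ := RR_facts ht
  have h1 := hb (cexp (4 * t)) (by linarith) f1
  rw [PhiC_eq_hh, norm_mul, Complex.norm_exp]
  have hre : (5 * t - Real.pi * cexp (4 * t) + Real.log Real.pi : ℂ).re =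
      5 * t.re - Real.pi * (cexp (4 * t)).re + Real.log Real.pi := by
    simp
  rw [hre, Real.exp_add, Real.exp_log Real.pi_pos]
  have hpi := Real.pi_pos
  have h2 : Real.exp (5 * t.re - Real.pi * (cexp (4 * t)).re) ≤
      Real.exp (5 * t.re - Real.pi * (7 / 25) * Real.exp (4 * t.re)) := by
    apply Real.exp_le_exp.2
    rw [← f2]
    nlinarith
  calc Real.exp (5 * t.re - Real.pi * (cexp (4 * t)).re) * Real.pi * ‖hh (cexp (4 * t))‖
      ≤ Real.exp (5 * t.re - Real.pi * (7 / 25) * Real.exp (4 * t.re)) * Real.pi *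
        (C * Real.exp (4 * t.re)) := by
          rw [f2] at h1
          gcongr
    _ = Real.pi * C * Real.exp (9 * t.re - Real.pi * (7 / 25) * Real.exp (4 * t.re)) := by
        have : Real.exp (9 * t.re - Real.pi * (7 / 25) * Real.exp (4 * t.re)) =
          Real.exp (5 * t.re - Real.pi * (7 / 25) * Real.exp (4 * t.re)) * Real.exp (4 * t.re) := by
          rw [← Real.exp_add]; ring_nf
        rw [this]; ring
    _ ≤ Real.pi * C * Real.exp (6 - t.re ^ 3) :=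
        mul_le_mul_of_nonneg_left (Real.exp_le_exp.2 (exp_ineq ht.1)) (by positivity)
    _ = Real.pi * C * Real.exp 6 * Real.exp (-t.re ^ 3) := by
        rw [sub_eq_add_neg, Real.exp_add]
        ring

lemma exists_riemannPhi_bound :
    ∃ C : ℝ, 0 < C ∧ ∀ t : ℝ, 0 ≤ t → riemannPhi t ≤ C * Real.exp (-t ^ 3) := by
  obtain ⟨C, hC, hb⟩ := exists_PhiC_bound
  refine ⟨C, hC, ?_⟩
  intro t ht
  have h := hb t (ofReal_mem_RR ht)
  rw [← ofReal_riemannPhi, Complex.norm_real, Real.norm_eq_abs,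
    abs_of_pos (riemannPhi_pos t)] at h
  simpa using h

lemma exists_rpow_bound {α : ℝ} (hα : 0 < α) :
    ∃ C : ℝ, 0 < C ∧ ∀ t : ℝ, 0 ≤ t → riemannPhi t ^ α ≤ C * Real.exp (-(α * t ^ 3)) := by
  obtain ⟨C, hC, hb⟩ := exists_riemannPhi_bound
  refine ⟨C ^ α, by positivity, ?_⟩
  intro t ht
  calc riemannPhi t ^ α ≤ (C * Real.exp (-t ^ 3)) ^ α :=
        Real.rpow_le_rpow (riemannPhi_pos t).le (hb t ht) hα.le
    _ = C ^ α * Real.exp (-(α * t ^ 3)) := by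
        rw [Real.mul_rpow hC.le (Real.exp_pos _).le, ← Real.exp_mul]
        ring_nf

lemma exists_Kb_bound {α : ℝ} (hα : 0 < α) :
    ∃ C : ℝ, 0 < C ∧ ∀ t ∈ RR, ‖Kb α t‖ ≤ C * Real.exp (-(α * t.re ^ 3)) := by
  obtain ⟨C, hC, hb⟩ := exists_PhiC_bound
  refine ⟨C ^ α, by positivity, ?_⟩
  intro t ht
  rw [norm_Kb hα ht]
  calc ‖PhiC t‖ ^ α ≤ (C * Real.exp (-t.re ^ 3)) ^ α :=
        Real.rpow_le_rpow (norm_nonneg _) (hb t ht) hα.le
    _ = C ^ α * Real.exp (-(α * t.re ^ 3)) := by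
        rw [Real.mul_rpow hC.le (Real.exp_pos _).le, ← Real.exp_mul]
        ring_nf

/-- `r t ≤ ε t³ + r^{3/2}/√ε`. -/
lemma mul_le_cube {r t ε : ℝ} (hr : 0 ≤ r) (ht : 0 ≤ t) (hε : 0 < ε) :
    r * t ≤ ε * t ^ 3 + r * Real.sqrt (r / ε) := by
  rcases le_total t (Real.sqrt (r / ε)) with h | h
  · have : r * t ≤ r * Real.sqrt (r / ε) := by gcongr
    have : 0 ≤ ε * t ^ 3 := by positivity
    linarith
  · have h1 : r / ε ≤ t ^ 2 := by
      have := Real.sqrt_le_left (x := r / ε) (y := t) ht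
      rwa [this] at h
    have h2 : r ≤ ε * t ^ 2 := by
      rw [div_le_iff₀ hε] at h1
      linarith
    have h3 : r * t ≤ ε * t ^ 3 := by
      calc r * t ≤ (ε * t ^ 2) * t := by gcongr
        _ = ε * t ^ 3 := by ring
    have : 0 ≤ r * Real.sqrt (r / ε) := by positivity
    linarith

lemma integrableOn_exp_cube {c : ℝ} (hc : 0 < c) :
    IntegrableOn (fun t : ℝ => Real.exp (-(c * t ^ 3))) (Ioi 0) := by
  -- dominate by `exp(1) * exp(-t * c')`
  obtain ⟨C, hCle⟩ : ∃ C : ℝ, ∀ t : ℝ, 0 ≤ t → t - C ≤ c * t ^ 3 := by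
    refine ⟨1 * Real.sqrt (1 / c), ?_⟩
    intro t ht
    have := mul_le_cube (r := 1) (by norm_num) ht hc
    linarith
  have h1 : IntegrableOn (fun t : ℝ => Real.exp C * Real.exp (-1 * t)) (Ioi 0) :=
    (exp_neg_integrableOn_Ioi 0 (by norm_num : (0 : ℝ) < 1)).const_mul _
  refine Integrable.mono' h1 ?_ ?_
  · apply Continuous.aestronglyMeasurable
    fun_prop
  · rw [ae_restrict_iff' measurableSet_Ioi]
    refine Eventually.of_forall ?_
    intro t ht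
    rw [Real.norm_eq_abs, abs_of_pos (Real.exp_pos _), ← Real.exp_add]
    apply Real.exp_le_exp.2
    have := hCle t (le_of_lt ht)
    linarith

end Pool.Agent.H10
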