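import Mathlib

/-!
# The Riemann kernel and the cosine transforms of its powers

Definitions for problem `MP_c1ac71_an`.
-/

namespace Pool.Agent.H10

open MeasureTheory

/-- The Riemann kernel
`Φ(t) = ∑_{n ≥ 1} (2 n⁴ π² e^{9t} - 3 n² π e^{5t}) exp(-n² π e^{4t})`
(the summation index is `n = m + 1` with `m : ℕ`). -/
noncomputable def riemannPhi (t : ℝ) : ℝ :=
  ∑' m : ℕ, (2 * ((m : ℝ) + 1) ^ 4 * Real.pi ^ 2 * Real.exp (9 * t)
      - 3 * ((m : ℝ) + 1) ^ 2 * Real.pi * Real.exp (5 * t)) *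
    Real.exp (-((m : ℝ) + 1) ^ 2 * Real.pi * Real.exp (4 * t))

/-- The cosine transform `F_α(z) = ∫_0^∞ Φ(t)^α cos(z t) dt` of the `α`-th power of the
Riemann kernel. -/
noncomputable def cosTransform (α : ℝ) (z : ℂ) : ℂ :=
  ∫ t in Set.Ioi (0 : ℝ), ((riemannPhi t ^ α : ℝ) : ℂ) * Complex.cos (z * t)

end Pool.Agent.H10
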