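import Pool.Agent.H10.Kernel

/-!
# Evenness of the Riemann kernel on the strip `|Im t| < π/8`
-/

namespace Pool.Agent.H10

open MeasureTheory Complex Filter Topology Set

/-- termwise `k`-th derivative of `exp(-π (n+1)² u)`. -/
noncomputable def psik (k n : ℕ) (u : ℂ) : ℂ :=
  (-(Real.pi * ((n : ℂ) + 1) ^ 2)) ^ k * cexp (-(Real.pi * ((n : ℂ) + 1) ^ 2 * u))

/-- `k`-th derivative of `ψ(u) = ∑ exp(-π n² u)`. -/
noncomputable def Psi (k : ℕ) (u : ℂ) : ℂ := ∑' n : ℕ, psik k n u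

lemma hasDerivAt_psik (k n : ℕ) (u : ℂ) : HasDerivAt (psik k n) (psik (k + 1) n u) u := by
  unfold psik
  have h1 : HasDerivAt (fun u : ℂ => -(Real.pi * ((n : ℂ) + 1) ^ 2 * u))
      (-(Real.pi * ((n : ℂ) + 1) ^ 2)) u :=
    (((hasDerivAt_id' u).const_mul ((Real.pi : ℂ) * ((n : ℂ) + 1) ^ 2)).fun_neg).congr_deriv
      (by ring)
  exact ((h1.cexp).const_mul ((-(Real.pi * ((n : ℂ) + 1) ^ 2)) ^ k)).congr_deriv
    (by rw [pow_succ]; ring)

/-- majorant -/
noncomputable def pmaj (δ : ℝ) (k n : ℕ) : ℝ :=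
  Real.pi ^ k * (((n : ℝ) + 1) ^ (2 * k) * Real.exp (-(Real.pi * δ * ((n : ℝ) + 1))))

lemma summable_pmaj {δ : ℝ} (hδ : 0 < δ) (k : ℕ) : Summable (pmaj δ k) :=
  (summable_pow_exp (2 * k) (by positivity : 0 < Real.pi * δ)).mul_left _

lemma norm_psik_le {u : ℂ} {δ : ℝ} (hδ : 0 ≤ δ) (h1 : δ ≤ u.re) (k n : ℕ) :
    ‖psik k n u‖ ≤ pmaj δ k n := by
  unfold psik pmaj
  have hn : ‖((n : ℂ) + 1)‖ = (n : ℝ) + 1 := by
    have : ((n : ℂ) + 1) = (((n : ℝ) + 1 : ℝ) : ℂ) := by push_cast; rfl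
    rw [this, Complex.norm_real, Real.norm_eq_abs, abs_of_nonneg (by positivity)]
  have hre : (-(Real.pi * ((n : ℂ) + 1) ^ 2 * u)).re = -(Real.pi * ((n : ℝ) + 1) ^ 2 * u.re) := by
    have : ((n : ℂ) + 1) ^ 2 = ((((n : ℝ) + 1) ^ 2 : ℝ) : ℂ) := by push_cast; rfl
    rw [this, ← Complex.ofReal_mul, Complex.neg_re, Complex.re_ofReal_mul]
  rw [norm_mul, norm_pow, norm_neg, norm_mul, norm_pow, hn, Complex.norm_exp, hre,
    Complex.norm_real, Real.norm_eq_abs, abs_of_pos Real.pi_pos, mul_pow, ← pow_mul, mul_assoc]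
  have h3 : (1 : ℝ) ≤ (n : ℝ) + 1 := by
    have : (0 : ℝ) ≤ n := Nat.cast_nonneg n
    linarith
  have h4 : (n : ℝ) + 1 ≤ ((n : ℝ) + 1) ^ 2 := by nlinarith
  have h0 : 0 ≤ u.re := hδ.trans h1
  have h5 : Real.pi * δ * ((n : ℝ) + 1) ≤ Real.pi * ((n : ℝ) + 1) ^ 2 * u.re := by
    calc Real.pi * δ * ((n : ℝ) + 1) ≤ Real.pi * u.re * ((n : ℝ) + 1) ^ 2 := by gcongr
      _ = Real.pi * ((n : ℝ) + 1) ^ 2 * u.re := by ring
  have h6 := Real.exp_le_exp.2 (neg_le_neg h5)
  gcongr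

lemma summable_psik {u : ℂ} (hu : 0 < u.re) (k : ℕ) : Summable (fun n => psik k n u) :=
  Summable.of_norm_bounded (summable_pmaj hu k) (fun n => norm_psik_le hu.le le_rfl k n)

lemma hasDerivAt_Psi {u : ℂ} (hu : 0 < u.re) (k : ℕ) : HasDerivAt (Psi k) (Psi (k + 1) u) u := by
  let U : Set ℂ := {w | u.re / 2 < w.re}
  have hU : IsOpen U := isOpen_lt continuous_const Complex.continuous_re
  have huU : u ∈ U := by
    show u.re / 2 < u.re
    linarith
  have hd : ∀ n, DifferentiableOn ℂ (psik k n) U :=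
    fun n w _ => (hasDerivAt_psik k n w).differentiableAt.differentiableWithinAt
  have hb : ∀ (n : ℕ) (w : ℂ), w ∈ U → ‖psik k n w‖ ≤ pmaj (u.re / 2) k n := by
    intro n w hw
    exact norm_psik_le (by positivity) (le_of_lt hw) k n
  have h1 := differentiableOn_tsum_of_summable_norm (summable_pmaj (by positivity) k) hd hU hb
  have h2 := hasSum_deriv_of_summable_norm (summable_pmaj (by positivity) k) hd hU hb huU
  have h3 : (fun n => deriv (psik k n) u) = fun n => psik (k + 1) n u := by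
    ext n
    exact (hasDerivAt_psik k n u).deriv
  rw [h3] at h2
  have h4 : deriv (fun w => ∑' n, psik k n w) u = Psi (k + 1) u := h2.tsum_eq.symm
  have h5 := ((h1 u huU).differentiableAt (hU.mem_nhds huU)).hasDerivAt
  rw [h4] at h5
  exact h5

lemma ff_eq_Psi {u : ℂ} (hu : 0 < u.re) :
    ff u = (2 * u / Real.pi) * Psi 2 u + (3 / Real.pi) * Psi 1 u := by
  unfold ff Psi
  rw [← tsum_mul_left, ← tsum_mul_left, ← (((summable_psik hu 2).mul_left _).tsum_add
    ((summable_psik hu 1).mul_left _))]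
  congr 1
  ext n
  unfold fterm psik
  have hpi : (Real.pi : ℂ) ≠ 0 := by exact_mod_cast Real.pi_ne_zero
  field_simp
  ring

/-- Jacobi's functional equation in terms of `ψ`. -/
lemma Psi_functional {u : ℂ} (hu : 0 < u.re) :
    1 + 2 * Psi 0 u = 1 / u ^ (1 / 2 : ℂ) * (1 + 2 * Psi 0 (1 / u)) := by
  have key : ∀ v : ℂ, 0 < v.re →
      (∑' n : ℤ, cexp (-Real.pi * v * (n : ℂ) ^ 2)) = 1 + 2 * Psi 0 v := by
    intro v hv
    have hs : HasSum (fun n => psik 0 n v) (Psi 0 v) := (summable_psik hv 0).hasSum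
    have h1 : HasSum (fun n : ℕ => (fun m : ℤ => cexp (-Real.pi * v * (m : ℂ) ^ 2)) n)
        (1 + Psi 0 v) := by
      rw [← hasSum_nat_add_iff' 1]
      have e0 : (1 + Psi 0 v - ∑ i ∈ Finset.range 1,
          (fun m : ℤ => cexp (-Real.pi * v * (m : ℂ) ^ 2)) (i : ℤ)) = Psi 0 v := by simp
      rw [e0]
      refine hs.congr_fun ?_
      intro n
      unfold psik
      beta_reduce
      rw [pow_zero, one_mul]
      congr 1
      push_cast
      ring
    have h2 : HasSum (fun n : ℕ => (fun m : ℤ => cexp (-Real.pi * v * (m : ℂ) ^ 2)) (-(n + 1)))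
        (Psi 0 v) := by
      refine hs.congr_fun ?_
      intro n
      unfold psik
      beta_reduce
      rw [pow_zero, one_mul]
      congr 1
      push_cast
      ring
    have h3 := HasSum.of_nat_of_neg_add_one
      (f := fun m : ℤ => cexp (-Real.pi * v * (m : ℂ) ^ 2)) h1 h2
    rw [h3.tsum_eq]
    ring
  have h := Complex.tsum_exp_neg_mul_int_sq hu
  have hu' : 0 < (1 / u).re := by
    rw [one_div, Complex.inv_re]
    have : u ≠ 0 := by
      rintro rfl
      simp at hu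
    have := Complex.normSq_pos.2 this
    positivity
  rw [key u hu] at h
  rw [h, ← key (1 / u) hu']
  congr 2
  ext n
  congr 1
  ring

/-- `H(t) = e^t θ(e^{4t})`. -/
noncomputable def Hfun (t : ℂ) : ℂ := cexp t * (1 + 2 * Psi 0 (cexp (4 * t)))

lemma neg_mem_strip {t : ℂ} (ht : t ∈ strip) : -t ∈ strip := by
  show |(-t).im| < Real.pi / 8
  rw [Complex.neg_im, abs_neg]
  exact ht

lemma Hfun_neg {t : ℂ} (ht : t ∈ strip) : Hfun (-t) = Hfun t := by
  unfold Hfun
  have h := Psi_functional (re_exp_pos (neg_mem_strip ht))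
  rw [h]
  have h1 : 1 / cexp (4 * -t) = cexp (4 * t) := by
    rw [one_div, ← Complex.exp_neg]
    ring_nf
  have h2 : cexp (4 * -t) ^ (1 / 2 : ℂ) = cexp (-(2 * t)) := by
    have hlog : Complex.log (cexp (4 * -t)) = 4 * -t := by
      have h : |t.im| < Real.pi / 8 := ht
      rw [abs_lt] at h
      apply Complex.log_exp
      · simp only [Complex.mul_im, Complex.neg_re, Complex.neg_im]
        norm_num
        linarith [Real.pi_pos]
      · simp only [Complex.mul_im, Complex.neg_re, Complex.neg_im]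
        norm_num
        linarith [Real.pi_pos]
    rw [Complex.cpow_def_of_ne_zero (Complex.exp_ne_zero _), hlog]
    congr 1
    ring
  rw [h1, h2, one_div, ← Complex.exp_neg, neg_neg, ← mul_assoc, ← Complex.exp_add]
  congr 2
  ring

/-- first derivative of `H` -/
noncomputable def Hfun1 (t : ℂ) : ℂ :=
  cexp t * (1 + 2 * Psi 0 (cexp (4 * t))) + 8 * cexp (5 * t) * Psi 1 (cexp (4 * t))

lemma hasDerivAt_Psi_exp {t : ℂ} (ht : t ∈ strip) (k : ℕ) :
    HasDerivAt (fun t => Psi k (cexp (4 * t))) (4 * cexp (4 * t) * Psi (k + 1) (cexp (4 * t))) t := by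
  have h1 : HasDerivAt (fun t : ℂ => cexp (4 * t)) (4 * cexp (4 * t)) t :=
    (((hasDerivAt_id' t).const_mul (4 : ℂ)).cexp).congr_deriv (by ring)
  have h2 := HasDerivAt.comp (h₂ := Psi k) t (hasDerivAt_Psi (re_exp_pos ht) k) h1
  exact h2.congr_deriv (by ring)

lemma hasDerivAt_Hfun {t : ℂ} (ht : t ∈ strip) : HasDerivAt Hfun (Hfun1 t) t := by
  have h1 := (Complex.hasDerivAt_exp t).mul (((hasDerivAt_Psi_exp ht 0).const_mul 2).const_add 1)
  refine h1.congr_deriv ?_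
  unfold Hfun1
  have : cexp (5 * t) = cexp t * cexp (4 * t) := by rw [← Complex.exp_add]; congr 1; ring
  rw [this]
  ring

lemma hasDerivAt_Hfun1 {t : ℂ} (ht : t ∈ strip) : HasDerivAt Hfun1 (Hfun t + 16 * PhiC t) t := by
  have h1 := (Complex.hasDerivAt_exp t).mul (((hasDerivAt_Psi_exp ht 0).const_mul 2).const_add 1)
  have h2 : HasDerivAt (fun t : ℂ => 8 * cexp (5 * t)) (40 * cexp (5 * t)) t :=
    ((((hasDerivAt_id' t).const_mul (5 : ℂ)).cexp).const_mul 8).congr_deriv (by ring)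
  have h3 := h1.add (h2.mul (hasDerivAt_Psi_exp ht 1))
  refine h3.congr_deriv ?_
  unfold PhiC Hfun
  rw [ff_eq_Psi (re_exp_pos ht)]
  have hpi : (Real.pi : ℂ) ≠ 0 := by exact_mod_cast Real.pi_ne_zero
  have : cexp (5 * t) = cexp t * cexp (4 * t) := by rw [← Complex.exp_add]; congr 1; ring
  rw [this]
  field_simp
  ring

lemma Hfun1_neg {t : ℂ} (ht : t ∈ strip) : Hfun1 (-t) = -Hfun1 t := by
  have h0 : HasDerivAt (fun s : ℂ => -s) (-1) t := (hasDerivAt_id' t).fun_neg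
  have h1 : HasDerivAt (fun s => Hfun (-s)) (-Hfun1 (-t)) t :=
    (HasDerivAt.comp (h₂ := Hfun) t (hasDerivAt_Hfun (neg_mem_strip ht)) h0).congr_deriv (by ring)
  have h2 : (fun s => Hfun (-s)) =ᶠ[𝓝 t] Hfun := by
    filter_upwards [isOpen_strip.mem_nhds ht] with s hs
    exact Hfun_neg hs
  have h3 := (h1.congr_of_eventuallyEq h2.symm).unique (hasDerivAt_Hfun ht)
  rw [← h3]
  ring

/-- Evenness of the complex Riemann kernel. -/
theorem PhiC_neg {t : ℂ} (ht : t ∈ strip) : PhiC (-t) = PhiC t := by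
  have h0 : HasDerivAt (fun s : ℂ => -s) (-1) t := (hasDerivAt_id' t).fun_neg
  have h1 : HasDerivAt (fun s => -Hfun1 (-s)) (Hfun (-t) + 16 * PhiC (-t)) t :=
    ((HasDerivAt.comp (h₂ := Hfun1) t (hasDerivAt_Hfun1 (neg_mem_strip ht)) h0).fun_neg).congr_deriv
      (by ring)
  have h2 : (fun s => -Hfun1 (-s)) =ᶠ[𝓝 t] Hfun1 := by
    filter_upwards [isOpen_strip.mem_nhds ht] with s hs
    rw [Hfun1_neg hs, neg_neg]
  have h3 := (h1.congr_of_eventuallyEq h2.symm).unique (hasDerivAt_Hfun1 ht)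
  rw [Hfun_neg ht] at h3
  have h4 : (16 : ℂ) * PhiC (-t) = 16 * PhiC t := add_left_cancel h3
  exact mul_left_cancel₀ (by norm_num) h4

lemma riemannPhi_neg (t : ℝ) : riemannPhi (-t) = riemannPhi t := by
  have h := PhiC_neg (ofReal_mem_strip t)
  rw [← ofReal_riemannPhi] at h
  have : (-(t : ℂ)) = ((-t : ℝ) : ℂ) := by push_cast; rfl
  rw [this, ← ofReal_riemannPhi] at h
  exact_mod_cast h

/-- `Φ(is)` is real. -/
lemma PhiC_imag_real {s : ℝ} (hs : |s| < Real.pi / 8) : (PhiC (s * I)).im = 0 := by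
  have hmem : (s * I : ℂ) ∈ strip := by
    show |(s * I : ℂ).im| < Real.pi / 8
    simpa using hs
  have h1 := star_PhiC (s * I)
  have h2 : starRingEnd ℂ (s * I : ℂ) = -(s * I) := by simp
  rw [h2, PhiC_neg hmem] at h1
  exact Complex.conj_eq_iff_im.1 h1.symm

end Pool.Agent.H10
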