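import Mathlib

/-!
# Entire functions of order `≤ 3/2` with finitely many zeros
-/

namespace Pool.Agent.H10

open Complex Filter Topology Set Metric

/-- a `polynomial-like` factor: at least `1` far away, polynomially bounded. -/
def PolyLike (p : ℂ → ℂ) : Prop :=
  (∃ R0 : ℝ, ∀ z, R0 ≤ ‖z‖ → 1 ≤ ‖p z‖) ∧ (∃ (C : ℝ) (N : ℕ), 0 < C ∧ ∀ z, ‖p z‖ ≤ C * (1 + ‖z‖) ^ N)

lemma PolyLike.one : PolyLike (fun _ => 1) :=
  ⟨⟨0, fun z _ => by simp⟩, ⟨1, 0, by norm_num, fun z => by simp⟩⟩

lemma PolyLike.mul_pow {p : ℂ → ℂ} (hp : PolyLike p) (a : ℂ) (n : ℕ) :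
    PolyLike (fun z => (z - a) ^ n * p z) := by
  obtain ⟨⟨R0, h0⟩, ⟨C, N, hC, h1⟩⟩ := hp
  constructor
  · refine ⟨max R0 (‖a‖ + 1), fun z hz => ?_⟩
    have e1 := h0 z ((le_max_left _ _).trans hz)
    have e2 : ‖a‖ + 1 ≤ ‖z‖ := (le_max_right _ _).trans hz
    have e3 : 1 ≤ ‖z - a‖ := by
      have := norm_sub_norm_le z a
      linarith
    rw [norm_mul, norm_pow]
    have := one_le_pow₀ (n := n) e3
    nlinarith [norm_nonneg (p z)]
  · refine ⟨(1 + ‖a‖) ^ n * C, n + N, by positivity, fun z => ?_⟩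
    rw [norm_mul, norm_pow]
    have e1 : ‖z - a‖ ≤ (1 + ‖a‖) * (1 + ‖z‖) := by
      have := norm_sub_le z a
      nlinarith [norm_nonneg z, norm_nonneg a]
    calc ‖z - a‖ ^ n * ‖p z‖ ≤ ((1 + ‖a‖) * (1 + ‖z‖)) ^ n * (C * (1 + ‖z‖) ^ N) := by
          gcongr
          exact h1 z
      _ = _ := by rw [_root_.mul_pow, pow_add]; ring

lemma exists_factor_point {f : ℂ → ℂ} (hf : Differentiable ℂ f) (hne : ∃ z, f z ≠ 0) (a : ℂ) :
    ∃ (n : ℕ) (h : ℂ → ℂ), Differentiable ℂ h ∧ h a ≠ 0 ∧ ∀ z, f z = (z - a) ^ n * h z := by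
  have han : AnalyticAt ℂ f a := hf.analyticAt a
  have hnz : ¬ ∀ᶠ z in 𝓝 a, f z = 0 := by
    intro h
    obtain ⟨w, hw⟩ := hne
    have h2 : AnalyticOnNhd ℂ f univ := fun z _ => hf.analyticAt z
    have := h2.eqOn_zero_of_preconnected_of_eventuallyEq_zero isPreconnected_univ (mem_univ a) h
    exact hw (this (mem_univ w))
  obtain ⟨n, g, hg, hga, hfg⟩ := (han.exists_eventuallyEq_pow_smul_nonzero_iff).2 hnz
  let h : ℂ → ℂ := fun z => if z = a then g a else f z / (z - a) ^ n
  have hha : h a = g a := by simp [h]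
  have hhz : ∀ z, z ≠ a → h z = f z / (z - a) ^ n := by
    intro z hz
    simp [h, hz]
  have hev : h =ᶠ[𝓝 a] g := by
    filter_upwards [hfg] with z hz
    by_cases hza : z = a
    · rw [hza, hha]
    · rw [hhz z hza, hz, smul_eq_mul]
      have : (z - a) ^ n ≠ 0 := pow_ne_zero _ (sub_ne_zero.2 hza)
      field_simp
  refine ⟨n, h, ?_, ?_, ?_⟩
  · intro z
    by_cases hza : z = a
    · rw [hza]
      exact hg.differentiableAt.congr_of_eventuallyEq hev
    · have h1 : h =ᶠ[𝓝 z] fun w => f w / (w - a) ^ n := by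
        filter_upwards [isOpen_ne.mem_nhds hza] with w hw
        exact hhz w hw
      refine DifferentiableAt.congr_of_eventuallyEq ?_ h1
      have : (z - a) ^ n ≠ 0 := pow_ne_zero _ (sub_ne_zero.2 hza)
      exact (hf z).div (by fun_prop) this
  · rw [hha]; exact hga
  · intro z
    by_cases hza : z = a
    · rw [hza, hha]
      have := hfg.self_of_nhds
      rwa [smul_eq_mul] at this
    · rw [hhz z hza]
      have : (z - a) ^ n ≠ 0 := pow_ne_zero _ (sub_ne_zero.2 hza)
      field_simp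

lemma exists_factor (S : Finset ℂ) : ∀ f : ℂ → ℂ, Differentiable ℂ f → (∃ z, f z ≠ 0) →
    (∀ z, f z = 0 → z ∈ S) → ∃ p g : ℂ → ℂ, PolyLike p ∧ Differentiable ℂ g ∧ (∀ z, g z ≠ 0) ∧
      ∀ z, f z = p z * g z := by
  induction S using Finset.induction_on with
  | empty =>
    intro f hf _ hz
    refine ⟨fun _ => 1, f, PolyLike.one, hf, fun z h => ?_, fun z => by simp⟩
    simpa using hz z h
  | insert a S ha ih =>
    intro f hf hne hz
    obtain ⟨n, h, hh, hha, hfh⟩ := exists_factor_point hf hne a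
    have hz' : ∀ z, h z = 0 → z ∈ S := by
      intro z h0
      have h1 : z ≠ a := by
        rintro rfl
        exact hha h0
      have h2 : f z = 0 := by rw [hfh, h0, mul_zero]
      have h3 := hz z h2
      rw [Finset.mem_insert] at h3
      exact h3.resolve_left h1
    obtain ⟨p, g, hp, hg, hg0, hpg⟩ := ih h hh ⟨a, hha⟩ hz'
    refine ⟨fun z => (z - a) ^ n * p z, g, hp.mul_pow a n, hg, hg0, fun z => ?_⟩
    rw [hfh, hpg]
    ring

lemma exists_log {g : ℂ → ℂ} (hg : Differentiable ℂ g) (h0 : ∀ z, g z ≠ 0) :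
    ∃ G : ℂ → ℂ, Differentiable ℂ G ∧ ∀ z, g z = cexp (G z) := by
  have hd : Differentiable ℂ (fun z => deriv g z / g z) := hg.deriv.div hg h0
  obtain ⟨G, hG⟩ := hd.isExactOn_univ
  have hG' : ∀ z, HasDerivAt G (deriv g z / g z) z := fun z => hG z (mem_univ z)
  have hc : ∀ z, HasDerivAt (fun z => g z * cexp (-G z)) 0 z := by
    intro z
    have h1 := (hg z).hasDerivAt.mul ((hG' z).fun_neg.cexp)
    refine h1.congr_deriv ?_
    have := h0 z
    field_simp
    ring
  have hconst : ∀ z, g z * cexp (-G z) = g 0 * cexp (-G 0) := by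
    intro z
    exact is_const_of_deriv_eq_zero (fun z => (hc z).differentiableAt) (fun z => (hc z).deriv) z 0
  have hk : g 0 * cexp (-G 0) ≠ 0 := mul_ne_zero (h0 0) (Complex.exp_ne_zero _)
  refine ⟨fun z => G z + Complex.log (g 0 * cexp (-G 0)), ?_, ?_⟩
  · intro z
    exact ((hG' z).differentiableAt).add_const _
  · intro z
    rw [Complex.exp_add, Complex.exp_log hk, ← hconst z, Complex.exp_neg]
    field_simp

/-- The growth bound `A R √R + B` on the real part of an entire function forces it to be affine. -/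
lemma affine_of_re_le {G : ℂ → ℂ} (hG : Differentiable ℂ G) {A B R0 : ℝ} (hA : 0 < A)
    (hB : 0 < B)
    (hb : ∀ R : ℝ, R0 ≤ R → ∀ z, ‖z‖ ≤ R → (G z).re ≤ A * (R * Real.sqrt R) + B) :
    ∃ a b : ℂ, ∀ z, G z = a + b * z := by
  have key : ∀ c : ℂ, iteratedDeriv 2 G c = 0 := by
    intro c
    rw [← norm_le_zero_iff]
    -- for large R
    have hbound : ∀ᶠ R : ℝ in atTop, ‖iteratedDeriv 2 G c‖ ≤
        2 * (2 * (A * ((4 * R) * Real.sqrt (4 * R)) + B) + 3 * ‖G 0‖) / R ^ 2 := by
      filter_upwards [eventually_ge_atTop (max R0 1), eventually_ge_atTop ‖c‖] with R hR hRc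
      have hR1 : 1 ≤ R := (le_max_right _ _).trans hR
      have hR0 : R0 ≤ R := (le_max_left _ _).trans hR
      have hRpos : 0 < R := by linarith
      have hs : ∀ z ∈ sphere c R, ‖G z‖ ≤ 2 * (A * ((4 * R) * Real.sqrt (4 * R)) + B) + 3 * ‖G 0‖ := by
        intro z hz
        have hz2 : ‖z‖ ≤ 2 * R := by
          have h1 : ‖z - c‖ = R := by simpa [dist_eq_norm] using hz
          have := norm_le_norm_sub_add z c
          linarith
        have hM : 0 < A * ((4 * R) * Real.sqrt (4 * R)) + B := by positivity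
        have h4 := Complex.borelCaratheodory (f := G) (R := 4 * R) (z := z) hM
          hG.differentiableOn (by
            intro w hw
            have hw' : ‖w‖ < 4 * R := by simpa using hw
            exact hb (4 * R) (by linarith) w hw'.le) (by linarith) (by
              rw [mem_ball_zero_iff]; linarith)
        refine h4.trans ?_
        have h5 : 2 * R ≤ 4 * R - ‖z‖ := by linarith
        have h6 : 0 < 4 * R - ‖z‖ := by linarith
        have e1 : 2 * (A * ((4 * R) * Real.sqrt (4 * R)) + B) * ‖z‖ / (4 * R - ‖z‖) ≤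
            2 * (A * ((4 * R) * Real.sqrt (4 * R)) + B) := by
          rw [div_le_iff₀ h6]
          nlinarith
        have e2 : ‖G 0‖ * (4 * R + ‖z‖) / (4 * R - ‖z‖) ≤ 3 * ‖G 0‖ := by
          rw [div_le_iff₀ h6]
          nlinarith [norm_nonneg (G 0)]
        linarith
      have h7 := Complex.norm_iteratedDeriv_le_of_forall_mem_sphere_norm_le 2 hRpos
        (hG.diffContOnCl (s := ball c R)) hs
      simpa using h7
    have hlim : Tendsto (fun R : ℝ =>
        2 * (2 * (A * ((4 * R) * Real.sqrt (4 * R)) + B) + 3 * ‖G 0‖) / R ^ 2) atTop (𝓝 0) := by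
      have e : ∀ᶠ R : ℝ in atTop, 32 * A * (1 / Real.sqrt R) + (4 * B + 6 * ‖G 0‖) * (1 / R ^ 2) =
          2 * (2 * (A * ((4 * R) * Real.sqrt (4 * R)) + B) + 3 * ‖G 0‖) / R ^ 2 := by
        filter_upwards [eventually_gt_atTop 0] with R hR
        have h1 : Real.sqrt (4 * R) = 2 * Real.sqrt R := by
          rw [Real.sqrt_mul (by norm_num), show (4 : ℝ) = 2 ^ 2 by norm_num,
            Real.sqrt_sq (by norm_num)]
        have h2 : 0 < Real.sqrt R := Real.sqrt_pos.2 hR
        have h3 : Real.sqrt R ^ 2 = R := Real.sq_sqrt hR.le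
        rw [h1]
        field_simp
        linear_combination (-32 * A * R) * h3
      refine Tendsto.congr' e ?_
      have l1 : Tendsto (fun R : ℝ => 1 / Real.sqrt R) atTop (𝓝 0) := by
        simp only [one_div]
        exact tendsto_inv_atTop_zero.comp Real.tendsto_sqrt_atTop
      have l2 : Tendsto (fun R : ℝ => 1 / R ^ 2) atTop (𝓝 0) := by
        simp only [one_div]
        exact tendsto_inv_atTop_zero.comp (tendsto_pow_atTop (by norm_num))
      have := (l1.const_mul (32 * A)).add (l2.const_mul (4 * B + 6 * ‖G 0‖))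
      simpa using this
    exact ge_of_tendsto hlim hbound
  have hd : Differentiable ℂ (deriv G) := hG.deriv
  have hd2 : ∀ z, deriv (deriv G) z = 0 := by
    intro z
    have := key z
    rwa [iteratedDeriv_succ, iteratedDeriv_one] at this
  have hd3 : ∀ z, deriv G z = deriv G 0 := fun z => is_const_of_deriv_eq_zero hd hd2 z 0
  refine ⟨G 0, deriv G 0, fun z => ?_⟩
  have h1 : ∀ z, HasDerivAt (fun z => G z - deriv G 0 * z) 0 z := by
    intro z
    have := (hG z).hasDerivAt.sub ((hasDerivAt_id' z).const_mul (deriv G 0))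
    refine this.congr_deriv ?_
    rw [hd3 z]
    ring
  have h2 := is_const_of_deriv_eq_zero (fun z => (h1 z).differentiableAt) (fun z => (h1 z).deriv) z 0
  simp only [mul_zero, sub_zero] at h2
  linear_combination h2

/-- An entire function with finitely many zeros and growth `exp(A R^{3/2})` is bounded by
`C (1+|z|)^N exp(c |z|)`. -/
theorem growth_of_finite_zeros {f : ℂ → ℂ} (hf : Differentiable ℂ f) (hne : ∃ z, f z ≠ 0)
    (S : Finset ℂ) (hS : ∀ z, f z = 0 → z ∈ S) {A C : ℝ} (hA : 0 < A) (hC : 0 < C)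
    (hb : ∀ z, ‖f z‖ ≤ C * Real.exp (A * (‖z‖ * Real.sqrt ‖z‖))) :
    ∃ (C' : ℝ) (N : ℕ) (c : ℝ), 0 < C' ∧ 0 ≤ c ∧
      ∀ z, ‖f z‖ ≤ C' * (1 + ‖z‖) ^ N * Real.exp (c * ‖z‖) := by
  obtain ⟨p, g, hp, hg, hg0, hfg⟩ := exists_factor S f hf hne hS
  obtain ⟨G, hG, hgG⟩ := exists_log hg hg0
  obtain ⟨⟨R0, h0⟩, ⟨C1, N, hC1, h1⟩⟩ := hp
  have hre : ∀ R : ℝ, max R0 1 ≤ R → ∀ z, ‖z‖ ≤ R →
      (G z).re ≤ A * (R * Real.sqrt R) + (|Real.log C| + 1) := by
    intro R hR z hz
    have hR0 : R0 ≤ R := (le_max_left _ _).trans hR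
    have hR1 : 1 ≤ R := (le_max_right _ _).trans hR
    have hfr : ∀ w ∈ frontier (ball (0 : ℂ) R), ‖g w‖ ≤ C * Real.exp (A * (R * Real.sqrt R)) := by
      intro w hw
      rw [frontier_ball 0 (by linarith : R ≠ 0)] at hw
      have hw' : ‖w‖ = R := by simpa using hw
      have e1 := hb w
      rw [hfg w, norm_mul, hw'] at e1
      have e2 := h0 w (by rw [hw']; exact hR0)
      nlinarith [norm_nonneg (g w)]
    have hle : ‖g z‖ ≤ C * Real.exp (A * (R * Real.sqrt R)) := by
      apply Complex.norm_le_of_forall_mem_frontier_norm_le (U := ball (0 : ℂ) R) isBounded_ball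
        (hg.diffContOnCl) hfr
      rw [closure_ball 0 (by linarith : R ≠ 0)]
      simpa using hz
    rw [hgG z, Complex.norm_exp] at hle
    have e3 : Real.exp (G z).re ≤ Real.exp (Real.log C + A * (R * Real.sqrt R)) := by
      rw [Real.exp_add, Real.exp_log hC]
      exact hle
    have e4 := Real.exp_le_exp.1 e3
    have := le_abs_self (Real.log C)
    linarith
  obtain ⟨a, b, hab⟩ := affine_of_re_le hG hA (by positivity : 0 < |Real.log C| + 1) hre
  refine ⟨C1 * Real.exp ‖a‖, N, ‖b‖, by positivity, norm_nonneg _, fun z => ?_⟩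
  rw [hfg z, norm_mul, hgG z, Complex.norm_exp, hab z]
  have e5 : (a + b * z).re ≤ ‖a‖ + ‖b‖ * ‖z‖ := by
    refine (Complex.re_le_norm _).trans ?_
    refine (norm_add_le _ _).trans ?_
    rw [norm_mul]
  calc ‖p z‖ * Real.exp (a + b * z).re ≤ (C1 * (1 + ‖z‖) ^ N) * Real.exp (‖a‖ + ‖b‖ * ‖z‖) := by
        gcongr
        exact h1 z
    _ = _ := by rw [Real.exp_add]; ring

end Pool.Agent.H10
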