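import Pool.Agent.H10.Contour
import Pool.Agent.H10.FiniteZeros

/-!
# `F_α` is entire, growth, and existence of non-real zeros for non-integer `α`
-/

namespace Pool.Agent.H10

open MeasureTheory Complex Filter Topology Set

lemma norm_exp_I_mul_le (w : ℂ) : ‖cexp (w * I)‖ ≤ Real.exp ‖w‖ := by
  rw [Complex.norm_exp]
  apply Real.exp_le_exp.2
  have : (w * I).re = -w.im := by simp
  rw [this]
  exact (neg_le_abs _).trans (Complex.abs_im_le_norm w)

lemma norm_cos_le (w : ℂ) : ‖Complex.cos w‖ ≤ Real.exp ‖w‖ := by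
  unfold Complex.cos
  rw [norm_div, Complex.norm_ofNat]
  have h1 := norm_exp_I_mul_le w
  have h2 := norm_exp_I_mul_le (-w)
  rw [norm_neg] at h2
  have h3 := norm_add_le (cexp (w * I)) (cexp (-w * I))
  linarith

lemma norm_sin_le (w : ℂ) : ‖Complex.sin w‖ ≤ Real.exp ‖w‖ := by
  unfold Complex.sin
  rw [norm_div, Complex.norm_ofNat, norm_mul, Complex.norm_I, mul_one]
  have h1 := norm_exp_I_mul_le w
  have h2 := norm_exp_I_mul_le (-w)
  rw [norm_neg] at h2
  have h3 := norm_sub_le (cexp (-w * I)) (cexp (w * I))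
  linarith

lemma exp_cube_add_le {α : ℝ} (hα : 0 < α) {r t : ℝ} (hr : 0 ≤ r) (ht : 0 ≤ t) :
    Real.exp (-(α * t ^ 3) + r * t) ≤
      Real.exp (r * Real.sqrt (r / (α / 2))) * Real.exp (-(α / 2 * t ^ 3)) := by
  rw [← Real.exp_add]
  apply Real.exp_le_exp.2
  have := mul_le_cube hr ht (by positivity : 0 < α / 2)
  linarith

lemma integrableOn_exp_cube_add {α : ℝ} (hα : 0 < α) {r : ℝ} (hr : 0 ≤ r) :
    IntegrableOn (fun t : ℝ => Real.exp (-(α * t ^ 3) + r * t)) (Ioi 0) := by
  refine Integrable.mono' ((integrableOn_exp_cube (by positivity : 0 < α / 2)).const_mul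
    (Real.exp (r * Real.sqrt (r / (α / 2))))) ?_ ?_
  · apply Continuous.aestronglyMeasurable
    fun_prop
  · rw [ae_restrict_iff' measurableSet_Ioi]
    refine Eventually.of_forall ?_
    intro t ht
    rw [Real.norm_eq_abs, abs_of_pos (Real.exp_pos _)]
    exact exp_cube_add_le hα hr (le_of_lt ht)

lemma continuousOn_riemannPhi_rpow {α : ℝ} (hα : 0 < α) :
    ContinuousOn (fun t : ℝ => riemannPhi t ^ α) (Ici 0) := by
  have h1 : ContinuousOn (fun t : ℝ => (Kb α t).re) (Ici 0) := by
    apply Complex.continuous_re.comp_continuousOn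
    have : ContinuousOn (fun t : ℝ => (t : ℂ)) (Ici 0) := by fun_prop
    exact (continuousOn_Kb hα).comp this (fun t ht => ofReal_mem_RR ht)
  refine h1.congr ?_
  intro t ht
  show riemannPhi t ^ α = (Kb α t).re
  rw [Kb_ofReal α ht, Complex.ofReal_re]

/-- the integrand of `F_α` -/
noncomputable def gint (α : ℝ) (z : ℂ) (t : ℝ) : ℂ :=
  ((riemannPhi t ^ α : ℝ) : ℂ) * Complex.cos (z * t)

lemma aesm_gint {α : ℝ} (hα : 0 < α) (z : ℂ) :
    AEStronglyMeasurable (gint α z) (volume.restrict (Ioi 0)) := by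
  apply ContinuousOn.aestronglyMeasurable _ measurableSet_Ioi
  unfold gint
  apply ContinuousOn.mul
  · apply Complex.continuous_ofReal.comp_continuousOn
    exact (continuousOn_riemannPhi_rpow hα).mono Ioi_subset_Ici_self
  · fun_prop

lemma norm_gint_le {α C : ℝ} (hb : ∀ t : ℝ, 0 ≤ t → riemannPhi t ^ α ≤ C * Real.exp (-(α * t ^ 3)))
    (z : ℂ) {t : ℝ} (ht : 0 ≤ t) :
    ‖gint α z t‖ ≤ C * Real.exp (-(α * t ^ 3) + ‖z‖ * t) := by
  unfold gint
  rw [norm_mul, Complex.norm_real, Real.norm_eq_abs,
    abs_of_nonneg (Real.rpow_nonneg (riemannPhi_pos t).le _), Real.exp_add, ← mul_assoc]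
  have h1 := norm_cos_le (z * t)
  rw [norm_mul, Complex.norm_real, Real.norm_eq_abs, abs_of_nonneg ht] at h1
  have h2 := hb t ht
  have h3 : 0 ≤ riemannPhi t ^ α := Real.rpow_nonneg (riemannPhi_pos t).le _
  have h4 := h3.trans h2
  gcongr

lemma integrableOn_gint {α : ℝ} (hα : 0 < α) (z : ℂ) : IntegrableOn (gint α z) (Ioi 0) := by
  obtain ⟨C, hC, hb⟩ := exists_rpow_bound hα
  refine Integrable.mono' ((integrableOn_exp_cube_add hα (norm_nonneg z)).const_mul C)
    (aesm_gint hα z) ?_
  rw [ae_restrict_iff' measurableSet_Ioi]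
  exact Eventually.of_forall (fun t ht => norm_gint_le hb z (le_of_lt ht))

lemma differentiable_cosTransform {α : ℝ} (hα : 0 < α) : Differentiable ℂ (cosTransform α) := by
  obtain ⟨C, hC, hb⟩ := exists_rpow_bound hα
  intro z0
  have hint := (integrableOn_exp_cube_add hα (by positivity : 0 ≤ ‖z0‖ + 2)).const_mul C
  have key := hasDerivAt_integral_of_dominated_loc_of_deriv_le (μ := volume.restrict (Ioi (0 : ℝ)))
    (F := fun z t => gint α z t)
    (F' := fun z t => ((riemannPhi t ^ α : ℝ) : ℂ) * (-Complex.sin (z * t) * t))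
    (x₀ := z0) (s := Metric.ball z0 1)
    (bound := fun t => C * Real.exp (-(α * t ^ 3) + (‖z0‖ + 2) * t)) (Metric.ball_mem_nhds z0 one_pos)
    (Eventually.of_forall (fun z => aesm_gint hα z)) (integrableOn_gint hα z0)
    (by
      apply ContinuousOn.aestronglyMeasurable _ measurableSet_Ioi
      apply ContinuousOn.mul
      · apply Complex.continuous_ofReal.comp_continuousOn
        exact (continuousOn_riemannPhi_rpow hα).mono Ioi_subset_Ici_self
      · fun_prop)
    (by
      rw [ae_restrict_iff' measurableSet_Ioi]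
      refine Eventually.of_forall ?_
      intro t ht z hz
      have ht0 : (0 : ℝ) < t := ht
      rw [norm_mul, Complex.norm_real, Real.norm_eq_abs,
        abs_of_nonneg (Real.rpow_nonneg (riemannPhi_pos t).le _), norm_mul, norm_neg,
        Complex.norm_real, Real.norm_eq_abs, abs_of_pos ht0]
      have h1 := norm_sin_le (z * t)
      rw [norm_mul, Complex.norm_real, Real.norm_eq_abs, abs_of_pos ht0] at h1
      have hz2 : ‖z‖ ≤ ‖z0‖ + 1 := by
        have h2 : ‖z - z0‖ < 1 := by simpa [dist_eq_norm] using hz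
        have := norm_le_norm_sub_add z z0
        linarith
      have h3 : t ≤ Real.exp t := by
        have := Real.add_one_le_exp t
        linarith
      have h4 : riemannPhi t ^ α ≤ C * Real.exp (-(α * t ^ 3)) := hb t ht0.le
      have h5 : ‖Complex.sin (z * t)‖ * t ≤ Real.exp ((‖z0‖ + 1) * t) * Real.exp t := by
        gcongr
        exact h1.trans (Real.exp_le_exp.2 (by gcongr))
      have h6 : 0 ≤ riemannPhi t ^ α := Real.rpow_nonneg (riemannPhi_pos t).le _
      calc riemannPhi t ^ α * (‖Complex.sin (z * t)‖ * t)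
          ≤ (C * Real.exp (-(α * t ^ 3))) * (Real.exp ((‖z0‖ + 1) * t) * Real.exp t) := by gcongr
        _ = C * Real.exp (-(α * t ^ 3) + (‖z0‖ + 2) * t) := by
            rw [← Real.exp_add, mul_assoc, ← Real.exp_add]
            ring_nf)
    hint
    (by
      refine Eventually.of_forall ?_
      intro t z _
      have h1 : HasDerivAt (fun z : ℂ => z * (t : ℂ)) (t : ℂ) z := by
        simpa using (hasDerivAt_id' z).mul_const (t : ℂ)
      have h2 := h1.ccos
      exact h2.const_mul _)
  exact key.2.differentiableAt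

lemma cosTransform_neg (α : ℝ) (z : ℂ) : cosTransform α (-z) = cosTransform α z := by
  unfold cosTransform
  congr 1
  ext t
  rw [neg_mul, Complex.cos_neg]

lemma norm_cosTransform_le {α : ℝ} (hα : 0 < α) : ∃ A C : ℝ, 0 < A ∧ 0 < C ∧
    ∀ z, ‖cosTransform α z‖ ≤ C * Real.exp (A * (‖z‖ * Real.sqrt ‖z‖)) := by
  obtain ⟨C, hC, hb⟩ := exists_rpow_bound hα
  have hI := integrableOn_exp_cube (by positivity : 0 < α / 2)
  set D := ∫ t in Ioi (0 : ℝ), Real.exp (-(α / 2 * t ^ 3)) with hD
  have hD0 : 0 ≤ D := by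
    apply setIntegral_nonneg measurableSet_Ioi
    intro t _
    positivity
  refine ⟨Real.sqrt (1 / (α / 2)), C * D + 1, by positivity, by positivity, fun z => ?_⟩
  set r := ‖z‖ with hr
  have hr0 : 0 ≤ r := norm_nonneg z
  have h1 : ‖cosTransform α z‖ ≤ ∫ t in Ioi (0 : ℝ),
      (C * Real.exp (r * Real.sqrt (r / (α / 2)))) * Real.exp (-(α / 2 * t ^ 3)) := by
    unfold cosTransform
    apply MeasureTheory.norm_integral_le_of_norm_le (hI.const_mul _)
    rw [ae_restrict_iff' measurableSet_Ioi]
    refine Eventually.of_forall ?_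
    intro t ht
    have ht0 : (0 : ℝ) ≤ t := le_of_lt ht
    refine (norm_gint_le hb z ht0).trans ?_
    have := exp_cube_add_le hα hr0 ht0
    calc C * Real.exp (-(α * t ^ 3) + ‖z‖ * t) ≤
        C * (Real.exp (r * Real.sqrt (r / (α / 2))) * Real.exp (-(α / 2 * t ^ 3))) := by gcongr
      _ = _ := by ring
  rw [MeasureTheory.integral_const_mul, ← hD] at h1
  have h2 : r * Real.sqrt (r / (α / 2)) = Real.sqrt (1 / (α / 2)) * (r * Real.sqrt r) := by
    rw [div_eq_mul_one_div r, Real.sqrt_mul hr0]
    ring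
  rw [h2] at h1
  refine h1.trans ?_
  have h3 : 0 < Real.exp (Real.sqrt (1 / (α / 2)) * (r * Real.sqrt r)) := Real.exp_pos _
  nlinarith

/-- super-exponential growth on the imaginary axis -/
lemma cosTransform_lower {α : ℝ} (hα : 0 < α) (M : ℝ) (hM : 0 ≤ M) : ∃ c : ℝ, 0 < c ∧
    ∀ y : ℝ, 0 ≤ y → c * Real.exp (M * y) ≤ ‖cosTransform α (y * I)‖ := by
  have hcont := continuousOn_riemannPhi_rpow hα
  have hii : IntervalIntegrable (fun t => riemannPhi t ^ α) volume M (M + 1) := by
    apply ContinuousOn.intervalIntegrable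
    rw [uIcc_of_le (by linarith)]
    exact hcont.mono (fun t ht => hM.trans ht.1)
  refine ⟨(∫ t in M..(M + 1), riemannPhi t ^ α) / 2, ?_, ?_⟩
  · have : 0 < ∫ t in M..(M + 1), riemannPhi t ^ α := by
      apply intervalIntegral.intervalIntegral_pos_of_pos_on hii
      · intro t _
        exact Real.rpow_pos_of_pos (riemannPhi_pos t) _
      · linarith
    positivity
  · intro y hy
    have hg := integrableOn_gint hα (y * I)
    have hre : (cosTransform α (y * I)).re =
        ∫ t in Ioi (0 : ℝ), riemannPhi t ^ α * Real.cosh (y * t) := by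
      have := Complex.reCLM.integral_comp_comm hg
      rw [Complex.reCLM_apply] at this
      unfold cosTransform
      change (∫ t in Ioi (0 : ℝ), gint α (y * I) t).re = _
      rw [← this]
      apply setIntegral_congr_fun measurableSet_Ioi
      intro t _
      show (gint α (y * I) t).re = _
      unfold gint
      rw [Complex.re_ofReal_mul]
      congr 1
      have : (y * I * t : ℂ) = ((y * t : ℝ) : ℂ) * I := by push_cast; ring
      rw [this, Complex.cos_mul_I, Complex.cosh_ofReal_re]
    have hgr : IntegrableOn (fun t : ℝ => riemannPhi t ^ α * Real.cosh (y * t)) (Ioi 0) := by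
      have h1 : IntegrableOn (fun t => (gint α (y * I) t).re) (Ioi 0) := hg.re
      refine h1.congr_fun ?_ measurableSet_Ioi
      intro t _
      show (gint α (y * I) t).re = _
      unfold gint
      rw [Complex.re_ofReal_mul]
      congr 1
      have : (y * I * t : ℂ) = ((y * t : ℝ) : ℂ) * I := by push_cast; ring
      rw [this, Complex.cos_mul_I, Complex.cosh_ofReal_re]
    have hsub : (∫ t in Ioc M (M + 1), riemannPhi t ^ α * Real.cosh (y * t)) ≤
        ∫ t in Ioi (0 : ℝ), riemannPhi t ^ α * Real.cosh (y * t) := by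
      apply setIntegral_mono_set hgr
      · rw [EventuallyLE, ae_restrict_iff' measurableSet_Ioi]
        refine Eventually.of_forall ?_
        intro t _
        exact mul_nonneg (Real.rpow_nonneg (riemannPhi_pos t).le _) (Real.cosh_pos _).le
      · refine (Ioc_subset_Ioi_self.trans (Ioi_subset_Ioi hM)).eventuallyLE
    have hlow : (∫ t in M..(M + 1), riemannPhi t ^ α) / 2 * Real.exp (M * y) ≤
        ∫ t in Ioc M (M + 1), riemannPhi t ^ α * Real.cosh (y * t) := by
      rw [← intervalIntegral.integral_of_le (by linarith : M ≤ M + 1), div_mul_eq_mul_div,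
        mul_div_assoc, ← intervalIntegral.integral_mul_const]
      apply intervalIntegral.integral_mono_on (by linarith)
      · exact hii.mul_const _
      · apply ContinuousOn.intervalIntegrable
        rw [uIcc_of_le (by linarith)]
        exact (hcont.mono (fun t ht => hM.trans ht.1)).mul (by fun_prop)
      · intro t ht
        have h1 : Real.exp (M * y) / 2 ≤ Real.cosh (y * t) := by
          rw [Real.cosh_eq]
          have h2 : Real.exp (M * y) ≤ Real.exp (y * t) := by
            apply Real.exp_le_exp.2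
            nlinarith [ht.1]
          have h3 : 0 < Real.exp (-(y * t)) := Real.exp_pos _
          linarith
        have h4 : 0 ≤ riemannPhi t ^ α := Real.rpow_nonneg (riemannPhi_pos t).le _
        gcongr
    have := Complex.re_le_norm (cosTransform α (y * I))
    rw [hre] at this
    linarith

/-- If `F_α` has only finitely many zeros we get a contradiction. -/
theorem infinitely_many_zeros {α : ℝ} (hα : 0 < α) (S : Finset ℂ)
    (hS : ∀ z, cosTransform α z = 0 → z ∈ S) : False := by
  obtain ⟨A, C, hA, hC, hb⟩ := norm_cosTransform_le hα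
  have hne : ∃ z, cosTransform α z ≠ 0 := by
    obtain ⟨c, hc, hl⟩ := cosTransform_lower hα 0 le_rfl
    refine ⟨(0 : ℝ) * I, ?_⟩
    have := hl 0 le_rfl
    intro h
    rw [h, norm_zero] at this
    have h2 : 0 < c * Real.exp (0 * 0) := by positivity
    linarith
  obtain ⟨C', N, c, hC', hc0, hg⟩ := growth_of_finite_zeros (differentiable_cosTransform hα) hne S hS
    hA hC hb
  obtain ⟨c', hc', hl⟩ := cosTransform_lower hα (c + 1) (by linarith)
  -- `c' e^{(c+1) y} ≤ C' (1+y)^N e^{c y}`
  have h1 : ∀ y : ℝ, 0 ≤ y → c' * Real.exp y ≤ C' * (1 + y) ^ N := by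
    intro y hy
    have e1 := (hl y hy).trans (hg (y * I))
    have e2 : ‖(y * I : ℂ)‖ = y := by
      rw [norm_mul, Complex.norm_I, mul_one, Complex.norm_real, Real.norm_eq_abs, abs_of_nonneg hy]
    rw [e2] at e1
    have e3 : Real.exp ((c + 1) * y) = Real.exp y * Real.exp (c * y) := by
      rw [← Real.exp_add]; ring_nf
    rw [e3] at e1
    have e4 : (c' * Real.exp y) * Real.exp (c * y) ≤ (C' * (1 + y) ^ N) * Real.exp (c * y) := by
      linarith
    exact le_of_mul_le_mul_right e4 (Real.exp_pos _)
  -- contradiction as `y → ∞`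
  have hlim := Real.tendsto_pow_mul_exp_neg_atTop_nhds_zero N
  have h2 : ∀ᶠ x : ℝ in atTop, x ^ N * Real.exp (-x) < c' * Real.exp (-1) / C' := by
    apply hlim.eventually_lt_const
    positivity
  obtain ⟨x, hx, hx1⟩ := (h2.and (eventually_ge_atTop (1 : ℝ))).exists
  have h3 := h1 (x - 1) (by linarith)
  have e5 : 1 + (x - 1) = x := by ring
  rw [e5] at h3
  rw [lt_div_iff₀ hC'] at hx
  have e6 : Real.exp (x - 1) * Real.exp (-x) = Real.exp (-1) := by
    rw [← Real.exp_add]; ring_nf
  have h4 : c' * Real.exp (x - 1) * Real.exp (-x) ≤ C' * x ^ N * Real.exp (-x) := by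
    gcongr
  nlinarith

/-- For real `α > 0` with `sin (π α) ≠ 0`, `F_α` has a non-real zero. -/
theorem exists_nonreal_zero_of_sin_ne {α : ℝ} (hα : 0 < α) (hs : Real.sin (Real.pi * α) ≠ 0) :
    ∃ z : ℂ, z.im ≠ 0 ∧ cosTransform α z = 0 := by
  by_contra hcon
  push Not at hcon
  have hreal : ∀ z, cosTransform α z = 0 → z.im = 0 := by
    intro z hz
    by_contra h
    exact hcon z h hz
  obtain ⟨X, hX, hXb⟩ := cosTransform_ne_zero_of_large hα hs
  have hd := differentiable_cosTransform hα
  -- zeros are in the closed ball of radius `X`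
  have hball : ∀ z, cosTransform α z = 0 → z ∈ Metric.closedBall (0 : ℂ) X := by
    intro z hz
    have him := hreal z hz
    have hzr : z = (z.re : ℂ) := by
      apply Complex.ext <;> simp [him]
    rw [mem_closedBall_zero_iff, hzr, Complex.norm_real, Real.norm_eq_abs]
    by_contra h
    push Not at h
    rcases le_total 0 z.re with h0 | h0
    · rw [abs_of_nonneg h0] at h
      exact hXb z.re h.le (by rw [← hzr]; exact hz)
    · rw [abs_of_nonpos h0] at h
      apply hXb (-z.re) h.le
      push_cast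
      rw [cosTransform_neg, ← hzr]
      exact hz
  have hne : ∃ z, cosTransform α z ≠ 0 := ⟨X, hXb X le_rfl⟩
  have hfin : ({z | cosTransform α z = 0} ∩ Metric.closedBall (0 : ℂ) X).Finite := by
    by_contra hinf
    have hinf' : ({z | cosTransform α z = 0} ∩ Metric.closedBall (0 : ℂ) X).Infinite := hinf
    obtain ⟨w, _, hw⟩ := hinf'.exists_accPt_of_subset_isCompact (isCompact_closedBall (0 : ℂ) X)
      inter_subset_right
    have hfreq : ∃ᶠ z in 𝓝[≠] w, cosTransform α z = 0 := by
      rw [accPt_iff_frequently_nhdsNE] at hw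
      exact hw.mono (fun z hz => hz.1)
    have han : AnalyticOnNhd ℂ (cosTransform α) univ := fun z _ => hd.analyticAt z
    have h0 := han.eqOn_zero_of_preconnected_of_frequently_eq_zero isPreconnected_univ
      (mem_univ w) hfreq
    obtain ⟨z, hz⟩ := hne
    exact hz (h0 (mem_univ z))
  apply infinitely_many_zeros hα hfin.toFinset
  intro z hz
  rw [Set.Finite.mem_toFinset]
  exact ⟨hz, hball z hz⟩

end Pool.Agent.H10
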