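import Pool.Agent.H10.Shift
import Pool.Agent.H10.Transform

/-!
# The transform `M_k(s) = ∫_ℝ Φ(t)^k e^{4st} dt`
-/

namespace Pool.Agent.H10

open MeasureTheory Complex Filter Topology Set

/-- `M_k(s) = ∫_ℝ Φ(t)^k e^{4st} dt`. -/
noncomputable def MM (k : ℕ) (s : ℂ) : ℂ := ∫ t : ℝ, (PhiC t) ^ k * cexp (4 * s * t)

lemma exists_PhiC_pow_bound {k : ℕ} (hk : 1 ≤ k) (A : ℝ) : ∃ C : ℝ, 0 < C ∧ ∃ M : ℕ,
    ∀ t ∈ strip, ‖PhiC t ^ k‖ ≤ C * Real.exp (-(A * |t.re|)) * (Real.cos (4 * t.im) ^ M)⁻¹ := by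
  obtain ⟨n, hn⟩ := exists_nat_ge A
  set N : ℕ := n + 3 with hN
  obtain ⟨C, hC, hb⟩ := exists_PhiC_strip_bound N (by omega)
  refine ⟨C ^ k, by positivity, N * k, ?_⟩
  intro t ht
  have hc := cos_four_pos (show |t.im| < Real.pi / 8 from ht)
  have h1 := hb t ht
  rw [norm_pow]
  calc ‖PhiC t‖ ^ k ≤ (C * Real.exp (-((4 * N - 9) * |t.re|)) *
      (Real.cos (4 * t.im) ^ N)⁻¹) ^ k := by gcongr
    _ = C ^ k * Real.exp (-((4 * N - 9) * |t.re|)) ^ k * (Real.cos (4 * t.im) ^ (N * k))⁻¹ := by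
        rw [mul_pow, mul_pow, inv_pow, ← pow_mul]
    _ ≤ C ^ k * Real.exp (-(A * |t.re|)) * (Real.cos (4 * t.im) ^ (N * k))⁻¹ := by
        have : Real.exp (-((4 * N - 9) * |t.re|)) ^ k ≤ Real.exp (-(A * |t.re|)) := by
          rw [← Real.exp_nat_mul]
          apply Real.exp_le_exp.2
          have h2 : A ≤ 4 * (N : ℝ) - 9 := by
            rw [hN]
            push_cast
            have : (0 : ℝ) ≤ n := Nat.cast_nonneg n
            linarith
          have h3 : (0 : ℝ) ≤ 4 * (N : ℝ) - 9 := by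
            rw [hN]
            push_cast
            have : (0 : ℝ) ≤ n := Nat.cast_nonneg n
            linarith
          have h4 : (1 : ℝ) ≤ k := by exact_mod_cast hk
          have h5 : 0 ≤ |t.re| := abs_nonneg _
          have h6 : A * |t.re| ≤ (4 * (N : ℝ) - 9) * |t.re| := by gcongr
          have h7 : (4 * (N : ℝ) - 9) * |t.re| ≤ k * ((4 * (N : ℝ) - 9) * |t.re|) := by
            have : 0 ≤ (4 * (N : ℝ) - 9) * |t.re| := by positivity
            nlinarith
          linarith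
        gcongr

/-- integrand of `MM`. -/
noncomputable def Mint (k : ℕ) (s z : ℂ) : ℂ := (PhiC z) ^ k * cexp (4 * s * z)

lemma norm_Mint_le {k : ℕ} {A C : ℝ} {M : ℕ} (s : ℂ)
    (hb : ∀ t ∈ strip, ‖PhiC t ^ k‖ ≤ C * Real.exp (-(A * |t.re|)) * (Real.cos (4 * t.im) ^ M)⁻¹)
    (hC : 0 < C) {z : ℂ} (hz : z ∈ strip) :
    ‖Mint k s z‖ ≤ C * (Real.cos (4 * z.im) ^ M)⁻¹ * Real.exp (-(4 * s.im * z.im)) *
      Real.exp (-((A - 4 * |s.re|) * |z.re|)) := by
  unfold Mint
  rw [norm_mul, Complex.norm_exp]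
  have hc := cos_four_pos (show |z.im| < Real.pi / 8 from hz)
  have hre : (4 * s * z).re = 4 * (s.re * z.re - s.im * z.im) := by
    simp only [Complex.mul_re, Complex.mul_im, Complex.re_ofNat, Complex.im_ofNat]
    ring
  rw [hre]
  have h1 : Real.exp (4 * (s.re * z.re - s.im * z.im)) ≤
      Real.exp (4 * |s.re| * |z.re|) * Real.exp (-(4 * s.im * z.im)) := by
    rw [← Real.exp_add]
    apply Real.exp_le_exp.2
    have : s.re * z.re ≤ |s.re| * |z.re| := by
      rw [← abs_mul]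
      exact le_abs_self _
    linarith
  calc ‖PhiC z ^ k‖ * Real.exp (4 * (s.re * z.re - s.im * z.im)) ≤
      (C * Real.exp (-(A * |z.re|)) * (Real.cos (4 * z.im) ^ M)⁻¹) *
        (Real.exp (4 * |s.re| * |z.re|) * Real.exp (-(4 * s.im * z.im))) := by
        gcongr
        exact hb z hz
    _ = C * (Real.cos (4 * z.im) ^ M)⁻¹ * Real.exp (-(4 * s.im * z.im)) *
        (Real.exp (-(A * |z.re|)) * Real.exp (4 * |s.re| * |z.re|)) := by ring
    _ = _ := by
        rw [← Real.exp_add]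
        congr 2
        ring

lemma differentiableAt_Mint (k : ℕ) (s : ℂ) {z : ℂ} (hz : z ∈ strip) :
    DifferentiableAt ℂ (Mint k s) z := by
  unfold Mint
  exact ((differentiableAt_PhiC hz).pow k).mul (by fun_prop)

lemma continuous_Mint_line (k : ℕ) (s : ℂ) {β : ℝ} (hβ : |β| < Real.pi / 8) :
    Continuous (fun t : ℝ => Mint k s (t + β * I)) := by
  rw [continuous_iff_continuousAt]
  intro t
  have hm : (t + β * I : ℂ) ∈ strip := by
    show |(t + β * I : ℂ).im| < Real.pi / 8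
    simpa using hβ
  have h1 : ContinuousAt (Mint k s) (t + β * I) := (differentiableAt_Mint k s hm).continuousAt
  exact ContinuousAt.comp (f := fun t : ℝ => (t + β * I : ℂ)) h1 (by fun_prop)

lemma integrable_Mint_line {k : ℕ} (hk : 1 ≤ k) (s : ℂ) {β : ℝ} (hβ : |β| < Real.pi / 8) :
    Integrable (fun t : ℝ => Mint k s (t + β * I)) := by
  obtain ⟨C, hC, M, hb⟩ := exists_PhiC_pow_bound hk (4 * |s.re| + 1)
  refine Integrable.mono' ((integrable_exp_neg_mul_abs (by norm_num : (0 : ℝ) < 1)).const_mul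
    (C * (Real.cos (4 * β) ^ M)⁻¹ * Real.exp (-(4 * s.im * β)))) ?_ ?_
  · exact (continuous_Mint_line k s hβ).aestronglyMeasurable
  · refine Eventually.of_forall (fun t => ?_)
    have hm : (t + β * I : ℂ) ∈ strip := by
      show |(t + β * I : ℂ).im| < Real.pi / 8
      simpa using hβ
    have h := norm_Mint_le s hb hC hm
    have e1 : (t + β * I : ℂ).re = t := by simp
    have e2 : (t + β * I : ℂ).im = β := by simp
    rw [e1, e2] at h
    have e3 : 4 * |s.re| + 1 - 4 * |s.re| = 1 := by ring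
    rw [e3] at h
    exact h

/-- moving the line of integration in `MM`. -/
theorem MM_shift {k : ℕ} (hk : 1 ≤ k) (s : ℂ) {β : ℝ} (hβ : |β| < Real.pi / 8) :
    MM k s = ∫ t : ℝ, Mint k s (t + β * I) := by
  obtain ⟨C, hC, M, hb⟩ := exists_PhiC_pow_bound hk (4 * |s.re| + 1)
  have hcβ := cos_four_pos hβ
  have h := integral_shift (g := Mint k s)
    (C := C * (Real.cos (4 * β) ^ M)⁻¹ * Real.exp (4 * |s.im| * |β|)) (c := 1) one_pos β
    (fun z hz => differentiableAt_Mint k s (lt_of_le_of_lt hz hβ)) (by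
      intro z hz
      have hzs : z ∈ strip := lt_of_le_of_lt hz hβ
      refine (norm_Mint_le s hb hC hzs).trans ?_
      have e3 : 4 * |s.re| + 1 - 4 * |s.re| = 1 := by ring
      rw [e3]
      have h1 : Real.cos (4 * β) ≤ Real.cos (4 * z.im) := by
        rw [← Real.cos_abs (4 * β), ← Real.cos_abs (4 * z.im)]
        apply Real.cos_le_cos_of_nonneg_of_le_pi (abs_nonneg _)
        · rw [abs_mul, abs_of_pos (by norm_num : (0 : ℝ) < 4)]
          linarith [Real.pi_pos]
        · rw [abs_mul, abs_mul]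
          gcongr
      have h2 : -(4 * s.im * z.im) ≤ 4 * |s.im| * |β| := by
        have a1 : -(s.im * z.im) ≤ |s.im| * |z.im| := by
          rw [← abs_mul]
          exact neg_le_abs _
        have a2 : |s.im| * |z.im| ≤ |s.im| * |β| := by gcongr
        linarith
      gcongr)
  exact h

lemma Mint_ofReal (k : ℕ) (s : ℂ) (t : ℝ) :
    Mint k s t = ((riemannPhi t ^ k : ℝ) : ℂ) * cexp (4 * s * t) := by
  unfold Mint
  rw [← ofReal_riemannPhi]
  push_cast
  rfl

theorem MM_eq_cosTransform {k : ℕ} (hk : 1 ≤ k) (s : ℂ) :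
    MM k s = 2 * cosTransform k (4 * I * s) := by
  have hint : Integrable (fun t : ℝ => Mint k s t) := by
    have := integrable_Mint_line hk s (β := 0) (by simp [Real.pi_pos])
    simpa using this
  have hint' : Integrable (fun t : ℝ => Mint k (-s) t) := by
    have := integrable_Mint_line hk (-s) (β := 0) (by simp [Real.pi_pos])
    simpa using this
  have h1 : MM k s = ∫ t : ℝ, Mint k s t := rfl
  rw [h1, ← intervalIntegral.integral_Iic_add_Ioi (b := 0) hint.integrableOn hint.integrableOn]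
  have h2 : (∫ t in Iic (0 : ℝ), Mint k s t) = ∫ t in Ioi (0 : ℝ), Mint k (-s) t := by
    have := integral_comp_neg_Ioi (0 : ℝ) (fun t : ℝ => Mint k s t)
    rw [neg_zero] at this
    rw [← this]
    congr 1
    ext t
    have e : (((-t : ℝ) : ℂ)) = -(t : ℂ) := by push_cast; rfl
    unfold Mint
    rw [e, PhiC_neg (ofReal_mem_strip t)]
    congr 2
    ring
  rw [h2, ← integral_add hint'.integrableOn hint.integrableOn]
  unfold cosTransform
  rw [← integral_const_mul]
  congr 1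
  ext t
  rw [Mint_ofReal, Mint_ofReal, Real.rpow_natCast]
  have : (4 * I * s * t : ℂ) = (4 * s * t) * I := by ring
  rw [this, Complex.cos_mul_I, Complex.cosh]
  have : (4 * -s * t : ℂ) = -(4 * s * t) := by ring
  rw [this]
  ring

lemma differentiable_MM {k : ℕ} (hk : 1 ≤ k) : Differentiable ℂ (MM k) := by
  have : MM k = fun s => 2 * cosTransform k (4 * I * s) := by
    ext s
    exact MM_eq_cosTransform hk s
  rw [this]
  have h := differentiable_cosTransform (α := k) (by exact_mod_cast (by omega : 0 < k))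
  exact (h.comp (by fun_prop : Differentiable ℂ (fun s : ℂ => 4 * I * s))).const_mul 2

lemma MM_neg {k : ℕ} (hk : 1 ≤ k) (s : ℂ) : MM k (-s) = MM k s := by
  rw [MM_eq_cosTransform hk, MM_eq_cosTransform hk]
  have : 4 * I * -s = -(4 * I * s) := by ring
  rw [this, cosTransform_neg]

lemma MM_conj (k : ℕ) (s : ℂ) : MM k (starRingEnd ℂ s) = starRingEnd ℂ (MM k s) := by
  unfold MM
  rw [← integral_conj]
  congr 1
  ext t
  rw [← ofReal_riemannPhi, map_mul, map_pow, Complex.conj_ofReal, ← Complex.exp_conj, map_mul,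
    map_mul, map_ofNat, Complex.conj_ofReal]

/-- Crude bound for `M_k` in vertical strips. -/
theorem exists_MM_bound {k : ℕ} (hk : 1 ≤ k) (σ0 : ℝ) : ∃ C : ℝ, 0 < C ∧ ∃ M : ℕ,
    ∀ s : ℂ, |s.re| ≤ σ0 → 1 ≤ |s.im| →
      ‖MM k s‖ ≤ C * |s.im| ^ M * Real.exp (-(Real.pi / 2 * |s.im|)) := by
  obtain ⟨C, hC, M, hb⟩ := exists_PhiC_pow_bound hk (4 * σ0 + 1)
  have hpi := Real.pi_pos
  have hpi3 := Real.pi_gt_three
  refine ⟨C * (Real.pi / 2) ^ M * Real.exp 1 * 2, by positivity, M, ?_⟩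
  intro s hs1 hs2
  set τ := |s.im| with hτ
  have hτ0 : 0 < τ := by linarith
  -- the shift
  have hinv : 1 / τ ≤ 1 := by
    rw [div_le_one hτ0]
    exact hs2
  have hinv0 : 0 < 1 / τ := by positivity
  obtain ⟨β, hβ1, hβ2⟩ : ∃ β : ℝ, |β| = Real.pi / 8 - 1 / τ / 4 ∧
      s.im * β = τ * (Real.pi / 8 - 1 / τ / 4) := by
    rcases le_total 0 s.im with h | h
    · refine ⟨Real.pi / 8 - 1 / τ / 4, abs_of_pos (by linarith), ?_⟩
      rw [hτ, abs_of_nonneg h]
    · refine ⟨-(Real.pi / 8 - 1 / τ / 4), by rw [abs_neg]; exact abs_of_pos (by linarith), ?_⟩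
      rw [hτ, abs_of_nonpos h]
      ring
  have hβ : |β| < Real.pi / 8 := by rw [hβ1]; linarith
  rw [MM_shift hk s hβ]
  have hcosval : Real.cos (4 * β) = Real.sin (1 / τ) := by
    rw [← Real.cos_abs, abs_mul, hβ1, abs_of_pos (by norm_num : (0 : ℝ) < 4)]
    have : 4 * (Real.pi / 8 - 1 / τ / 4) = Real.pi / 2 - 1 / τ := by ring
    rw [this, Real.cos_pi_div_two_sub]
  have hcos : (Real.pi / 2 * τ)⁻¹ ≤ Real.cos (4 * β) := by
    rw [hcosval]
    have := Real.mul_le_sin hinv0.le (by linarith)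
    calc (Real.pi / 2 * τ)⁻¹ = 2 / Real.pi * (1 / τ) := by field_simp
      _ ≤ _ := this
  have hcospos : 0 < Real.cos (4 * β) := cos_four_pos hβ
  have hcinv : (Real.cos (4 * β) ^ M)⁻¹ ≤ (Real.pi / 2) ^ M * τ ^ M := by
    rw [← mul_pow, ← inv_pow]
    apply pow_le_pow_left₀ (by positivity)
    rw [← inv_inv (Real.pi / 2 * τ)]
    exact inv_anti₀ (by positivity) hcos
  have hpt : ∀ t : ℝ, ‖Mint k s (t + β * I)‖ ≤ (C * ((Real.pi / 2) ^ M * τ ^ M) *
      (Real.exp 1 * Real.exp (-(Real.pi / 2 * τ)))) * Real.exp (-(1 * |t|)) := by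
    intro t
    have hm : (t + β * I : ℂ) ∈ strip := by
      show |(t + β * I : ℂ).im| < Real.pi / 8
      simpa using hβ
    have h := norm_Mint_le s hb hC hm
    have e1 : (t + β * I : ℂ).re = t := by simp
    have e2 : (t + β * I : ℂ).im = β := by simp
    rw [e1, e2] at h
    refine h.trans ?_
    have e3 : Real.exp (-(4 * s.im * β)) = Real.exp 1 * Real.exp (-(Real.pi / 2 * τ)) := by
      rw [← Real.exp_add]
      congr 1
      have : 4 * s.im * β = 4 * (s.im * β) := by ring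
      rw [this, hβ2]
      field_simp
      ring
    rw [e3]
    have e4 : Real.exp (-((4 * σ0 + 1 - 4 * |s.re|) * |t|)) ≤ Real.exp (-(1 * |t|)) := by
      apply Real.exp_le_exp.2
      have : 0 ≤ |t| := abs_nonneg t
      nlinarith
    gcongr
  calc ‖∫ t : ℝ, Mint k s (t + β * I)‖ ≤ ∫ t : ℝ, (C * ((Real.pi / 2) ^ M * τ ^ M) *
      (Real.exp 1 * Real.exp (-(Real.pi / 2 * τ)))) * Real.exp (-(1 * |t|)) := by
        apply MeasureTheory.norm_integral_le_of_norm_le
        · exact (integrable_exp_neg_mul_abs one_pos).const_mul _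
        · exact Eventually.of_forall hpt
    _ = (C * ((Real.pi / 2) ^ M * τ ^ M) *
      (Real.exp 1 * Real.exp (-(Real.pi / 2 * τ)))) * (2 / 1) := by
        rw [integral_const_mul, integral_exp_neg_mul_abs one_pos]
    _ = _ := by ring

end Pool.Agent.H10
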