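import Pool.Agent.H10.GammaInt
import Pool.Agent.H10.MM

/-!
# The generalised Dirichlet series of `M_k(s)`
-/

namespace Pool.Agent.H10

open MeasureTheory Complex Filter Topology Set

/-- `n` of an index -/
def cn : ℕ ⊕ ℕ → ℕ := Sum.elim (fun n => n + 1) (fun n => n + 1)

/-- the coefficient of an index -/
noncomputable def ca : ℕ ⊕ ℕ → ℝ :=
  Sum.elim (fun n => 2 * Real.pi ^ 2 * ((n : ℝ) + 1) ^ 4) (fun n => -(3 * Real.pi * ((n : ℝ) + 1) ^ 2))

/-- the deficit of an index -/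
def cd : ℕ ⊕ ℕ → ℕ := Sum.elim (fun _ => 0) (fun _ => 1)

/-- the term of `Φ` -/
noncomputable def tm (i : ℕ ⊕ ℕ) (t : ℝ) : ℂ :=
  (ca i : ℂ) * gexp (9 / 4 - cd i) (Real.pi * (cn i : ℝ) ^ 2) t

lemma cn_ge (i : ℕ ⊕ ℕ) : 1 ≤ cn i := by
  rcases i with n | n <;> simp [cn]

lemma cd_le (i : ℕ ⊕ ℕ) : cd i ≤ 1 := by
  rcases i with n | n <;> simp [cd]

lemma abs_ca_le (i : ℕ ⊕ ℕ) : |ca i| ≤ 2 * Real.pi ^ 2 * (cn i : ℝ) ^ 4 := by
  have hpi := Real.pi_gt_three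
  rcases i with n | n
  · simp only [ca, cn, Sum.elim_inl]
    rw [abs_of_nonneg (by positivity)]
    push_cast
    exact le_rfl
  · simp only [ca, cn, Sum.elim_inr]
    rw [abs_neg, abs_of_nonneg (by positivity)]
    push_cast
    have h1 : (1 : ℝ) ≤ ((n : ℝ) + 1) ^ 2 := by
      have : (0 : ℝ) ≤ n := Nat.cast_nonneg n
      nlinarith
    have h2 : ((n : ℝ) + 1) ^ 4 = ((n : ℝ) + 1) ^ 2 * ((n : ℝ) + 1) ^ 2 := by ring
    rw [h2]
    have h3 : 3 * Real.pi ≤ 2 * Real.pi ^ 2 * ((n : ℝ) + 1) ^ 2 := by nlinarith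
    nlinarith

lemma tm_inl (n : ℕ) (t : ℝ) :
    tm (Sum.inl n) t = 2 * cexp (9 * t) * psik 2 n (cexp (4 * t)) := by
  unfold tm gexp psik
  simp only [ca, cd, cn, Sum.elim_inl]
  have h1 : cexp (4 * (9 / 4 - ((0 : ℕ) : ℂ)) * t) = cexp (9 * t) := by
    congr 1
    push_cast
    ring
  rw [h1]
  push_cast
  have h2 : (-((Real.pi : ℂ) * ((n : ℂ) + 1) ^ 2 * cexp (4 * t))) =
    -(Real.pi * ((n : ℂ) + 1) ^ 2 * cexp (4 * t)) := rfl
  ring

lemma tm_inr (n : ℕ) (t : ℝ) :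
    tm (Sum.inr n) t = 3 * cexp (5 * t) * psik 1 n (cexp (4 * t)) := by
  unfold tm gexp psik
  simp only [ca, cd, cn, Sum.elim_inr]
  have h1 : cexp (4 * (9 / 4 - ((1 : ℕ) : ℂ)) * t) = cexp (5 * t) := by
    congr 1
    push_cast
    ring
  rw [h1]
  push_cast
  ring

lemma summable_norm_tm (t : ℝ) : Summable (fun i => ‖tm i t‖) := by
  have hu := re_exp_pos (ofReal_mem_strip t)
  apply Summable.sum
  · have h := ((summable_psik hu 2).mul_left (2 * cexp (9 * t))).norm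
    refine h.congr ?_
    intro n
    simp only [Function.comp_apply]
    rw [tm_inl]
  · have h := ((summable_psik hu 1).mul_left (3 * cexp (5 * t))).norm
    refine h.congr ?_
    intro n
    simp only [Function.comp_apply]
    rw [tm_inr]

lemma hasSum_tm (t : ℝ) : HasSum (fun i => tm i t) (PhiC t) := by
  have hu := re_exp_pos (ofReal_mem_strip t)
  have h1 : HasSum (fun n => tm (Sum.inl n) t) (2 * cexp (9 * t) * Psi 2 (cexp (4 * t))) := by
    have h := (summable_psik hu 2).hasSum.mul_left (2 * cexp (9 * t))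
    refine h.congr_fun ?_
    intro n
    rw [tm_inl]
  have h2 : HasSum (fun n => tm (Sum.inr n) t) (3 * cexp (5 * t) * Psi 1 (cexp (4 * t))) := by
    have h := (summable_psik hu 1).hasSum.mul_left (3 * cexp (5 * t))
    refine h.congr_fun ?_
    intro n
    rw [tm_inr]
  have h3 : HasSum (fun i => tm i t) (2 * cexp (9 * t) * Psi 2 (cexp (4 * t)) +
      3 * cexp (5 * t) * Psi 1 (cexp (4 * t))) := HasSum.sum h1 h2
  have h4 : PhiC t = 2 * cexp (9 * t) * Psi 2 (cexp (4 * t)) +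
      3 * cexp (5 * t) * Psi 1 (cexp (4 * t)) := by
    unfold PhiC
    rw [ff_eq_Psi hu]
    have h9 : cexp (9 * (t : ℂ)) = cexp (5 * t) * cexp (4 * t) := by
      rw [← Complex.exp_add]; ring_nf
    have hpi : (Real.pi : ℂ) ≠ 0 := by exact_mod_cast Real.pi_ne_zero
    rw [h9]
    field_simp
  rw [h4]
  exact h3

lemma prod_gexp {κ : Type*} (S : Finset κ) (w : κ → ℂ) (r : κ → ℝ) (t : ℝ) :
    ∏ j ∈ S, gexp (w j) (r j) t = gexp (∑ j ∈ S, w j) (∑ j ∈ S, r j) t := by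
  classical
  induction S using Finset.induction_on with
  | empty => simp [gexp]
  | insert a S ha ih =>
    rw [Finset.prod_insert ha, Finset.sum_insert ha, Finset.sum_insert ha, ih]
    unfold gexp
    have e1 : cexp (4 * (w a + ∑ j ∈ S, w j) * t) =
        cexp (4 * w a * t) * cexp (4 * (∑ j ∈ S, w j) * t) := by
      rw [← Complex.exp_add]
      congr 1
      ring
    have e2 : Real.exp (-((r a + ∑ j ∈ S, r j) * Real.exp (4 * t))) =
        Real.exp (-(r a * Real.exp (4 * t))) * Real.exp (-((∑ j ∈ S, r j) * Real.exp (4 * t))) := by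
      rw [← Real.exp_add]
      congr 1
      ring
    rw [e1, e2]
    push_cast
    ring

variable {k : ℕ}

/-- product of coefficients -/
noncomputable def pA (i : Fin k → ℕ ⊕ ℕ) : ℝ := ∏ j, ca (i j)
/-- total deficit -/
def pd (i : Fin k → ℕ ⊕ ℕ) : ℕ := ∑ j, cd (i j)
/-- total frequency -/
noncomputable def pL (i : Fin k → ℕ ⊕ ℕ) : ℝ := ∑ j, (cn (i j) : ℝ) ^ 2
/-- the exponent -/
noncomputable def pw (s : ℂ) (i : Fin k → ℕ ⊕ ℕ) : ℂ := s + 9 * k / 4 - pd i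

/-- summable weights -/
noncomputable def Tw (i : Fin k → ℕ ⊕ ℕ) : ℝ := ∏ j, ((cn (i j) : ℝ) ^ 2)⁻¹

lemma summable_Tw (k : ℕ) : Summable (Tw (k := k)) := by
  unfold Tw
  apply summable_pi_prod (f := fun i : ℕ ⊕ ℕ => ((cn i : ℝ) ^ 2)⁻¹) (fun i => by positivity)
  have hs : Summable (fun n : ℕ => (((n : ℝ) + 1) ^ 2)⁻¹) := by
    have := (summable_nat_add_iff (f := fun n : ℕ => ((n : ℝ) ^ 2)⁻¹) 1).2
      (Real.summable_nat_pow_inv.2 (by norm_num))
    refine this.congr ?_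
    intro n
    push_cast
    rfl
  apply Summable.sum
  · refine hs.congr ?_
    intro n
    simp [cn]
  · refine hs.congr ?_
    intro n
    simp [cn]

lemma Tw_nonneg (i : Fin k → ℕ ⊕ ℕ) : 0 ≤ Tw i := Finset.prod_nonneg (fun j _ => by positivity)

lemma pd_le (i : Fin k → ℕ ⊕ ℕ) : pd i ≤ k := by
  unfold pd
  calc ∑ j, cd (i j) ≤ ∑ _j : Fin k, 1 := Finset.sum_le_sum (fun j _ => cd_le _)
    _ = k := by simp

lemma cn_sq_ge (i : ℕ ⊕ ℕ) : (1 : ℝ) ≤ (cn i : ℝ) ^ 2 := by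
  have : (1 : ℝ) ≤ cn i := by exact_mod_cast cn_ge i
  nlinarith

lemma cn_sq_le_pL (i : Fin k → ℕ ⊕ ℕ) (j : Fin k) : (cn (i j) : ℝ) ^ 2 ≤ pL i := by
  unfold pL
  exact Finset.single_le_sum (f := fun j => (cn (i j) : ℝ) ^ 2) (fun j _ => by positivity)
    (Finset.mem_univ j)

lemma le_pL (i : Fin k → ℕ ⊕ ℕ) : (k : ℝ) ≤ pL i := by
  unfold pL
  calc (k : ℝ) = ∑ _j : Fin k, (1 : ℝ) := by simp
    _ ≤ _ := Finset.sum_le_sum (fun j _ => cn_sq_ge _)

lemma succ_le_pL (i : Fin k → ℕ ⊕ ℕ) (j : Fin k) (hj : 2 ≤ cn (i j)) : (k : ℝ) + 1 ≤ pL i := by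
  have h1 : ∑ l : Fin k, (1 + if l = j then (1 : ℝ) else 0) ≤ pL i := by
    unfold pL
    apply Finset.sum_le_sum
    intro l _
    split_ifs with h
    · rw [h]
      have : (2 : ℝ) ≤ cn (i j) := by exact_mod_cast hj
      nlinarith
    · have := cn_sq_ge (i l)
      linarith
  have h2 : ∑ l : Fin k, (1 + if l = j then (1 : ℝ) else 0) = k + 1 := by
    rw [Finset.sum_add_distrib]
    simp
  linarith

lemma abs_pA_le (i : Fin k → ℕ ⊕ ℕ) :
    |pA i| ≤ (2 * Real.pi ^ 2) ^ k * ∏ j, (cn (i j) : ℝ) ^ 4 := by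
  unfold pA
  rw [Finset.abs_prod]
  calc ∏ j, |ca (i j)| ≤ ∏ j, (2 * Real.pi ^ 2 * (cn (i j) : ℝ) ^ 4) :=
        Finset.prod_le_prod (fun j _ => abs_nonneg _) (fun j _ => abs_ca_le _)
    _ = _ := by
        rw [Finset.prod_mul_distrib]
        simp

lemma pL_pow_ge (i : Fin k → ℕ ⊕ ℕ) : ∏ j, (cn (i j) : ℝ) ^ 6 ≤ pL i ^ (3 * k) := by
  have h1 : ∏ j, (cn (i j) : ℝ) ^ 6 = ∏ j, ((cn (i j) : ℝ) ^ 2) ^ 3 := by
    apply Finset.prod_congr rfl
    intro j _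
    ring
  rw [h1]
  calc ∏ j, ((cn (i j) : ℝ) ^ 2) ^ 3 ≤ ∏ _j : Fin k, pL i ^ 3 := by
        apply Finset.prod_le_prod (fun j _ => by positivity)
        intro j _
        exact pow_le_pow_left₀ (by positivity) (cn_sq_le_pL i j) 3
    _ = _ := by
        rw [Finset.prod_const, Finset.card_univ, Fintype.card_fin, ← pow_mul]

lemma pL_pos (hk : 1 ≤ k) (i : Fin k → ℕ ⊕ ℕ) : 1 ≤ pL i := by
  have := le_pL i
  have h : (1 : ℝ) ≤ k := by exact_mod_cast hk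
  linarith

/-- the key bound for the coefficients -/
lemma pA_mul_le (hk : 1 ≤ k) (i : Fin k → ℕ ⊕ ℕ) :
    |pA i| * (pL i ^ (3 * k))⁻¹ ≤ (2 * Real.pi ^ 2) ^ k * Tw i := by
  have h1 := abs_pA_le i
  have h2 := pL_pow_ge i
  have h3 := pL_pos hk i
  have h6 : 0 < ∏ j, (cn (i j) : ℝ) ^ 6 := by
    apply Finset.prod_pos
    intro j _
    have : (1 : ℝ) ≤ cn (i j) := by exact_mod_cast cn_ge (i j)
    positivity
  have h4 : (pL i ^ (3 * k))⁻¹ ≤ (∏ j, (cn (i j) : ℝ) ^ 6)⁻¹ := inv_anti₀ h6 h2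
  have h5 : Tw i = (∏ j, (cn (i j) : ℝ) ^ 4) * (∏ j, (cn (i j) : ℝ) ^ 6)⁻¹ := by
    unfold Tw
    rw [← Finset.prod_inv_distrib, ← Finset.prod_mul_distrib]
    apply Finset.prod_congr rfl
    intro j _
    have : (1 : ℝ) ≤ cn (i j) := by exact_mod_cast cn_ge (i j)
    field_simp
  rw [h5]
  calc |pA i| * (pL i ^ (3 * k))⁻¹ ≤ ((2 * Real.pi ^ 2) ^ k * ∏ j, (cn (i j) : ℝ) ^ 4) *
      (∏ j, (cn (i j) : ℝ) ^ 6)⁻¹ := by
        have : 0 ≤ ∏ j, (cn (i j) : ℝ) ^ 4 := Finset.prod_nonneg (fun j _ => by positivity)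
        gcongr
    _ = _ := by ring

lemma pw_re (s : ℂ) (i : Fin k → ℕ ⊕ ℕ) : (pw s i).re = s.re + 9 * k / 4 - pd i := by
  unfold pw
  simp

lemma pw_im (s : ℂ) (i : Fin k → ℕ ⊕ ℕ) : (pw s i).im = s.im := by
  unfold pw
  simp

/-- the integrated term -/
noncomputable def term (s : ℂ) (i : Fin k → ℕ ⊕ ℕ) : ℂ :=
  (pA i : ℂ) * (1 / 4 * ((1 / ((Real.pi * pL i : ℝ) : ℂ)) ^ (pw s i) * Complex.Gamma (pw s i)))

lemma prod_tm (s : ℂ) (i : Fin k → ℕ ⊕ ℕ) (t : ℝ) :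
    (∏ j, tm (i j) t) * cexp (4 * s * t) = (pA i : ℂ) * gexp (pw s i) (Real.pi * pL i) t := by
  unfold tm
  rw [Finset.prod_mul_distrib, prod_gexp]
  have e1 : (∏ j, ((ca (i j) : ℝ) : ℂ)) = (pA i : ℂ) := by
    unfold pA
    push_cast
    rfl
  rw [e1]
  have e2 : ∑ j : Fin k, Real.pi * (cn (i j) : ℝ) ^ 2 = Real.pi * pL i := by
    unfold pL
    rw [Finset.mul_sum]
  rw [e2, mul_assoc]
  congr 1
  unfold gexp
  have e3 : cexp (4 * (pw s i) * t) =
      cexp (4 * (∑ j, (9 / 4 - (cd (i j) : ℂ))) * t) * cexp (4 * s * t) := by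
    rw [← Complex.exp_add]
    congr 1
    unfold pw pd
    rw [Finset.sum_sub_distrib]
    push_cast
    simp only [Finset.sum_const, Finset.card_univ, Fintype.card_fin, nsmul_eq_mul]
    ring
  rw [e3]
  ring

lemma hasSum_Mint (s : ℂ) (t : ℝ) :
    HasSum (fun i : Fin k → ℕ ⊕ ℕ => (pA i : ℂ) * gexp (pw s i) (Real.pi * pL i) t)
      (Mint k s t) := by
  have h := (hasSum_pi_prod (summable_norm_tm t) (hasSum_tm t) k).mul_right (cexp (4 * s * t))
  unfold Mint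
  refine h.congr_fun ?_
  intro i
  exact (prod_tm s i t).symm

lemma hasSum_MM (hk : 1 ≤ k) {s : ℂ} (hs : 2 * (k : ℝ) ≤ s.re) :
    HasSum (fun i : Fin k → ℕ ⊕ ℕ => term s i) (MM k s) := by
  have hk1 : (1 : ℝ) ≤ k := by exact_mod_cast hk
  have hpi := Real.pi_gt_three
  have hre : ∀ i : Fin k → ℕ ⊕ ℕ, 3 * (k : ℝ) ≤ (pw s i).re := by
    intro i
    rw [pw_re]
    have : (pd i : ℝ) ≤ k := by exact_mod_cast pd_le i
    linarith
  have hpos : ∀ i : Fin k → ℕ ⊕ ℕ, 0 < (pw s i).re := fun i => by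
    have := hre i
    linarith
  have hr : ∀ i : Fin k → ℕ ⊕ ℕ, 0 < Real.pi * pL i := fun i => by
    have := pL_pos hk i
    positivity
  have hint : ∀ i : Fin k → ℕ ⊕ ℕ,
      Integrable (fun t : ℝ => (pA i : ℂ) * gexp (pw s i) (Real.pi * pL i) t) :=
    fun i => (integrable_gexp (hpos i) (hr i)).const_mul _
  have hnorm : ∀ i : Fin k → ℕ ⊕ ℕ,
      ∫ t : ℝ, ‖(pA i : ℂ) * gexp (pw s i) (Real.pi * pL i) t‖ =
      |pA i| * (1 / 4 * ((1 / (Real.pi * pL i)) ^ (pw s i).re * Real.Gamma (pw s i).re)) := by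
    intro i
    have : (fun t : ℝ => ‖(pA i : ℂ) * gexp (pw s i) (Real.pi * pL i) t‖) =
        fun t : ℝ => |pA i| * ‖gexp (pw s i) (Real.pi * pL i) t‖ := by
      ext t
      rw [norm_mul, Complex.norm_real, Real.norm_eq_abs]
    rw [this, integral_const_mul, integral_norm_gexp (hpos i) (hr i)]
  have hsum : Summable (fun i : Fin k → ℕ ⊕ ℕ =>
      ∫ t : ℝ, ‖(pA i : ℂ) * gexp (pw s i) (Real.pi * pL i) t‖) := by
    simp_rw [hnorm]
    set Γ0 : ℝ := ‖Complex.Gamma ((s.re + 9 * k / 4 : ℝ) : ℂ)‖ with hΓ0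
    refine Summable.of_nonneg_of_le (fun i => ?_) (fun i => ?_)
      ((summable_Tw k).mul_left ((2 * Real.pi ^ 2) ^ k * (1 / 4 * Γ0)))
    · have := Real.Gamma_pos_of_pos (hpos i)
      have := hr i
      positivity
    · have h1 : (1 / (Real.pi * pL i)) ^ (pw s i).re ≤ (pL i ^ (3 * k))⁻¹ := by
        have hL := pL_pos hk i
        calc (1 / (Real.pi * pL i)) ^ (pw s i).re ≤ (1 / pL i) ^ (pw s i).re := by
              apply Real.rpow_le_rpow (by have := hr i; positivity) _ (hpos i).le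
              apply one_div_le_one_div_of_le (by linarith)
              nlinarith
          _ ≤ (1 / pL i) ^ (3 * (k : ℝ)) := by
              apply Real.rpow_le_rpow_of_exponent_ge (by positivity) _ (hre i)
              rw [div_le_one (by linarith)]
              exact hL
          _ = (pL i ^ (3 * k))⁻¹ := by
              have : 3 * (k : ℝ) = ((3 * k : ℕ) : ℝ) := by push_cast; rfl
              rw [this, Real.rpow_natCast, one_div, inv_pow]
      have h2 : Real.Gamma (pw s i).re ≤ Γ0 := by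
        have h3 := norm_Gamma_le_add_nat (pd i) (w := ((pw s i).re : ℂ)) (by
          rw [Complex.ofReal_re]
          have := hre i
          linarith)
        rw [Complex.Gamma_ofReal, Complex.norm_real, Real.norm_eq_abs,
          abs_of_pos (Real.Gamma_pos_of_pos (hpos i))] at h3
        refine h3.trans (le_of_eq ?_)
        rw [hΓ0]
        congr 2
        rw [pw_re]
        push_cast
        ring
      have h4 := pA_mul_le hk i
      have h5 : 0 ≤ Real.Gamma (pw s i).re := (Real.Gamma_pos_of_pos (hpos i)).le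
      have h6 := Tw_nonneg i
      have h7 : 0 ≤ Γ0 := norm_nonneg _
      have h8 : 0 ≤ (pL i ^ (3 * k))⁻¹ := by
        have := pL_pos hk i
        positivity
      calc |pA i| * (1 / 4 * ((1 / (Real.pi * pL i)) ^ (pw s i).re * Real.Gamma (pw s i).re)) ≤
          |pA i| * (1 / 4 * ((pL i ^ (3 * k))⁻¹ * Γ0)) := by gcongr
        _ = (|pA i| * (pL i ^ (3 * k))⁻¹) * (1 / 4 * Γ0) := by ring
        _ ≤ ((2 * Real.pi ^ 2) ^ k * Tw i) * (1 / 4 * Γ0) := by gcongr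
        _ = _ := by ring
  have h := hasSum_integral_of_summable_integral_norm hint hsum
  have e1 : (fun t : ℝ => ∑' i : Fin k → ℕ ⊕ ℕ,
      (pA i : ℂ) * gexp (pw s i) (Real.pi * pL i) t) = fun t : ℝ => Mint k s t := by
    ext t
    exact (hasSum_Mint s t).tsum_eq
  rw [e1] at h
  have e2 : (fun i : Fin k → ℕ ⊕ ℕ => ∫ t : ℝ, (pA i : ℂ) * gexp (pw s i) (Real.pi * pL i) t) =
      fun i => term s i := by
    ext i
    rw [integral_const_mul, integral_gexp (hpos i) (hr i)]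
    rfl
  rw [e2] at h
  exact h

/-- The comparison function `G_k(s) = (2π²)^k Γ(s + 9k/4) (πk)^{-s-9k/4} / 4`. -/
noncomputable def GG (k : ℕ) (s : ℂ) : ℂ :=
  (((2 * Real.pi ^ 2) ^ k : ℝ) : ℂ) *
    (1 / 4 * ((1 / ((Real.pi * k : ℝ) : ℂ)) ^ (s + 9 * k / 4) * Complex.Gamma (s + 9 * k / 4)))

/-- the leading index -/
def i0 (k : ℕ) : Fin k → ℕ ⊕ ℕ := fun _ => Sum.inl 0

lemma term_i0 (k : ℕ) (s : ℂ) : term s (i0 k) = GG k s := by
  have h1 : pA (i0 k) = (2 * Real.pi ^ 2) ^ k := by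
    unfold pA i0
    simp [ca]
  have h2 : pd (i0 k) = 0 := by
    unfold pd i0
    simp [cd]
  have h3 : pL (i0 k) = k := by
    unfold pL i0
    simp [cn]
  unfold term GG pw
  rw [h1, h2, h3]
  simp

lemma norm_one_div_cpow {r : ℝ} (hr : 0 < r) (w : ℂ) :
    ‖(1 / (r : ℂ)) ^ w‖ = (1 / r) ^ w.re := by
  have : (1 / (r : ℂ)) = ((1 / r : ℝ) : ℂ) := by push_cast; rfl
  rw [this, Complex.norm_cpow_eq_rpow_re_of_pos (by positivity)]

lemma norm_GG (hk : 1 ≤ k) (s : ℂ) : ‖GG k s‖ = (2 * Real.pi ^ 2) ^ k *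
    (1 / 4 * ((1 / (Real.pi * k)) ^ (s.re + 9 * k / 4) * ‖Complex.Gamma (s + 9 * k / 4)‖)) := by
  have hk1 : (1 : ℝ) ≤ k := by exact_mod_cast hk
  have hpi := Real.pi_pos
  unfold GG
  rw [norm_mul, norm_mul, norm_mul, norm_one_div_cpow (by positivity), Complex.norm_real,
    Real.norm_eq_abs, abs_of_pos (by positivity)]
  have e1 : (s + 9 * k / 4 : ℂ).re = s.re + 9 * k / 4 := by simp
  rw [e1]
  norm_num

lemma norm_term (hk : 1 ≤ k) (s : ℂ) (i : Fin k → ℕ ⊕ ℕ) : ‖term s i‖ = |pA i| *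
    (1 / 4 * ((1 / (Real.pi * pL i)) ^ (pw s i).re * ‖Complex.Gamma (pw s i)‖)) := by
  have hL := pL_pos hk i
  have hpi := Real.pi_pos
  unfold term
  rw [norm_mul, norm_mul, norm_mul, norm_one_div_cpow (by positivity), Complex.norm_real,
    Real.norm_eq_abs]
  norm_num

lemma exists_cn_ge_two {i : Fin k → ℕ ⊕ ℕ} (hi : i ≠ i0 k) (hd : pd i = 0) :
    ∃ j, 2 ≤ cn (i j) := by
  by_contra hcon
  push Not at hcon
  apply hi
  ext1 j
  have h1 := hcon j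
  have h2 : cd (i j) = 0 := by
    unfold pd at hd
    exact (Finset.sum_eq_zero_iff.1 hd) j (Finset.mem_univ j)
  rcases h : i j with n | n
  · rw [h] at h1
    simp only [cn, Sum.elim_inl] at h1
    have : n = 0 := by omega
    rw [this]
    rfl
  · rw [h] at h2
    simp [cd] at h2

/-- the constant in the comparison -/
noncomputable def KK (k : ℕ) : ℝ := (k : ℝ) ^ (3 * k) * (Real.pi * k) ^ k

lemma norm_term_le (hk : 1 ≤ k) {s : ℂ} {h : ℝ} (hh : 0 ≤ h) (hs : 7 * (k : ℝ) / 4 + h ≤ s.re)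
    (hτ : s.im ≠ 0) {i : Fin k → ℕ ⊕ ℕ} (hi : i ≠ i0 k) :
    ‖term s i‖ ≤ ‖GG k s‖ * (KK k * ((k / (k + 1) : ℝ) ^ h + 1 / |s.im|)) * Tw i := by
  have hk1 : (1 : ℝ) ≤ k := by exact_mod_cast hk
  have hpi := Real.pi_gt_three
  have hL := pL_pos hk i
  have hLk := le_pL i
  have hτ0 : 0 < |s.im| := abs_pos.2 hτ
  set x := (pw s i).re with hx
  have hpd : (pd i : ℝ) ≤ k := by exact_mod_cast pd_le i
  have hxd : x = s.re + 9 * k / 4 - pd i := pw_re s i
  have hx1 : 3 * (k : ℝ) + h ≤ x := by rw [hxd]; linarith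
  rw [norm_term hk, norm_GG hk]
  set Γ1 := ‖Complex.Gamma (s + 9 * k / 4)‖ with hΓ1
  set Γ2 := ‖Complex.Gamma (pw s i)‖ with hΓ2
  have hΓ1n : 0 ≤ Γ1 := norm_nonneg _
  have hΓ2n : 0 ≤ Γ2 := norm_nonneg _
  have hTw := Tw_nonneg i
  have hpk : 1 ≤ Real.pi * k := by nlinarith
  have hadd : pw s i + (pd i : ℕ) = s + 9 * k / 4 := by
    unfold pw
    ring
  -- the power factor
  have p1 : (1 / (Real.pi * pL i)) ^ x =
      ((k / pL i : ℝ)) ^ x * ((1 / (Real.pi * k)) ^ (s.re + 9 * k / 4) *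
        (Real.pi * k) ^ (pd i)) := by
    have e1 : (1 / (Real.pi * pL i)) = (k / pL i) * (1 / (Real.pi * k)) := by
      field_simp
    have e2 : (1 / (Real.pi * k)) ^ x = (1 / (Real.pi * k)) ^ (s.re + 9 * k / 4) *
        (Real.pi * k) ^ (pd i) := by
      rw [hxd, Real.rpow_sub (by positivity), Real.rpow_natCast, div_eq_mul_inv]
      congr 1
      rw [one_div, inv_pow, inv_inv]
    rw [e1, Real.mul_rpow (by positivity) (by positivity), e2]
  have hr1 : (k / pL i : ℝ) ≤ 1 := by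
    rw [div_le_one (by linarith)]
    exact hLk
  have hr0 : 0 < (k / pL i : ℝ) := by positivity
  have p2 : (k / pL i : ℝ) ^ x ≤ (k : ℝ) ^ (3 * k) * (pL i ^ (3 * k))⁻¹ * (k / pL i : ℝ) ^ h := by
    calc (k / pL i : ℝ) ^ x ≤ (k / pL i : ℝ) ^ (3 * (k : ℝ) + h) :=
          Real.rpow_le_rpow_of_exponent_ge hr0 hr1 hx1
      _ = _ := by
          rw [Real.rpow_add hr0]
          congr 1
          have : 3 * (k : ℝ) = ((3 * k : ℕ) : ℝ) := by push_cast; rfl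
          rw [this, Real.rpow_natCast, div_pow, div_eq_mul_inv]
  have hrh0 : 0 ≤ (k / pL i : ℝ) ^ h := Real.rpow_nonneg hr0.le _
  have hρ0 : 0 ≤ (k / (k + 1) : ℝ) ^ h := Real.rpow_nonneg (by positivity) _
  -- combined factor
  have p3 : (k / pL i : ℝ) ^ h * ((Real.pi * k) ^ (pd i) * Γ2) ≤
      (Real.pi * k) ^ k * ((k / (k + 1) : ℝ) ^ h + 1 / |s.im|) * Γ1 := by
    rcases Nat.eq_zero_or_pos (pd i) with hd | hd
    · obtain ⟨j, hj⟩ := exists_cn_ge_two hi hd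
      have h1 := succ_le_pL i j hj
      have h2 : (k / pL i : ℝ) ^ h ≤ (k / (k + 1) : ℝ) ^ h := by
        apply Real.rpow_le_rpow hr0.le _ hh
        apply div_le_div_of_nonneg_left (by positivity) (by positivity) h1
      have h3 : Γ2 = Γ1 := by
        rw [hΓ1, hΓ2, ← hadd, hd]
        simp
      rw [hd, h3, pow_zero, one_mul]
      have h4 : 1 ≤ (Real.pi * k) ^ k := one_le_pow₀ hpk
      have h5 : 0 ≤ 1 / |s.im| := by positivity
      calc (k / pL i : ℝ) ^ h * Γ1 ≤ (k / (k + 1) : ℝ) ^ h * Γ1 := by gcongr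
        _ = 1 * ((k / (k + 1) : ℝ) ^ h + 0) * Γ1 := by ring
        _ ≤ _ := by gcongr
    · have h2 : (k / pL i : ℝ) ^ h ≤ 1 := Real.rpow_le_one hr0.le hr1 hh
      have h3 : Γ2 * |s.im| ≤ Γ1 := by
        have := norm_Gamma_mul_im_le (pd i) hd (w := pw s i) (by
          rw [← hx]
          linarith)
        rw [hadd, pw_im] at this
        exact this
      have h4 : Γ2 ≤ 1 / |s.im| * Γ1 := by
        rw [one_div, inv_mul_eq_div, le_div_iff₀ hτ0]
        exact h3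
      have h5 : (Real.pi * k) ^ (pd i) ≤ (Real.pi * k) ^ k := pow_le_pow_right₀ hpk (pd_le i)
      calc (k / pL i : ℝ) ^ h * ((Real.pi * k) ^ (pd i) * Γ2) ≤
          1 * ((Real.pi * k) ^ k * (1 / |s.im| * Γ1)) := by gcongr
        _ = (Real.pi * k) ^ k * (0 + 1 / |s.im|) * Γ1 := by ring
        _ ≤ _ := by gcongr
  have p4 := pA_mul_le hk i
  have hinv : 0 ≤ (pL i ^ (3 * k))⁻¹ := by positivity
  have hG0 : 0 ≤ (1 / (Real.pi * k)) ^ (s.re + 9 * k / 4) := Real.rpow_nonneg (by positivity) _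
  rw [p1]
  calc |pA i| * (1 / 4 * (((k / pL i : ℝ)) ^ x * ((1 / (Real.pi * k)) ^ (s.re + 9 * k / 4) *
        (Real.pi * k) ^ (pd i)) * Γ2)) ≤
      |pA i| * (1 / 4 * (((k : ℝ) ^ (3 * k) * (pL i ^ (3 * k))⁻¹ * (k / pL i : ℝ) ^ h) *
        ((1 / (Real.pi * k)) ^ (s.re + 9 * k / 4) * (Real.pi * k) ^ (pd i)) * Γ2)) := by
        gcongr
    _ = (|pA i| * (pL i ^ (3 * k))⁻¹) * (1 / 4 * (k : ℝ) ^ (3 * k) *
        (1 / (Real.pi * k)) ^ (s.re + 9 * k / 4)) *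
        ((k / pL i : ℝ) ^ h * ((Real.pi * k) ^ (pd i) * Γ2)) := by ring
    _ ≤ ((2 * Real.pi ^ 2) ^ k * Tw i) * (1 / 4 * (k : ℝ) ^ (3 * k) *
        (1 / (Real.pi * k)) ^ (s.re + 9 * k / 4)) *
        ((Real.pi * k) ^ k * ((k / (k + 1) : ℝ) ^ h + 1 / |s.im|) * Γ1) := by
        gcongr
    _ = _ := by
        unfold KK
        ring

/-- Comparison of `M_k` with `G_k`. -/
lemma norm_MM_sub_GG_le (hk : 1 ≤ k) {s : ℂ} {h : ℝ} (hh : (k : ℝ) ≤ h)
    (hs : 7 * (k : ℝ) / 4 + h ≤ s.re) (hτ : s.im ≠ 0) :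
    ‖MM k s - GG k s‖ ≤ ‖GG k s‖ * (KK k * ((k / (k + 1) : ℝ) ^ h + 1 / |s.im|)) *
      ∑' i : Fin k → ℕ ⊕ ℕ, Tw i := by
  classical
  have hk0 : (0 : ℝ) ≤ k := Nat.cast_nonneg k
  have h1 := hasSum_MM hk (s := s) (by linarith)
  have h2 := hasSum_ite_sub_hasSum h1 (i0 k)
  rw [term_i0] at h2
  have h3 := (summable_Tw k).hasSum.mul_left
    (‖GG k s‖ * (KK k * ((k / (k + 1) : ℝ) ^ h + 1 / |s.im|)))
  refine h2.norm_le_of_bounded h3 ?_
  intro i
  split_ifs with hi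
  · rw [norm_zero]
    have := Tw_nonneg i
    have : 0 ≤ KK k := by unfold KK; have := Real.pi_pos; positivity
    positivity
  · exact norm_term_le hk (by linarith) hs hτ hi

lemma Gamma_arg_ne_zero (hk : 1 ≤ k) {s : ℂ} (hs : 0 ≤ s.re) :
    Complex.Gamma (s + 9 * k / 4) ≠ 0 := by
  apply Complex.Gamma_ne_zero_of_re_pos
  have hk1 : (1 : ℝ) ≤ k := by exact_mod_cast hk
  simp
  linarith

lemma GG_ne_zero (hk : 1 ≤ k) {s : ℂ} (hs : 0 ≤ s.re) : GG k s ≠ 0 := by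
  have hk1 : (1 : ℝ) ≤ k := by exact_mod_cast hk
  have hpi := Real.pi_pos
  have h1 := Gamma_arg_ne_zero hk hs
  rw [← norm_pos_iff, norm_GG hk]
  have h2 : 0 < ‖Complex.Gamma (s + 9 * k / 4)‖ := norm_pos_iff.2 h1
  positivity

/-- In a half plane `Re s ≥ σ₁`, `|Im s| ≥ T₁` the quotient `M_k/G_k` is close to `1`. -/
theorem exists_close (hk : 1 ≤ k) : ∃ σ1 T1 : ℝ, 1 ≤ σ1 ∧ 1 ≤ T1 ∧
    ∀ s : ℂ, σ1 ≤ s.re → T1 ≤ |s.im| → ‖MM k s / GG k s - 1‖ ≤ 1 / 2 := by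
  have hk1 : (1 : ℝ) ≤ k := by exact_mod_cast hk
  have hpi := Real.pi_pos
  set S := ∑' i : Fin k → ℕ ⊕ ℕ, Tw i with hS
  have hS0 : 0 ≤ S := tsum_nonneg Tw_nonneg
  have hK0 : 0 ≤ KK k := by unfold KK; positivity
  set c := KK k * S + 1 with hc
  have hc0 : 0 < c := by positivity
  have hρ : (k / (k + 1) : ℝ) < 1 := by
    rw [div_lt_one (by positivity)]
    linarith
  have hρ0 : 0 < (k / (k + 1) : ℝ) := by positivity
  have hlim : Tendsto (fun n : ℕ => (k / (k + 1) : ℝ) ^ n) atTop (𝓝 0) :=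
    tendsto_pow_atTop_nhds_zero_of_lt_one hρ0.le hρ
  have hev := (hlim.eventually_lt_const (by positivity : 0 < 1 / (4 * c))).and
    (eventually_ge_atTop k)
  obtain ⟨n, hn1, hn2⟩ := hev.exists
  refine ⟨7 * k / 4 + n, max 1 (4 * c), ?_, le_max_left _ _, ?_⟩
  · have : (0 : ℝ) ≤ n := Nat.cast_nonneg n
    linarith
  · intro s hs1 hs2
    have hτ1 : 1 ≤ |s.im| := (le_max_left _ _).trans hs2
    have hτ2 : 4 * c ≤ |s.im| := (le_max_right _ _).trans hs2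
    have hτ : s.im ≠ 0 := by
      intro h
      rw [h, abs_zero] at hτ1
      linarith
    have hn3 : (k : ℝ) ≤ n := by exact_mod_cast hn2
    have h1 := norm_MM_sub_GG_le hk hn3 hs1 hτ
    have hre : 0 ≤ s.re := by
      have : (0 : ℝ) ≤ n := Nat.cast_nonneg n
      linarith
    have hG := GG_ne_zero hk hre
    have hGn : 0 < ‖GG k s‖ := norm_pos_iff.2 hG
    have e1 : MM k s / GG k s - 1 = (MM k s - GG k s) / GG k s := by
      field_simp
    rw [e1, norm_div, div_le_iff₀ hGn]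
    refine h1.trans ?_
    rw [Real.rpow_natCast]
    have h2 : 1 / |s.im| ≤ 1 / (4 * c) := one_div_le_one_div_of_le (by positivity) hτ2
    have h3 : KK k * ((k / (k + 1) : ℝ) ^ n + 1 / |s.im|) * S ≤ 1 / 2 := by
      calc KK k * ((k / (k + 1) : ℝ) ^ n + 1 / |s.im|) * S ≤
          KK k * (1 / (4 * c) + 1 / (4 * c)) * S := by gcongr
        _ = (KK k * S) * (1 / (2 * c)) := by ring
        _ ≤ c * (1 / (2 * c)) := by
            gcongr
            linarith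
        _ = 1 / 2 := by field_simp
    calc ‖GG k s‖ * (KK k * ((k / (k + 1) : ℝ) ^ n + 1 / |s.im|)) * S =
        ‖GG k s‖ * (KK k * ((k / (k + 1) : ℝ) ^ n + 1 / |s.im|) * S) := by ring
      _ ≤ ‖GG k s‖ * (1 / 2) := by gcongr
      _ = _ := by ring

end Pool.Agent.H10
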