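import Mathlib

/-!
# Bounds for the Gamma function on vertical lines
-/

namespace Pool.Agent.H10

open MeasureTheory Complex Filter Topology Set

lemma norm_Gamma_half_sq (τ : ℝ) :
    ‖Complex.Gamma (1 / 2 + τ * I)‖ ^ 2 = Real.pi / Real.cosh (Real.pi * τ) := by
  have h := Complex.Gamma_mul_Gamma_one_sub (1 / 2 + τ * I)
  have e1 : (1 - (1 / 2 + τ * I) : ℂ) = starRingEnd ℂ (1 / 2 + τ * I) := by
    apply Complex.ext <;> simp
    norm_num
  rw [e1, Complex.Gamma_conj, Complex.mul_conj] at h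
  have e2 : (Real.pi * (1 / 2 + τ * I) : ℂ) = (Real.pi * τ : ℝ) * I + Real.pi / 2 := by
    push_cast
    ring
  rw [e2, Complex.sin_add_pi_div_two, Complex.cos_mul_I, ← Complex.ofReal_cosh,
    ← Complex.ofReal_div] at h
  have h2 := Complex.ofReal_injective h
  rw [← h2, Complex.normSq_eq_norm_sq]

lemma cosh_le_exp_abs (x : ℝ) : Real.cosh x ≤ Real.exp |x| := by
  rw [← Real.cosh_abs, Real.cosh_eq]
  have : Real.exp (-|x|) ≤ Real.exp |x| := by
    apply Real.exp_le_exp.2
    have := abs_nonneg x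
    linarith
  linarith

lemma exp_abs_le_two_cosh (x : ℝ) : Real.exp |x| ≤ 2 * Real.cosh x := by
  rw [← Real.cosh_abs, Real.cosh_eq]
  have := Real.exp_pos (-|x|)
  linarith

lemma norm_Gamma_half_lower (τ : ℝ) :
    Real.exp (-(Real.pi / 2 * |τ|)) ≤ ‖Complex.Gamma (1 / 2 + τ * I)‖ := by
  have h := norm_Gamma_half_sq τ
  have h1 := cosh_le_exp_abs (Real.pi * τ)
  rw [abs_mul, abs_of_pos Real.pi_pos] at h1
  have hc : 0 < Real.cosh (Real.pi * τ) := Real.cosh_pos _
  apply le_of_sq_le_sq _ (norm_nonneg _)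
  rw [h, ← Real.exp_nat_mul, le_div_iff₀ hc]
  have e : (((2 : ℕ) : ℝ) * -(Real.pi / 2 * |τ|)) = -(Real.pi * |τ|) := by push_cast; ring
  rw [e]
  calc Real.exp (-(Real.pi * |τ|)) * Real.cosh (Real.pi * τ) ≤
      Real.exp (-(Real.pi * |τ|)) * Real.exp (Real.pi * |τ|) := by gcongr
    _ = 1 := by rw [← Real.exp_add]; simp
    _ ≤ Real.pi := by linarith [Real.pi_gt_three]

lemma norm_Gamma_half_upper (τ : ℝ) :
    ‖Complex.Gamma (1 / 2 + τ * I)‖ ≤ 3 * Real.exp (-(Real.pi / 2 * |τ|)) := by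
  have h := norm_Gamma_half_sq τ
  have h1 := exp_abs_le_two_cosh (Real.pi * τ)
  rw [abs_mul, abs_of_pos Real.pi_pos] at h1
  have hc : 0 < Real.cosh (Real.pi * τ) := Real.cosh_pos _
  apply le_of_sq_le_sq _ (by positivity)
  rw [h, mul_pow, ← Real.exp_nat_mul, div_le_iff₀ hc]
  have e : (((2 : ℕ) : ℝ) * -(Real.pi / 2 * |τ|)) = -(Real.pi * |τ|) := by push_cast; ring
  rw [e]
  have hpi := Real.pi_lt_d2
  calc Real.pi ≤ 3 ^ 2 * (1 / 2) := by linarith
    _ = 3 ^ 2 * ((1 / 2) * (Real.exp (-(Real.pi * |τ|)) * Real.exp (Real.pi * |τ|))) := by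
        rw [← Real.exp_add]; simp
    _ ≤ 3 ^ 2 * ((1 / 2) * (Real.exp (-(Real.pi * |τ|)) * (2 * Real.cosh (Real.pi * τ)))) := by
        gcongr
    _ = _ := by ring

lemma norm_ofReal_cpow_le_one {y : ℝ} (hy0 : 0 ≤ y) (hy1 : y ≤ 1) {w : ℂ} (hw : 0 ≤ w.re) :
    ‖(y : ℂ) ^ w‖ ≤ 1 := by
  rcases eq_or_lt_of_le hy0 with h | h
  · rw [← h]
    by_cases hw0 : w = 0
    · simp [hw0]
    · rw [Complex.ofReal_zero, Complex.zero_cpow hw0]
      simp
  · rw [Complex.norm_cpow_eq_rpow_re_of_pos h]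
    exact Real.rpow_le_one h.le hy1 hw

lemma norm_beta_half_le {a : ℝ} (ha : 1 ≤ a) (τ : ℝ) :
    ‖Complex.betaIntegral (1 / 2 + τ * I) a‖ ≤ 2 := by
  unfold Complex.betaIntegral
  have h := intervalIntegral.norm_integral_le_of_norm_le (μ := volume) (a := 0) (b := 1)
    (f := fun x : ℝ => (x : ℂ) ^ ((1 / 2 + τ * I : ℂ) - 1) * (1 - (x : ℂ)) ^ ((a : ℂ) - 1))
    (g := fun x : ℝ => x ^ (-(1 / 2) : ℝ)) zero_le_one (by
      refine Eventually.of_forall ?_
      intro x hx
      rw [norm_mul, Complex.norm_cpow_eq_rpow_re_of_pos hx.1]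
      have e1 : ((1 / 2 + τ * I : ℂ) - 1).re = (-(1 / 2) : ℝ) := by simp; norm_num
      rw [e1]
      have e2 : (1 - (x : ℂ)) = ((1 - x : ℝ) : ℂ) := by push_cast; rfl
      rw [e2]
      have h2 := norm_ofReal_cpow_le_one (y := 1 - x) (by linarith [hx.2]) (by linarith [hx.1])
        (w := (a : ℂ) - 1) (by simp [ha])
      have h3 : 0 ≤ x ^ (-(1 / 2) : ℝ) := Real.rpow_nonneg hx.1.le _
      nlinarith) (intervalIntegral.intervalIntegrable_rpow' (by norm_num))
  refine h.trans ?_
  rw [integral_rpow (Or.inl (by norm_num))]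
  norm_num

/-- lower bound for `Γ` on vertical lines. -/
lemma norm_Gamma_lower {w : ℂ} (hw : 5 / 2 ≤ w.re) :
    1 / 2 * Real.exp (-(Real.pi / 2 * |w.im|)) ≤ ‖Complex.Gamma w‖ := by
  set a : ℝ := w.re - 1 / 2 with ha
  have h1 := Complex.Gamma_mul_Gamma_eq_betaIntegral (s := 1 / 2 + w.im * I) (t := a)
    (by simp) (by simp [ha]; linarith)
  have e1 : (1 / 2 + w.im * I + a : ℂ) = w := by
    apply Complex.ext <;> simp [ha]
  rw [e1] at h1
  have h2 := norm_beta_half_le (a := a) (by rw [ha]; linarith) w.im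
  have h3 := congrArg norm h1
  rw [norm_mul, norm_mul] at h3
  have h4 := norm_Gamma_half_lower w.im
  have h5 : 1 ≤ ‖Complex.Gamma (a : ℂ)‖ := by
    rw [Complex.Gamma_ofReal, Complex.norm_real, Real.norm_eq_abs]
    have h6 : Real.Gamma 2 ≤ Real.Gamma a := by
      apply Real.Gamma_strictMonoOn_Ici.monotoneOn
      · simp
      · show (2 : ℝ) ≤ a
        rw [ha]; linarith
      · rw [ha]; linarith
    rw [Real.Gamma_two] at h6
    exact h6.trans (le_abs_self _)
  have h7 := norm_nonneg (Complex.Gamma w)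
  have h8 := Real.exp_pos (-(Real.pi / 2 * |w.im|))
  nlinarith

lemma beta_bound {a : ℝ} (ha : 0 < a) (ha1 : a ≤ 1) {s : ℂ} (hs : 1 ≤ s.re) (hτ : 1 ≤ |s.im|) :
    ‖Complex.betaIntegral a s‖ ≤ (1 / a + 2) * |s.im| ^ (-a) := by
  have hint := Complex.betaIntegral_convergent (u := (a : ℂ)) (v := s) (by simpa using ha)
    (by linarith)
  unfold Complex.betaIntegral
  set τ := |s.im| with hτdef
  have hτ0 : 0 < τ := by linarith
  set h : ℝ := τ⁻¹ with hh
  have hh0 : 0 < h := by positivity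
  have hh1 : h ≤ 1 := by
    rw [hh]
    exact inv_le_one_of_one_le₀ hτ
  have hs0 : s ≠ 0 := by
    rintro rfl
    simp at hs
    linarith
  have hsn : τ ≤ ‖s‖ := Complex.abs_im_le_norm s
  have hsn0 : 0 < ‖s‖ := by linarith
  have hi1 : IntervalIntegrable (fun x : ℝ => (x : ℂ) ^ ((a : ℂ) - 1) * (1 - (x : ℂ)) ^ (s - 1))
      volume 0 h := hint.mono_set (by
        rw [uIcc_of_le hh0.le, uIcc_of_le zero_le_one]
        exact Icc_subset_Icc_right hh1)
  have hi2 : IntervalIntegrable (fun x : ℝ => (x : ℂ) ^ ((a : ℂ) - 1) * (1 - (x : ℂ)) ^ (s - 1))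
      volume h 1 := hint.mono_set (by
        rw [uIcc_of_le hh1, uIcc_of_le zero_le_one]
        exact Icc_subset_Icc_left hh0.le)
  rw [← intervalIntegral.integral_add_adjacent_intervals hi1 hi2]
  have b1 : ‖∫ x in (0 : ℝ)..h, (x : ℂ) ^ ((a : ℂ) - 1) * (1 - (x : ℂ)) ^ (s - 1)‖ ≤
      h ^ a / a := by
    have h1 := intervalIntegral.norm_integral_le_of_norm_le (μ := volume) (a := 0) (b := h)
      (f := fun x : ℝ => (x : ℂ) ^ ((a : ℂ) - 1) * (1 - (x : ℂ)) ^ (s - 1))
      (g := fun x : ℝ => x ^ (a - 1)) hh0.le (by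
        refine Eventually.of_forall ?_
        intro x hx
        rw [norm_mul, Complex.norm_cpow_eq_rpow_re_of_pos hx.1]
        have e1 : ((a : ℂ) - 1).re = a - 1 := by simp
        rw [e1]
        have e2 : (1 - (x : ℂ)) = ((1 - x : ℝ) : ℂ) := by push_cast; rfl
        rw [e2]
        have h2 := norm_ofReal_cpow_le_one (y := 1 - x) (by linarith [hx.2]) (by linarith [hx.1])
          (w := s - 1) (by simp [hs])
        have h3 : 0 ≤ x ^ (a - 1) := Real.rpow_nonneg hx.1.le _
        nlinarith) (intervalIntegral.intervalIntegrable_rpow' (by linarith))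
    refine h1.trans ?_
    rw [integral_rpow (Or.inl (by linarith))]
    have e : a - 1 + 1 = a := by ring
    rw [e, Real.zero_rpow ha.ne', sub_zero]
  have b2 : ‖∫ x in h..1, (x : ℂ) ^ ((a : ℂ) - 1) * (1 - (x : ℂ)) ^ (s - 1)‖ ≤
      2 * h ^ (a - 1) / τ := by
    -- integration by parts
    have hcongr : (∫ x in h..1, (x : ℂ) ^ ((a : ℂ) - 1) * (1 - (x : ℂ)) ^ (s - 1)) =
        ∫ x in h..1, ((x ^ (a - 1) : ℝ) : ℂ) * (((1 - x : ℝ) : ℂ)) ^ (s - 1) := by
      apply intervalIntegral.integral_congr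
      intro x hx
      rw [uIcc_of_le hh1] at hx
      have hx0 : 0 ≤ x := hh0.le.trans hx.1
      beta_reduce
      rw [Complex.ofReal_cpow hx0]
      push_cast
      rfl
    rw [hcongr]
    have hparts := intervalIntegral.integral_mul_deriv_eq_deriv_mul_of_hasDerivAt
      (a := h) (b := 1)
      (u := fun x : ℝ => ((x ^ (a - 1) : ℝ) : ℂ))
      (u' := fun x : ℝ => (((a - 1) * x ^ (a - 2) : ℝ) : ℂ))
      (v := fun x : ℝ => -((((1 - x : ℝ) : ℂ)) ^ s / s))
      (v' := fun x : ℝ => (((1 - x : ℝ) : ℂ)) ^ (s - 1))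
      (by
        rw [uIcc_of_le hh1]
        apply Complex.continuous_ofReal.comp_continuousOn
        intro x hx
        exact (Real.continuousAt_rpow_const x _ (Or.inl (hh0.trans_le hx.1).ne')).continuousWithinAt)
      (by
        apply Continuous.continuousOn
        apply Continuous.neg
        apply Continuous.div_const
        have := Complex.continuous_ofReal_cpow_const (y := s) (by linarith)
        exact this.comp (by fun_prop : Continuous (fun x : ℝ => 1 - x)))
      (by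
        intro x hx
        rw [min_eq_left hh1, max_eq_right hh1] at hx
        have hx0 : 0 < x := hh0.trans hx.1
        have := (Real.hasDerivAt_rpow_const (x := x) (p := a - 1) (Or.inl hx0.ne')).ofReal_comp
        refine this.congr_deriv ?_
        have : a - 1 - 1 = a - 2 := by ring
        rw [this])
      (by
        intro x hx
        rw [min_eq_left hh1, max_eq_right hh1] at hx
        have hx1 : (1 - x) ≠ 0 := by linarith [hx.2]
        have h1 := hasDerivAt_ofReal_cpow_const (x := 1 - x) hx1 (r := s) hs0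
        have h2 : HasDerivAt (fun x : ℝ => 1 - x) (-1) x := by
          simpa using (hasDerivAt_id' x).const_sub 1
        have h3 := HasDerivAt.scomp x h1 h2
        have h4 := (h3.div_const s).neg
        refine h4.congr_deriv ?_
        simp only [neg_smul, one_smul]
        field_simp)
      (by
        apply ContinuousOn.intervalIntegrable
        rw [uIcc_of_le hh1]
        apply Complex.continuous_ofReal.comp_continuousOn
        apply ContinuousOn.mul continuousOn_const
        intro x hx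
        exact (Real.continuousAt_rpow_const x _ (Or.inl (hh0.trans_le hx.1).ne')).continuousWithinAt)
      (by
        apply IntervalIntegrable.congr (f := fun x : ℝ => (((1 - x : ℝ) : ℂ)) ^ (s - 1))
        · exact fun _ _ => rfl
        · by_cases hs1 : s.re = 1
          · have h1 := intervalIntegral.intervalIntegrable_cpow' (a := 1 - h) (b := 0)
              (r := s - 1) (by simp [hs1])
            have h2 := h1.comp_sub_left 1
            simpa using h2
          · have h1 := intervalIntegral.intervalIntegrable_cpow' (a := 1 - h) (b := 0)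
              (r := s - 1) (by simp; linarith)
            have h2 := h1.comp_sub_left 1
            simpa using h2)
    rw [hparts]
    have v1 : ((1 : ℝ) - 1 : ℝ) = 0 := by norm_num
    simp only [v1, Complex.ofReal_zero, Complex.zero_cpow hs0, zero_div, neg_zero, mul_zero,
      zero_sub]
    have c1 : ‖((h ^ (a - 1) : ℝ) : ℂ) * -((((1 - h : ℝ) : ℂ)) ^ s / s)‖ ≤ h ^ (a - 1) / τ := by
      rw [norm_mul, norm_neg, norm_div, Complex.norm_real, Real.norm_eq_abs,
        abs_of_nonneg (Real.rpow_nonneg hh0.le _)]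
      have := norm_ofReal_cpow_le_one (y := 1 - h) (by linarith) (by linarith) (w := s)
        (by linarith)
      have h3 : 0 ≤ h ^ (a - 1) := Real.rpow_nonneg hh0.le _
      calc h ^ (a - 1) * (‖(((1 - h : ℝ) : ℂ)) ^ s‖ / ‖s‖) ≤ h ^ (a - 1) * (1 / τ) := by
            gcongr
        _ = _ := by ring
    have c2 : ‖∫ x in h..1, (((a - 1) * x ^ (a - 2) : ℝ) : ℂ) * -((((1 - x : ℝ) : ℂ)) ^ s / s)‖ ≤
        (h ^ (a - 1) - 1) / τ := by
      have h1 := intervalIntegral.norm_integral_le_of_norm_le (μ := volume) (a := h) (b := 1)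
        (f := fun x : ℝ => (((a - 1) * x ^ (a - 2) : ℝ) : ℂ) * -((((1 - x : ℝ) : ℂ)) ^ s / s))
        (g := fun x : ℝ => ((1 - a) / τ) * x ^ (a - 2)) hh1 (by
          refine Eventually.of_forall ?_
          intro x hx
          have hx0 : 0 < x := hh0.trans hx.1
          rw [norm_mul, norm_neg, norm_div, Complex.norm_real, Real.norm_eq_abs, abs_mul,
            abs_of_nonneg (Real.rpow_nonneg hx0.le _), abs_of_nonpos (by linarith : a - 1 ≤ 0)]
          have := norm_ofReal_cpow_le_one (y := 1 - x) (by linarith [hx.2]) (by linarith [hx0])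
            (w := s) (by linarith)
          have h3 : 0 ≤ x ^ (a - 2) := Real.rpow_nonneg hx0.le _
          have h4 : 0 ≤ 1 - a := by linarith
          calc -(a - 1) * x ^ (a - 2) * (‖(((1 - x : ℝ) : ℂ)) ^ s‖ / ‖s‖) ≤
              -(a - 1) * x ^ (a - 2) * (1 / τ) := by
                have : 0 ≤ -(a - 1) * x ^ (a - 2) := by
                  rw [neg_sub]; positivity
                gcongr
            _ = _ := by ring) (by
          apply ContinuousOn.intervalIntegrable
          rw [uIcc_of_le hh1]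
          apply ContinuousOn.mul continuousOn_const
          intro x hx
          exact (Real.continuousAt_rpow_const x _
            (Or.inl (hh0.trans_le hx.1).ne')).continuousWithinAt)
      refine h1.trans ?_
      rw [intervalIntegral.integral_const_mul]
      by_cases ha' : a = 1
      · rw [ha']
        simp
      · have hlt : a < 1 := lt_of_le_of_ne ha1 ha'
        rw [integral_rpow (Or.inr ⟨by intro h; linarith, by
          rw [uIcc_of_le hh1]
          intro h0
          linarith [h0.1]⟩)]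
        have e : a - 2 + 1 = a - 1 := by ring
        rw [e, Real.one_rpow]
        have : a - 1 ≠ 0 := by intro h; linarith
        apply le_of_eq
        field_simp
        ring
    calc ‖-(((h ^ (a - 1) : ℝ) : ℂ) * -((((1 - h : ℝ) : ℂ)) ^ s / s)) -
        ∫ x in h..1, (((a - 1) * x ^ (a - 2) : ℝ) : ℂ) * -((((1 - x : ℝ) : ℂ)) ^ s / s)‖ ≤
        h ^ (a - 1) / τ + (h ^ (a - 1) - 1) / τ := by
          refine (norm_sub_le _ _).trans ?_
          rw [norm_neg]
          exact add_le_add c1 c2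
      _ ≤ 2 * h ^ (a - 1) / τ := by
          have : 0 < 1 / τ := by positivity
          have e : h ^ (a - 1) / τ + (h ^ (a - 1) - 1) / τ = 2 * h ^ (a - 1) / τ - 1 / τ := by ring
          rw [e]
          linarith
  refine (norm_add_le _ _).trans ((add_le_add b1 b2).trans ?_)
  have e1 : h ^ a = τ ^ (-a) := by
    rw [hh, Real.inv_rpow hτ0.le, Real.rpow_neg hτ0.le]
  have e2 : h ^ (a - 1) / τ = τ ^ (-a) := by
    rw [hh, Real.inv_rpow hτ0.le, ← Real.rpow_neg hτ0.le]
    have : -(a - 1) = -a + 1 := by ring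
    rw [this, Real.rpow_add_one hτ0.ne']
    field_simp
  have e3 : 2 * h ^ (a - 1) / τ = 2 * (h ^ (a - 1) / τ) := by ring
  rw [e3, e2, e1]
  apply le_of_eq
  ring

lemma exists_Gamma_nat_half (n : ℕ) : ∃ C : ℝ, 0 < C ∧ ∀ τ : ℝ, 1 ≤ |τ| →
    ‖Complex.Gamma (n + 1 / 2 + τ * I)‖ ≤ C * |τ| ^ n * Real.exp (-(Real.pi / 2 * |τ|)) := by
  induction n with
  | zero =>
    refine ⟨3, by norm_num, fun τ _ => ?_⟩
    have := norm_Gamma_half_upper τ
    simpa using this
  | succ n ih =>
    obtain ⟨C, hC, hb⟩ := ih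
    refine ⟨C * (n + 2), by positivity, fun τ hτ => ?_⟩
    have h1 := hb τ hτ
    have hne : (n + 1 / 2 + τ * I : ℂ) ≠ 0 := by
      intro h
      have := congrArg Complex.re h
      simp at this
      have : (0 : ℝ) ≤ n := Nat.cast_nonneg n
      linarith
    have e1 : (((n + 1 : ℕ) : ℂ) + 1 / 2 + τ * I) = (n + 1 / 2 + τ * I) + 1 := by
      push_cast
      ring
    rw [e1, Complex.Gamma_add_one _ hne, norm_mul]
    have h2 : ‖(n + 1 / 2 + τ * I : ℂ)‖ ≤ (n + 2) * |τ| := by
      have e2 : (n + 1 / 2 + τ * I : ℂ) = ((n + 1 / 2 : ℝ) : ℂ) + τ * I := by push_cast; ring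
      rw [e2]
      refine (norm_add_le _ _).trans ?_
      rw [norm_mul, Complex.norm_I, Complex.norm_real, Complex.norm_real, Real.norm_eq_abs,
        Real.norm_eq_abs, abs_of_nonneg (by positivity)]
      have : (0 : ℝ) ≤ n := Nat.cast_nonneg n
      nlinarith
    calc ‖(n + 1 / 2 + τ * I : ℂ)‖ * ‖Complex.Gamma (n + 1 / 2 + τ * I)‖ ≤
        ((n + 2) * |τ|) * (C * |τ| ^ n * Real.exp (-(Real.pi / 2 * |τ|))) := by gcongr
      _ = _ := by rw [pow_succ]; ring

/-- sharp upper bound for `Γ` on vertical lines. -/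
theorem exists_Gamma_upper {σ : ℝ} (hσ : 1 ≤ σ) : ∃ C : ℝ, 0 < C ∧ ∀ τ : ℝ, 1 ≤ |τ| →
    ‖Complex.Gamma (σ + τ * I)‖ ≤ C * |τ| ^ (σ - 1 / 2) * Real.exp (-(Real.pi / 2 * |τ|)) := by
  set n : ℕ := ⌊σ + 1 / 2⌋₊ with hn
  have hn1 : (n : ℝ) ≤ σ + 1 / 2 := Nat.floor_le (by linarith)
  have hn2 : σ + 1 / 2 < n + 1 := Nat.lt_floor_add_one _
  set a : ℝ := n + 1 / 2 - σ with ha
  have ha0 : 0 < a := by rw [ha]; linarith
  have ha1 : a ≤ 1 := by rw [ha]; linarith
  obtain ⟨C, hC, hb⟩ := exists_Gamma_nat_half n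
  have hΓa : 0 < Real.Gamma a := Real.Gamma_pos_of_pos ha0
  refine ⟨C * (1 / a + 2) / Real.Gamma a, by positivity, fun τ hτ => ?_⟩
  have hτ0 : 0 < |τ| := by linarith
  have h1 := Complex.Gamma_mul_Gamma_eq_betaIntegral (s := (a : ℂ)) (t := σ + τ * I)
    (by simpa using ha0) (by simp; linarith)
  have e1 : (a + (σ + τ * I) : ℂ) = n + 1 / 2 + τ * I := by
    rw [ha]
    push_cast
    ring
  rw [e1] at h1
  have h2 := beta_bound ha0 ha1 (s := σ + τ * I) (by simpa using hσ) (by simpa using hτ)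
  have e2 : (σ + τ * I : ℂ).im = τ := by simp
  rw [e2] at h2
  have h3 := congrArg norm h1
  rw [norm_mul, norm_mul, Complex.Gamma_ofReal, Complex.norm_real, Real.norm_eq_abs,
    abs_of_pos hΓa] at h3
  have h4 := hb τ hτ
  have h5 : ‖Complex.Gamma (σ + τ * I)‖ = ‖Complex.Gamma (n + 1 / 2 + τ * I)‖ *
      ‖Complex.betaIntegral a (σ + τ * I)‖ / Real.Gamma a := by
    rw [← h3]
    field_simp
  rw [h5]
  have e3 : |τ| ^ (σ - 1 / 2) = |τ| ^ n * |τ| ^ (-a) := by
    rw [← Real.rpow_natCast, ← Real.rpow_add hτ0]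
    congr 1
    rw [ha]
    ring
  rw [e3]
  calc ‖Complex.Gamma (n + 1 / 2 + τ * I)‖ * ‖Complex.betaIntegral a (σ + τ * I)‖ / Real.Gamma a ≤
      (C * |τ| ^ n * Real.exp (-(Real.pi / 2 * |τ|))) * ((1 / a + 2) * |τ| ^ (-a)) /
        Real.Gamma a := by gcongr
    _ = _ := by ring

/-- comparison of `Γ(w)` and `Γ(w + m)`. -/
lemma norm_Gamma_le_add_nat (m : ℕ) {w : ℂ} (hw : 1 ≤ w.re) :
    ‖Complex.Gamma w‖ ≤ ‖Complex.Gamma (w + m)‖ := by
  induction m with
  | zero => simp
  | succ m ih =>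
    refine ih.trans ?_
    have hre : 1 ≤ (w + m).re := by
      simp
      have : (0 : ℝ) ≤ m := Nat.cast_nonneg m
      linarith
    have hne : (w + m) ≠ 0 := by
      intro h
      rw [h] at hre
      simp at hre
      linarith
    have e1 : (w + ((m + 1 : ℕ) : ℂ)) = (w + m) + 1 := by push_cast; ring
    rw [e1, Complex.Gamma_add_one _ hne, norm_mul]
    have h1 : 1 ≤ ‖w + m‖ := hre.trans ((le_abs_self _).trans (Complex.abs_re_le_norm _))
    have h2 := norm_nonneg (Complex.Gamma (w + m))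
    nlinarith

lemma norm_Gamma_mul_im_le (m : ℕ) (hm : 1 ≤ m) {w : ℂ} (hw : 1 ≤ w.re) :
    ‖Complex.Gamma w‖ * |w.im| ≤ ‖Complex.Gamma (w + m)‖ := by
  obtain ⟨n, rfl⟩ := Nat.exists_eq_add_of_le hm
  have hne : w ≠ 0 := by
    rintro rfl
    simp at hw
    linarith
  have h1 := norm_Gamma_le_add_nat n (w := w + 1) (by simp; linarith)
  have e1 : (w + ((1 + n : ℕ) : ℂ)) = w + 1 + n := by push_cast; ring
  rw [e1]
  refine le_trans ?_ h1
  rw [Complex.Gamma_add_one _ hne, norm_mul, mul_comm]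
  have := Complex.abs_im_le_norm w
  have h2 := norm_nonneg (Complex.Gamma w)
  gcongr

end Pool.Agent.H10
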