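import Pool.Agent.H10.GammaB

/-!
# `∫_ℝ e^{4wt} exp(-r e^{4t}) dt = Γ(w) r^{-w} / 4`, and products of series
-/

namespace Pool.Agent.H10

open MeasureTheory Complex Filter Topology Set

/-- `t ↦ e^{4t}` -/
private lemma image_exp4 : (fun t : ℝ => Real.exp (4 * t)) '' univ = Ioi 0 := by
  rw [image_univ]
  ext x
  simp only [mem_range, mem_Ioi]
  constructor
  · rintro ⟨y, rfl⟩
    positivity
  · intro hx
    refine ⟨Real.log x / 4, ?_⟩
    have : 4 * (Real.log x / 4) = Real.log x := by ring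
    rw [this, Real.exp_log hx]

private lemma deriv_exp4 : ∀ x ∈ (univ : Set ℝ),
    HasDerivWithinAt (fun t : ℝ => Real.exp (4 * t)) (4 * Real.exp (4 * x)) univ x := by
  intro x _
  have := (((hasDerivAt_id' x).const_mul (4 : ℝ)).exp).hasDerivWithinAt (s := univ)
  refine this.congr_deriv ?_
  ring

private lemma injOn_exp4 : InjOn (fun t : ℝ => Real.exp (4 * t)) univ := by
  intro x _ y _ h
  have := Real.exp_injective h
  linarith

/-- integrand -/
noncomputable def gexp (w : ℂ) (r : ℝ) (t : ℝ) : ℂ :=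
  cexp (4 * w * t) * ((Real.exp (-(r * Real.exp (4 * t))) : ℝ) : ℂ)

private lemma gexp_eq (w : ℂ) (r : ℝ) (t : ℝ) :
    |4 * Real.exp (4 * t)| • (((Real.exp (4 * t) : ℝ) : ℂ) ^ (w - 1) *
      cexp (-((r : ℂ) * ((Real.exp (4 * t) : ℝ) : ℂ)))) = 4 * gexp w r t := by
  unfold gexp
  rw [abs_of_pos (by positivity)]
  have h1 : ((Real.exp (4 * t) : ℝ) : ℂ) ^ (w - 1) = cexp (4 * w * t) * cexp (-(4 * t)) := by
    rw [Complex.ofReal_exp, Complex.cpow_def_of_ne_zero (Complex.exp_ne_zero _)]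
    have : Complex.log (cexp ((4 * t : ℝ) : ℂ)) = ((4 * t : ℝ) : ℂ) := by
      rw [← Complex.ofReal_exp, ← Complex.ofReal_log (Real.exp_pos _).le, Real.log_exp]
    rw [this, ← Complex.exp_add]
    congr 1
    push_cast
    ring
  rw [h1, Complex.real_smul]
  push_cast
  have h2 : cexp (4 * (t : ℂ)) * cexp (-(4 * t)) = 1 := by
    rw [← Complex.exp_add]; simp
  calc 4 * cexp (4 * (t : ℂ)) * (cexp (4 * w * t) * cexp (-(4 * t)) *
      cexp (-((r : ℂ) * cexp (4 * (t : ℂ))))) =
      4 * (cexp (4 * (t : ℂ)) * cexp (-(4 * t))) * (cexp (4 * w * t) *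
        cexp (-((r : ℂ) * cexp (4 * (t : ℂ))))) := by ring
    _ = _ := by rw [h2]; ring

lemma integral_gexp {w : ℂ} (hw : 0 < w.re) {r : ℝ} (hr : 0 < r) :
    ∫ t : ℝ, gexp w r t = 1 / 4 * ((1 / r : ℂ) ^ w * Complex.Gamma w) := by
  have h := Complex.integral_cpow_mul_exp_neg_mul_Ioi hw hr
  rw [← image_exp4, integral_image_eq_integral_abs_deriv_smul MeasurableSet.univ deriv_exp4
    injOn_exp4, Measure.restrict_univ] at h
  simp_rw [gexp_eq] at h
  rw [integral_const_mul] at h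
  rw [← h]
  ring

lemma integrable_gexp {w : ℂ} (hw : 0 < w.re) {r : ℝ} (hr : 0 < r) :
    Integrable (gexp w r) := by
  have h1 : IntegrableOn (fun t : ℝ => (t : ℂ) ^ (w - 1) * cexp (-((r : ℂ) * t))) (Ioi 0) := by
    by_contra hcon
    have h := Complex.integral_cpow_mul_exp_neg_mul_Ioi hw hr
    have h2 := integral_undef hcon
    rw [h] at h2
    have h3 : Complex.Gamma w ≠ 0 := Complex.Gamma_ne_zero_of_re_pos hw
    have h4 : (1 / r : ℂ) ^ w ≠ 0 := by
      rw [Ne, Complex.cpow_eq_zero_iff]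
      rintro ⟨h5, -⟩
      have : (r : ℂ) ≠ 0 := by exact_mod_cast hr.ne'
      simp at h5
      exact hr.ne' h5
    exact (mul_ne_zero h4 h3) h2
  rw [← image_exp4, integrableOn_image_iff_integrableOn_abs_deriv_smul MeasurableSet.univ
    deriv_exp4 injOn_exp4, integrableOn_univ] at h1
  simp_rw [gexp_eq] at h1
  have := h1.const_mul (1 / 4 : ℂ)
  refine this.congr (Eventually.of_forall (fun t => ?_))
  show 1 / 4 * (4 * gexp w r t) = gexp w r t
  ring

lemma norm_gexp (w : ℂ) (r t : ℝ) : ‖gexp w r t‖ =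
    (gexp (w.re : ℂ) r t).re := by
  unfold gexp
  rw [norm_mul, Complex.norm_exp, Complex.norm_real, Real.norm_eq_abs,
    abs_of_pos (Real.exp_pos _)]
  have e1 : (4 * w * t).re = 4 * w.re * t := by simp
  have e2 : cexp (4 * ((w.re : ℝ) : ℂ) * t) = ((Real.exp (4 * w.re * t) : ℝ) : ℂ) := by
    push_cast; rfl
  rw [e1, e2, ← Complex.ofReal_mul, Complex.ofReal_re]

lemma integral_norm_gexp {w : ℂ} (hw : 0 < w.re) {r : ℝ} (hr : 0 < r) :
    ∫ t : ℝ, ‖gexp w r t‖ = 1 / 4 * ((1 / r) ^ w.re * Real.Gamma w.re) := by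
  simp_rw [norm_gexp]
  have h := integral_gexp (w := (w.re : ℂ)) (by simpa using hw) hr
  have h1 : Integrable (gexp (w.re : ℂ) r) := integrable_gexp (by simpa using hw) hr
  have h2 : (∫ t : ℝ, gexp (w.re : ℂ) r t).re = ∫ t : ℝ, (gexp (w.re : ℂ) r t).re := by
    have := reCLM.integral_comp_comm h1
    simpa using this.symm
  rw [← h2, h]
  have h3 : (1 / 4 * ((1 / r : ℂ) ^ (w.re : ℂ) * Complex.Gamma (w.re : ℂ))) =
      ((1 / 4 * ((1 / r) ^ w.re * Real.Gamma w.re) : ℝ) : ℂ) := by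
    rw [Complex.Gamma_ofReal]
    push_cast
    rw [Complex.ofReal_cpow (by positivity)]
    push_cast
    rfl
  rw [h3, Complex.ofReal_re]

/-! ### products of series -/

lemma summable_pi_prod {ι : Type*} {f : ι → ℝ} (hf0 : ∀ i, 0 ≤ f i) (hf : Summable f) (k : ℕ) :
    Summable (fun i : Fin k → ι => ∏ j, f (i j)) := by
  induction k with
  | zero => exact (hasSum_unique _).summable
  | succ k ih =>
    have h := hf.mul_of_nonneg ih hf0 (fun i => Finset.prod_nonneg (fun j _ => hf0 _))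
    rw [← (Fin.consEquiv (fun _ : Fin (k + 1) => ι)).summable_iff]
    refine h.congr ?_
    intro x
    simp only [Function.comp_apply, Fin.consEquiv, Equiv.coe_fn_mk, Fin.prod_univ_succ,
      Fin.cons_zero, Fin.cons_succ]

lemma hasSum_pi_prod {ι : Type*} {f : ι → ℂ} (hf : Summable (fun i => ‖f i‖)) {a : ℂ}
    (ha : HasSum f a) (k : ℕ) :
    HasSum (fun i : Fin k → ι => ∏ j, f (i j)) (a ^ k) := by
  induction k with
  | zero =>
    have := hasSum_unique (fun i : Fin 0 → ι => ∏ j, f (i j))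
    simp at this
    simpa using this
  | succ k ih =>
    have hsum : Summable (fun i : Fin k → ι => ‖∏ j, f (i j)‖) := by
      refine (summable_pi_prod (fun i => norm_nonneg (f i)) hf k).congr ?_
      intro i
      rw [norm_prod]
    have hmul : Summable (fun x : ι × (Fin k → ι) => f x.1 * ∏ j, f (x.2 j)) :=
      summable_mul_of_summable_norm (f := f) (g := fun i : Fin k → ι => ∏ j, f (i j)) hf hsum
    have h : HasSum (fun x : ι × (Fin k → ι) => f x.1 * ∏ j, f (x.2 j)) (a * a ^ k) :=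
      HasSum.mul (f := f) (g := fun i : Fin k → ι => ∏ j, f (i j)) ha ih hmul
    rw [← (Fin.consEquiv (fun _ : Fin (k + 1) => ι)).hasSum_iff, pow_succ']
    have e : (fun i : Fin (k + 1) → ι => ∏ j, f (i j)) ∘ (Fin.consEquiv (fun _ : Fin (k + 1) => ι)) =
        fun x : ι × (Fin k → ι) => f x.1 * ∏ j, f (x.2 j) := by
      ext x
      simp only [Function.comp_apply, Fin.consEquiv, Equiv.coe_fn_mk, Fin.prod_univ_succ,
        Fin.cons_zero, Fin.cons_succ]
    rw [e]
    exact h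

end Pool.Agent.H10
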