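import Pool.Agent.H10.Even

/-!
# The normalised function `h(u) = f(u) e^{π u}`
-/

namespace Pool.Agent.H10

open MeasureTheory Complex Filter Topology Set

/-- `n`-th term of `h(u) = f(u) e^{πu}`. -/
noncomputable def hterm (n : ℕ) (u : ℂ) : ℂ :=
  ((n : ℂ) + 1) ^ 2 * (2 * Real.pi * ((n : ℂ) + 1) ^ 2 * u - 3) *
    cexp (-(Real.pi * (((n : ℂ) + 1) ^ 2 - 1) * u))

/-- derivative of `hterm`. -/
noncomputable def hterm1 (n : ℕ) (u : ℂ) : ℂ :=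
  ((n : ℂ) + 1) ^ 2 * (2 * Real.pi * ((n : ℂ) + 1) ^ 2 -
    Real.pi * (((n : ℂ) + 1) ^ 2 - 1) * (2 * Real.pi * ((n : ℂ) + 1) ^ 2 * u - 3)) *
    cexp (-(Real.pi * (((n : ℂ) + 1) ^ 2 - 1) * u))

/-- `h(u)` -/
noncomputable def hh (u : ℂ) : ℂ := ∑' n : ℕ, hterm n u

/-- `h'(u)` -/
noncomputable def hh1 (u : ℂ) : ℂ := ∑' n : ℕ, hterm1 n u

lemma hasDerivAt_hterm (n : ℕ) (u : ℂ) : HasDerivAt (hterm n) (hterm1 n u) u := by
  have h1 : HasDerivAt (fun u : ℂ => cexp (-(Real.pi * (((n : ℂ) + 1) ^ 2 - 1) * u)))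
      (cexp (-(Real.pi * (((n : ℂ) + 1) ^ 2 - 1) * u)) *
        (-(Real.pi * (((n : ℂ) + 1) ^ 2 - 1)))) u :=
    ((((hasDerivAt_id' u).const_mul ((Real.pi : ℂ) * (((n : ℂ) + 1) ^ 2 - 1))).fun_neg).cexp
      ).congr_deriv (by ring)
  have h2 : HasDerivAt (fun u : ℂ => ((n : ℂ) + 1) ^ 2 *
      (2 * Real.pi * ((n : ℂ) + 1) ^ 2 * u - 3))
      (((n : ℂ) + 1) ^ 2 * (2 * Real.pi * ((n : ℂ) + 1) ^ 2)) u :=
    ((((hasDerivAt_id' u).const_mul (2 * (Real.pi : ℂ) * ((n : ℂ) + 1) ^ 2)).sub_const 3).const_mul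
      (((n : ℂ) + 1) ^ 2)).congr_deriv (by ring)
  exact (h2.mul h1).congr_deriv (by unfold hterm1; ring)

lemma fterm_eq_hterm (n : ℕ) (u : ℂ) : fterm n u = cexp (-(Real.pi * u)) * hterm n u := by
  unfold fterm hterm
  have : cexp (-(Real.pi * ((n : ℂ) + 1) ^ 2 * u)) =
      cexp (-(Real.pi * u)) * cexp (-(Real.pi * (((n : ℂ) + 1) ^ 2 - 1) * u)) := by
    rw [← Complex.exp_add]; congr 1; ring
  rw [this]
  ring

lemma ff_eq_hh (u : ℂ) : ff u = cexp (-(Real.pi * u)) * hh u := by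
  unfold ff hh
  rw [← tsum_mul_left]
  congr 1
  ext n
  exact fterm_eq_hterm n u

/-- the real number `n + 1` as a complex number has norm `n + 1`. -/
lemma norm_natCast_add_one (n : ℕ) : ‖((n : ℂ) + 1)‖ = (n : ℝ) + 1 := by
  have : ((n : ℂ) + 1) = (((n : ℝ) + 1 : ℝ) : ℂ) := by push_cast; rfl
  rw [this, Complex.norm_real, Real.norm_eq_abs, abs_of_nonneg (by positivity)]

lemma norm_exp_hterm (n : ℕ) (u : ℂ) :
    ‖cexp (-(Real.pi * (((n : ℂ) + 1) ^ 2 - 1) * u))‖ =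
      Real.exp (-(Real.pi * (((n : ℝ) + 1) ^ 2 - 1) * u.re)) := by
  rw [Complex.norm_exp]
  congr 1
  have : (Real.pi : ℂ) * (((n : ℂ) + 1) ^ 2 - 1) = ((Real.pi * (((n : ℝ) + 1) ^ 2 - 1) : ℝ) : ℂ) := by
    push_cast; rfl
  rw [this, Complex.neg_re, Complex.re_ofReal_mul]

/-- majorant for `hterm1` (and `hterm`) -/
noncomputable def hmaj (M δ : ℝ) (n : ℕ) : ℝ :=
  (Real.pi * (2 * Real.pi * M + 5)) * (((n : ℝ) + 1) ^ 6 *
    Real.exp (-(Real.pi * δ * (((n : ℝ) + 1) - 1))))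

lemma summable_hmaj (M : ℝ) {δ : ℝ} (hδ : 0 < δ) : Summable (hmaj M δ) := by
  have hr : 0 < Real.pi * δ := by positivity
  have h6 := ((summable_pow_exp 6 hr).mul_left (Real.exp (Real.pi * δ))).mul_left
    (Real.pi * (2 * Real.pi * M + 5))
  refine h6.congr ?_
  intro n
  unfold hmaj
  have : Real.exp (-(Real.pi * δ * (((n : ℝ) + 1) - 1))) =
      Real.exp (Real.pi * δ) * Real.exp (-(Real.pi * δ * ((n : ℝ) + 1))) := by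
    rw [← Real.exp_add]; congr 1; ring
  rw [this]
  ring

lemma norm_hterm1_le' {u : ℂ} (n : ℕ) :
    ‖hterm1 n u‖ ≤ Real.pi * (2 * Real.pi * ‖u‖ * ((n : ℝ) + 1) ^ 6 + 5 * ((n : ℝ) + 1) ^ 4) *
      Real.exp (-(Real.pi * (((n : ℝ) + 1) ^ 2 - 1) * u.re)) := by
  unfold hterm1
  rw [norm_mul, norm_mul, norm_pow, norm_natCast_add_one, norm_exp_hterm]
  have hN : (1 : ℝ) ≤ (n : ℝ) + 1 := by
    have : (0 : ℝ) ≤ n := Nat.cast_nonneg n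
    linarith
  have hN2 : (0 : ℝ) ≤ ((n : ℝ) + 1) ^ 2 - 1 := by nlinarith
  have e1 : ‖(2 * Real.pi * ((n : ℂ) + 1) ^ 2 -
    Real.pi * (((n : ℂ) + 1) ^ 2 - 1) * (2 * Real.pi * ((n : ℂ) + 1) ^ 2 * u - 3) : ℂ)‖ ≤
      2 * Real.pi * ((n : ℝ) + 1) ^ 2 + Real.pi * ((n : ℝ) + 1) ^ 2 *
        (2 * Real.pi * ((n : ℝ) + 1) ^ 2 * ‖u‖ + 3) := by
    refine (norm_sub_le _ _).trans ?_
    have a1 : ‖(2 * Real.pi * ((n : ℂ) + 1) ^ 2 : ℂ)‖ = 2 * Real.pi * ((n : ℝ) + 1) ^ 2 := by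
      rw [norm_mul, norm_mul, norm_pow, norm_natCast_add_one]
      simp [abs_of_pos Real.pi_pos]
    have a2 : ‖(((n : ℂ) + 1) ^ 2 - 1 : ℂ)‖ ≤ ((n : ℝ) + 1) ^ 2 := by
      have : (((n : ℂ) + 1) ^ 2 - 1 : ℂ) = ((((n : ℝ) + 1) ^ 2 - 1 : ℝ) : ℂ) := by push_cast; rfl
      rw [this, Complex.norm_real, Real.norm_eq_abs, abs_of_nonneg hN2]
      linarith
    have a3 : ‖(2 * Real.pi * ((n : ℂ) + 1) ^ 2 * u - 3 : ℂ)‖ ≤
        2 * Real.pi * ((n : ℝ) + 1) ^ 2 * ‖u‖ + 3 := by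
      refine (norm_sub_le _ _).trans ?_
      rw [norm_mul, a1]
      simp
    have a4 : ‖(Real.pi : ℂ)‖ = Real.pi := by simp [abs_of_pos Real.pi_pos]
    rw [a1, norm_mul, norm_mul, a4]
    have hpi := Real.pi_pos
    gcongr
  calc ((n : ℝ) + 1) ^ 2 * ‖(2 * Real.pi * ((n : ℂ) + 1) ^ 2 -
    Real.pi * (((n : ℂ) + 1) ^ 2 - 1) * (2 * Real.pi * ((n : ℂ) + 1) ^ 2 * u - 3) : ℂ)‖ *
      Real.exp (-(Real.pi * (((n : ℝ) + 1) ^ 2 - 1) * u.re))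
      ≤ ((n : ℝ) + 1) ^ 2 * (2 * Real.pi * ((n : ℝ) + 1) ^ 2 + Real.pi * ((n : ℝ) + 1) ^ 2 *
        (2 * Real.pi * ((n : ℝ) + 1) ^ 2 * ‖u‖ + 3)) *
      Real.exp (-(Real.pi * (((n : ℝ) + 1) ^ 2 - 1) * u.re)) := by gcongr
    _ = _ := by ring

lemma norm_hterm_le' {u : ℂ} (n : ℕ) :
    ‖hterm n u‖ ≤ (2 * Real.pi * ‖u‖ * ((n : ℝ) + 1) ^ 4 + 3 * ((n : ℝ) + 1) ^ 2) *
      Real.exp (-(Real.pi * (((n : ℝ) + 1) ^ 2 - 1) * u.re)) := by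
  unfold hterm
  rw [norm_mul, norm_mul, norm_pow, norm_natCast_add_one, norm_exp_hterm]
  have a1 : ‖(2 * Real.pi * ((n : ℂ) + 1) ^ 2 : ℂ)‖ = 2 * Real.pi * ((n : ℝ) + 1) ^ 2 := by
    rw [norm_mul, norm_mul, norm_pow, norm_natCast_add_one]
    simp [abs_of_pos Real.pi_pos]
  have a3 : ‖(2 * Real.pi * ((n : ℂ) + 1) ^ 2 * u - 3 : ℂ)‖ ≤
      2 * Real.pi * ((n : ℝ) + 1) ^ 2 * ‖u‖ + 3 := by
    refine (norm_sub_le _ _).trans ?_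
    rw [norm_mul, a1]
    simp
  calc ((n : ℝ) + 1) ^ 2 * ‖(2 * Real.pi * ((n : ℂ) + 1) ^ 2 * u - 3 : ℂ)‖ *
      Real.exp (-(Real.pi * (((n : ℝ) + 1) ^ 2 - 1) * u.re))
      ≤ ((n : ℝ) + 1) ^ 2 * (2 * Real.pi * ((n : ℝ) + 1) ^ 2 * ‖u‖ + 3) *
      Real.exp (-(Real.pi * (((n : ℝ) + 1) ^ 2 - 1) * u.re)) := by gcongr
    _ = _ := by ring

lemma exp_hterm_le {δ a : ℝ} (hδ : 0 ≤ δ) (h : δ ≤ a) (n : ℕ) :
    Real.exp (-(Real.pi * (((n : ℝ) + 1) ^ 2 - 1) * a)) ≤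
      Real.exp (-(Real.pi * δ * (((n : ℝ) + 1) - 1))) := by
  apply Real.exp_le_exp.2
  have hN : (0 : ℝ) ≤ n := Nat.cast_nonneg n
  have : Real.pi * δ * (((n : ℝ) + 1) - 1) ≤ Real.pi * (((n : ℝ) + 1) ^ 2 - 1) * a := by
    have h1 : ((n : ℝ) + 1) - 1 ≤ ((n : ℝ) + 1) ^ 2 - 1 := by nlinarith
    have h2 : (0 : ℝ) ≤ ((n : ℝ) + 1) - 1 := by linarith
    calc Real.pi * δ * (((n : ℝ) + 1) - 1) ≤ Real.pi * a * (((n : ℝ) + 1) ^ 2 - 1) := by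
          have := Real.pi_pos
          have h0 : 0 ≤ a := hδ.trans h
          gcongr
      _ = _ := by ring
  linarith

lemma norm_hterm1_le {u : ℂ} {M δ : ℝ} (hδ : 0 ≤ δ) (h1 : δ ≤ u.re) (h2 : ‖u‖ ≤ M) (n : ℕ) :
    ‖hterm1 n u‖ ≤ hmaj M δ n := by
  refine (norm_hterm1_le' n).trans ?_
  unfold hmaj
  rw [← mul_assoc]
  have hM : 0 ≤ M := (norm_nonneg _).trans h2
  have hN : (1 : ℝ) ≤ (n : ℝ) + 1 := by
    have : (0 : ℝ) ≤ n := Nat.cast_nonneg n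
    linarith
  have e := exp_hterm_le hδ h1 n
  have hpi := Real.pi_pos
  have h46 : ((n : ℝ) + 1) ^ 4 ≤ ((n : ℝ) + 1) ^ 6 := pow_le_pow_right₀ hN (by norm_num)
  have : Real.pi * (2 * Real.pi * ‖u‖ * ((n : ℝ) + 1) ^ 6 + 5 * ((n : ℝ) + 1) ^ 4) ≤
      Real.pi * (2 * Real.pi * M + 5) * ((n : ℝ) + 1) ^ 6 := by
    calc Real.pi * (2 * Real.pi * ‖u‖ * ((n : ℝ) + 1) ^ 6 + 5 * ((n : ℝ) + 1) ^ 4)
        ≤ Real.pi * (2 * Real.pi * M * ((n : ℝ) + 1) ^ 6 + 5 * ((n : ℝ) + 1) ^ 6) := by gcongr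
      _ = _ := by ring
  gcongr

lemma norm_hterm_le {u : ℂ} {M δ : ℝ} (hδ : 0 ≤ δ) (h1 : δ ≤ u.re) (h2 : ‖u‖ ≤ M) (n : ℕ) :
    ‖hterm n u‖ ≤ hmaj M δ n := by
  refine (norm_hterm_le' n).trans ?_
  unfold hmaj
  rw [← mul_assoc]
  have hM : 0 ≤ M := (norm_nonneg _).trans h2
  have hN : (1 : ℝ) ≤ (n : ℝ) + 1 := by
    have : (0 : ℝ) ≤ n := Nat.cast_nonneg n
    linarith
  have e := exp_hterm_le hδ h1 n
  have hpi := Real.pi_gt_three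
  have h46 : ((n : ℝ) + 1) ^ 4 ≤ ((n : ℝ) + 1) ^ 6 := pow_le_pow_right₀ hN (by norm_num)
  have h26 : ((n : ℝ) + 1) ^ 2 ≤ ((n : ℝ) + 1) ^ 6 := pow_le_pow_right₀ hN (by norm_num)
  have : (2 * Real.pi * ‖u‖ * ((n : ℝ) + 1) ^ 4 + 3 * ((n : ℝ) + 1) ^ 2) ≤
      Real.pi * (2 * Real.pi * M + 5) * ((n : ℝ) + 1) ^ 6 := by
    calc (2 * Real.pi * ‖u‖ * ((n : ℝ) + 1) ^ 4 + 3 * ((n : ℝ) + 1) ^ 2)
        ≤ (2 * Real.pi * M * ((n : ℝ) + 1) ^ 6 + 3 * ((n : ℝ) + 1) ^ 6) := by gcongr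
      _ = 1 * (2 * Real.pi * M + 3) * ((n : ℝ) + 1) ^ 6 := by ring
      _ ≤ Real.pi * (2 * Real.pi * M + 5) * ((n : ℝ) + 1) ^ 6 := by
          gcongr
          · linarith
          · norm_num
  gcongr

lemma summable_hterm {u : ℂ} (hu : 0 < u.re) : Summable (fun n => hterm n u) :=
  Summable.of_norm_bounded (summable_hmaj ‖u‖ hu)
    (fun n => norm_hterm_le hu.le le_rfl le_rfl n)

lemma summable_hterm1 {u : ℂ} (hu : 0 < u.re) : Summable (fun n => hterm1 n u) :=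
  Summable.of_norm_bounded (summable_hmaj ‖u‖ hu)
    (fun n => norm_hterm1_le hu.le le_rfl le_rfl n)

lemma hasDerivAt_hh {u : ℂ} (hu : 0 < u.re) : HasDerivAt hh (hh1 u) u := by
  let U : Set ℂ := {w | u.re / 2 < w.re} ∩ Metric.ball 0 (‖u‖ + 1)
  have hU : IsOpen U := (isOpen_lt continuous_const Complex.continuous_re).inter Metric.isOpen_ball
  have huU : u ∈ U := by
    refine ⟨?_, ?_⟩
    · show u.re / 2 < u.re
      linarith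
    · simp
  have hd : ∀ n, DifferentiableOn ℂ (hterm n) U :=
    fun n w _ => (hasDerivAt_hterm n w).differentiableAt.differentiableWithinAt
  have hb : ∀ (n : ℕ) (w : ℂ), w ∈ U → ‖hterm n w‖ ≤ hmaj (‖u‖ + 1) (u.re / 2) n := by
    intro n w hw
    refine norm_hterm_le (by positivity) hw.1.le ?_ n
    have := hw.2
    simp only [Metric.mem_ball, dist_zero_right] at this
    exact this.le
  have hs := summable_hmaj (‖u‖ + 1) (by positivity : 0 < u.re / 2)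
  have h1 := differentiableOn_tsum_of_summable_norm hs hd hU hb
  have h2 := hasSum_deriv_of_summable_norm hs hd hU hb huU
  have h3 : (fun n => deriv (hterm n) u) = fun n => hterm1 n u := by
    ext n
    exact (hasDerivAt_hterm n u).deriv
  rw [h3] at h2
  have h4 : deriv (fun w => ∑' n, hterm n w) u = hh1 u := h2.tsum_eq.symm
  have h5 := ((h1 u huU).differentiableAt (hU.mem_nhds huU)).hasDerivAt
  rw [h4] at h5
  exact h5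

end Pool.Agent.H10
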