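import Pool.Agent.H10.FfBound
import Pool.Agent.H10.MM

/-!
# Explicit bound for `M_2` and Poisson summation
-/

namespace Pool.Agent.H10

open MeasureTheory Complex Filter Topology Set
open scoped FourierTransform

/-- `K(z) = ∫ Φ(t)² e^{izt} dt` -/
noncomputable def K2 (z : ℂ) : ℂ := MM 2 (I * z / 4)

lemma differentiable_K2 : Differentiable ℂ K2 := by
  unfold K2
  exact (differentiable_MM (k := 2) (by norm_num)).comp (by fun_prop)

lemma norm_PhiC_line_le {t β : ℝ} (hβ : |β| = Real.pi / 12) :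
    ‖PhiC (t + β * I)‖ ≤ 24 * Real.pi * Real.exp (-(3 * |t|)) := by
  have hpi := Real.pi_pos
  have hm : (t + β * I : ℂ) ∈ strip := by
    show |(t + β * I : ℂ).im| < Real.pi / 8
    have : (t + β * I : ℂ).im = β := by simp
    rw [this, hβ]
    linarith
  have h := norm_PhiC_le 3 le_rfl hm
  have e1 : (t + β * I : ℂ).re = t := by simp
  have e2 : (t + β * I : ℂ).im = β := by simp
  have e3 : Real.cos (4 * β) = 1 / 2 := by
    rw [← Real.cos_abs, abs_mul, hβ, abs_of_pos (by norm_num : (0 : ℝ) < 4)]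
    have : 4 * (Real.pi / 12) = Real.pi / 3 := by ring
    rw [this, Real.cos_pi_div_three]
  rw [e1, e2, e3] at h
  have h3 := CN_three
  have e4 : ((4 * ((3 : ℕ) : ℝ) - 9) * |t|) = 3 * |t| := by push_cast; ring
  rw [e4] at h
  calc ‖PhiC (t + β * I)‖ ≤ Real.pi * CN 3 * Real.exp (-(3 * |t|)) * ((1 / 2) ^ 3)⁻¹ := h
    _ ≤ Real.pi * 3 * Real.exp (-(3 * |t|)) * ((1 / 2) ^ 3)⁻¹ := by gcongr
    _ = _ := by ring

/-- explicit bound for `K2` -/
theorem norm_K2_le {z : ℂ} (hz : |z.im| ≤ 2) :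
    ‖K2 z‖ ≤ 2880 * Real.exp (-(Real.pi / 12 * |z.re|)) := by
  have hpi := Real.pi_pos
  obtain ⟨β, hβ1, hβ2⟩ : ∃ β : ℝ, |β| = Real.pi / 12 ∧ z.re * β = |z.re| * (Real.pi / 12) := by
    rcases le_total 0 z.re with h | h
    · exact ⟨Real.pi / 12, abs_of_pos (by positivity), by rw [abs_of_nonneg h]⟩
    · refine ⟨-(Real.pi / 12), by rw [abs_neg]; exact abs_of_pos (by positivity), ?_⟩
      rw [abs_of_nonpos h]
      ring
  unfold K2
  rw [MM_shift (by norm_num) _ (by rw [hβ1]; linarith : |β| < Real.pi / 8)]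
  have hpt : ∀ t : ℝ, ‖Mint 2 (I * z / 4) (t + β * I)‖ ≤
      (576 * Real.pi ^ 2 * Real.exp (-(Real.pi / 12 * |z.re|))) * Real.exp (-(4 * |t|)) := by
    intro t
    unfold Mint
    rw [norm_mul, norm_pow, Complex.norm_exp]
    have h1 := norm_PhiC_line_le (t := t) hβ1
    have e1 : (4 * (I * z / 4) * (t + β * I) : ℂ).re = -(z.im * t) - z.re * β := by
      have : (4 * (I * z / 4) * (t + β * I) : ℂ) = I * z * (t + β * I) := by ring
      rw [this]
      simp
    rw [e1, hβ2]
    have h2 : Real.exp (-(z.im * t) - |z.re| * (Real.pi / 12)) ≤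
        Real.exp (2 * |t|) * Real.exp (-(Real.pi / 12 * |z.re|)) := by
      rw [← Real.exp_add]
      apply Real.exp_le_exp.2
      have a1 : -(z.im * t) ≤ |z.im| * |t| := by
        rw [← abs_mul]
        exact neg_le_abs _
      have a2 : |z.im| * |t| ≤ 2 * |t| := by gcongr
      linarith
    calc ‖PhiC (t + β * I)‖ ^ 2 * Real.exp (-(z.im * t) - |z.re| * (Real.pi / 12)) ≤
        (24 * Real.pi * Real.exp (-(3 * |t|))) ^ 2 *
          (Real.exp (2 * |t|) * Real.exp (-(Real.pi / 12 * |z.re|))) := by gcongr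
      _ = (576 * Real.pi ^ 2 * Real.exp (-(Real.pi / 12 * |z.re|))) *
          (Real.exp (-(3 * |t|)) ^ 2 * Real.exp (2 * |t|)) := by ring
      _ = _ := by
          rw [← Real.exp_nat_mul, ← Real.exp_add]
          congr 2
          push_cast
          ring
  calc ‖∫ t : ℝ, Mint 2 (I * z / 4) (t + β * I)‖ ≤
      ∫ t : ℝ, (576 * Real.pi ^ 2 * Real.exp (-(Real.pi / 12 * |z.re|))) *
        Real.exp (-(4 * |t|)) := by
        apply MeasureTheory.norm_integral_le_of_norm_le
        · exact (integrable_exp_neg_mul_abs (by norm_num)).const_mul _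
        · exact Eventually.of_forall hpt
    _ = (576 * Real.pi ^ 2 * Real.exp (-(Real.pi / 12 * |z.re|))) * (2 / 4) := by
        rw [integral_const_mul, integral_exp_neg_mul_abs (by norm_num)]
    _ ≤ 2880 * Real.exp (-(Real.pi / 12 * |z.re|)) := by
        have h1 := Real.pi_lt_d2
        have h2 : Real.pi ^ 2 ≤ 10 := by nlinarith
        have h3 := Real.exp_pos (-(Real.pi / 12 * |z.re|))
        nlinarith

/-- geometric series over `ℤ` -/
lemma hasSum_geom_int {C q : ℝ} (hq0 : 0 ≤ q) (hq1 : q < 1) :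
    HasSum (fun m : ℤ => C * q ^ m.natAbs) (C * (1 - q)⁻¹ + C * q * (1 - q)⁻¹) := by
  have hg := hasSum_geometric_of_lt_one hq0 hq1
  have h1 : HasSum (fun n : ℕ => (fun m : ℤ => C * q ^ m.natAbs) n) (C * (1 - q)⁻¹) := by
    refine (hg.mul_left C).congr_fun ?_
    intro n
    simp
  have h2 : HasSum (fun n : ℕ => (fun m : ℤ => C * q ^ m.natAbs) (-((n : ℤ) + 1)))
      (C * q * (1 - q)⁻¹) := by
    refine (hg.mul_left (C * q)).congr_fun ?_
    intro n
    have : (-((n : ℤ) + 1)).natAbs = n + 1 := by omega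
    show C * q ^ (-((n : ℤ) + 1)).natAbs = C * q * q ^ n
    rw [this, pow_succ]
    ring
  exact HasSum.of_nat_of_neg_add_one (f := fun m : ℤ => C * q ^ m.natAbs) h1 h2

lemma natAbs_cast_real (m : ℤ) : ((m.natAbs : ℕ) : ℝ) = |(m : ℝ)| := by
  rw [Nat.cast_natAbs, Int.cast_abs]

section Poisson

variable {h : ℝ} (hh : 0 < h) (z : ℂ)

/-- sampled function -/
noncomputable def smp (h : ℝ) (z : ℂ) (t : ℝ) : ℂ := Mint 2 (I * z / 4) ((h * t : ℝ) : ℂ)

lemma continuous_smp : Continuous (smp h z) := by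
  have h1 := continuous_Mint_line 2 (I * z / 4) (β := 0) (by simp [Real.pi_pos])
  have h2 : Continuous (fun t : ℝ => Mint 2 (I * z / 4) (t : ℂ)) := by simpa using h1
  exact h2.comp (by fun_prop : Continuous (fun t : ℝ => h * t))

include hh in
lemma fourier_smp (ξ : ℝ) :
    𝓕 (smp h z) ξ = ((h⁻¹ : ℝ) : ℂ) * K2 (z - 2 * Real.pi * ξ / h) := by
  rw [Real.fourier_real_eq_integral_exp_smul]
  set g : ℝ → ℂ := fun τ => Mint 2 (I * (z - 2 * Real.pi * ξ / h) / 4) (τ : ℂ) with hg
  have hcongr : ∀ v : ℝ, cexp (((-2 * Real.pi * v * ξ : ℝ) : ℂ) * I) • smp h z v = g (h * v) := by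
    intro v
    have hne : (h : ℂ) ≠ 0 := by exact_mod_cast hh.ne'
    rw [hg]
    unfold smp Mint
    rw [smul_eq_mul]
    have e : cexp (4 * (I * (z - 2 * Real.pi * ξ / h) / 4) * ((h * v : ℝ) : ℂ)) =
        cexp (((-2 * Real.pi * v * ξ : ℝ) : ℂ) * I) *
          cexp (4 * (I * z / 4) * ((h * v : ℝ) : ℂ)) := by
      rw [← Complex.exp_add]
      congr 1
      push_cast
      field_simp
      ring
    beta_reduce
    rw [e]
    ring
  simp_rw [hcongr]
  rw [Measure.integral_comp_mul_left g h, abs_of_pos (by positivity), Complex.real_smul]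
  rfl

include hh in
lemma smp_decay : ∃ C : ℝ, 0 < C ∧ ∀ t : ℝ, ‖smp h z t‖ ≤ C * Real.exp (-(h * |t|)) := by
  obtain ⟨C, hC, M, hb⟩ := exists_PhiC_pow_bound (k := 2) (by norm_num)
    (4 * |(I * z / 4).re| + 1)
  refine ⟨C, hC, ?_⟩
  intro t
  have hm := ofReal_mem_strip (h * t)
  have h1 := norm_Mint_le (I * z / 4) hb hC hm
  rw [Complex.ofReal_im, Complex.ofReal_re] at h1
  simp only [mul_zero, neg_zero, Real.exp_zero, Real.cos_zero, one_pow, inv_one, mul_one] at h1
  have e3 : 4 * |(I * z / 4).re| + 1 - 4 * |(I * z / 4).re| = 1 := by ring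
  rw [e3, abs_mul, abs_of_pos hh, one_mul] at h1
  exact h1

include hh in
/-- Poisson summation for the sampled function. -/
theorem poisson_smp (hz : |z.im| ≤ 2) :
    HasSum (fun m : ℤ => ((h⁻¹ : ℝ) : ℂ) * K2 (z - 2 * Real.pi * m / h))
      (∑' j : ℤ, smp h z j) := by
  obtain ⟨C, hC, hd⟩ := smp_decay hh z
  have hpi := Real.pi_pos
  have hO : smp h z =O[cocompact ℝ] (fun x : ℝ => |x| ^ (-(2 : ℝ))) := by
    apply Asymptotics.IsBigO.of_bound (C * 2 / h ^ 2)
    have hev : ∀ᶠ x : ℝ in cocompact ℝ, 1 ≤ ‖x‖ :=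
      (tendsto_norm_cocompact_atTop (E := ℝ)).eventually_ge_atTop 1
    filter_upwards [hev] with x hx
    rw [Real.norm_eq_abs] at hx
    have hx0 : 0 < |x| := by linarith
    have h1 := pow_mul_exp_neg_le (y := h * |x|) (by positivity) 2
    have h2 := hd x
    have e1 : |x| ^ (-(2 : ℝ)) = (|x| ^ 2)⁻¹ := by
      rw [Real.rpow_neg hx0.le]
      norm_num
    rw [e1, Real.norm_eq_abs, abs_of_pos (by positivity)]
    calc ‖smp h z x‖ ≤ C * Real.exp (-(h * |x|)) := h2
      _ ≤ C * ((Nat.factorial 2 : ℝ) * ((h * |x|) ^ 2)⁻¹) := by gcongr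
      _ = C * 2 / h ^ 2 * (|x| ^ 2)⁻¹ := by
          rw [mul_pow, mul_inv]
          norm_num [Nat.factorial]
          ring
  have hF : ∀ m : ℤ, 𝓕 (smp h z) m = ((h⁻¹ : ℝ) : ℂ) * K2 (z - 2 * Real.pi * m / h) := by
    intro m
    rw [fourier_smp hh z]
    push_cast
    rfl
  have hsum : Summable (fun m : ℤ => 𝓕 (smp h z) m) := by
    set q : ℝ := Real.exp (-(Real.pi / 12 * (2 * Real.pi / h))) with hq
    have hq1 : q < 1 := by
      rw [hq, Real.exp_lt_one_iff]
      have : 0 < Real.pi / 12 * (2 * Real.pi / h) := by positivity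
      linarith
    have hg := (hasSum_geom_int (C := h⁻¹ * (2880 * Real.exp (Real.pi / 12 * |z.re|)))
      (Real.exp_pos _).le hq1).summable
    refine Summable.of_norm_bounded hg ?_
    intro m
    rw [hF m, norm_mul, Complex.norm_real, Real.norm_eq_abs, abs_of_pos (by positivity)]
    have him : (z - 2 * Real.pi * m / h : ℂ).im = z.im := by
      have : (2 * Real.pi * m / h : ℂ) = ((2 * Real.pi * m / h : ℝ) : ℂ) := by push_cast; rfl
      rw [this, Complex.sub_im, Complex.ofReal_im, sub_zero]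
    have hre : (z - 2 * Real.pi * m / h : ℂ).re = z.re - 2 * Real.pi * m / h := by
      have : (2 * Real.pi * m / h : ℂ) = ((2 * Real.pi * m / h : ℝ) : ℂ) := by push_cast; rfl
      rw [this, Complex.sub_re, Complex.ofReal_re]
    have h1 := norm_K2_le (z := z - 2 * Real.pi * m / h) (by rw [him]; exact hz)
    rw [hre] at h1
    have h2 : Real.exp (-(Real.pi / 12 * |z.re - 2 * Real.pi * m / h|)) ≤
        Real.exp (Real.pi / 12 * |z.re|) * q ^ m.natAbs := by
      rw [hq, ← Real.exp_nat_mul, ← Real.exp_add]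
      apply Real.exp_le_exp.2
      rw [natAbs_cast_real]
      have h3 : |2 * Real.pi * m / h| ≤ |z.re - 2 * Real.pi * m / h| + |z.re| := by
        have := abs_sub (z.re) (z.re - 2 * Real.pi * m / h)
        have e : z.re - (z.re - 2 * Real.pi * m / h) = 2 * Real.pi * m / h := by ring
        rw [e] at this
        linarith
      have h4 : |2 * Real.pi * m / h| = 2 * Real.pi / h * |(m : ℝ)| := by
        rw [abs_div, abs_mul, abs_mul, abs_of_pos hpi, abs_of_pos hh,
          abs_of_pos (by norm_num : (0 : ℝ) < 2)]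
        ring
      rw [h4] at h3
      have h5 : Real.pi / 12 * (2 * Real.pi / h * |(m : ℝ)|) ≤
          Real.pi / 12 * (|z.re - 2 * Real.pi * m / h| + |z.re|) := by gcongr
      have h6 : |(m : ℝ)| * -(Real.pi / 12 * (2 * Real.pi / h)) =
          -(Real.pi / 12 * (2 * Real.pi / h * |(m : ℝ)|)) := by ring
      linarith
    calc h⁻¹ * ‖K2 (z - 2 * Real.pi * m / h)‖ ≤
        h⁻¹ * (2880 * (Real.exp (Real.pi / 12 * |z.re|) * q ^ m.natAbs)) := by
          gcongr
          exact h1.trans (by gcongr)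
      _ = _ := by ring
  have hP := Real.tsum_eq_tsum_fourier_of_rpow_decay_of_summable (continuous_smp z)
    (b := 2) (by norm_num) hO hsum 0
  simp only [zero_add] at hP
  have hP2 : ∑' n : ℤ, smp h z n = ∑' n : ℤ, 𝓕 (smp h z) n := by
    rw [hP]
    congr 1
    ext n
    have : fourier n (((0 : ℝ) : ℝ) : UnitAddCircle) = 1 := by simp
    rw [this, mul_one]
  rw [hP2]
  refine hsum.hasSum.congr_fun ?_
  intro m
  exact (hF m).symm

end Poisson

end Pool.Agent.H10
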