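import Pool.Agent.H10.DataK2
import Pool.Agent.H10.Poisson

/-!
# The Horner scheme and the sampled sum
-/

namespace Pool.Agent.H10

open MeasureTheory Complex Filter Topology Set

lemma hC_append (E : ℂ) (l1 l2 : List ℝ) :
    hC E (l1 ++ l2) = hC E l1 + hC E l2 * E ^ l1.length := by
  induction l1 with
  | nil => simp [hC]
  | cons a l ih =>
    have e1 : hC E (a :: l ++ l2) = hC E (l ++ l2) * E + a := rfl
    have e2 : hC E (a :: l) = hC E l * E + a := rfl
    rw [e1, e2, ih, List.length_cons, pow_succ]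
    ring

lemma hC_map_range (E : ℂ) (f : ℕ → ℝ) (n : ℕ) :
    hC E ((List.range n).map f) = ∑ i ∈ Finset.range n, (f i : ℂ) * E ^ i := by
  induction n with
  | zero => simp [hC]
  | succ n ih =>
    rw [List.range_succ, List.map_append, hC_append, ih, Finset.sum_range_succ]
    simp [hC]

lemma hC_reverse_range (E : ℂ) (f : ℕ → ℝ) (n : ℕ) :
    hC E ((List.range (n + 1)).map f).reverse = ∑ i ∈ Finset.range (n + 1), (f i : ℂ) * E ^ (n - i) := by
  induction n with
  | zero => simp [hC]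
  | succ n ih =>
    rw [List.range_succ, List.map_append, List.reverse_append]
    have e1 : (List.map f [n + 1]).reverse ++ (List.map f (List.range (n + 1))).reverse =
        f (n + 1) :: (List.map f (List.range (n + 1))).reverse := rfl
    rw [e1]
    have e2 : hC E (f (n + 1) :: (List.map f (List.range (n + 1))).reverse) =
        hC E (List.map f (List.range (n + 1))).reverse * E + f (n + 1) := rfl
    rw [e2, ih, Finset.sum_range_succ _ (n + 1), Finset.sum_mul]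
    have e3 : n + 1 - (n + 1) = 0 := by omega
    rw [e3, pow_zero, mul_one]
    congr 1
    apply Finset.sum_congr rfl
    intro i hi
    rw [Finset.mem_range] at hi
    have : n + 1 - i = (n - i) + 1 := by omega
    rw [this, pow_succ]
    ring

/-- list of the reals `a_0, ..., a_60` -/
noncomputable def aList : List ℝ := (List.range 61).map aR

/-- the symmetric list -/
noncomputable def fullR : List ℝ := aList.reverse ++ aList.tail

lemma forall2_aList : List.Forall₂ Close aList dataK2 := by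
  rw [List.forall₂_iff_get]
  refine ⟨by rw [dataK2_length]; simp [aList], ?_⟩
  intro i h1 h2
  have hi : i < 61 := by
    rw [dataK2_length] at h2
    exact h2
  have h3 := close_data hi
  have e : aList.get ⟨i, h1⟩ = aR i := by simp [aList]
  rw [e]
  exact h3

lemma forall2_full : List.Forall₂ Close fullR fullK2 := by
  unfold fullR fullK2
  apply List.rel_append
  · rw [List.forall₂_reverse_iff]
    exact forall2_aList
  · have h := forall2_aList
    cases h with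
    | cons h1 h2 => exact h2

lemma fullR_length : fullR.length = 121 := by
  unfold fullR aList
  simp

lemma hC_fullR {E : ℂ} (hE : E ≠ 0) : hC E fullR = E ^ 60 *
    (∑ i ∈ Finset.range 61, (aR i : ℂ) * E ^ i +
      ∑ i ∈ Finset.range 60, (aR (i + 1) : ℂ) * (E⁻¹) ^ (i + 1)) := by
  have htail : aList.tail = (List.range 60).map (fun i => aR (i + 1)) := by
    unfold aList
    rw [List.range_succ_eq_map]
    simp [Function.comp_def]
  have hlen : aList.reverse.length = 61 := by simp [aList]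
  unfold fullR
  rw [hC_append, htail, hC_map_range, hlen]
  have h1 : hC E aList.reverse = ∑ i ∈ Finset.range 61, (aR i : ℂ) * E ^ (60 - i) :=
    hC_reverse_range E aR 60
  rw [h1, mul_add, Finset.sum_range_succ' (fun i => (aR i : ℂ) * E ^ (60 - i)) 60,
    Finset.sum_range_succ' (fun i => (aR i : ℂ) * E ^ i) 60]
  have e1 : ∑ i ∈ Finset.range 60, (aR (i + 1) : ℂ) * E ^ (60 - (i + 1)) =
      E ^ 60 * ∑ i ∈ Finset.range 60, (aR (i + 1) : ℂ) * (E⁻¹) ^ (i + 1) := by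
    rw [Finset.mul_sum]
    apply Finset.sum_congr rfl
    intro i hi
    rw [Finset.mem_range] at hi
    have e2 : E ^ 60 = E ^ (60 - (i + 1)) * E ^ (i + 1) := by
      rw [← pow_add]
      congr 1
      omega
    rw [e2, inv_pow]
    have : E ^ (i + 1) ≠ 0 := pow_ne_zero _ hE
    field_simp
  have e3 : (∑ i ∈ Finset.range 60, ((aR (i + 1) : ℝ) : ℂ) * E ^ i) * E ^ 61 =
      E ^ 60 * ∑ i ∈ Finset.range 60, (aR (i + 1) : ℂ) * E ^ (i + 1) := by
    rw [Finset.mul_sum, Finset.sum_mul]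
    apply Finset.sum_congr rfl
    intro i _
    ring
  rw [e1, e3]
  ring

/-! ### Tails -/

lemma CN_forty : (Real.pi * CN 40) ^ 2 ≤ 10 ^ 60 := by
  have h1 := Real.pi_gt_d2
  have h2 := Real.pi_lt_d2
  have hpi := Real.pi_pos
  have h3 : Real.pi * CN 40 ≤ 10 ^ 30 := by
    unfold CN
    have hp : (3.14 : ℝ) ^ 40 ≤ Real.pi ^ 40 := by gcongr
    calc Real.pi * ((2 * Real.pi + 3) * (Real.pi ^ 2 / 6) * ((40 : ℕ).factorial : ℝ) / Real.pi ^ 40)
        ≤ 3.15 * ((2 * 3.15 + 3) * (3.15 ^ 2 / 6) * ((40 : ℕ).factorial : ℝ) / 3.14 ^ 40) := by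
          gcongr
      _ ≤ 10 ^ 30 := by norm_num [Nat.factorial]
  have h4 : 0 ≤ Real.pi * CN 40 := by
    have := CN_pos 40
    positivity
  calc (Real.pi * CN 40) ^ 2 ≤ (10 ^ 30) ^ 2 := by gcongr
    _ = 10 ^ 60 := by norm_num

lemma aR_nonneg (j : ℕ) : 0 ≤ aR j := by
  unfold aR
  positivity

lemma aR_le (j : ℕ) : aR j ≤ 10 ^ 60 * ((40 / 41 : ℝ) ^ 151) ^ j := by
  have hh := hstep_pos
  have h1 := norm_PhiC_le 40 (by norm_num) (ofReal_mem_strip (j * hstep))
  rw [Complex.ofReal_im, Complex.ofReal_re, mul_zero, Real.cos_zero, one_pow, inv_one, mul_one,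
    abs_of_nonneg (by positivity), ← ofReal_riemannPhi, Complex.norm_real, Real.norm_eq_abs] at h1
  have h2 : aR j ≤ (Real.pi * CN 40 * Real.exp (-((4 * ((40 : ℕ) : ℝ) - 9) * (j * hstep)))) ^ 2 := by
    unfold aR
    rw [← sq_abs]
    gcongr
  refine h2.trans ?_
  have h3 : Real.exp (-((4 * ((40 : ℕ) : ℝ) - 9) * (j * hstep))) ^ 2 = ((40 / 41 : ℝ) ^ 151) ^ j := by
    rw [← Real.exp_nat_mul]
    have e : ((2 : ℕ) : ℝ) * -((4 * ((40 : ℕ) : ℝ) - 9) * (j * hstep)) =
        -(2 * ((151 : ℕ) : ℝ) * (j * hstep)) := by push_cast; ring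
    rw [e, Real.exp_neg, exp_hstep, ← inv_pow, ← pow_mul]
    congr 1
    norm_num
  rw [mul_pow, h3]
  have := CN_forty
  gcongr

/-- tail of a series bounded by a geometric one, starting at `61` -/
lemma tail_bound {x : ℂ} (hx : ‖x‖ ≤ 41 / 40) :
    HasSum (fun n : ℕ => (aR (n + 61) : ℂ) * x ^ (n + 61))
      (∑' n : ℕ, (aR (n + 61) : ℂ) * x ^ (n + 61)) ∧
    ‖∑' n : ℕ, (aR (n + 61) : ℂ) * x ^ (n + 61)‖ ≤ 1 / 10 ^ 37 := by
  have hbase : (40 / 41 : ℝ) ^ 151 * (41 / 40) ≤ 1 / 40 := by norm_num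
  have hterm : ∀ n : ℕ, ‖(aR (n + 61) : ℂ) * x ^ (n + 61)‖ ≤
      10 ^ 60 * (1 / 40) ^ 61 * (1 / 40) ^ n := by
    intro n
    rw [norm_mul, norm_pow, Complex.norm_real, Real.norm_eq_abs, abs_of_nonneg (aR_nonneg _)]
    calc aR (n + 61) * ‖x‖ ^ (n + 61) ≤
        (10 ^ 60 * ((40 / 41 : ℝ) ^ 151) ^ (n + 61)) * (41 / 40) ^ (n + 61) := by
          gcongr
          exact aR_le _
      _ = 10 ^ 60 * ((40 / 41 : ℝ) ^ 151 * (41 / 40)) ^ (n + 61) := by
          rw [mul_pow]; ring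
      _ ≤ 10 ^ 60 * (1 / 40) ^ (n + 61) := by gcongr
      _ = _ := by rw [pow_add]; ring
  have hg := (hasSum_geometric_of_lt_one (by norm_num : (0 : ℝ) ≤ 1 / 40)
    (by norm_num : (1 / 40 : ℝ) < 1)).mul_left (10 ^ 60 * (1 / 40) ^ 61)
  have hs : Summable (fun n : ℕ => (aR (n + 61) : ℂ) * x ^ (n + 61)) :=
    Summable.of_norm_bounded hg.summable hterm
  refine ⟨hs.hasSum, ?_⟩
  refine (tsum_of_norm_bounded hg hterm).trans ?_
  norm_num

/-- The sampled sum and the Horner value. -/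
theorem sampled_sum {z : ℂ} {E : ℂ} (hE : E = cexp (I * z * hstep)) (h1 : ‖E‖ ≤ 1)
    (h2 : 40 / 41 ≤ ‖E‖) :
    ‖(∑' j : ℤ, smp hstep z j) * E ^ 60 - hC E fullR‖ ≤ 2 / 10 ^ 37 := by
  have hE0 : E ≠ 0 := by rw [hE]; exact Complex.exp_ne_zero _
  have hinv : ‖E⁻¹‖ ≤ 41 / 40 := by
    rw [norm_inv]
    rw [inv_le_comm₀ (by linarith) (by norm_num)]
    norm_num
    exact h2
  -- values of the samples
  have hpos : ∀ n : ℕ, smp hstep z (n : ℤ) = (aR n : ℂ) * E ^ n := by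
    intro n
    unfold smp Mint aR
    have e1 : ((hstep * ((n : ℤ) : ℝ) : ℝ) : ℂ) = (((n : ℝ) * hstep : ℝ) : ℂ) := by
      push_cast
      ring
    rw [e1, ← ofReal_riemannPhi, hE, ← Complex.exp_nat_mul]
    push_cast
    congr 2
    ring
  have hneg : ∀ n : ℕ, smp hstep z (-((n : ℤ) + 1) : ℤ) = (aR (n + 1) : ℂ) * (E⁻¹) ^ (n + 1) := by
    intro n
    unfold smp Mint aR
    have e1 : ((hstep * ((-((n : ℤ) + 1) : ℤ) : ℝ) : ℝ) : ℂ) =
        -((((n + 1 : ℕ) : ℝ) * hstep : ℝ) : ℂ) := by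
      push_cast
      ring
    rw [e1, PhiC_neg (ofReal_mem_strip _), ← ofReal_riemannPhi, hE, ← Complex.exp_neg,
      ← Complex.exp_nat_mul]
    push_cast
    congr 2
    ring
  obtain ⟨t1, b1⟩ := tail_bound (x := E) (h1.trans (by norm_num))
  obtain ⟨t2, b2⟩ := tail_bound (x := E⁻¹) hinv
  set T1 := ∑' n : ℕ, (aR (n + 61) : ℂ) * E ^ (n + 61) with hT1
  set T2 := ∑' n : ℕ, (aR (n + 61) : ℂ) * (E⁻¹) ^ (n + 61) with hT2
  have s1 : HasSum (fun n : ℕ => (fun j : ℤ => smp hstep z j) n)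
      (T1 + ∑ i ∈ Finset.range 61, (aR i : ℂ) * E ^ i) := by
    have h := (hasSum_nat_add_iff (f := fun n : ℕ => (aR n : ℂ) * E ^ n) 61).1 t1
    refine h.congr_fun ?_
    intro n
    exact hpos n
  have s2 : HasSum (fun n : ℕ => (fun j : ℤ => smp hstep z j) (-((n : ℤ) + 1)))
      (T2 + ∑ i ∈ Finset.range 60, (aR (i + 1) : ℂ) * (E⁻¹) ^ (i + 1)) := by
    have h := (hasSum_nat_add_iff (f := fun n : ℕ => (aR (n + 1) : ℂ) * (E⁻¹) ^ (n + 1)) 60).1 t2
    refine h.congr_fun ?_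
    intro n
    have := hneg n
    push_cast at this ⊢
    exact this
  have s3 := HasSum.of_nat_of_neg_add_one (f := fun j : ℤ => smp hstep z j) s1 s2
  rw [s3.tsum_eq, hC_fullR hE0]
  have e : (T1 + ∑ i ∈ Finset.range 61, (aR i : ℂ) * E ^ i +
      (T2 + ∑ i ∈ Finset.range 60, (aR (i + 1) : ℂ) * (E⁻¹) ^ (i + 1))) * E ^ 60 -
      E ^ 60 * (∑ i ∈ Finset.range 61, (aR i : ℂ) * E ^ i +
      ∑ i ∈ Finset.range 60, (aR (i + 1) : ℂ) * (E⁻¹) ^ (i + 1)) = (T1 + T2) * E ^ 60 := by ring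
  rw [e, norm_mul, norm_pow]
  calc ‖T1 + T2‖ * ‖E‖ ^ 60 ≤ (1 / 10 ^ 37 + 1 / 10 ^ 37) * 1 ^ 60 := by
        gcongr
        exact (norm_add_le _ _).trans (add_le_add b1 b2)
    _ = _ := by norm_num

end Pool.Agent.H10
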