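import Pool.Agent.H10.LH

/-!
# Fourier inversion: a bound for `Φ^k` near the boundary of the strip
-/

namespace Pool.Agent.H10

open MeasureTheory Complex Filter Topology Set
open scoped FourierTransform

variable {k : ℕ}

/-- `M_k` on the line `Re s = ε` -/
theorem MM_line_bound (hk : 2 ≤ k)
    (hz : ∃ T0 : ℝ, ∀ s : ℂ, 0 < s.re → T0 ≤ |s.im| → MM k s ≠ 0)
    {ε ε' : ℝ} (hε : 0 < ε) (hε1 : ε < 1) (hε' : 0 < ε') :
    ∃ C : ℝ, 0 < C ∧ ∀ τ : ℝ, ‖MM k (ε + τ * I)‖ ≤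
      C * (1 + |τ|) ^ (ε' + ε + 9 * k / 4 - 1 / 2) * Real.exp (-(Real.pi / 2 * |τ|)) := by
  have hpi := Real.pi_pos
  have hk2 : (2 : ℝ) ≤ k := by exact_mod_cast hk
  obtain ⟨C1, T, hC1, hT, h1⟩ := LH_bound hk hz hε hε1 hε'
  obtain ⟨C2, hC2, h2⟩ := GG_upper (k := k) (by omega) hε.le
  have hcont : Continuous (fun τ : ℝ => MM k (ε + τ * I)) :=
    (differentiable_MM (k := k) (by omega)).continuous.comp (by fun_prop)
  obtain ⟨C3, hC3⟩ := (isCompact_Icc (a := -T) (b := T)).exists_bound_of_continuousOn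
    hcont.continuousOn
  set p : ℝ := ε' + ε + 9 * k / 4 - 1 / 2 with hp
  have hp0 : 0 ≤ p := by rw [hp]; linarith
  refine ⟨C1 * C2 + |C3| * Real.exp (Real.pi / 2 * T), by positivity, ?_⟩
  intro τ
  have hE := Real.exp_pos (-(Real.pi / 2 * |τ|))
  have h1τ : 1 ≤ 1 + |τ| := by have := abs_nonneg τ; linarith
  have hpow : 1 ≤ (1 + |τ|) ^ p := Real.one_le_rpow h1τ hp0
  rcases le_total T |τ| with h | h
  · have hτ0 : 0 < |τ| := by linarith
    have e1 : |τ| ^ p = |τ| ^ ε' * |τ| ^ (ε + 9 * k / 4 - 1 / 2) := by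
      rw [← Real.rpow_add hτ0]
      congr 1
      rw [hp]
      ring
    have e2 : |τ| ^ p ≤ (1 + |τ|) ^ p := Real.rpow_le_rpow hτ0.le (by linarith) hp0
    have e3 : 0 ≤ |τ| ^ ε' := Real.rpow_nonneg hτ0.le _
    calc ‖MM k (ε + τ * I)‖ ≤ C1 * |τ| ^ ε' * ‖GG k (ε + τ * I)‖ := h1 τ h
      _ ≤ C1 * |τ| ^ ε' * (C2 * |τ| ^ (ε + 9 * k / 4 - 1 / 2) *
          Real.exp (-(Real.pi / 2 * |τ|))) := by
          gcongr
          exact h2 τ (by linarith)
      _ = C1 * C2 * |τ| ^ p * Real.exp (-(Real.pi / 2 * |τ|)) := by rw [e1]; ring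
      _ ≤ C1 * C2 * (1 + |τ|) ^ p * Real.exp (-(Real.pi / 2 * |τ|)) := by gcongr
      _ ≤ (C1 * C2 + |C3| * Real.exp (Real.pi / 2 * T)) * (1 + |τ|) ^ p *
          Real.exp (-(Real.pi / 2 * |τ|)) := by
          have : 0 ≤ |C3| * Real.exp (Real.pi / 2 * T) := by positivity
          gcongr
          linarith
  · have h3 := hC3 τ (abs_le.1 h)
    have h4 : 1 ≤ Real.exp (Real.pi / 2 * T) * Real.exp (-(Real.pi / 2 * |τ|)) := by
      rw [← Real.exp_add]
      apply Real.one_le_exp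
      have : Real.pi / 2 * |τ| ≤ Real.pi / 2 * T := by gcongr
      linarith
    calc ‖MM k (ε + τ * I)‖ ≤ C3 := h3
      _ ≤ |C3| := le_abs_self _
      _ = |C3| * 1 := by ring
      _ ≤ |C3| * (Real.exp (Real.pi / 2 * T) * Real.exp (-(Real.pi / 2 * |τ|))) := by gcongr
      _ = |C3| * Real.exp (Real.pi / 2 * T) * 1 * Real.exp (-(Real.pi / 2 * |τ|)) := by ring
      _ ≤ |C3| * Real.exp (Real.pi / 2 * T) * (1 + |τ|) ^ p *
          Real.exp (-(Real.pi / 2 * |τ|)) := by gcongr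
      _ ≤ _ := by
          have : 0 ≤ C1 * C2 := by positivity
          gcongr
          linarith

lemma fourier_Mint (hk : 1 ≤ k) (ε : ℝ) {β : ℝ} (hβ : |β| < Real.pi / 8) (ξ : ℝ) :
    𝓕 (fun t : ℝ => Mint k ε (t + β * I)) ξ =
      cexp (-(2 * Real.pi * ξ * β)) * MM k (ε + (-(Real.pi * ξ / 2) : ℝ) * I) := by
  rw [MM_shift hk _ hβ, Real.fourier_real_eq_integral_exp_smul, ← integral_const_mul]
  congr 1
  ext t
  unfold Mint
  rw [smul_eq_mul]
  have : cexp (4 * (ε + (-(Real.pi * ξ / 2) : ℝ) * I) * (t + β * I)) =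
      cexp (((-2 * Real.pi * t * ξ : ℝ) : ℂ) * I) * cexp (4 * ε * (t + β * I)) *
        cexp (2 * Real.pi * ξ * β) := by
    rw [← Complex.exp_add, ← Complex.exp_add]
    congr 1
    push_cast
    linear_combination (-(2 * Real.pi * ξ * β) : ℂ) * Complex.I_sq
  rw [this]
  have h2 : cexp (-(2 * Real.pi * ξ * β)) * cexp (2 * Real.pi * ξ * β) = 1 := by
    rw [← Complex.exp_add]; simp
  linear_combination (-(cexp (((-2 * Real.pi * t * ξ : ℝ) : ℂ) * I) *
    (PhiC (t + β * I) ^ k * cexp (4 * ε * (t + β * I))))) * h2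

lemma rpow_le_exp {p : ℝ} (hp : 0 ≤ p) : ∃ K : ℝ, 0 < K ∧ ∀ y : ℝ, 0 ≤ y →
    y ^ p ≤ K * Real.exp y := by
  set n := ⌈p⌉₊ with hn
  have hpn : p ≤ n := Nat.le_ceil p
  refine ⟨1 + n.factorial, by positivity, ?_⟩
  intro y hy
  have hfac : (0 : ℝ) < n.factorial := by exact_mod_cast Nat.factorial_pos n
  have h1 : y ^ n ≤ n.factorial * Real.exp y := by
    have := Real.pow_div_factorial_le_exp y hy n
    rw [div_le_iff₀ hfac] at this
    linarith
  have h2 : 1 ≤ Real.exp y := Real.one_le_exp hy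
  rcases le_total y 1 with h | h
  · have : y ^ p ≤ 1 := Real.rpow_le_one hy h hp
    nlinarith [Real.exp_pos y]
  · have : y ^ p ≤ y ^ (n : ℝ) := Real.rpow_le_rpow_of_exponent_le h hpn
    rw [Real.rpow_natCast] at this
    nlinarith [Real.exp_pos y]

/-- Bound for `Φ^k` near the boundary of the strip, by Fourier inversion. -/
theorem Mint_bound (hk : 1 ≤ k) {ε C p : ℝ} (hC : 0 < C) (hp : 0 ≤ p)
    (hb : ∀ τ : ℝ, ‖MM k (ε + τ * I)‖ ≤ C * (1 + |τ|) ^ p * Real.exp (-(Real.pi / 2 * |τ|))) :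
    ∃ C' : ℝ, 0 < C' ∧ ∀ z : ℂ, |z.im| < Real.pi / 8 →
      ‖Mint k ε z‖ ≤ C' * (Real.pi / 8 - |z.im|) ^ (-(p + 1)) := by
  have hpi := Real.pi_gt_three
  have hpi' := Real.pi_lt_four
  obtain ⟨K, hK, hKb⟩ := rpow_le_exp hp
  refine ⟨C * K * Real.exp 1 * 2, by positivity, ?_⟩
  intro z hz
  set β := z.im with hβ
  set t := z.re with ht
  have hzt : z = (t : ℂ) + β * I := by rw [ht, hβ]; simp
  set b := Real.pi / 8 - |β| with hbdef
  have hb0 : 0 < b := by rw [hbdef]; linarith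
  have hb1 : b ≤ 1 := by
    have := abs_nonneg β
    rw [hbdef]; linarith
  set h : ℝ → ℂ := fun t : ℝ => Mint k ε (t + β * I) with hh
  have hcont : Continuous h := continuous_Mint_line k ε hz
  have hint : Integrable h := integrable_Mint_line hk ε hz
  have hF : ∀ ξ : ℝ, 𝓕 h ξ = cexp (-(2 * Real.pi * ξ * β)) *
      MM k (ε + (-(Real.pi * ξ / 2) : ℝ) * I) := fun ξ => fourier_Mint hk ε hz ξ
  have hFbound : ∀ ξ : ℝ, ‖𝓕 h ξ‖ ≤ C * K * Real.exp 1 * b ^ (-p) * Real.exp (-(b * |ξ|)) := by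
    intro ξ
    rw [hF ξ, norm_mul, Complex.norm_exp]
    have e1 : (-(2 * Real.pi * ξ * β) : ℂ).re = -(2 * Real.pi * ξ * β) := by
      have : (-(2 * Real.pi * ξ * β) : ℂ) = ((-(2 * Real.pi * ξ * β) : ℝ) : ℂ) := by
        push_cast; rfl
      rw [this, Complex.ofReal_re]
    rw [e1]
    have e2 : |(-(Real.pi * ξ / 2))| = Real.pi / 2 * |ξ| := by
      rw [abs_neg, abs_div, abs_mul, abs_of_pos Real.pi_pos, abs_of_pos (by norm_num : (0:ℝ) < 2)]
      ring
    have h1 := hb (-(Real.pi * ξ / 2))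
    rw [e2] at h1
    have h2 : Real.exp (-(2 * Real.pi * ξ * β)) ≤ Real.exp (2 * Real.pi * |ξ| * |β|) := by
      apply Real.exp_le_exp.2
      have : -(ξ * β) ≤ |ξ| * |β| := by rw [← abs_mul]; exact neg_le_abs _
      nlinarith
    -- polynomial factor
    have h3 : (1 + Real.pi / 2 * |ξ|) ^ p ≤ b ^ (-p) * (K * (Real.exp 1 *
        Real.exp (b * (Real.pi / 2 * |ξ|)))) := by
      have hy0 : 0 ≤ b * (1 + Real.pi / 2 * |ξ|) := by positivity
      have h4 := hKb _ hy0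
      rw [Real.mul_rpow hb0.le (by positivity)] at h4
      have h5 : Real.exp (b * (1 + Real.pi / 2 * |ξ|)) ≤
          Real.exp 1 * Real.exp (b * (Real.pi / 2 * |ξ|)) := by
        rw [← Real.exp_add]
        apply Real.exp_le_exp.2
        nlinarith
      have h6 : (1 + Real.pi / 2 * |ξ|) ^ p = b ^ (-p) * (b ^ p * (1 + Real.pi / 2 * |ξ|) ^ p) := by
        rw [← mul_assoc, ← Real.rpow_add hb0]
        simp
      rw [h6]
      have h7 : 0 ≤ b ^ (-p) := Real.rpow_nonneg hb0.le _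
      refine mul_le_mul_of_nonneg_left (h4.trans ?_) h7
      exact mul_le_mul_of_nonneg_left h5 hK.le
    have h8 : Real.exp (2 * Real.pi * |ξ| * |β|) * (Real.exp (b * (Real.pi / 2 * |ξ|)) *
        Real.exp (-(Real.pi / 2 * (Real.pi / 2 * |ξ|)))) ≤ Real.exp (-(b * |ξ|)) := by
      rw [← Real.exp_add, ← Real.exp_add]
      apply Real.exp_le_exp.2
      have hβb : |β| = Real.pi / 8 - b := by rw [hbdef]; ring
      rw [hβb]
      have h9 : 0 ≤ b * |ξ| := by positivity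
      have h10 : 2 * Real.pi * |ξ| * (Real.pi / 8 - b) + (b * (Real.pi / 2 * |ξ|) +
          -(Real.pi / 2 * (Real.pi / 2 * |ξ|))) = -(3 * Real.pi / 2) * (b * |ξ|) := by ring
      rw [h10]
      nlinarith
    have h11 : 0 ≤ b ^ (-p) := Real.rpow_nonneg hb0.le _
    calc Real.exp (-(2 * Real.pi * ξ * β)) * ‖MM k (ε + (-(Real.pi * ξ / 2) : ℝ) * I)‖ ≤
        Real.exp (2 * Real.pi * |ξ| * |β|) * (C * (1 + Real.pi / 2 * |ξ|) ^ p *
          Real.exp (-(Real.pi / 2 * (Real.pi / 2 * |ξ|)))) := by gcongr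
      _ ≤ Real.exp (2 * Real.pi * |ξ| * |β|) * (C * (b ^ (-p) * (K * (Real.exp 1 *
        Real.exp (b * (Real.pi / 2 * |ξ|))))) *
          Real.exp (-(Real.pi / 2 * (Real.pi / 2 * |ξ|)))) := by gcongr
      _ = C * K * Real.exp 1 * b ^ (-p) * (Real.exp (2 * Real.pi * |ξ| * |β|) *
          (Real.exp (b * (Real.pi / 2 * |ξ|)) *
        Real.exp (-(Real.pi / 2 * (Real.pi / 2 * |ξ|))))) := by ring
      _ ≤ C * K * Real.exp 1 * b ^ (-p) * Real.exp (-(b * |ξ|)) := by gcongr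
  have hFcont : Continuous (𝓕 h) := by
    have : 𝓕 h = fun ξ : ℝ => cexp (-(2 * Real.pi * ξ * β)) *
      MM k (ε + (-(Real.pi * ξ / 2) : ℝ) * I) := by ext ξ; exact hF ξ
    rw [this]
    apply Continuous.mul (by fun_prop)
    exact (differentiable_MM hk).continuous.comp (by fun_prop)
  have hFint : Integrable (𝓕 h) :=
    Integrable.mono' ((integrable_exp_neg_mul_abs hb0).const_mul _)
      hFcont.aestronglyMeasurable (Eventually.of_forall hFbound)
  have hinv := congrFun (hcont.fourierInv_fourier_eq hint hFint) t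
  have e3 : Mint k ε z = 𝓕⁻ (𝓕 h) t := by
    rw [hinv, hzt]
  rw [e3, Real.fourierInv_eq']
  have e4 : b ^ (-(p + 1)) = b ^ (-p) * b⁻¹ := by
    have : -(p + 1) = -p + (-1) := by ring
    rw [this, Real.rpow_add hb0, Real.rpow_neg_one]
  calc ‖∫ v : ℝ, cexp ((↑(2 * Real.pi * inner ℝ v t) * I)) • 𝓕 h v‖ ≤
      ∫ v : ℝ, C * K * Real.exp 1 * b ^ (-p) * Real.exp (-(b * |v|)) := by
        apply MeasureTheory.norm_integral_le_of_norm_le
          ((integrable_exp_neg_mul_abs hb0).const_mul _)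
        refine Eventually.of_forall (fun v => ?_)
        rw [norm_smul, Complex.norm_exp_ofReal_mul_I, one_mul]
        exact hFbound v
    _ = C * K * Real.exp 1 * b ^ (-p) * (2 / b) := by
        rw [integral_const_mul, integral_exp_neg_mul_abs hb0]
    _ = _ := by
        rw [e4]
        ring

end Pool.Agent.H10
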