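import Mathlib

/-!
# A Lindelöf-on-RH type estimate on discs
-/

namespace Pool.Agent.H10

open Complex Filter Topology Set Metric

/-- logarithm on a ball -/
lemma exists_log_ball {f : ℂ → ℂ} {R : ℝ} (hR : 0 < R) (hf : DifferentiableOn ℂ f (ball 0 R))
    (h0 : ∀ z ∈ ball (0 : ℂ) R, f z ≠ 0) :
    ∃ L : ℂ → ℂ, DifferentiableOn ℂ L (ball 0 R) ∧ L 0 = Complex.log (f 0) ∧
      ∀ z ∈ ball (0 : ℂ) R, f z = cexp (L z) := by
  have hd : DifferentiableOn ℂ (fun z => deriv f z / f z) (ball 0 R) :=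
    (hf.deriv isOpen_ball).div hf h0
  obtain ⟨L, hL0, hL⟩ := hd.isExactOn_ball.with_val_at 0 (Complex.log (f 0))
  have hc : ∀ z ∈ ball (0 : ℂ) R, HasDerivAt (fun z => f z * cexp (-L z)) 0 z := by
    intro z hz
    have h1 := ((hf z hz).differentiableAt (isOpen_ball.mem_nhds hz)).hasDerivAt.mul
      ((hL z hz).fun_neg.cexp)
    refine h1.congr_deriv ?_
    have := h0 z hz
    field_simp
    ring
  have hconst : ∀ z ∈ ball (0 : ℂ) R, f z * cexp (-L z) = f 0 * cexp (-L 0) := by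
    intro z hz
    refine IsOpen.is_const_of_deriv_eq_zero isOpen_ball (convex_ball (0 : ℂ) R).isPreconnected
      (f := fun z => f z * cexp (-L z))
      (fun w hw => (hc w hw).differentiableAt.differentiableWithinAt)
      (fun w hw => (hc w hw).deriv) hz (mem_ball_self hR)
  refine ⟨L, fun z hz => (hL z hz).differentiableAt.differentiableWithinAt, hL0, ?_⟩
  intro z hz
  have h1 := hconst z hz
  have h2 : f 0 * cexp (-L 0) = 1 := by
    rw [hL0, Complex.exp_neg, Complex.exp_log (h0 0 (mem_ball_self hR))]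
    exact mul_inv_cancel₀ (h0 0 (mem_ball_self hR))
  rw [h2, Complex.exp_neg] at h1
  have h3 : cexp (L z) ≠ 0 := Complex.exp_ne_zero _
  field_simp at h1
  exact h1

/-- splitting of the Taylor series -/
lemma taylor_split {r1 r2 r3 : ℝ} (h1 : 0 < r1) (h12 : r1 < r2) (h23 : r2 < r3) {M0 δ : ℝ}
    (hδ : 0 < δ) : ∃ K : ℝ, ∀ (f : ℂ → ℂ) (M3 : ℝ), 0 ≤ M3 →
      DifferentiableOn ℂ f (closedBall 0 r3) → (∀ z ∈ closedBall (0 : ℂ) r1, ‖f z‖ ≤ M0) →
      (∀ z ∈ closedBall (0 : ℂ) r3, ‖f z‖ ≤ M3) →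
      ∀ z ∈ closedBall (0 : ℂ) r2, ‖f z‖ ≤ K + δ * M3 := by
  have h3 : 0 < r3 := by linarith
  have h2 : 0 < r2 := by linarith
  set q : ℝ := r2 / r3 with hq
  have hq0 : 0 < q := by positivity
  have hq1 : q < 1 := by rw [hq, div_lt_one h3]; exact h23
  have hlim : Tendsto (fun n : ℕ => q ^ n) atTop (𝓝 0) :=
    tendsto_pow_atTop_nhds_zero_of_lt_one hq0.le hq1
  have h1q : 0 < 1 - q := by linarith
  obtain ⟨N, hN⟩ := (hlim.eventually_lt_const (by positivity : 0 < δ * (1 - q))).exists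
  refine ⟨∑ n ∈ Finset.range N, M0 * (r2 / r1) ^ n, ?_⟩
  intro f M3 hM3 hf hb1 hb3 z hz
  have hzn : ‖z‖ ≤ r2 := by simpa using hz
  have hzb : z ∈ ball (0 : ℂ) r3 := by
    rw [mem_ball_zero_iff]
    linarith
  have hsum := Complex.hasSum_taylorSeries_on_ball (hf.mono ball_subset_closedBall) hzb
  have hsum2 := (hasSum_nat_add_iff' N).2 hsum
  have hcauchy : ∀ (r : ℝ) (M : ℝ), 0 < r → r ≤ r3 → (∀ z ∈ closedBall (0 : ℂ) r, ‖f z‖ ≤ M) →
      ∀ n : ℕ, ‖((n.factorial : ℂ))⁻¹ • (z - 0) ^ n • iteratedDeriv n f 0‖ ≤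
        M * (r2 / r) ^ n := by
    intro r M hr hr3 hM n
    have hdc : DiffContOnCl ℂ f (ball 0 r) := by
      apply DifferentiableOn.diffContOnCl
      rw [closure_ball _ hr.ne']
      exact hf.mono (closedBall_subset_closedBall hr3)
    have hc := Complex.norm_iteratedDeriv_le_of_forall_mem_sphere_norm_le n hr hdc
      (C := M) (fun w hw => hM w (sphere_subset_closedBall hw))
    have hM0 : 0 ≤ M := (norm_nonneg _).trans (hM 0 (mem_closedBall_self hr.le))
    rw [norm_smul, norm_smul, norm_inv, norm_pow, sub_zero, Complex.norm_natCast]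
    have hfac : (0 : ℝ) < n.factorial := by exact_mod_cast Nat.factorial_pos n
    calc ((n.factorial : ℝ))⁻¹ * (‖z‖ ^ n * ‖iteratedDeriv n f 0‖) ≤
        ((n.factorial : ℝ))⁻¹ * (r2 ^ n * (n.factorial * M / r ^ n)) := by gcongr
      _ = M * (r2 / r) ^ n := by
        rw [div_pow]
        field_simp
  have hhead : ‖∑ n ∈ Finset.range N,
      ((n.factorial : ℂ))⁻¹ • (z - 0) ^ n • iteratedDeriv n f 0‖ ≤
      ∑ n ∈ Finset.range N, M0 * (r2 / r1) ^ n := by
    refine norm_sum_le_of_le _ (fun n _ => ?_)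
    exact hcauchy r1 M0 h1 (by linarith) hb1 n
  have htail : ‖f z - ∑ n ∈ Finset.range N,
      ((n.factorial : ℂ))⁻¹ • (z - 0) ^ n • iteratedDeriv n f 0‖ ≤ M3 * q ^ N * (1 - q)⁻¹ := by
    have hg := (hasSum_geometric_of_lt_one hq0.le hq1).mul_left (M3 * q ^ N)
    refine hsum2.norm_le_of_bounded hg (fun n => ?_)
    refine (hcauchy r3 M3 h3 le_rfl hb3 (n + N)).trans (le_of_eq ?_)
    rw [← hq, pow_add]
    ring
  have hfin : M3 * q ^ N * (1 - q)⁻¹ ≤ δ * M3 := by
    have : q ^ N * (1 - q)⁻¹ ≤ δ := by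
      rw [← div_eq_mul_inv, div_le_iff₀ h1q]
      exact hN.le
    calc M3 * q ^ N * (1 - q)⁻¹ = M3 * (q ^ N * (1 - q)⁻¹) := by ring
      _ ≤ M3 * δ := by gcongr
      _ = _ := by ring
  have := norm_add_le (∑ n ∈ Finset.range N,
      ((n.factorial : ℂ))⁻¹ • (z - 0) ^ n • iteratedDeriv n f 0) (f z - ∑ n ∈ Finset.range N,
      ((n.factorial : ℂ))⁻¹ • (z - 0) ^ n • iteratedDeriv n f 0)
  rw [add_sub_cancel] at this
  linarith

/-- If a zero-free function on a disc is bounded by `e^B` and is close to `1` on a small concentric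
disc, then it is bounded by `e^{K + δ B}` on any smaller concentric disc. -/
theorem lh_disc {R r1 r2 : ℝ} (h1 : 0 < r1) (h12 : r1 < r2) (h2R : r2 < R) {δ : ℝ} (hδ : 0 < δ) :
    ∃ K : ℝ, ∀ (f : ℂ → ℂ) (B : ℝ), 0 < B → DifferentiableOn ℂ f (ball 0 R) →
      (∀ z ∈ ball (0 : ℂ) R, f z ≠ 0) → (∀ z ∈ ball (0 : ℂ) R, ‖f z‖ ≤ Real.exp B) →
      (∀ z ∈ ball (0 : ℂ) r1, ‖f z - 1‖ ≤ 1 / 2) →
      ∀ z ∈ closedBall (0 : ℂ) r2, ‖f z‖ ≤ Real.exp (K + δ * B) := by
  have hR : 0 < R := by linarith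
  set R' := (r2 + R) / 2 with hR'
  have hR'1 : r2 < R' := by rw [hR']; linarith
  have hR'2 : R' < R := by rw [hR']; linarith
  have hR'0 : 0 < R' := by linarith
  have hd : 0 < R - R' := by linarith
  set δ' := δ * (R - R') / (2 * R) with hδ'
  have hδ'0 : 0 < δ' := by positivity
  obtain ⟨K, hK⟩ := taylor_split (r1 := r1 / 2) (r2 := r2) (r3 := R') (by linarith)
    (by linarith) hR'1 (M0 := 4) hδ'0
  refine ⟨K + δ, ?_⟩
  intro f B hB hf h0 hfB hf1 z hz
  obtain ⟨L, hL, hL0, hfL⟩ := exists_log_ball hR hf h0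
  have hre : ∀ w ∈ ball (0 : ℂ) R, ‖f w‖ = Real.exp (L w).re := by
    intro w hw
    rw [hfL w hw, Complex.norm_exp]
  have hL0n : ‖L 0‖ ≤ 1 := by
    rw [hL0]
    have h := hf1 0 (mem_ball_self h1)
    have := Complex.norm_log_one_add_half_le_self h
    rw [add_sub_cancel] at this
    linarith
  -- bound on the small ball
  have hs : ∀ w ∈ closedBall (0 : ℂ) (r1 / 2), ‖L w‖ ≤ 4 := by
    intro w hw
    have hwn : ‖w‖ ≤ r1 / 2 := by simpa using hw
    have hwb : w ∈ ball (0 : ℂ) r1 := by rw [mem_ball_zero_iff]; linarith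
    have hsub : ball (0 : ℂ) r1 ⊆ ball 0 R := ball_subset_ball (by linarith)
    have hmaps : MapsTo L (ball 0 r1) {z | z.re ≤ 1 / 2} := by
      intro v hv
      show (L v).re ≤ 1 / 2
      have e1 := hre v (hsub hv)
      have e2 : ‖f v‖ ≤ 3 / 2 := by
        have := hf1 v hv
        have e3 : ‖f v‖ ≤ ‖f v - 1‖ + ‖(1 : ℂ)‖ := by
          have := norm_add_le (f v - 1) 1
          rwa [sub_add_cancel] at this
        rw [norm_one] at e3
        linarith
      rw [e1] at e2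
      by_contra hcon
      push Not at hcon
      have e4 : Real.exp (1 / 2) < Real.exp (L v).re := Real.exp_lt_exp.2 hcon
      have e5 : (1 / 2 : ℝ) + 1 ≤ Real.exp (1 / 2) := Real.add_one_le_exp _
      linarith
    have hbc := Complex.borelCaratheodory (by norm_num : (0 : ℝ) < 1 / 2) (hL.mono hsub) hmaps h1 hwb
    refine hbc.trans ?_
    have hden : r1 / 2 ≤ r1 - ‖w‖ := by linarith
    have hden0 : 0 < r1 - ‖w‖ := by linarith
    have a1 : 2 * (1 / 2) * ‖w‖ / (r1 - ‖w‖) ≤ 1 := by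
      rw [div_le_one hden0]
      linarith
    have a2 : ‖L 0‖ * (r1 + ‖w‖) / (r1 - ‖w‖) ≤ 3 := by
      rw [div_le_iff₀ hden0]
      have : ‖L 0‖ * (r1 + ‖w‖) ≤ 1 * (r1 + ‖w‖) := by gcongr
      linarith
    linarith
  -- bound on the large ball
  set M3 := 2 * R / (R - R') * (B + 1) with hM3
  have hM30 : 0 ≤ M3 := by positivity
  have hl : ∀ w ∈ closedBall (0 : ℂ) R', ‖L w‖ ≤ M3 := by
    intro w hw
    have hwn : ‖w‖ ≤ R' := by simpa using hw
    have hwb : w ∈ ball (0 : ℂ) R := by rw [mem_ball_zero_iff]; linarith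
    have hmaps : MapsTo L (ball 0 R) {z | z.re ≤ B} := by
      intro v hv
      show (L v).re ≤ B
      have e1 := hre v hv
      have e2 := hfB v hv
      rw [e1] at e2
      exact Real.exp_le_exp.1 e2
    have hbc := Complex.borelCaratheodory hB hL hmaps hR hwb
    refine hbc.trans ?_
    have hden : R - R' ≤ R - ‖w‖ := by linarith
    have hden0 : 0 < R - ‖w‖ := by linarith
    calc 2 * B * ‖w‖ / (R - ‖w‖) + ‖L 0‖ * (R + ‖w‖) / (R - ‖w‖) ≤
        2 * B * R / (R - R') + 1 * (R + R) / (R - R') := by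
          gcongr
          · linarith
          · linarith
      _ = M3 := by rw [hM3]; ring
  have hfin := hK L M3 hM30 (hL.mono (closedBall_subset_ball hR'2)) hs hl z hz
  have hzb : z ∈ ball (0 : ℂ) R := by
    rw [mem_ball_zero_iff]
    have : ‖z‖ ≤ r2 := by simpa using hz
    linarith
  rw [hre z hzb]
  apply Real.exp_le_exp.2
  have h3 : (L z).re ≤ ‖L z‖ := Complex.re_le_norm _
  have h4 : δ' * M3 = δ * (B + 1) := by
    rw [hδ', hM3]
    field_simp
  rw [h4] at hfin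
  linarith

end Pool.Agent.H10
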