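import Pool.Agent.H10.HornerSum
import Pool.Agent.H10.LHDisc

/-!
# A non-real zero of `F_2`
-/

namespace Pool.Agent.H10

open MeasureTheory Complex Filter Topology Set Metric

/-- If `|f(c)| M < |f(c+w)|²` with `|w| ≤ R/5` and `|f| ≤ M` on the disc, then `f` has a zero. -/
lemma exists_zero_of_bounds {f : ℂ → ℂ} (hf : Differentiable ℂ f) {c w : ℂ} {R M : ℝ}
    (hR : 0 < R) (hw : ‖w‖ ≤ R / 5) (hM : ∀ z ∈ ball c R, ‖f z‖ ≤ M)
    (h : ‖f c‖ * M < ‖f (c + w)‖ ^ 2) : ∃ z ∈ ball c R, f z = 0 := by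
  by_contra hcon
  push Not at hcon
  have hball : ∀ v : ℂ, v ∈ ball (0 : ℂ) R → c + v ∈ ball c R := by
    intro v hv
    rw [mem_ball_zero_iff] at hv
    rw [mem_ball, dist_eq_norm]
    simpa using hv
  have hgd : Differentiable ℂ (fun v => f (c + v)) := hf.comp (by fun_prop)
  obtain ⟨L, hL, hL0, hfL⟩ := exists_log_ball (f := fun v => f (c + v)) hR hgd.differentiableOn
    (fun v hv => hcon _ (hball v hv))
  have hre : ∀ v ∈ ball (0 : ℂ) R, ‖f (c + v)‖ = Real.exp (L v).re := by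
    intro v hv
    rw [hfL v hv, Complex.norm_exp]
  have h0b : (0 : ℂ) ∈ ball (0 : ℂ) R := mem_ball_self hR
  have hwb : w ∈ ball (0 : ℂ) R := by
    rw [mem_ball_zero_iff]
    linarith
  have hMpos : 0 < M := by
    have h1 := hM (c + 0) (hball 0 h0b)
    rw [hre 0 h0b] at h1
    exact (Real.exp_pos _).trans_le h1
  set m := Real.log M with hm
  have hexpm : Real.exp m = M := Real.exp_log hMpos
  have hle : ∀ v ∈ ball (0 : ℂ) R, (L v).re ≤ m := by
    intro v hv
    have h1 := hM _ (hball v hv)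
    rw [hre v hv, ← hexpm] at h1
    exact Real.exp_le_exp.1 h1
  have hc : ‖f c‖ = Real.exp (L 0).re := by
    have := hre 0 h0b
    simpa using this
  have hcw : ‖f (c + w)‖ = Real.exp (L w).re := hre w hwb
  -- the inequality in terms of logarithms
  have hlog : (L 0).re + m < 2 * (L w).re := by
    rw [hc, hcw, ← hexpm, ← Real.exp_add, ← Real.exp_nat_mul] at h
    have := Real.exp_lt_exp.1 h
    push_cast at this
    exact this
  set Δ := m - (L 0).re with hΔ
  have hΔ0 : 0 ≤ Δ := by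
    have := hle 0 h0b
    rw [hΔ]; linarith
  rcases eq_or_lt_of_le hΔ0 with h0 | hpos
  · have := hle w hwb
    linarith
  · have hmaps : MapsTo (fun v => L v - L 0) (ball 0 R) {z | z.re ≤ Δ} := by
      intro v hv
      show (L v - L 0).re ≤ Δ
      rw [Complex.sub_re]
      have := hle v hv
      linarith
    have hbc := Complex.borelCaratheodory_zero hpos (hL.sub_const (L 0)) hmaps hR hwb (by simp)
    have hden : 4 / 5 * R ≤ R - ‖w‖ := by linarith
    have h1 : 2 * Δ * ‖w‖ / (R - ‖w‖) ≤ Δ / 2 := by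
      rw [div_le_iff₀ (by linarith)]
      have : 2 * Δ * ‖w‖ ≤ 2 * Δ * (R / 5) := by gcongr
      have : Δ / 2 * (4 / 5 * R) ≤ Δ / 2 * (R - ‖w‖) := by gcongr
      linarith
    have h2 : (L w - L 0).re ≤ ‖L w - L 0‖ := Complex.re_le_norm _
    rw [Complex.sub_re] at h2
    have h3 : ‖L w - L 0‖ ≤ Δ / 2 := hbc.trans h1
    linarith

/-! ### Numbers -/

lemma hstep_lower : 1 / 82 ≤ hstep := by
  unfold hstep
  have := Real.one_sub_inv_le_log_of_pos (by norm_num : (0 : ℝ) < 41 / 40)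
  norm_num at this
  linarith

lemma hstep_upper : hstep ≤ 1 / 80 := by
  unfold hstep
  have := Real.log_le_sub_one_of_pos (by norm_num : (0 : ℝ) < 41 / 40)
  norm_num at this
  linarith

lemma exp_neg_nat_le (n : ℕ) : Real.exp (-(n : ℝ)) ≤ (1 / 2.718) ^ n := by
  have h : Real.exp (-(n : ℝ)) = (Real.exp 1)⁻¹ ^ n := by
    rw [← Real.exp_neg, ← Real.exp_nat_mul]
    congr 1
    ring
  rw [h]
  have h1 := Real.exp_one_gt_d9
  apply pow_le_pow_left₀ (by positivity)
  rw [one_div]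
  apply inv_anti₀ (by norm_num)
  linarith

/-- The error of the sampled sum. -/
theorem K2_sampled {z : ℂ} (hz : |z.im| ≤ 2) (hx0 : 0 ≤ z.re * hstep)
    (hx1 : z.re * hstep ≤ 1.915) :
    ‖(hstep : ℂ) * (∑' j : ℤ, smp hstep z j) - K2 z‖ ≤ 3 / 10 ^ 36 := by
  have hh := hstep_pos
  have hpi := Real.pi_gt_d2
  have hP := poisson_smp hh z hz
  have hP2 := hasSum_ite_sub_hasSum hP 0
  set q : ℝ := (1 / 2.718) ^ 91 with hq
  have hq0 : 0 ≤ q := by positivity
  have hq1 : q < 1 := by rw [hq]; norm_num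
  have hg := hasSum_ite_sub_hasSum (hasSum_geom_int (C := hstep⁻¹ * 2880) hq0 hq1) 0
  have hb := hP2.norm_le_of_bounded hg (by
    intro m
    by_cases hm : m = 0
    · simp [hm]
    · rw [if_neg hm, if_neg hm, norm_mul, Complex.norm_real, Real.norm_eq_abs,
        abs_of_pos (by positivity)]
      have him : (z - 2 * Real.pi * m / hstep : ℂ).im = z.im := by
        have : (2 * Real.pi * m / hstep : ℂ) = ((2 * Real.pi * m / hstep : ℝ) : ℂ) := by
          push_cast; rfl
        rw [this, Complex.sub_im, Complex.ofReal_im, sub_zero]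
      have hre : (z - 2 * Real.pi * m / hstep : ℂ).re = z.re - 2 * Real.pi * m / hstep := by
        have : (2 * Real.pi * m / hstep : ℂ) = ((2 * Real.pi * m / hstep : ℝ) : ℂ) := by
          push_cast; rfl
        rw [this, Complex.sub_re, Complex.ofReal_re]
      have h1 := norm_K2_le (z := z - 2 * Real.pi * m / hstep) (by rw [him]; exact hz)
      rw [hre] at h1
      -- the distance
      have hdist : 349 * |(m : ℝ)| ≤ |z.re - 2 * Real.pi * m / hstep| := by
        have e1 : z.re - 2 * Real.pi * m / hstep = (z.re * hstep - 2 * Real.pi * m) / hstep := by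
          field_simp
        rw [e1, abs_div, abs_of_pos hh, le_div_iff₀ hh]
        have hu := hstep_upper
        have h2 : 4.365 * |(m : ℝ)| ≤ |z.re * hstep - 2 * Real.pi * m| := by
          rcases lt_or_gt_of_ne hm with hneg | hposm
          · have hm1 : (m : ℝ) ≤ -1 := by exact_mod_cast (by omega : m ≤ -1)
            have := le_abs_self (z.re * hstep - 2 * Real.pi * m)
            rw [abs_of_neg (by linarith : (m : ℝ) < 0)]
            nlinarith
          · have hm1 : (1 : ℝ) ≤ m := by exact_mod_cast (by omega : 1 ≤ m)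
            have := neg_le_abs (z.re * hstep - 2 * Real.pi * m)
            rw [abs_of_pos (by linarith : (0 : ℝ) < m)]
            nlinarith
        have h3 : 0 ≤ |(m : ℝ)| := abs_nonneg _
        nlinarith
      have h4 : Real.exp (-(Real.pi / 12 * |z.re - 2 * Real.pi * m / hstep|)) ≤ q ^ m.natAbs := by
        have h5 : q ^ m.natAbs = (1 / 2.718) ^ (91 * m.natAbs) := by rw [hq, ← pow_mul]
        rw [h5]
        refine le_trans ?_ (exp_neg_nat_le (91 * m.natAbs))
        apply Real.exp_le_exp.2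
        push_cast
        rw [Nat.cast_natAbs, Int.cast_abs]
        have h3 : 0 ≤ |(m : ℝ)| := abs_nonneg _
        have h6 : Real.pi / 12 * (349 * |(m : ℝ)|) ≤
            Real.pi / 12 * |z.re - 2 * Real.pi * m / hstep| := by gcongr
        nlinarith
      calc hstep⁻¹ * ‖K2 (z - 2 * Real.pi * m / hstep)‖ ≤
          hstep⁻¹ * (2880 * q ^ m.natAbs) := by
            gcongr
            exact h1.trans (by gcongr)
        _ = _ := by ring)
  have e0 : z - 2 * Real.pi * ((0 : ℤ) : ℂ) / hstep = z := by simp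
  rw [e0] at hb
  have hne : (hstep : ℂ) ≠ 0 := by exact_mod_cast hh.ne'
  have e1 : (hstep : ℂ) * (∑' j : ℤ, smp hstep z j) - K2 z =
      (hstep : ℂ) * ((∑' j : ℤ, smp hstep z j) - ((hstep⁻¹ : ℝ) : ℂ) * K2 z) := by
    push_cast
    field_simp
  rw [e1, norm_mul, Complex.norm_real, Real.norm_eq_abs, abs_of_pos hh]
  have e2 : hstep * (hstep⁻¹ * 2880 * (1 - q)⁻¹ + hstep⁻¹ * 2880 * q * (1 - q)⁻¹ -
      hstep⁻¹ * 2880 * q ^ (0 : ℤ).natAbs) = 5760 * q * (1 - q)⁻¹ := by
    have h1q : (1 - q) ≠ 0 := by linarith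
    simp only [Int.natAbs_zero, pow_zero]
    field_simp
    ring
  calc hstep * ‖(∑' j : ℤ, smp hstep z j) - ((hstep⁻¹ : ℝ) : ℂ) * K2 z‖ ≤
      hstep * (hstep⁻¹ * 2880 * (1 - q)⁻¹ + hstep⁻¹ * 2880 * q * (1 - q)⁻¹ -
      hstep⁻¹ * 2880 * q ^ (0 : ℤ).natAbs) := by gcongr
    _ = 5760 * q * (1 - q)⁻¹ := e2
    _ ≤ 3 / 10 ^ 36 := by
        rw [hq]
        norm_num

/-- the point `E0` -/
noncomputable def E0 : ℂ := (((-5905036118581440547 : ℤ) : ℂ) + ((17286090079015106392 : ℤ) : ℂ) * I) / 2 ^ 64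
/-- the point `E1` -/
noncomputable def E1 : ℂ := (((-20979 : ℤ) : ℂ) + ((61443 : ℤ) : ℂ) * I) / 2 ^ 16

lemma E0_re : E0.re = -5905036118581440547 / 2 ^ 64 := by
  unfold E0
  have : (((-5905036118581440547 : ℤ) : ℂ) + ((17286090079015106392 : ℤ) : ℂ) * I) / 2 ^ 64 =
      ((-5905036118581440547 / 2 ^ 64 : ℝ) : ℂ) + ((17286090079015106392 / 2 ^ 64 : ℝ) : ℂ) * I := by
    push_cast; ring
  rw [this, Complex.add_re, Complex.ofReal_re, Complex.re_ofReal_mul, Complex.I_re, mul_zero,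
    add_zero]

lemma E0_im : E0.im = 17286090079015106392 / 2 ^ 64 := by
  unfold E0
  have : (((-5905036118581440547 : ℤ) : ℂ) + ((17286090079015106392 : ℤ) : ℂ) * I) / 2 ^ 64 =
      ((-5905036118581440547 / 2 ^ 64 : ℝ) : ℂ) + ((17286090079015106392 / 2 ^ 64 : ℝ) : ℂ) * I := by
    push_cast; ring
  rw [this, Complex.add_im, Complex.ofReal_im, Complex.im_ofReal_mul, Complex.I_im, mul_one,
    zero_add]

lemma E1_re : E1.re = -20979 / 2 ^ 16 := by
  unfold E1
  have : (((-20979 : ℤ) : ℂ) + ((61443 : ℤ) : ℂ) * I) / 2 ^ 16 =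
      ((-20979 / 2 ^ 16 : ℝ) : ℂ) + ((61443 / 2 ^ 16 : ℝ) : ℂ) * I := by
    push_cast; ring
  rw [this, Complex.add_re, Complex.ofReal_re, Complex.re_ofReal_mul, Complex.I_re, mul_zero,
    add_zero]

lemma E1_im : E1.im = 61443 / 2 ^ 16 := by
  unfold E1
  have : (((-20979 : ℤ) : ℂ) + ((61443 : ℤ) : ℂ) * I) / 2 ^ 16 =
      ((-20979 / 2 ^ 16 : ℝ) : ℂ) + ((61443 / 2 ^ 16 : ℝ) : ℂ) * I := by
    push_cast; ring
  rw [this, Complex.add_im, Complex.ofReal_im, Complex.im_ofReal_mul, Complex.I_im, mul_one,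
    zero_add]

lemma norm_bounds {z : ℂ} {a b : ℝ} (hb : 0 ≤ b) (h1 : a ^ 2 ≤ z.re ^ 2 + z.im ^ 2)
    (h2 : z.re ^ 2 + z.im ^ 2 ≤ b ^ 2) : a ≤ ‖z‖ ∧ ‖z‖ ≤ b := by
  have e : ‖z‖ ^ 2 = z.re ^ 2 + z.im ^ 2 := by
    rw [← Complex.normSq_eq_norm_sq, Complex.normSq_apply]
    ring
  constructor
  · apply le_of_sq_le_sq _ (norm_nonneg _)
    rw [e]; exact h1
  · apply le_of_sq_le_sq _ hb
    rw [e]; exact h2

lemma norm_E0 : 0.99 ≤ ‖E0‖ ∧ ‖E0‖ ≤ 0.991 := by
  apply norm_bounds (by norm_num)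
  · rw [E0_re, E0_im]; norm_num
  · rw [E0_re, E0_im]; norm_num

lemma norm_E1 : 0.99 ≤ ‖E1‖ ∧ ‖E1‖ ≤ 0.991 := by
  apply norm_bounds (by norm_num)
  · rw [E1_re, E1_im]; norm_num
  · rw [E1_re, E1_im]; norm_num

/-- `κ = -i E0` -/
noncomputable def kap : ℂ := -I * E0

lemma kap_re : kap.re = E0.im := by unfold kap; simp
lemma kap_im : kap.im = -E0.re := by unfold kap; simp

lemma norm_kap : ‖kap‖ = ‖E0‖ := by
  unfold kap
  rw [norm_mul, norm_neg, Complex.norm_I, one_mul]

lemma kap_ne : kap ≠ 0 := by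
  intro h
  have h1 := norm_kap
  rw [h, norm_zero] at h1
  have := norm_E0.1
  linarith

/-- `w0` with `e^{i w0} = E0` -/
noncomputable def w0 : ℂ := Real.pi / 2 - I * Complex.log kap

lemma exp_w0 : cexp (I * w0) = E0 := by
  unfold w0
  have : I * (Real.pi / 2 - I * Complex.log kap) = Real.pi / 2 * I + Complex.log kap := by
    have := Complex.I_mul_I
    linear_combination (-(Complex.log kap)) * this
  rw [this, Complex.exp_add, Complex.exp_log kap_ne, Complex.exp_pi_div_two_mul_I]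
  unfold kap
  have := Complex.I_mul_I
  linear_combination (-E0) * this

lemma w0_re : w0.re = Real.pi / 2 + kap.arg := by
  unfold w0
  have : (Real.pi / 2 - I * Complex.log kap : ℂ).re = Real.pi / 2 + (Complex.log kap).im := by
    have e : (Real.pi / 2 : ℂ) = ((Real.pi / 2 : ℝ) : ℂ) := by push_cast; rfl
    rw [e, Complex.sub_re, Complex.ofReal_re]
    simp
  rw [this, Complex.log_im]

lemma w0_im : w0.im = -Real.log ‖E0‖ := by
  unfold w0
  have : (Real.pi / 2 - I * Complex.log kap : ℂ).im = -(Complex.log kap).re := by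
    have e : (Real.pi / 2 : ℂ) = ((Real.pi / 2 : ℝ) : ℂ) := by push_cast; rfl
    rw [e, Complex.sub_im, Complex.ofReal_im]
    simp
  rw [this, Complex.log_re, norm_kap]

lemma w0_re_bounds : 1.89 ≤ w0.re ∧ w0.re ≤ 1.913 := by
  have hpi1 := Real.pi_gt_d4
  have hpi2 := Real.pi_lt_d4
  have hre : kap.re = 17286090079015106392 / 2 ^ 64 := by rw [kap_re, E0_im]
  have him : kap.im = 5905036118581440547 / 2 ^ 64 := by rw [kap_im, E0_re]; ring
  have hre0 : 0 < kap.re := by rw [hre]; positivity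
  have him0 : 0 ≤ kap.im := by rw [him]; positivity
  have harg : |kap.arg| < Real.pi / 2 := Complex.abs_arg_lt_pi_div_two_iff.2 (Or.inl hre0)
  have harg0 : 0 ≤ kap.arg := Complex.arg_nonneg_iff.2 him0
  rw [abs_of_nonneg harg0] at harg
  have hsin : Real.sin kap.arg = kap.im / ‖kap‖ := Complex.sin_arg kap
  have htan : Real.tan kap.arg = kap.im / kap.re := Complex.tan_arg kap
  have h1 : Real.sin kap.arg ≤ kap.arg := Real.sin_le harg0
  have h2 : kap.arg ≤ Real.tan kap.arg := Real.le_tan harg0 harg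
  have h3 : 0.32 ≤ kap.im / ‖kap‖ := by
    rw [norm_kap]
    have h4 := norm_E0
    rw [le_div_iff₀ (by linarith), him]
    calc 0.32 * ‖E0‖ ≤ 0.32 * 0.991 := by gcongr; exact h4.2
      _ ≤ 5905036118581440547 / 2 ^ 64 := by norm_num
  have h5 : kap.im / kap.re ≤ 0.342 := by
    rw [hre, him]
    norm_num
  rw [w0_re]
  rw [hsin] at h1
  rw [htan] at h2
  constructor
  · linarith
  · linarith

lemma w0_im_bounds : 0.009 ≤ w0.im ∧ w0.im ≤ 0.0102 := by
  have h := norm_E0
  rw [w0_im]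
  have hpos : 0 < ‖E0‖ := by linarith
  have h1 := Real.log_le_sub_one_of_pos hpos
  have h2 := Real.one_sub_inv_le_log_of_pos hpos
  have h3 : ‖E0‖⁻¹ ≤ 1.0102 := by
    rw [inv_le_comm₀ hpos (by norm_num)]
    norm_num
    linarith
  constructor
  · linarith
  · linarith

/-- `w1` with `e^{i w1} = E1` -/
noncomputable def w1 : ℂ := w0 - I * Complex.log (E1 / E0)

lemma E0_ne : E0 ≠ 0 := by
  intro h
  have := norm_E0.1
  rw [h, norm_zero] at this
  linarith

lemma E1_ne : E1 ≠ 0 := by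
  intro h
  have := norm_E1.1
  rw [h, norm_zero] at this
  linarith

lemma exp_w1 : cexp (I * w1) = E1 := by
  unfold w1
  have : I * (w0 - I * Complex.log (E1 / E0)) = I * w0 + Complex.log (E1 / E0) := by
    have := Complex.I_mul_I
    linear_combination (-(Complex.log (E1 / E0))) * this
  rw [this, Complex.exp_add, exp_w0, Complex.exp_log (div_ne_zero E1_ne E0_ne)]
  have := E0_ne
  field_simp

lemma norm_w1_sub : ‖w1 - w0‖ ≤ 0.00075 := by
  have h0 := norm_E0
  have hd : ‖E1 - E0‖ ≤ 0.00048 := by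
    refine (Complex.norm_le_abs_re_add_abs_im _).trans ?_
    rw [Complex.sub_re, Complex.sub_im, E0_re, E0_im, E1_re, E1_im]
    norm_num [abs_le]
  have hq : ‖E1 / E0 - 1‖ ≤ 0.0005 := by
    have e : E1 / E0 - 1 = (E1 - E0) / E0 := by
      have := E0_ne
      field_simp
    rw [e, norm_div, div_le_iff₀ (by linarith)]
    linarith
  have hlog := Complex.norm_log_one_add_half_le_self (z := E1 / E0 - 1) (by linarith)
  rw [add_sub_cancel] at hlog
  have e : w1 - w0 = -(I * Complex.log (E1 / E0)) := by unfold w1; ring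
  rw [e, norm_neg, norm_mul, Complex.norm_I, one_mul]
  linarith

/-- samples of `z0 = w0 / h` -/
noncomputable def z0 : ℂ := w0 / hstep
/-- second point -/
noncomputable def z1 : ℂ := w1 / hstep

lemma hstep_ne : (hstep : ℂ) ≠ 0 := by exact_mod_cast hstep_pos.ne'

lemma div_hstep_re (w : ℂ) : (w / hstep : ℂ).re = w.re / hstep := Complex.div_ofReal_re w hstep
lemma div_hstep_im (w : ℂ) : (w / hstep : ℂ).im = w.im / hstep := Complex.div_ofReal_im w hstep

lemma exp_div_hstep (w : ℂ) : cexp (I * (w / hstep) * hstep) = cexp (I * w) := by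
  congr 1
  have := hstep_ne
  field_simp

lemma w1_bounds : 0 ≤ w1.re ∧ w1.re ≤ 1.915 ∧ 0 ≤ w1.im ∧ w1.im ≤ 0.0112 := by
  have h := norm_w1_sub
  have h1 := Complex.abs_re_le_norm (w1 - w0)
  have h2 := Complex.abs_im_le_norm (w1 - w0)
  rw [Complex.sub_re] at h1
  rw [Complex.sub_im] at h2
  have h3 := abs_le.1 (h1.trans h)
  have h4 := abs_le.1 (h2.trans h)
  have h5 := w0_re_bounds
  have h6 := w0_im_bounds
  refine ⟨by linarith, by linarith, by linarith, by linarith⟩

lemma div_hstep_im_le {y : ℝ} (h0 : 0 ≤ y) (h1 : y ≤ 0.0112) : |y / hstep| ≤ 1 := by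
  have hh := hstep_pos
  have hl := hstep_lower
  rw [abs_of_nonneg (by positivity), div_le_one hh]
  linarith

lemma abs_le_of_natAbs_le {n : ℤ} (h : n.natAbs ≤ 68719476736) :
    |(n : ℝ)| ≤ 68719476736 := by
  rw [← Int.cast_abs, Int.abs_eq_natAbs]
  exact_mod_cast h

lemma norm_K2_z0 : ‖K2 z0‖ ≤ 4 / 10 ^ 36 := by
  have hh := hstep_pos
  have hu := hstep_upper
  have hE := norm_E0
  have hb := w0_re_bounds
  have hi := w0_im_bounds
  have him : |z0.im| ≤ 2 := by
    unfold z0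
    rw [div_hstep_im]
    linarith [div_hstep_im_le (y := w0.im) (by linarith) (by linarith)]
  have hre : z0.re * hstep = w0.re := by
    unfold z0
    rw [div_hstep_re]
    field_simp
  have h1 := K2_sampled him (by rw [hre]; linarith) (by rw [hre]; linarith)
  have h2 := sampled_sum (z := z0) (E := E0) (by
    unfold z0
    rw [exp_div_hstep, exp_w0]) (by linarith) (by
    have := hE.1
    norm_num at this ⊢
    linarith)
  have h3 := hz_spec (A := (-5905036118581440547)) (C := 17286090079015106392) (p := 64) (E := E0) rfl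
    (by linarith) fullR fullK2 forall2_full
  rw [fullR_length] at h3
  have hc := chkE0_true
  unfold chkE0 at hc
  rw [Bool.and_eq_true, decide_eq_true_eq, decide_eq_true_eq] at hc
  generalize hz (-5905036118581440547) 17286090079015106392 64 fullK2 = r at h3 hc
  generalize (∑' j : ℤ, smp hstep z0 j) = T at h1 h2
  have hr1 : |(r.1 : ℝ)| ≤ 68719476736 := abs_le_of_natAbs_le hc.1
  have hr2 : |(r.2 : ℝ)| ≤ 68719476736 := abs_le_of_natAbs_le hc.2
  have h4 : ‖((r.1 : ℂ) + (r.2 : ℂ) * I)‖ ≤ 68719476736 + 68719476736 := by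
    have := norm_add_mul_I_le hr1 hr2
    simpa using this
  have h5 : ‖hC E0 fullR‖ * 2 ^ 160 ≤ 139469000000 := by
    have e1 : ‖hC E0 fullR * ((SB : ℝ) : ℂ)‖ = ‖hC E0 fullR‖ * 2 ^ 160 := by
      rw [norm_mul, Complex.norm_real, Real.norm_eq_abs, abs_of_pos SB_pos, SB_cast]
    rw [← e1]
    have h6 := norm_add_le (hC E0 fullR * ((SB : ℝ) : ℂ) - ((r.1 : ℂ) + (r.2 : ℂ) * I))
      ((r.1 : ℂ) + (r.2 : ℂ) * I)
    rw [sub_add_cancel] at h6
    push_cast at h3 h6 ⊢
    linarith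
  have h6 : ‖hC E0 fullR‖ ≤ 1 / 10 ^ 37 := by
    have h7 : ‖hC E0 fullR‖ ≤ 139469000000 / 2 ^ 160 := by
      rw [le_div_iff₀ (by positivity)]
      exact h5
    refine h7.trans ?_
    norm_num
  have h7 : ‖T * E0 ^ 60‖ ≤ 3 / 10 ^ 37 := by
    have h8 := norm_add_le (T * E0 ^ 60 - hC E0 fullR) (hC E0 fullR)
    rw [sub_add_cancel] at h8
    norm_num at h2 h6 h8 ⊢
    linarith
  have h8 : ‖T‖ ≤ 6 / 10 ^ 37 := by
    rw [norm_mul, norm_pow] at h7
    have h9 : (0.99 : ℝ) ^ 60 ≤ ‖E0‖ ^ 60 := by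
      have := hE.1
      gcongr
    have h10 : (0.54 : ℝ) ≤ 0.99 ^ 60 := by norm_num
    have h11 : 0 ≤ ‖T‖ := norm_nonneg _
    have h12 : ‖T‖ * 0.54 ≤ ‖T‖ * ‖E0‖ ^ 60 := by
      apply mul_le_mul_of_nonneg_left _ h11
      linarith
    have h13 : ‖T‖ * 0.54 ≤ 3 / 10 ^ 37 := h12.trans h7
    have h14 : ‖T‖ ≤ (3 / 10 ^ 37) / 0.54 := by
      rw [le_div_iff₀ (by norm_num)]
      exact h13
    refine h14.trans ?_
    norm_num
  have h9 : ‖(hstep : ℂ) * T‖ ≤ 1 / 80 * (6 / 10 ^ 37) := by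
    rw [norm_mul, Complex.norm_real, Real.norm_eq_abs, abs_of_pos hh]
    gcongr
  have h10 := norm_sub_le ((hstep : ℂ) * T) ((hstep : ℂ) * T - K2 z0)
  rw [sub_sub_cancel] at h10
  norm_num at h1 h9 h10 ⊢
  linarith

lemma norm_K2_z1 : 4 / 10 ^ 24 ≤ ‖K2 z1‖ := by
  have hh := hstep_pos
  have hl := hstep_lower
  have hE := norm_E1
  have hb := w1_bounds
  have him : |z1.im| ≤ 2 := by
    unfold z1
    rw [div_hstep_im]
    linarith [div_hstep_im_le (y := w1.im) (by linarith) (by linarith)]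
  have hre : z1.re * hstep = w1.re := by
    unfold z1
    rw [div_hstep_re]
    field_simp
  have h1 := K2_sampled him (by rw [hre]; linarith) (by rw [hre]; linarith)
  have h2 := sampled_sum (z := z1) (E := E1) (by
    unfold z1
    rw [exp_div_hstep, exp_w1]) (by linarith) (by
    have := hE.1
    norm_num at this ⊢
    linarith)
  have h3 := hz_spec (A := -20979) (C := 61443) (p := 16) (E := E1) rfl
    (by linarith) fullR fullK2 forall2_full
  rw [fullR_length] at h3
  have hc := chkE1_true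
  unfold chkE1 at hc
  rw [decide_eq_true_eq] at hc
  generalize hz (-20979) 61443 16 fullK2 = r at h3 hc
  generalize (∑' j : ℤ, smp hstep z1 j) = T at h1 h2
  have hr1 : (r.1 : ℝ) ≤ -500000000000000000000000000 := by exact_mod_cast hc
  have h4 : 500000000000000000000000000 ≤ ‖((r.1 : ℂ) + (r.2 : ℂ) * I)‖ := by
    have h := Complex.abs_re_le_norm ((r.1 : ℂ) + (r.2 : ℂ) * I)
    have e : ((r.1 : ℂ) + (r.2 : ℂ) * I).re = r.1 := by simp
    rw [e] at h
    have := neg_le_abs (r.1 : ℝ)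
    linarith
  have h5 : 499999999999999990000000000 ≤ ‖hC E1 fullR‖ * 2 ^ 160 := by
    have e1 : ‖hC E1 fullR * ((SB : ℝ) : ℂ)‖ = ‖hC E1 fullR‖ * 2 ^ 160 := by
      rw [norm_mul, Complex.norm_real, Real.norm_eq_abs, abs_of_pos SB_pos, SB_cast]
    rw [← e1]
    have h6 := norm_sub_le (hC E1 fullR * ((SB : ℝ) : ℂ))
      (hC E1 fullR * ((SB : ℝ) : ℂ) - ((r.1 : ℂ) + (r.2 : ℂ) * I))
    rw [sub_sub_cancel] at h6
    push_cast at h3 h6 ⊢
    linarith
  have h6 : 34 / 10 ^ 23 ≤ ‖hC E1 fullR‖ := by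
    have h7 : 499999999999999990000000000 / 2 ^ 160 ≤ ‖hC E1 fullR‖ := by
      rw [div_le_iff₀ (by positivity)]
      exact h5
    refine le_trans ?_ h7
    norm_num
  have h7 : 33 / 10 ^ 23 ≤ ‖T * E1 ^ 60‖ := by
    have h8 := norm_sub_le (T * E1 ^ 60) (T * E1 ^ 60 - hC E1 fullR)
    rw [sub_sub_cancel] at h8
    norm_num at h2 h6 h8 ⊢
    linarith
  have h8 : 33 / 10 ^ 23 ≤ ‖T‖ := by
    rw [norm_mul, norm_pow] at h7
    have h9 : ‖E1‖ ^ 60 ≤ 1 := pow_le_one₀ (norm_nonneg _) (by linarith)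
    have h11 : 0 ≤ ‖T‖ := norm_nonneg _
    have h12 : ‖T‖ * ‖E1‖ ^ 60 ≤ ‖T‖ * 1 := mul_le_mul_of_nonneg_left h9 h11
    linarith
  have h9 : 1 / 82 * (33 / 10 ^ 23) ≤ ‖(hstep : ℂ) * T‖ := by
    rw [norm_mul, Complex.norm_real, Real.norm_eq_abs, abs_of_pos hh]
    gcongr
  have h10 := norm_add_le ((hstep : ℂ) * T - K2 z1) (K2 z1)
  rw [sub_add_cancel] at h10
  norm_num at h1 h9 h10 ⊢
  linarith

/-- `F_2` has a non-real zero. -/
theorem exists_nonreal_zero_two : ∃ z : ℂ, z.im ≠ 0 ∧ cosTransform 2 z = 0 := by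
  have hh := hstep_pos
  have hl := hstep_lower
  have hu := hstep_upper
  have hb := w0_re_bounds
  have hi := w0_im_bounds
  have hpi := Real.pi_gt_d2
  have hre0 : 151 ≤ z0.re := by
    unfold z0
    rw [div_hstep_re, le_div_iff₀ hh]
    linarith
  have him0 : 0.7 ≤ z0.im := by
    unfold z0
    rw [div_hstep_im, le_div_iff₀ hh]
    linarith
  have him0' : z0.im ≤ 0.9 := by
    unfold z0
    rw [div_hstep_im, div_le_iff₀ hh]
    linarith
  obtain ⟨z, hz, hz0⟩ := exists_zero_of_bounds (f := K2) differentiable_K2 (c := z0)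
    (w := z1 - z0) (R := 1 / 2) (M := 2880 * (1 / 2.718) ^ 39) (by norm_num) (by
      have e : z1 - z0 = (w1 - w0) / hstep := by
        unfold z1 z0
        ring
      rw [e, norm_div, Complex.norm_real, Real.norm_eq_abs, abs_of_pos hh, div_le_iff₀ hh]
      have := norm_w1_sub
      linarith) (by
      intro z hz
      rw [mem_ball, dist_eq_norm] at hz
      have h1 := Complex.abs_re_le_norm (z - z0)
      have h2 := Complex.abs_im_le_norm (z - z0)
      rw [Complex.sub_re] at h1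
      rw [Complex.sub_im] at h2
      have h3 := abs_le.1 (h1.trans hz.le)
      have h4 := abs_le.1 (h2.trans hz.le)
      have h5 := norm_K2_le (z := z) (by
        rw [abs_le]
        constructor <;> linarith)
      refine h5.trans ?_
      have h6 : Real.exp (-(Real.pi / 12 * |z.re|)) ≤ (1 / 2.718) ^ 39 := by
        refine le_trans ?_ (exp_neg_nat_le 39)
        apply Real.exp_le_exp.2
        have h7 : 150 ≤ z.re := by linarith
        rw [abs_of_pos (by linarith)]
        have h8 : Real.pi / 12 * 150 ≤ Real.pi / 12 * z.re := by gcongr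
        push_cast
        linarith
      gcongr) (by
      have h1 := norm_K2_z0
      have h2 := norm_K2_z1
      rw [add_sub_cancel]
      have h3 : (4 / 10 ^ 24 : ℝ) ^ 2 ≤ ‖K2 z1‖ ^ 2 := by gcongr
      have h4 : ‖K2 z0‖ * (2880 * (1 / 2.718) ^ 39) ≤ (4 / 10 ^ 36) * (2880 * (1 / 2.718) ^ 39) := by
        gcongr
      refine lt_of_le_of_lt h4 (lt_of_lt_of_le ?_ h3)
      norm_num)
  refine ⟨z, ?_, ?_⟩
  · rw [mem_ball, dist_eq_norm] at hz
    have h2 := Complex.abs_im_le_norm (z - z0)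
    rw [Complex.sub_im] at h2
    have h4 := abs_le.1 (h2.trans hz.le)
    intro h
    rw [h] at h4
    linarith
  · unfold K2 at hz0
    rw [MM_eq_cosTransform (by norm_num)] at hz0
    have h2 : (2 : ℂ) ≠ 0 := two_ne_zero
    have h3 := (mul_eq_zero.1 hz0).resolve_left h2
    have e : (4 * I * (I * z / 4) : ℂ) = -z := by
      have := Complex.I_mul_I
      linear_combination z * this
    rw [e, cosTransform_neg] at h3
    have e2 : (((2 : ℕ) : ℝ)) = 2 := by norm_num
    rw [e2] at h3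
    exact h3

end Pool.Agent.H10
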