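import Pool.Agent.H10.Branch

/-!
# The holomorphic branch of `Φ^α` on the right half strip
-/

namespace Pool.Agent.H10

open MeasureTheory Complex Filter Topology Set

lemma neg_one_add_I_ne : (-(1 + I) : ℂ) ≠ 0 := by
  intro h
  have := congrArg Complex.re h
  simp at this

noncomputable def Lbase (t : ℂ) : ℂ :=
  5 * t - Real.pi * cexp (4 * t) + Real.log Real.pi - Complex.log (-(1 + I))

/-- the branch of `Φ^α` on `RR` -/
noncomputable def Kb (α : ℝ) (t : ℂ) : ℂ := cexp (α * Lbase t) * Wt t ^ (α : ℂ)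

/-- the branch of `log Φ` on `RR` -/
noncomputable def LL (t : ℂ) : ℂ := Lbase t + Complex.log (Wt t)

lemma exp_Lbase_mul (t : ℂ) : cexp (Lbase t) * Wt t = PhiC t := by
  unfold Lbase Wt
  rw [Complex.exp_sub, Complex.exp_log neg_one_add_I_ne, PhiC_eq_hh]
  have h1 : (1 + I : ℂ) ≠ 0 := by
    intro h
    exact neg_one_add_I_ne (by rw [h, neg_zero])
  field_simp

lemma Wt_ne_zero {t : ℂ} (ht : t ∈ RR) (hne : t ≠ b0 * I) : Wt t ≠ 0 :=
  Complex.slitPlane_ne_zero (Wt_mem_slitPlane ht hne)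

lemma PhiC_ne_zero {t : ℂ} (ht : t ∈ RR) (hne : t ≠ b0 * I) : PhiC t ≠ 0 := by
  rw [← exp_Lbase_mul]
  exact mul_ne_zero (Complex.exp_ne_zero _) (Wt_ne_zero ht hne)

lemma exp_LL {t : ℂ} (ht : t ∈ RR) (hne : t ≠ b0 * I) : cexp (LL t) = PhiC t := by
  unfold LL
  rw [Complex.exp_add, Complex.exp_log (Wt_ne_zero ht hne), exp_Lbase_mul]

lemma Kb_eq_exp_LL {t : ℂ} (ht : t ∈ RR) (hne : t ≠ b0 * I) (α : ℝ) :
    Kb α t = cexp (α * LL t) := by
  unfold Kb LL
  rw [Complex.cpow_def_of_ne_zero (Wt_ne_zero ht hne), ← Complex.exp_add]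
  congr 1
  ring

lemma continuousOn_Kb {α : ℝ} (hα : 0 < α) : ContinuousOn (Kb α) RR := by
  intro t ht
  have h1 : ContinuousAt (fun t => cexp (α * Lbase t)) t := by
    unfold Lbase
    fun_prop
  have hW : ContinuousAt Wt t := (hasDerivAt_Wt (RR_subset_strip ht)).continuousAt
  have h2 : ContinuousAt (fun x : ℂ => x ^ (α : ℂ)) (Wt t) := by
    apply Complex.continuousAt_cpow_const_of_re_pos _ (by simpa using hα)
    by_cases hne : t = b0 * I
    · left
      rw [hne, Wt_b0]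
      simp
    · rcases (Complex.mem_slitPlane_iff.1 (Wt_mem_slitPlane ht hne)) with h | h
      · exact Or.inl h.le
      · exact Or.inr h
  have h3 : ContinuousAt (fun t => Wt t ^ (α : ℂ)) t :=
    ContinuousAt.comp (f := Wt) (g := fun x : ℂ => x ^ (α : ℂ)) h2 hW
  exact (h1.mul h3).continuousWithinAt

lemma differentiableAt_Kb (α : ℝ) {t : ℂ} (ht : t ∈ RR) (hne : t ≠ b0 * I) :
    DifferentiableAt ℂ (Kb α) t := by
  have h1 : DifferentiableAt ℂ (fun t => cexp (α * Lbase t)) t := by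
    unfold Lbase
    fun_prop
  have hW : DifferentiableAt ℂ Wt t := (hasDerivAt_Wt (RR_subset_strip ht)).differentiableAt
  have h3 : DifferentiableAt ℂ (fun t => Wt t ^ (α : ℂ)) t :=
    hW.cpow (differentiableAt_const _) (Wt_mem_slitPlane ht hne)
  exact h1.mul h3

lemma norm_Kb {α : ℝ} (hα : 0 < α) {t : ℂ} (ht : t ∈ RR) : ‖Kb α t‖ = ‖PhiC t‖ ^ α := by
  by_cases hne : t = b0 * I
  · rw [hne, PhiC_b0]
    unfold Kb
    rw [Wt_b0, Complex.zero_cpow (by simpa using hα.ne'), norm_zero, Real.zero_rpow hα.ne']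
    simp
  · rw [← exp_Lbase_mul]
    unfold Kb
    rw [norm_mul, norm_mul, Complex.norm_cpow_real,
      Real.mul_rpow (norm_nonneg _) (norm_nonneg _)]
    congr 1
    rw [Complex.norm_exp, Complex.norm_exp, Complex.re_ofReal_mul, mul_comm α, Real.exp_mul]

lemma ofReal_mem_RR {t : ℝ} (ht : 0 ≤ t) : (t : ℂ) ∈ RR := by
  refine ⟨?_, ?_, ?_⟩ <;> simp [ht, b1_pos.le]

lemma ofReal_ne_b0 (t : ℝ) : (t : ℂ) ≠ b0 * I := by
  intro h
  have := congrArg Complex.im h
  simp at this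
  have := b0_pos
  linarith

/-- On the positive real axis `Kb α` is the real power `Φ^α`. -/
lemma Kb_ofReal (α : ℝ) {t : ℝ} (ht : 0 ≤ t) : Kb α t = ((riemannPhi t ^ α : ℝ) : ℂ) := by
  have hm := ofReal_mem_RR ht
  have hne := ofReal_ne_b0 t
  have hpos := riemannPhi_pos t
  -- `h(e^{4t})` is a positive real number
  obtain ⟨r, hr0, hr⟩ : ∃ r : ℝ, 0 < r ∧ hh (cexp (4 * t)) = r := by
    have h1 := PhiC_eq_hh (t : ℂ)
    rw [← ofReal_riemannPhi] at h1
    refine ⟨riemannPhi t / Real.exp (5 * t - Real.pi * Real.exp (4 * t) + Real.log Real.pi),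
      by positivity, ?_⟩
    have h2 : cexp (5 * (t : ℂ) - Real.pi * cexp (4 * t) + Real.log Real.pi) =
        ((Real.exp (5 * t - Real.pi * Real.exp (4 * t) + Real.log Real.pi) : ℝ) : ℂ) := by
      push_cast
      rfl
    rw [h2] at h1
    have h3 : ((Real.exp (5 * t - Real.pi * Real.exp (4 * t) + Real.log Real.pi) : ℝ) : ℂ) ≠ 0 := by
      exact_mod_cast (Real.exp_pos _).ne'
    rw [Complex.ofReal_div, h1]
    field_simp
  have hlog : Complex.log (Wt t) = Real.log r + Complex.log (-(1 + I)) := by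
    unfold Wt
    rw [hr, mul_comm, Complex.log_ofReal_mul hr0 neg_one_add_I_ne]
  have hLL : LL t = ((5 * t - Real.pi * Real.exp (4 * t) + Real.log Real.pi + Real.log r : ℝ) : ℂ) := by
    unfold LL Lbase
    rw [hlog]
    push_cast
    ring
  have hexp := exp_LL hm hne
  rw [hLL, ← Complex.ofReal_exp, ← ofReal_riemannPhi] at hexp
  have hexp' := Complex.ofReal_injective hexp
  rw [Kb_eq_exp_LL hm hne, hLL, Real.rpow_def_of_pos hpos, ← hexp', Real.log_exp]
  push_cast
  ring_nf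

lemma mulI_ne_b0 {s : ℝ} (h : s ≠ b0) : (s * I : ℂ) ≠ b0 * I := by
  intro h1
  apply h
  have := congrArg Complex.im h1
  simpa using this

lemma LL_im (s : ℝ) : (LL (s * I)).im = 5 * s - Real.pi * Real.sin (4 * s) + 3 * Real.pi / 4 +
    (Wt (s * I)).arg := by
  unfold LL Lbase
  have harg : (-(1 + I) : ℂ).arg = -(3 * Real.pi / 4) := by
    have h1 : (-(1 + I) : ℂ) = Real.sqrt 2 * (Complex.cos (-(3 * Real.pi / 4) : ℝ) +
        Complex.sin (-(3 * Real.pi / 4) : ℝ) * I) := by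
      have hc : Real.cos (-(3 * Real.pi / 4)) = -(Real.sqrt 2 / 2) := by
        rw [Real.cos_neg, show 3 * Real.pi / 4 = Real.pi - Real.pi / 4 by ring, Real.cos_pi_sub,
          Real.cos_pi_div_four]
      have hs : Real.sin (-(3 * Real.pi / 4)) = -(Real.sqrt 2 / 2) := by
        rw [Real.sin_neg, show 3 * Real.pi / 4 = Real.pi - Real.pi / 4 by ring, Real.sin_pi_sub,
          Real.sin_pi_div_four]
      rw [← Complex.ofReal_cos, ← Complex.ofReal_sin, hc, hs]
      have h2 : (Real.sqrt 2 : ℝ) * Real.sqrt 2 = 2 := Real.mul_self_sqrt (by norm_num)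
      have h2' : ((Real.sqrt 2 : ℝ) : ℂ) * ((Real.sqrt 2 : ℝ) : ℂ) = 2 := by exact_mod_cast h2
      push_cast
      linear_combination (1 / 2 + I / 2) * h2'
    rw [h1]
    apply Complex.arg_mul_cos_add_sin_mul_I (by positivity)
    constructor <;> linarith [Real.pi_pos]
  simp only [Complex.add_im, Complex.sub_im, Complex.log_im, harg, Complex.ofReal_im,
    Complex.im_ofReal_mul, im_exp_four_mul]
  simp

lemma Kb_im_of_lt (α : ℝ) {s : ℝ} (h0 : 0 ≤ s) (h1 : s < b0) : (Kb α (s * I)).im = 0 := by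
  have hs1 : s ≤ b1 := h1.le.trans b0_lt.le
  have hm := mulI_mem_RR h0 hs1
  have hne := mulI_ne_b0 h1.ne
  -- positivity of `phis` on `[0, b0)`
  have hpos : 0 < phis s := by
    by_contra hcon
    push Not at hcon
    have hc : ContinuousOn phis (Icc 0 s) := continuousOn_phis.mono (Icc_subset_Icc le_rfl hs1)
    obtain ⟨x, hx, hx2⟩ := intermediate_value_Icc' h0 hc ⟨hcon, phis_zero_pos.le⟩
    have hxb : x ≤ b1 := hx.2.trans hs1
    have hz : PhiC (x * I) = 0 := by
      rw [← ofReal_phis (abs_lt_of_Icc hx.1 hxb), hx2]; simp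
    exact PhiC_ne_zero (mulI_mem_RR hx.1 hxb) (mulI_ne_b0 (lt_of_le_of_lt hx.2 h1).ne) hz
  have hexp := exp_LL hm hne
  rw [← ofReal_phis (abs_lt_of_Icc h0 hs1)] at hexp
  have e1 : cexp (LL (s * I)) = cexp (((Real.log (phis s) : ℝ) : ℂ)) := by
    rw [hexp, ← Complex.ofReal_exp, Real.exp_log hpos]
  obtain ⟨n, hn⟩ := Complex.exp_eq_exp_iff_exists_int.1 e1
  have him : (LL (s * I)).im = n * (2 * Real.pi) := by
    rw [hn]
    simp
  have hpi := Real.pi_pos
  have hb := b1_lt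
  have hsin0 : Real.sin (4 * s) ≤ 1 := Real.sin_le_one _
  have hsin1 : 2 / Real.pi * (4 * s) ≤ Real.sin (4 * s) :=
    Real.mul_le_sin (by linarith) (by linarith)
  have hsin2 : 8 * s ≤ Real.pi * Real.sin (4 * s) := by
    have := mul_le_mul_of_nonneg_left hsin1 hpi.le
    have e : Real.pi * (2 / Real.pi * (4 * s)) = 8 * s := by field_simp; ring
    linarith
  have hL := LL_im s
  have ha1 := Complex.neg_pi_lt_arg (Wt (s * I))
  have ha2 := Complex.arg_le_pi (Wt (s * I))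
  have hn0 : n = 0 := by
    have h2 : (n : ℝ) * (2 * Real.pi) < 1 * (2 * Real.pi) := by
      rw [← him, hL]; nlinarith
    have h3 : (-1 : ℝ) * (2 * Real.pi) < (n : ℝ) * (2 * Real.pi) := by
      rw [← him, hL]; nlinarith
    have h4 : (n : ℝ) < 1 := lt_of_mul_lt_mul_right h2 (by positivity)
    have h5 : (-1 : ℝ) < n := lt_of_mul_lt_mul_right h3 (by positivity)
    have h6 : n < 1 := by exact_mod_cast h4
    have h7 : -1 < n := by exact_mod_cast h5
    omega
  rw [hn0] at hn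
  rw [Kb_eq_exp_LL hm hne, hn]
  have : (α : ℂ) * (((Real.log (phis s) : ℝ) : ℂ) + ((0 : ℤ) : ℂ) * (2 * Real.pi * I)) =
      ((α * Real.log (phis s) : ℝ) : ℂ) := by push_cast; ring
  rw [this, ← Complex.ofReal_exp, Complex.ofReal_im]

lemma phis_neg_of_gt {s : ℝ} (h0 : b0 < s) (h1 : s ≤ b1) : phis s < 0 := by
  by_contra hcon
  push Not at hcon
  have hs0 : 0 ≤ s := b0_pos.le.trans h0.le
  have hc : ContinuousOn phis (Icc s b1) := continuousOn_phis.mono (Icc_subset_Icc hs0 le_rfl)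
  obtain ⟨x, hx, hx2⟩ := intermediate_value_Icc' h1 hc ⟨phis_b1_neg.le, hcon⟩
  have hx0 : 0 ≤ x := hs0.trans hx.1
  have hz : PhiC (x * I) = 0 := by
    rw [← ofReal_phis (abs_lt_of_Icc hx0 hx.2), hx2]; simp
  exact PhiC_ne_zero (mulI_mem_RR hx0 hx.2) (mulI_ne_b0 (lt_of_lt_of_le h0 hx.1).ne') hz

lemma b0_lower : Real.pi / 20 ≤ b0 := by
  -- from `cos (4 b0) ≤ 0.305`
  have h := b0_mem_Rec.2.2.2.2
  have him : ((b0 * I : ℂ)).im = b0 := by simp
  rw [him] at h
  by_contra hcon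
  push Not at hcon
  have hpi := Real.pi_pos
  have h1 : Real.cos (Real.pi / 3) ≤ Real.cos (4 * b0) := by
    apply Real.cos_le_cos_of_nonneg_of_le_pi
    · have := b0_pos
      linarith
    · linarith
    · linarith
  rw [Real.cos_pi_div_three] at h1
  norm_num at h
  linarith

lemma Kb_im_of_gt (α : ℝ) {s : ℝ} (h0 : b0 < s) (h1 : s ≤ b1) :
    (Kb α (s * I)).im = (-phis s) ^ α * Real.sin (Real.pi * α) := by
  have hs0 : 0 ≤ s := b0_pos.le.trans h0.le
  have hm := mulI_mem_RR hs0 h1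
  have hne := mulI_ne_b0 h0.ne'
  have hneg := phis_neg_of_gt h0 h1
  have hpos : 0 < -phis s := by linarith
  have hexp := exp_LL hm hne
  rw [← ofReal_phis (abs_lt_of_Icc hs0 h1)] at hexp
  have e1 : cexp (LL (s * I)) = cexp (((Real.log (-phis s) : ℝ) : ℂ) + Real.pi * I) := by
    rw [hexp, Complex.exp_add, ← Complex.ofReal_exp, Real.exp_log hpos, Complex.exp_pi_mul_I]
    push_cast
    ring
  obtain ⟨n, hn⟩ := Complex.exp_eq_exp_iff_exists_int.1 e1
  have him : (LL (s * I)).im = Real.pi + n * (2 * Real.pi) := by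
    rw [hn]
    simp
  have hpi := Real.pi_pos
  have hb := b1_lt
  have hbl := b0_lower
  have hsin0 : Real.sin (4 * s) ≤ 1 := Real.sin_le_one _
  have hsin1 : 2 / Real.pi * (4 * s) ≤ Real.sin (4 * s) :=
    Real.mul_le_sin (by linarith) (by linarith)
  have hsin2 : 8 * s ≤ Real.pi * Real.sin (4 * s) := by
    have := mul_le_mul_of_nonneg_left hsin1 hpi.le
    have e : Real.pi * (2 / Real.pi * (4 * s)) = 8 * s := by field_simp; ring
    linarith
  have hL := LL_im s
  have ha1 := Complex.neg_pi_lt_arg (Wt (s * I))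
  have ha2 := Complex.arg_le_pi (Wt (s * I))
  have hn0 : n = 0 := by
    have h2 : (n : ℝ) * (2 * Real.pi) < 1 * (2 * Real.pi) := by
      have : (n : ℝ) * (2 * Real.pi) = (LL (s * I)).im - Real.pi := by rw [him]; ring
      rw [this, hL]; nlinarith
    have h3 : (-1 : ℝ) * (2 * Real.pi) < (n : ℝ) * (2 * Real.pi) := by
      have : (n : ℝ) * (2 * Real.pi) = (LL (s * I)).im - Real.pi := by rw [him]; ring
      rw [this, hL]; nlinarith
    have h4 : (n : ℝ) < 1 := lt_of_mul_lt_mul_right h2 (by positivity)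
    have h5 : (-1 : ℝ) < n := lt_of_mul_lt_mul_right h3 (by positivity)
    have h6 : n < 1 := by exact_mod_cast h4
    have h7 : -1 < n := by exact_mod_cast h5
    omega
  rw [hn0] at hn
  rw [Kb_eq_exp_LL hm hne, hn]
  have : (α : ℂ) * (((Real.log (-phis s) : ℝ) : ℂ) + Real.pi * I +
      ((0 : ℤ) : ℂ) * (2 * Real.pi * I)) =
      ((Real.log (-phis s) * α : ℝ) : ℂ) + ((Real.pi * α : ℝ) : ℂ) * I := by push_cast; ring
  rw [this, Complex.exp_add, ← Complex.ofReal_exp, Complex.im_ofReal_mul, Complex.exp_ofReal_mul_I_im,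
    Real.rpow_def_of_pos hpos]

end Pool.Agent.H10
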