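import Pool.Agent.H10.Defs

/-!
# Analytic continuation of the Riemann kernel
-/

namespace Pool.Agent.H10

open MeasureTheory Complex Filter Topology Set

/-- The `n`-th term (`n ↦ n + 1`) of `f(u) = ∑_{n≥1} n² (2π n² u - 3) exp(-π n² u)`. -/
noncomputable def fterm (n : ℕ) (u : ℂ) : ℂ :=
  ((n : ℂ) + 1) ^ 2 * (2 * Real.pi * ((n : ℂ) + 1) ^ 2 * u - 3) *
    cexp (-(Real.pi * ((n : ℂ) + 1) ^ 2 * u))

/-- `f(u) = ∑_{n≥1} n² (2π n² u - 3) exp(-π n² u)`. -/
noncomputable def ff (u : ℂ) : ℂ := ∑' n : ℕ, fterm n u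

/-- The complex Riemann kernel. -/
noncomputable def PhiC (t : ℂ) : ℂ := Real.pi * cexp (5 * t) * ff (cexp (4 * t))

/-- majorant for `fterm` -/
noncomputable def fmaj (M δ : ℝ) (n : ℕ) : ℝ :=
  ((n : ℝ) + 1) ^ 2 * (2 * Real.pi * ((n : ℝ) + 1) ^ 2 * M + 3) *
    Real.exp (-(Real.pi * δ * ((n : ℝ) + 1)))

lemma summable_pow_exp (k : ℕ) {r : ℝ} (hr : 0 < r) :
    Summable (fun n : ℕ => ((n : ℝ) + 1) ^ k * Real.exp (-(r * ((n : ℝ) + 1)))) := by
  have h := Real.summable_pow_mul_exp_neg_nat_mul k hr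
  have h2 := (summable_nat_add_iff (f := fun n : ℕ => (n : ℝ) ^ k * Real.exp (-r * n)) 1).2 h
  refine h2.congr ?_
  intro n
  push_cast
  ring_nf

lemma summable_fmaj (M : ℝ) {δ : ℝ} (hδ : 0 < δ) : Summable (fmaj M δ) := by
  have hr : 0 < Real.pi * δ := by positivity
  have h4 := (summable_pow_exp 4 hr).mul_left (2 * Real.pi * M)
  have h2 := (summable_pow_exp 2 hr).mul_left 3
  refine (h4.add h2).congr ?_
  intro n
  unfold fmaj
  ring

lemma norm_fterm_le {u : ℂ} {M δ : ℝ} (hδ : 0 ≤ δ) (h1 : δ ≤ u.re) (h2 : ‖u‖ ≤ M) (n : ℕ) :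
    ‖fterm n u‖ ≤ fmaj M δ n := by
  unfold fterm fmaj
  have hn : ‖((n : ℂ) + 1)‖ = (n : ℝ) + 1 := by
    have : ((n : ℂ) + 1) = (((n : ℝ) + 1 : ℝ) : ℂ) := by push_cast; rfl
    rw [this, Complex.norm_real, Real.norm_eq_abs, abs_of_nonneg (by positivity)]
  rw [norm_mul, norm_mul, norm_pow, hn]
  have hre : (-(Real.pi * ((n : ℂ) + 1) ^ 2 * u)).re = -(Real.pi * ((n : ℝ) + 1) ^ 2 * u.re) := by
    have : ((n : ℂ) + 1) ^ 2 = ((((n : ℝ) + 1) ^ 2 : ℝ) : ℂ) := by push_cast; rfl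
    rw [this, ← Complex.ofReal_mul, Complex.neg_re, Complex.re_ofReal_mul]
  have hM : 0 ≤ M := (norm_nonneg _).trans h2
  have e1 : ‖(2 * Real.pi * ((n : ℂ) + 1) ^ 2 * u - 3 : ℂ)‖ ≤
      2 * Real.pi * ((n : ℝ) + 1) ^ 2 * M + 3 := by
    refine (norm_sub_le _ _).trans ?_
    rw [norm_mul, norm_mul, norm_mul, norm_pow, hn]
    simp only [Complex.norm_real, Real.norm_eq_abs, abs_of_pos Real.pi_pos, Complex.norm_ofNat]
    gcongr
  rw [Complex.norm_exp, hre]
  have h3 : (1 : ℝ) ≤ (n : ℝ) + 1 := by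
    have : (0 : ℝ) ≤ n := Nat.cast_nonneg n
    linarith
  have h4 : (n : ℝ) + 1 ≤ ((n : ℝ) + 1) ^ 2 := by nlinarith
  have h0 : 0 ≤ u.re := hδ.trans h1
  have h5 : Real.pi * δ * ((n : ℝ) + 1) ≤ Real.pi * ((n : ℝ) + 1) ^ 2 * u.re := by
    calc Real.pi * δ * ((n : ℝ) + 1) ≤ Real.pi * u.re * ((n : ℝ) + 1) ^ 2 := by gcongr
      _ = Real.pi * ((n : ℝ) + 1) ^ 2 * u.re := by ring
  have h6 := Real.exp_le_exp.2 (neg_le_neg h5)
  gcongr

lemma summable_fterm {u : ℂ} (hu : 0 < u.re) : Summable (fun n => fterm n u) :=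
  Summable.of_norm_bounded (summable_fmaj ‖u‖ hu)
    (fun n => norm_fterm_le hu.le le_rfl le_rfl n)

lemma differentiable_fterm (n : ℕ) : Differentiable ℂ (fterm n) := by
  unfold fterm
  fun_prop

/-- the open right half plane -/
def RHP : Set ℂ := {u | 0 < u.re}

lemma isOpen_RHP : IsOpen RHP := isOpen_lt continuous_const Complex.continuous_re

lemma differentiableOn_ff : DifferentiableOn ℂ ff RHP := by
  intro u hu
  have hu' : 0 < u.re := hu
  apply DifferentiableAt.differentiableWithinAt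
  let U : Set ℂ := {w | u.re / 2 < w.re} ∩ Metric.ball 0 (‖u‖ + 1)
  have hU : IsOpen U := (isOpen_lt continuous_const Complex.continuous_re).inter Metric.isOpen_ball
  have huU : u ∈ U := by
    refine ⟨?_, ?_⟩
    · show u.re / 2 < u.re
      linarith
    · simp
  have := differentiableOn_tsum_of_summable_norm (u := fmaj (‖u‖ + 1) (u.re / 2))
    (F := fterm) (U := U) (summable_fmaj _ (by positivity))
    (fun i => (differentiable_fterm i).differentiableOn) hU (by
      intro i w hw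
      refine norm_fterm_le (by positivity) hw.1.le ?_ i
      have := hw.2
      simp only [Metric.mem_ball, dist_zero_right] at this
      exact this.le)
  exact (this u huU).differentiableAt (hU.mem_nhds huU)

lemma differentiableAt_ff {u : ℂ} (hu : 0 < u.re) : DifferentiableAt ℂ ff u :=
  (differentiableOn_ff u hu).differentiableAt (isOpen_RHP.mem_nhds hu)

/-- The open strip `|Im t| < π/8`. -/
def strip : Set ℂ := {t | |t.im| < Real.pi / 8}

lemma isOpen_strip : IsOpen strip :=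
  isOpen_lt (by fun_prop) continuous_const

lemma re_exp_four_mul (t : ℂ) : (cexp (4 * t)).re = Real.exp (4 * t.re) * Real.cos (4 * t.im) := by
  rw [Complex.exp_re]
  simp

lemma im_exp_four_mul (t : ℂ) : (cexp (4 * t)).im = Real.exp (4 * t.re) * Real.sin (4 * t.im) := by
  rw [Complex.exp_im]
  simp

lemma re_exp_pos {t : ℂ} (ht : t ∈ strip) : 0 < (cexp (4 * t)).re := by
  rw [re_exp_four_mul]
  have h : |t.im| < Real.pi / 8 := ht
  rw [abs_lt] at h
  have : 0 < Real.cos (4 * t.im) := Real.cos_pos_of_mem_Ioo ⟨by linarith, by linarith⟩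
  positivity

lemma differentiableAt_PhiC {t : ℂ} (ht : t ∈ strip) : DifferentiableAt ℂ PhiC t := by
  unfold PhiC
  have h1 : DifferentiableAt ℂ (fun t => ff (cexp (4 * t))) t :=
    DifferentiableAt.comp t (g := ff) (f := fun t => cexp (4 * t))
      (differentiableAt_ff (re_exp_pos ht)) (by fun_prop)
  fun_prop

lemma differentiableOn_PhiC : DifferentiableOn ℂ PhiC strip :=
  fun _ ht => (differentiableAt_PhiC ht).differentiableWithinAt

lemma ofReal_mem_strip (t : ℝ) : (t : ℂ) ∈ strip := by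
  show |(t : ℂ).im| < Real.pi / 8
  simp [Real.pi_pos]

lemma ofReal_riemannPhi (t : ℝ) : ((riemannPhi t : ℝ) : ℂ) = PhiC t := by
  unfold riemannPhi PhiC ff
  rw [Complex.ofReal_tsum, ← tsum_mul_left]
  congr 1
  ext m
  unfold fterm
  have h9 : cexp (9 * (t : ℂ)) = cexp (5 * t) * cexp (4 * t) := by
    rw [← Complex.exp_add]; ring_nf
  push_cast
  rw [h9]
  have : (-((m : ℂ) + 1) ^ 2 * (Real.pi : ℂ) * cexp (4 * t)) =
      -((Real.pi : ℂ) * ((m : ℂ) + 1) ^ 2 * cexp (4 * t)) := by ring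
  rw [this]
  ring

lemma star_fterm (n : ℕ) (u : ℂ) : fterm n (starRingEnd ℂ u) = starRingEnd ℂ (fterm n u) := by
  unfold fterm
  simp only [map_mul, map_pow, map_add, map_sub, map_neg, ← Complex.exp_conj, Complex.conj_ofReal,
    map_natCast, map_one, map_ofNat]

lemma star_ff (u : ℂ) : ff (starRingEnd ℂ u) = starRingEnd ℂ (ff u) := by
  unfold ff
  rw [Complex.conj_tsum]
  congr 1
  ext n
  exact star_fterm n u

lemma star_PhiC (t : ℂ) : PhiC (starRingEnd ℂ t) = starRingEnd ℂ (PhiC t) := by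
  unfold PhiC
  have h1 : cexp (4 * (starRingEnd ℂ t)) = starRingEnd ℂ (cexp (4 * t)) := by
    rw [← Complex.exp_conj, map_mul, map_ofNat]
  have h2 : cexp (5 * (starRingEnd ℂ t)) = starRingEnd ℂ (cexp (5 * t)) := by
    rw [← Complex.exp_conj, map_mul, map_ofNat]
  rw [h1, h2, star_ff]
  simp

end Pool.Agent.H10
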