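import Pool.Agent.H10.LHDisc
import Pool.Agent.H10.Expand

/-!
# If `M_k` is zero-free in `Re s > 0`, `|Im s| ≥ T₀`, then `M_k / G_k ≪ |τ|^{ε'}` on `Re s = ε`
-/

namespace Pool.Agent.H10

open MeasureTheory Complex Filter Topology Set Metric

variable {k : ℕ}

lemma GG_lower (hk : 2 ≤ k) (σm : ℝ) : ∃ c : ℝ, 0 < c ∧ ∀ s : ℂ, 0 ≤ s.re → s.re ≤ σm →
    c * Real.exp (-(Real.pi / 2 * |s.im|)) ≤ ‖GG k s‖ := by
  have hpi := Real.pi_gt_three
  have hk2 : (2 : ℝ) ≤ k := by exact_mod_cast hk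
  have hkpos : (0 : ℝ) < k := by linarith
  refine ⟨(2 * Real.pi ^ 2) ^ k * (1 / 4 * ((1 / (Real.pi * k)) ^ (σm + 9 * k / 4) * (1 / 2))),
    by positivity, ?_⟩
  intro s hs0 hs1
  rw [norm_GG (by omega)]
  have h1 := norm_Gamma_lower (w := s + 9 * k / 4) (by simp; linarith)
  have e1 : (s + 9 * k / 4 : ℂ).im = s.im := by simp
  rw [e1] at h1
  have h2 : (1 / (Real.pi * k)) ^ (σm + 9 * k / 4) ≤ (1 / (Real.pi * k)) ^ (s.re + 9 * k / 4) := by
    apply Real.rpow_le_rpow_of_exponent_ge (by positivity)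
    · rw [div_le_one (by positivity)]
      nlinarith
    · linarith
  calc (2 * Real.pi ^ 2) ^ k * (1 / 4 * ((1 / (Real.pi * k)) ^ (σm + 9 * k / 4) * (1 / 2))) *
      Real.exp (-(Real.pi / 2 * |s.im|)) = (2 * Real.pi ^ 2) ^ k *
      (1 / 4 * ((1 / (Real.pi * k)) ^ (σm + 9 * k / 4) *
        (1 / 2 * Real.exp (-(Real.pi / 2 * |s.im|))))) := by ring
    _ ≤ _ := by gcongr

lemma GG_upper (hk : 1 ≤ k) {σ : ℝ} (hσ : 0 ≤ σ) : ∃ C : ℝ, 0 < C ∧ ∀ τ : ℝ, 1 ≤ |τ| →
    ‖GG k (σ + τ * I)‖ ≤ C * |τ| ^ (σ + 9 * k / 4 - 1 / 2) *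
      Real.exp (-(Real.pi / 2 * |τ|)) := by
  have hpi := Real.pi_gt_three
  have hk2 : (1 : ℝ) ≤ k := by exact_mod_cast hk
  obtain ⟨C, hC, hb⟩ := exists_Gamma_upper (σ := σ + 9 * k / 4) (by linarith)
  refine ⟨(2 * Real.pi ^ 2) ^ k * (1 / 4 * ((1 / (Real.pi * k)) ^ (σ + 9 * k / 4) * C)),
    by positivity, ?_⟩
  intro τ hτ
  rw [norm_GG hk]
  have e1 : (σ + τ * I : ℂ).re = σ := by simp
  have e2 : (σ + τ * I + 9 * k / 4 : ℂ) = ((σ + 9 * k / 4 : ℝ) : ℂ) + τ * I := by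
    push_cast
    ring
  rw [e1, e2]
  have h1 := hb τ hτ
  calc (2 * Real.pi ^ 2) ^ k * (1 / 4 * ((1 / (Real.pi * k)) ^ (σ + 9 * k / 4) *
      ‖Complex.Gamma (((σ + 9 * k / 4 : ℝ) : ℂ) + τ * I)‖)) ≤
      (2 * Real.pi ^ 2) ^ k * (1 / 4 * ((1 / (Real.pi * k)) ^ (σ + 9 * k / 4) *
      (C * |τ| ^ (σ + 9 * k / 4 - 1 / 2) * Real.exp (-(Real.pi / 2 * |τ|))))) := by gcongr
    _ = _ := by ring

lemma differentiableAt_GG (hk : 1 ≤ k) {s : ℂ} (hs : 0 ≤ s.re) : DifferentiableAt ℂ (GG k) s := by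
  have hpi := Real.pi_pos
  have hk1 : (1 : ℝ) ≤ k := by exact_mod_cast hk
  have hbase : (1 / ((Real.pi * k : ℝ) : ℂ)) ≠ 0 := by
    rw [one_div]
    apply inv_ne_zero
    exact_mod_cast (by positivity : (Real.pi * k : ℝ) ≠ 0)
  unfold GG
  apply DifferentiableAt.const_mul
  apply DifferentiableAt.const_mul
  apply DifferentiableAt.mul
  · exact DifferentiableAt.const_cpow (by fun_prop) (Or.inl hbase)
  · have h1 : DifferentiableAt ℂ Complex.Gamma (s + 9 * k / 4) := by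
      apply Complex.differentiableAt_Gamma
      intro m h
      have := congrArg Complex.re h
      simp at this
      have h2 : (0 : ℝ) ≤ m := Nat.cast_nonneg m
      linarith
    exact DifferentiableAt.comp (f := fun s : ℂ => s + 9 * k / 4) s h1 (by fun_prop)

/-- The Lindelöf-type bound under the zero-free hypothesis. -/
theorem LH_bound (hk : 2 ≤ k) (hz : ∃ T0 : ℝ, ∀ s : ℂ, 0 < s.re → T0 ≤ |s.im| → MM k s ≠ 0)
    {ε ε' : ℝ} (hε : 0 < ε) (hε1 : ε < 1) (hε' : 0 < ε') :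
    ∃ C T : ℝ, 0 < C ∧ 1 ≤ T ∧ ∀ τ : ℝ, T ≤ |τ| →
      ‖MM k (ε + τ * I)‖ ≤ C * |τ| ^ ε' * ‖GG k (ε + τ * I)‖ := by
  obtain ⟨T0, hT0⟩ := hz
  obtain ⟨σ1, T1, hσ1, hT1, hclose⟩ := exists_close (k := k) (by omega)
  set R := σ1 + 1 with hR
  have hR2 : 2 ≤ R := by rw [hR]; linarith
  obtain ⟨C1, hC1, M, hMM⟩ := exists_MM_bound (k := k) (by omega) (2 * R)
  obtain ⟨c, hc, hGG⟩ := GG_lower hk (2 * R)
  set δ := ε' / (M + 1) with hδ
  have hδ0 : 0 < δ := by positivity
  obtain ⟨K, hK⟩ := lh_disc (R := R) (r1 := 1) (r2 := R - ε) (by norm_num) (by linarith)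
    (by linarith) hδ0
  set A := |Real.log (C1 / c)| + M * Real.log 2 + 1 with hA
  have hlog2 : 0 < Real.log 2 := Real.log_pos (by norm_num)
  have hA0 : 0 < A := by positivity
  refine ⟨Real.exp (K + δ * A), R + max T0 T1, Real.exp_pos _, ?_, ?_⟩
  · have := le_max_right T0 T1
    linarith
  · intro τ hτ
    have hm0 : T0 ≤ max T0 T1 := le_max_left _ _
    have hm1 : T1 ≤ max T0 T1 := le_max_right _ _
    have hτ1 : 1 ≤ |τ| := by linarith
    have hτ0 : 0 < |τ| := by linarith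
    -- points of the disc
    have hpt : ∀ w ∈ ball (0 : ℂ) R, 0 < ((R : ℂ) + τ * I + w).re ∧
        ((R : ℂ) + τ * I + w).re ≤ 2 * R ∧ |τ| - R ≤ |((R : ℂ) + τ * I + w).im| ∧
        |((R : ℂ) + τ * I + w).im| ≤ 2 * |τ| := by
      intro w hw
      rw [mem_ball_zero_iff] at hw
      have a1 := Complex.abs_re_le_norm w
      have a2 := Complex.abs_im_le_norm w
      have b1 := neg_le_of_abs_le a1
      have b2 := le_of_abs_le a1
      have e1 : ((R : ℂ) + τ * I + w).re = R + w.re := by simp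
      have e2 : ((R : ℂ) + τ * I + w).im = τ + w.im := by simp
      rw [e1, e2]
      refine ⟨by linarith, by linarith, ?_, ?_⟩
      · have := abs_sub_abs_le_abs_sub τ (-w.im)
        rw [sub_neg_eq_add, abs_neg] at this
        linarith
      · have := abs_add_le τ w.im
        have : R ≤ |τ| := by linarith
        linarith
    set B := A + M * Real.log |τ| with hB
    have hlogτ : 0 ≤ Real.log |τ| := Real.log_nonneg hτ1
    have hB0 : 0 < B := by positivity
    set f : ℂ → ℂ := fun w => MM k ((R : ℂ) + τ * I + w) / GG k ((R : ℂ) + τ * I + w) with hf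
    have hfd : DifferentiableOn ℂ f (ball 0 R) := by
      intro w hw
      obtain ⟨h1, h2, h3, h4⟩ := hpt w hw
      apply DifferentiableAt.differentiableWithinAt
      have d1 : DifferentiableAt ℂ (fun w : ℂ => MM k ((R : ℂ) + τ * I + w)) w :=
        DifferentiableAt.comp (f := fun w : ℂ => (R : ℂ) + τ * I + w) w
          ((differentiable_MM (k := k) (by omega)) _) (by fun_prop)
      have d2 : DifferentiableAt ℂ (fun w : ℂ => GG k ((R : ℂ) + τ * I + w)) w :=
        DifferentiableAt.comp (f := fun w : ℂ => (R : ℂ) + τ * I + w) w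
          (differentiableAt_GG (k := k) (by omega) h1.le) (by fun_prop)
      exact d1.div d2 (GG_ne_zero (k := k) (by omega) h1.le)
    have hf0 : ∀ w ∈ ball (0 : ℂ) R, f w ≠ 0 := by
      intro w hw
      obtain ⟨h1, h2, h3, h4⟩ := hpt w hw
      exact div_ne_zero (hT0 _ h1 (by linarith)) (GG_ne_zero (k := k) (by omega) h1.le)
    have hfB : ∀ w ∈ ball (0 : ℂ) R, ‖f w‖ ≤ Real.exp B := by
      intro w hw
      obtain ⟨h1, h2, h3, h4⟩ := hpt w hw
      have g1 := hMM ((R : ℂ) + τ * I + w) (by rw [abs_of_pos h1]; exact h2) (by linarith)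
      have g2 := hGG ((R : ℂ) + τ * I + w) h1.le h2
      set y := |((R : ℂ) + τ * I + w).im| with hy
      have hE := Real.exp_pos (-(Real.pi / 2 * y))
      show ‖MM k ((R : ℂ) + τ * I + w) / GG k ((R : ℂ) + τ * I + w)‖ ≤ Real.exp B
      rw [norm_div]
      have hy0 : 0 ≤ y := abs_nonneg _
      calc ‖MM k ((R : ℂ) + τ * I + w)‖ / ‖GG k ((R : ℂ) + τ * I + w)‖ ≤
          (C1 * y ^ M * Real.exp (-(Real.pi / 2 * y))) /
            (c * Real.exp (-(Real.pi / 2 * y))) := by gcongr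
        _ = (C1 / c) * y ^ M := by field_simp
        _ ≤ (C1 / c) * (2 * |τ|) ^ M := by gcongr
        _ = Real.exp (Real.log (C1 / c) + M * (Real.log 2 + Real.log |τ|)) := by
            rw [Real.exp_add, Real.exp_log (by positivity), ← Real.log_mul (by norm_num)
              hτ0.ne', Real.exp_nat_mul, Real.exp_log (by positivity)]
        _ ≤ Real.exp B := by
            apply Real.exp_le_exp.2
            have := le_abs_self (Real.log (C1 / c))
            rw [hB, hA]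
            linarith
    have hf1 : ∀ w ∈ ball (0 : ℂ) 1, ‖f w - 1‖ ≤ 1 / 2 := by
      intro w hw
      have hw' : w ∈ ball (0 : ℂ) R := ball_subset_ball (by linarith) hw
      obtain ⟨h1, h2, h3, h4⟩ := hpt w hw'
      rw [mem_ball_zero_iff] at hw
      apply hclose
      · have a1 := Complex.abs_re_le_norm w
        have b1 := neg_le_of_abs_le a1
        have e1 : ((R : ℂ) + τ * I + w).re = R + w.re := by simp
        rw [e1]
        linarith
      · linarith
    have hw0 : ((ε - R : ℝ) : ℂ) ∈ closedBall (0 : ℂ) (R - ε) := by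
      rw [mem_closedBall_zero_iff, Complex.norm_real, Real.norm_eq_abs, abs_of_nonpos (by linarith)]
      linarith
    have hfin := hK f B hB0 hfd hf0 hfB hf1 _ hw0
    have e3 : f ((ε - R : ℝ) : ℂ) = MM k (ε + τ * I) / GG k (ε + τ * I) := by
      show MM k ((R : ℂ) + τ * I + ((ε - R : ℝ) : ℂ)) / GG k ((R : ℂ) + τ * I + ((ε - R : ℝ) : ℂ)) = _
      have : (R : ℂ) + τ * I + ((ε - R : ℝ) : ℂ) = ε + τ * I := by
        push_cast
        ring
      rw [this]
    rw [e3, norm_div] at hfin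
    have hGpos : 0 < ‖GG k (ε + τ * I)‖ := by
      apply norm_pos_iff.2
      apply GG_ne_zero (by omega)
      simp [hε.le]
    rw [div_le_iff₀ hGpos] at hfin
    refine hfin.trans ?_
    have e4 : Real.exp (K + δ * B) ≤ Real.exp (K + δ * A) * |τ| ^ ε' := by
      rw [Real.rpow_def_of_pos hτ0, ← Real.exp_add]
      apply Real.exp_le_exp.2
      have h5 : δ * M ≤ ε' := by
        rw [hδ, div_mul_eq_mul_div, div_le_iff₀ (by positivity)]
        nlinarith
      have h6 : δ * M * Real.log |τ| ≤ ε' * Real.log |τ| := by gcongr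
      rw [hB]
      linarith
    gcongr

end Pool.Agent.H10
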