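import Pool.Agent.H10.Tail

/-!
# Numerical lemmas locating the values of `h` in the sector
-/

namespace Pool.Agent.H10

open MeasureTheory Complex Filter Topology Set

lemma norm_exp_three (u : ℂ) : ‖cexp (-(3 * Real.pi * u))‖ = Real.exp (-(3 * Real.pi * u.re)) := by
  rw [Complex.norm_exp]
  congr 1
  simp

lemma norm_exp_eight (u : ℂ) : ‖cexp (-(8 * Real.pi * u))‖ = Real.exp (-(8 * Real.pi * u.re)) := by
  rw [Complex.norm_exp]
  congr 1
  simp

lemma norm_lin_sq (c : ℝ) (u : ℂ) :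
    ‖(c * Real.pi * u - 3 : ℂ)‖ ^ 2 = (c * Real.pi * u.re - 3) ^ 2 + (c * Real.pi * u.im) ^ 2 := by
  rw [← Complex.normSq_eq_norm_sq, Complex.normSq_apply]
  simp
  ring

/-- Case `Re u ≥ 1/2`. -/
lemma region_a {u : ℂ} (ha : 1 / 2 ≤ u.re) (hn : 1 ≤ ‖u‖) (hv : 0 ≤ u.im) :
    0 < (hh u).re + (hh u).im := by
  have hu : 0 < u.re := by linarith
  have hpi := Real.pi_gt_d4
  have hpi' := Real.pi_lt_d4
  have hpi0 := Real.pi_pos
  rw [hh_split hu]
  set T := ∑' n : ℕ, hterm (n + 3) u with hT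
  set B := 4 * (8 * Real.pi * u - 3) * cexp (-(3 * Real.pi * u)) with hB
  set C := 9 * (18 * Real.pi * u - 3) * cexp (-(8 * Real.pi * u)) with hC
  have tT : ‖T‖ ≤ 0.004 * ‖u‖ := tail_hterm (by linarith) hn
  have hE : Real.exp (-(3 * Real.pi * u.re)) ≤ 0.0091 := by
    apply exp_neg_le_of_le (y := 4.712) (by norm_num) _ 18 (by norm_num)
    · norm_num [Finset.sum_range_succ, Nat.factorial]
    · nlinarith
  have hE8 : Real.exp (-(8 * Real.pi * u.re)) ≤ 0.0091 ^ 2 := by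
    calc Real.exp (-(8 * Real.pi * u.re)) ≤ Real.exp (-(3 * Real.pi * u.re)) ^ 2 := by
          rw [← Real.exp_nat_mul]
          apply Real.exp_le_exp.2
          push_cast
          nlinarith
      _ ≤ 0.0091 ^ 2 := by gcongr
  have tB : ‖B‖ ≤ 1.03 * ‖u‖ := by
    rw [hB, norm_mul, norm_mul, norm_exp_three]
    have h1 : ‖(8 * Real.pi * u - 3 : ℂ)‖ ≤ 28.14 * ‖u‖ := by
      refine (norm_sub_le _ _).trans ?_
      rw [norm_mul, norm_mul]
      simp only [Complex.norm_real, Real.norm_eq_abs, abs_of_pos hpi0, Complex.norm_ofNat]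
      nlinarith
    have h4 : ‖(4 : ℂ)‖ = 4 := by simp
    rw [h4]
    calc 4 * ‖(8 * Real.pi * u - 3 : ℂ)‖ * Real.exp (-(3 * Real.pi * u.re))
        ≤ 4 * (28.14 * ‖u‖) * 0.0091 := by gcongr
      _ = 4 * 28.14 * 0.0091 * ‖u‖ := by ring
      _ ≤ 1.03 * ‖u‖ := by
          gcongr
          norm_num
  have tC : ‖C‖ ≤ 0.05 * ‖u‖ := by
    rw [hC, norm_mul, norm_mul, norm_exp_eight]
    have h1 : ‖(18 * Real.pi * u - 3 : ℂ)‖ ≤ 59.6 * ‖u‖ := by
      refine (norm_sub_le _ _).trans ?_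
      rw [norm_mul, norm_mul]
      simp only [Complex.norm_real, Real.norm_eq_abs, abs_of_pos hpi0, Complex.norm_ofNat]
      nlinarith
    have h4 : ‖(9 : ℂ)‖ = 9 := by simp
    rw [h4]
    calc 9 * ‖(18 * Real.pi * u - 3 : ℂ)‖ * Real.exp (-(8 * Real.pi * u.re))
        ≤ 9 * (59.6 * ‖u‖) * 0.0091 ^ 2 := by gcongr
      _ = 9 * 59.6 * 0.0091 ^ 2 * ‖u‖ := by ring
      _ ≤ 0.05 * ‖u‖ := by
          gcongr
          norm_num
  have hA : (2 * Real.pi * u - 3 : ℂ).re + (2 * Real.pi * u - 3 : ℂ).im =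
      2 * Real.pi * (u.re + u.im) - 3 := by
    simp
    ring
  have hnorm : ‖u‖ ≤ u.re + u.im := by
    have := Complex.norm_le_abs_re_add_abs_im u
    rwa [abs_of_pos hu, abs_of_nonneg hv] at this
  have hmain : 3.28 * ‖u‖ ≤ 2 * Real.pi * (u.re + u.im) - 3 := by nlinarith
  have r1 := Complex.abs_re_le_norm B
  have r2 := Complex.abs_im_le_norm B
  have r3 := Complex.abs_re_le_norm C
  have r4 := Complex.abs_im_le_norm C
  have r5 := Complex.abs_re_le_norm T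
  have r6 := Complex.abs_im_le_norm T
  rw [abs_le] at r1 r2 r3 r4 r5 r6
  have e1 : ((2 * Real.pi * u - 3 : ℂ) + B + C + T).re = (2 * Real.pi * u - 3 : ℂ).re + B.re + C.re +
      T.re := by simp only [Complex.add_re]
  have e2 : ((2 * Real.pi * u - 3 : ℂ) + B + C + T).im = (2 * Real.pi * u - 3 : ℂ).im + B.im + C.im +
      T.im := by simp only [Complex.add_im]
  rw [e1, e2]
  have : 0 < ‖u‖ := by linarith
  linarith [r1.1, r2.1, r3.1, r4.1, r5.1, r6.1]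

/-- general form of the case `0.305 ≤ Re u ≤ 1/2`. -/
lemma region_gen {u : ℂ} {amax k1 k2 E : ℝ} (ha : 0.305 ≤ u.re) (ha2 : u.re ≤ amax)
    (hamax : amax ≤ 1 / 2) (hn : 1 ≤ ‖u‖) (hv : 0 ≤ u.im) (hk1 : 1 ≤ k1) (hk2 : 1 ≤ k2)
    (hE : Real.exp (-(3 * Real.pi * u.re)) ≤ E)
    (h1 : (8 * 3.1416 * amax - 3) ^ 2 ≤ (k1 ^ 2 - 1) * ((8 * 3.1415) ^ 2 * (1 - amax ^ 2)))
    (h2 : (18 * 3.1416 * amax - 3) ^ 2 ≤ (k2 ^ 2 - 1) * ((18 * 3.1415) ^ 2 * (1 - amax ^ 2)))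
    (h3 : 32 * k1 * E + 162 * k2 * 0.00048 + 0.002 ≤ 2) :
    0 < (hh u).im := by
  have hu : 0 < u.re := by linarith
  have hpi := Real.pi_gt_d4
  have hpi' := Real.pi_lt_d4
  have hpi0 := Real.pi_pos
  have hE0 : 0 < E := lt_of_lt_of_le (Real.exp_pos _) hE
  have hsq : u.re ^ 2 + u.im ^ 2 = ‖u‖ ^ 2 := by
    rw [← Complex.normSq_eq_norm_sq, Complex.normSq_apply]; ring
  have hv2 : 1 - amax ^ 2 ≤ u.im ^ 2 := by
    have : 1 ≤ ‖u‖ ^ 2 := by nlinarith
    have : u.re ^ 2 ≤ amax ^ 2 := by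
      apply pow_le_pow_left₀ hu.le ha2
    nlinarith
  have hv34 : 3 / 4 ≤ u.im ^ 2 := by
    have : amax ^ 2 ≤ (1 / 2) ^ 2 := pow_le_pow_left₀ (by linarith) hamax 2
    linarith
  have hvpos : 0 < u.im := by
    rcases hv.lt_or_eq with h | h
    · exact h
    · rw [← h] at hv34; norm_num at hv34
  rw [hh_split hu]
  set T := ∑' n : ℕ, hterm (n + 3) u with hT
  set B := 4 * (8 * Real.pi * u - 3) * cexp (-(3 * Real.pi * u)) with hB
  set C := 9 * (18 * Real.pi * u - 3) * cexp (-(8 * Real.pi * u)) with hC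
  have tT : ‖T‖ ≤ 0.004 * ‖u‖ := tail_hterm (by linarith) hn
  have hE8 : Real.exp (-(8 * Real.pi * u.re)) ≤ 0.00048 := by
    apply exp_neg_le_of_le (y := 7.665) (by norm_num) _ 20 (by norm_num)
    · norm_num [Finset.sum_range_succ, Nat.factorial]
    · nlinarith
  have key : ∀ (c k : ℝ), 0 < c → 8 ≤ c → 1 ≤ k →
      (c * 3.1416 * amax - 3) ^ 2 ≤ (k ^ 2 - 1) * ((c * 3.1415) ^ 2 * (1 - amax ^ 2)) →
      ‖(c * Real.pi * u - 3 : ℂ)‖ ≤ k * (c * Real.pi * u.im) := by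
    intro c k hc hc8 hk hck
    apply le_of_sq_le_sq _ (by positivity)
    rw [norm_lin_sq]
    have s1 : 0 ≤ c * Real.pi * u.re - 3 := by
      have : 8 * 3.1415 * 0.305 ≤ c * Real.pi * u.re := by gcongr
      norm_num at this ⊢
      linarith
    have s2 : c * Real.pi * u.re - 3 ≤ c * 3.1416 * amax - 3 := by
      have : c * Real.pi * u.re ≤ c * 3.1416 * amax := by gcongr
      linarith
    have s3 : (c * Real.pi * u.re - 3) ^ 2 ≤ (c * 3.1416 * amax - 3) ^ 2 :=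
      pow_le_pow_left₀ s1 s2 2
    have hk0 : 0 ≤ k ^ 2 - 1 := by nlinarith
    have s4 : (c * 3.1415) ^ 2 * (1 - amax ^ 2) ≤ (c * Real.pi * u.im) ^ 2 := by
      have h0 : (c * 3.1415) ^ 2 ≤ (c * Real.pi) ^ 2 := by gcongr
      have : 0 ≤ u.im ^ 2 := sq_nonneg _
      calc (c * 3.1415) ^ 2 * (1 - amax ^ 2) ≤ (c * 3.1415) ^ 2 * u.im ^ 2 := by gcongr
        _ ≤ (c * Real.pi) ^ 2 * u.im ^ 2 := by gcongr
        _ = _ := by ring
    have s5 : (k ^ 2 - 1) * ((c * 3.1415) ^ 2 * (1 - amax ^ 2)) ≤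
        (k ^ 2 - 1) * (c * Real.pi * u.im) ^ 2 := by gcongr
    nlinarith
  have n1 : ‖(8 * Real.pi * u - 3 : ℂ)‖ ≤ k1 * (8 * Real.pi * u.im) := by
    have := key 8 k1 (by norm_num) (by norm_num) hk1 h1
    simpa using this
  have n2 : ‖(18 * Real.pi * u - 3 : ℂ)‖ ≤ k2 * (18 * Real.pi * u.im) := by
    have := key 18 k2 (by norm_num) (by norm_num) hk2 h2
    simpa using this
  have tB : ‖B‖ ≤ Real.pi * u.im * (32 * k1 * E) := by
    rw [hB, norm_mul, norm_mul, norm_exp_three]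
    have h4 : ‖(4 : ℂ)‖ = 4 := by simp
    rw [h4]
    calc 4 * ‖(8 * Real.pi * u - 3 : ℂ)‖ * Real.exp (-(3 * Real.pi * u.re))
        ≤ 4 * (k1 * (8 * Real.pi * u.im)) * E := by gcongr
      _ = Real.pi * u.im * (32 * k1 * E) := by ring
  have tC : ‖C‖ ≤ Real.pi * u.im * (162 * k2 * 0.00048) := by
    rw [hC, norm_mul, norm_mul, norm_exp_eight]
    have h4 : ‖(9 : ℂ)‖ = 9 := by simp
    rw [h4]
    calc 9 * ‖(18 * Real.pi * u - 3 : ℂ)‖ * Real.exp (-(8 * Real.pi * u.re))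
        ≤ 9 * (k2 * (18 * Real.pi * u.im)) * 0.00048 := by gcongr
      _ = Real.pi * u.im * (162 * k2 * 0.00048) := by ring
  have tT2 : ‖T‖ < Real.pi * u.im * 0.002 := by
    have : ‖u‖ ≤ 1.2 * u.im := by
      apply le_of_sq_le_sq _ (by positivity)
      have : u.re ^ 2 ≤ (1 / 2) ^ 2 := pow_le_pow_left₀ hu.le (by linarith) 2
      nlinarith
    nlinarith
  have hA : (2 * Real.pi * u - 3 : ℂ).im = 2 * Real.pi * u.im := by
    simp
  have r2 := Complex.abs_im_le_norm B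
  have r4 := Complex.abs_im_le_norm C
  have r6 := Complex.abs_im_le_norm T
  rw [abs_le] at r2 r4 r6
  have e2 : ((2 * Real.pi * u - 3 : ℂ) + B + C + T).im = (2 * Real.pi * u - 3 : ℂ).im + B.im + C.im +
      T.im := by simp only [Complex.add_im]
  rw [e2, hA]
  have hpv : 0 < Real.pi * u.im := by positivity
  have hfin : Real.pi * u.im * (32 * k1 * E + 162 * k2 * 0.00048 + 0.002) ≤ Real.pi * u.im * 2 := by
    gcongr
  nlinarith [r2.1, r4.1, r6.1]

lemma region_b {u : ℂ} (ha : 0.305 ≤ u.re) (ha2 : u.re ≤ 0.35) (hn : 1 ≤ ‖u‖) (hv : 0 ≤ u.im) :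
    0 < (hh u).im := by
  have hpi := Real.pi_gt_d4
  refine region_gen (amax := 0.35) (k1 := 1.03) (k2 := 1.05) (E := 0.0565) ha ha2 (by norm_num) hn hv
    (by norm_num) (by norm_num) ?_ (by norm_num) (by norm_num) (by norm_num)
  apply exp_neg_le_of_le (y := 2.8744) (by norm_num) _ 14 (by norm_num)
  · norm_num [Finset.sum_range_succ, Nat.factorial]
  · nlinarith

lemma region_c {u : ℂ} (ha : 0.35 ≤ u.re) (ha2 : u.re ≤ 1 / 2) (hn : 1 ≤ ‖u‖) (hv : 0 ≤ u.im) :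
    0 < (hh u).im := by
  have hpi := Real.pi_gt_d4
  refine region_gen (amax := 1 / 2) (k1 := 1.1) (k2 := 1.13) (E := 0.038) (by linarith) ha2
    (by norm_num) hn hv (by norm_num) (by norm_num) ?_ (by norm_num) (by norm_num) (by norm_num)
  apply exp_neg_le_of_le (y := 3.298) (by norm_num) _ 14 (by norm_num)
  · norm_num [Finset.sum_range_succ, Nat.factorial]
  · nlinarith

/-- Outer region: `h(u)` avoids the ray `(1-i)[0,∞)`. -/
lemma region_outer {u : ℂ} (ha : 0.305 ≤ u.re) (hn : 1 ≤ ‖u‖) (hv : 0 ≤ u.im) :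
    0 < (hh u).im ∨ 0 < (hh u).re + (hh u).im := by
  rcases le_total (1 / 2) u.re with h | h
  · exact Or.inr (region_a h hn hv)
  · rcases le_total 0.35 u.re with h' | h'
    · exact Or.inl (region_c h' h hn hv)
    · exact Or.inl (region_b ha h' hn hv)

end Pool.Agent.H10
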