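import Pool.Agent.H10.Region

/-!
# Local region near the zero, and the sign at `u = (7+24i)/25`
-/

namespace Pool.Agent.H10

open MeasureTheory Complex Filter Topology Set

lemma cexp_three_re (u : ℂ) : (cexp (-(3 * Real.pi * u))).re =
    Real.exp (-(3 * Real.pi * u.re)) * Real.cos (3 * Real.pi * u.im) := by
  rw [Complex.exp_re]
  have h1 : (-(3 * Real.pi * u)).re = -(3 * Real.pi * u.re) := by simp
  have h2 : (-(3 * Real.pi * u)).im = -(3 * Real.pi * u.im) := by simp
  rw [h1, h2, Real.cos_neg]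

lemma cexp_three_im (u : ℂ) : (cexp (-(3 * Real.pi * u))).im =
    -(Real.exp (-(3 * Real.pi * u.re)) * Real.sin (3 * Real.pi * u.im)) := by
  rw [Complex.exp_im]
  have h1 : (-(3 * Real.pi * u)).re = -(3 * Real.pi * u.re) := by simp
  have h2 : (-(3 * Real.pi * u)).im = -(3 * Real.pi * u.im) := by simp
  rw [h1, h2, Real.sin_neg]
  ring

/-- `cos (3πv) = - cos (3π(v-1))`. -/
lemma cos_three (v : ℝ) : Real.cos (3 * Real.pi * v) = -Real.cos (3 * Real.pi * (v - 1)) := by
  have : 3 * Real.pi * v = 3 * Real.pi * (v - 1) + Real.pi + (1 : ℕ) * (2 * Real.pi) := by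
    push_cast; ring
  rw [this, Real.cos_add_nat_mul_two_pi, Real.cos_add_pi]

lemma sin_three (v : ℝ) : Real.sin (3 * Real.pi * v) = -Real.sin (3 * Real.pi * (v - 1)) := by
  have : 3 * Real.pi * v = 3 * Real.pi * (v - 1) + Real.pi + (1 : ℕ) * (2 * Real.pi) := by
    push_cast; ring
  rw [this, Real.sin_add_nat_mul_two_pi, Real.sin_add_pi]

/-- In the local region `Im (u h'(u)) > Re (u h'(u))`. -/
lemma region_loc {u : ℂ} (ha : 7 / 25 ≤ u.re) (ha2 : u.re ≤ 0.3325) (hv : 0.952 ≤ u.im)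
    (hv2 : u.im ≤ 1.046) (hn : ‖u‖ ≤ 1.0893) :
    0 < (u * hh1 u).im - (u * hh1 u).re := by
  have hu : 0 < u.re := by linarith
  have hpi := Real.pi_gt_d4
  have hpi' := Real.pi_lt_d4
  have hpi0 := Real.pi_pos
  have hpisq : 9.869 ≤ Real.pi ^ 2 := by nlinarith
  have hpisq' : Real.pi ^ 2 ≤ 9.8697 := by nlinarith
  rw [hh1_split hu]
  set a := u.re with hare
  set v := u.im with hvim
  set T := ∑' n : ℕ, hterm1 (n + 3) u with hT
  set B := (68 * Real.pi * u - 96 * Real.pi ^ 2 * u ^ 2) * cexp (-(3 * Real.pi * u)) with hB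
  set C := 9 * (42 * Real.pi * u - 144 * Real.pi ^ 2 * u ^ 2) * cexp (-(8 * Real.pi * u)) with hC
  set E := Real.exp (-(3 * Real.pi * a)) with hE
  have hE0 : 0 < E := Real.exp_pos _
  have tT : ‖T‖ ≤ 0.2 := tail_hterm1 ha (by linarith)
  -- C
  have tC : ‖C‖ ≤ 16500 * (E * 0.0125) := by
    rw [hC, norm_mul, norm_mul, norm_exp_eight]
    have h4 : ‖(9 : ℂ)‖ = 9 := by simp
    rw [h4]
    have h1 : ‖(42 * Real.pi * u - 144 * Real.pi ^ 2 * u ^ 2 : ℂ)‖ ≤ 1833 := by
      refine (norm_sub_le _ _).trans ?_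
      rw [norm_mul, norm_mul, norm_mul, norm_mul, norm_pow, norm_pow]
      simp only [Complex.norm_real, Real.norm_eq_abs, abs_of_pos hpi0, Complex.norm_ofNat]
      calc 42 * Real.pi * ‖u‖ + 144 * Real.pi ^ 2 * ‖u‖ ^ 2
          ≤ 42 * 3.1416 * 1.0893 + 144 * 9.8697 * 1.0893 ^ 2 := by gcongr
        _ ≤ 1833 := by norm_num
    have h2 : Real.exp (-(8 * Real.pi * u.re)) ≤ E * 0.0125 := by
      have : Real.exp (-(8 * Real.pi * u.re)) = E * Real.exp (-(5 * Real.pi * a)) := by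
        rw [hE, ← Real.exp_add]; congr 1; ring
      rw [this]
      gcongr
      apply exp_neg_le_of_le (y := 4.398) (by norm_num) _ 16 (by norm_num)
      · norm_num [Finset.sum_range_succ, Nat.factorial]
      · nlinarith
    calc 9 * ‖(42 * Real.pi * u - 144 * Real.pi ^ 2 * u ^ 2 : ℂ)‖ * Real.exp (-(8 * Real.pi * u.re))
        ≤ 9 * 1833 * (E * 0.0125) := by gcongr
      _ ≤ 16500 * (E * 0.0125) := by
          gcongr
          norm_num
  have tuT : ‖u * T‖ ≤ 0.22 := by
    rw [norm_mul]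
    calc ‖u‖ * ‖T‖ ≤ 1.0893 * 0.2 := by gcongr
      _ ≤ 0.22 := by norm_num
  -- B
  set δ := 3 * Real.pi * (v - 1) with hδ
  have hδabs : |δ| ≤ 0.4525 := by
    rw [abs_le]
    constructor <;> nlinarith
  have hδsq : δ ^ 2 ≤ 0.2048 := by
    rw [← sq_abs]
    nlinarith [abs_nonneg δ]
  have hcos : 0.8976 ≤ Real.cos δ := by
    have := Real.one_sub_sq_div_two_le_cos (x := δ)
    linarith
  have hcos1 := Real.cos_le_one δ
  have hsin : |Real.sin δ| ≤ 0.4525 := by
    have := Real.abs_sin_le_abs (x := δ)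
    linarith
  have hBre : B.re = -E * ((68 * Real.pi * a - 96 * Real.pi ^ 2 * (a ^ 2 - v ^ 2)) * Real.cos δ +
      (68 * Real.pi * v - 192 * Real.pi ^ 2 * (a * v)) * Real.sin δ) := by
    rw [hB, Complex.mul_re, cexp_three_re, cexp_three_im, cos_three, sin_three]
    simp only [Complex.sub_re, Complex.sub_im, Complex.mul_re, Complex.mul_im, Complex.re_ofNat,
      Complex.im_ofNat, Complex.ofReal_re, Complex.ofReal_im, pow_two]
    ring
  have hBim : B.im = E * ((68 * Real.pi * a - 96 * Real.pi ^ 2 * (a ^ 2 - v ^ 2)) * Real.sin δ -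
      (68 * Real.pi * v - 192 * Real.pi ^ 2 * (a * v)) * Real.cos δ) := by
    rw [hB, Complex.mul_im, cexp_three_re, cexp_three_im, cos_three, sin_three]
    simp only [Complex.sub_re, Complex.sub_im, Complex.mul_re, Complex.mul_im, Complex.re_ofNat,
      Complex.im_ofNat, Complex.ofReal_re, Complex.ofReal_im, pow_two]
    ring
  have hBl : B.im - B.re = E * (Real.cos δ * (96 * Real.pi ^ 2 * (v ^ 2 - a ^ 2 + 2 * a * v) -
      68 * Real.pi * (v - a)) + Real.sin δ * (96 * Real.pi ^ 2 * (v ^ 2 - a ^ 2 - 2 * a * v) +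
      68 * Real.pi * (v + a))) := by
    rw [hBre, hBim]; ring
  have hP : 1124 ≤ 96 * Real.pi ^ 2 * (v ^ 2 - a ^ 2 + 2 * a * v) - 68 * Real.pi * (v - a) := by
    have q1 : 1.36 ≤ v ^ 2 - a ^ 2 + 2 * a * v := by nlinarith
    have q2 : v - a ≤ 0.766 := by linarith
    have q3 : 96 * 9.869 * 1.36 ≤ 96 * Real.pi ^ 2 * (v ^ 2 - a ^ 2 + 2 * a * v) := by gcongr
    have q4 : 68 * Real.pi * (v - a) ≤ 68 * 3.1416 * 0.766 := by
      have : 0 ≤ v - a := by linarith
      gcongr
    norm_num at q3 q4 ⊢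
    linarith
  have hQ0 : 0 ≤ 96 * Real.pi ^ 2 * (v ^ 2 - a ^ 2 - 2 * a * v) + 68 * Real.pi * (v + a) := by
    have q1 : 0 ≤ v ^ 2 - a ^ 2 - 2 * a * v := by nlinarith
    have q2 : 0 ≤ v + a := by linarith
    positivity
  have hQ : -284 ≤ Real.sin δ * (96 * Real.pi ^ 2 * (v ^ 2 - a ^ 2 - 2 * a * v) +
      68 * Real.pi * (v + a)) := by
    rcases le_total 1 v with h | h
    · have hs : 0 ≤ Real.sin δ := by
        apply Real.sin_nonneg_of_nonneg_of_le_pi
        · rw [hδ]
          have : 0 ≤ v - 1 := by linarith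
          positivity
        · have := (abs_le.1 hδabs).2
          linarith
      have : 0 ≤ Real.sin δ * (96 * Real.pi ^ 2 * (v ^ 2 - a ^ 2 - 2 * a * v) +
        68 * Real.pi * (v + a)) := mul_nonneg hs hQ0
      linarith
    · have q1 : v ^ 2 - a ^ 2 - 2 * a * v ≤ 0.3616 := by nlinarith
      have q0 : 0 ≤ v ^ 2 - a ^ 2 - 2 * a * v := by nlinarith
      have q2 : v + a ≤ 1.3325 := by linarith
      have q3 : 96 * Real.pi ^ 2 * (v ^ 2 - a ^ 2 - 2 * a * v) + 68 * Real.pi * (v + a) ≤ 627.4 := by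
        calc 96 * Real.pi ^ 2 * (v ^ 2 - a ^ 2 - 2 * a * v) + 68 * Real.pi * (v + a)
            ≤ 96 * 9.8697 * 0.3616 + 68 * 3.1416 * 1.3325 := by
              have : 0 ≤ v + a := by linarith
              gcongr
          _ ≤ 627.4 := by norm_num
      have hs := (abs_le.1 hsin).1
      nlinarith
  have hmain : 724 * E ≤ B.im - B.re := by
    rw [hBl]
    have : 724 ≤ Real.cos δ * (96 * Real.pi ^ 2 * (v ^ 2 - a ^ 2 + 2 * a * v) -
      68 * Real.pi * (v - a)) + Real.sin δ * (96 * Real.pi ^ 2 * (v ^ 2 - a ^ 2 - 2 * a * v) +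
      68 * Real.pi * (v + a)) := by
      have : 0.8976 * 1124 ≤ Real.cos δ * (96 * Real.pi ^ 2 * (v ^ 2 - a ^ 2 + 2 * a * v) -
        68 * Real.pi * (v - a)) := by gcongr
      norm_num at this
      linarith
    nlinarith
  have hA : (2 * Real.pi * u : ℂ).im - (2 * Real.pi * u : ℂ).re = 2 * Real.pi * (v - a) := by
    simp
    ring
  have hA2 : 3.8 ≤ 2 * Real.pi * (v - a) := by
    have : 0.6195 ≤ v - a := by linarith
    nlinarith
  have r3 := Complex.abs_re_le_norm C
  have r4 := Complex.abs_im_le_norm C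
  have r5 := Complex.abs_re_le_norm (u * T)
  have r6 := Complex.abs_im_le_norm (u * T)
  rw [abs_le] at r3 r4 r5 r6
  have e1 : ((2 * Real.pi * u : ℂ) + B + C + u * T).re = (2 * Real.pi * u : ℂ).re + B.re + C.re +
      (u * T).re := by simp only [Complex.add_re]
  have e2 : ((2 * Real.pi * u : ℂ) + B + C + u * T).im = (2 * Real.pi * u : ℂ).im + B.im + C.im +
      (u * T).im := by simp only [Complex.add_im]
  rw [e1, e2]
  linarith [r3.2, r4.1, r5.2, r6.1]

/-- The point `(7 + 24 i)/25`. -/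
noncomputable def uu : ℂ := ⟨7 / 25, 24 / 25⟩

lemma norm_uu : ‖uu‖ = 1 := by
  have : ‖uu‖ ^ 2 = 1 := by
    rw [← Complex.normSq_eq_norm_sq, Complex.normSq_apply]
    unfold uu
    norm_num
  have h0 := norm_nonneg uu
  nlinarith

lemma exp_lower : 0.0713 ≤ Real.exp (-(3 * Real.pi * (7 / 25))) := by
  have hpi' := Real.pi_lt_d4
  have h1 : Real.exp 0.8797 ≤ 2.4104 := by
    have := Real.exp_bound' (x := 0.8797) (by norm_num) (by norm_num) (n := 8) (by norm_num)
    norm_num [Finset.sum_range_succ, Nat.factorial] at this ⊢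
    linarith
  have h2 : (1 / 2.4104 : ℝ) ≤ Real.exp (-0.8797) := by
    rw [Real.exp_neg, ← one_div]
    apply one_div_le_one_div_of_le (Real.exp_pos _) h1
  have h3 : Real.exp (-0.8797) ^ 3 ≤ Real.exp (-(3 * Real.pi * (7 / 25))) := by
    rw [← Real.exp_nat_mul]
    apply Real.exp_le_exp.2
    push_cast
    linarith
  refine le_trans ?_ h3
  calc (0.0713 : ℝ) ≤ (1 / 2.4104) ^ 3 := by norm_num
    _ ≤ _ := by gcongr

/-- `Im h((7+24i)/25) < 0`. -/
lemma hh_uu_im : (hh uu).im < 0 := by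
  have hre : uu.re = 7 / 25 := rfl
  have him : uu.im = 24 / 25 := rfl
  have hu : 0 < uu.re := by rw [hre]; norm_num
  have hpi := Real.pi_gt_d4
  have hpi' := Real.pi_lt_d4
  have hpi0 := Real.pi_pos
  rw [hh_split hu]
  set T := ∑' n : ℕ, hterm (n + 3) uu with hT
  set B := 4 * (8 * Real.pi * uu - 3) * cexp (-(3 * Real.pi * uu)) with hB
  set C := 9 * (18 * Real.pi * uu - 3) * cexp (-(8 * Real.pi * uu)) with hC
  have tT : ‖T‖ ≤ 0.004 := by
    have := tail_hterm (u := uu) (by rw [hre]) (by rw [norm_uu])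
    rwa [norm_uu, mul_one] at this
  have tC : ‖C‖ ≤ 0.48 := by
    rw [hC, norm_mul, norm_mul, norm_exp_eight]
    have h1 : ‖(18 * Real.pi * uu - 3 : ℂ)‖ ≤ 59.6 := by
      refine (norm_sub_le _ _).trans ?_
      rw [norm_mul, norm_mul, norm_uu]
      simp only [Complex.norm_real, Real.norm_eq_abs, abs_of_pos hpi0, Complex.norm_ofNat]
      linarith
    have h4 : ‖(9 : ℂ)‖ = 9 := by simp
    have h8 : Real.exp (-(8 * Real.pi * uu.re)) ≤ 0.000885 := by
      have : Real.exp (-(8 * Real.pi * uu.re)) = qq ^ 8 := by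
        unfold qq
        rw [← Real.exp_nat_mul, hre]
        congr 1
        push_cast
        ring
      rw [this]
      calc qq ^ 8 ≤ 0.4151 ^ 8 := by
            have := qq_le
            have := qq_pos
            gcongr
        _ ≤ 0.000885 := by norm_num
    rw [h4]
    calc 9 * ‖(18 * Real.pi * uu - 3 : ℂ)‖ * Real.exp (-(8 * Real.pi * uu.re))
        ≤ 9 * 59.6 * 0.000885 := by gcongr
      _ ≤ 0.48 := by norm_num
  set β := 3 * Real.pi * (uu.im - 1) with hβ
  have hβ1 : β = -(3 * Real.pi / 25) := by rw [hβ, him]; ring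
  have hx0 : 0 < 3 * Real.pi / 25 := by positivity
  have hx1 : 3 * Real.pi / 25 ≤ 0.377 := by linarith
  have hx2 : 0.3769 ≤ 3 * Real.pi / 25 := by linarith
  have hcos : 0.9289 ≤ Real.cos β := by
    rw [hβ1, Real.cos_neg]
    have := Real.one_sub_sq_div_two_le_cos (x := 3 * Real.pi / 25)
    nlinarith
  have hsin : Real.sin β ≤ -0.363 := by
    rw [hβ1, Real.sin_neg]
    have := Real.sin_gt_sub_cube hx0
    have h3 : (3 * Real.pi / 25) ^ 3 ≤ 0.377 ^ 3 := by gcongr
    norm_num at h3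
    linarith
  have hE := exp_lower
  have hBim : B.im = 4 * Real.exp (-(3 * Real.pi * (7 / 25))) *
      ((8 * Real.pi * (7 / 25) - 3) * Real.sin β - (8 * Real.pi * (24 / 25)) * Real.cos β) := by
    rw [hB, Complex.mul_im, cexp_three_re, cexp_three_im, cos_three, sin_three, hre]
    simp only [Complex.sub_re, Complex.sub_im, Complex.mul_re, Complex.mul_im, Complex.re_ofNat,
      Complex.im_ofNat, Complex.ofReal_re, Complex.ofReal_im, hre, him]
    rw [hβ, him]
    ring
  have hin : (8 * Real.pi * (7 / 25) - 3) * Real.sin β - (8 * Real.pi * (24 / 25)) * Real.cos β ≤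
      -23.8 := by
    have h1 : 4.03 ≤ 8 * Real.pi * (7 / 25) - 3 := by linarith
    have h2 : 24.12 ≤ 8 * Real.pi * (24 / 25) := by linarith
    nlinarith
  have hBle : B.im ≤ -6.78 := by
    rw [hBim]
    nlinarith
  have hA : (2 * Real.pi * uu - 3 : ℂ).im = 2 * Real.pi * (24 / 25) := by
    simp [him]
  have r4 := Complex.abs_im_le_norm C
  have r6 := Complex.abs_im_le_norm T
  rw [abs_le] at r4 r6
  have e2 : ((2 * Real.pi * uu - 3 : ℂ) + B + C + T).im = (2 * Real.pi * uu - 3 : ℂ).im + B.im +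
      C.im + T.im := by simp only [Complex.add_im]
  rw [e2, hA]
  linarith [r4.2, r6.2]

end Pool.Agent.H10
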