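import Pool.Agent.H10.Strip

/-!
# Horizontal contour shifts
-/

namespace Pool.Agent.H10

open MeasureTheory Complex Filter Topology Set

/-- even extension of an integrable function is integrable. -/
lemma integrable_comp_abs' {f : ℝ → ℝ} (hf : IntegrableOn f (Ioi 0)) :
    Integrable (fun t : ℝ => f |t|) := by
  have hf1 : IntegrableOn (fun t : ℝ => f |t|) (Ioi 0) := by
    refine hf.congr_fun (fun x hx => ?_) measurableSet_Ioi
    rw [abs_of_pos (show (0 : ℝ) < x from hx)]
  have int_Iic : IntegrableOn (fun x ↦ f |x|) (Iic 0) := by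
    rw [← Measure.map_neg_eq_self (volume : Measure ℝ)]
    let m : MeasurableEmbedding fun x : ℝ => -x := (Homeomorph.neg ℝ).measurableEmbedding
    rw [m.integrableOn_map_iff]
    simp_rw [Function.comp_def, abs_neg, neg_preimage, neg_Iic, neg_zero]
    exact Iff.mpr integrableOn_Ici_iff_integrableOn_Ioi hf1
  have := int_Iic.union hf1
  rwa [Iic_union_Ioi, integrableOn_univ] at this

lemma integrable_exp_neg_mul_abs {c : ℝ} (hc : 0 < c) :
    Integrable (fun t : ℝ => Real.exp (-(c * |t|))) := by
  have h := integrable_comp_abs' (f := fun t => Real.exp (-c * t)) (exp_neg_integrableOn_Ioi 0 hc)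
  refine h.congr (Eventually.of_forall (fun t => ?_))
  show Real.exp (-c * |t|) = Real.exp (-(c * |t|))
  rw [neg_mul]

lemma integral_exp_neg_mul_abs {c : ℝ} (hc : 0 < c) :
    ∫ t : ℝ, Real.exp (-(c * |t|)) = 2 / c := by
  rw [integral_comp_abs (f := fun t => Real.exp (-(c * t)))]
  have : (fun t : ℝ => Real.exp (-(c * t))) = fun t => Real.exp ((-c) * t) := by
    ext t; rw [neg_mul]
  rw [this, integral_exp_mul_Ioi (by linarith) 0]
  simp
  ring

/-- horizontal shift of the contour -/
lemma integral_shift {g : ℂ → ℂ} {C c : ℝ} (hc : 0 < c) (β : ℝ)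
    (hg : ∀ z : ℂ, |z.im| ≤ |β| → DifferentiableAt ℂ g z)
    (hb : ∀ z : ℂ, |z.im| ≤ |β| → ‖g z‖ ≤ C * Real.exp (-(c * |z.re|))) :
    (∫ t : ℝ, g t) = ∫ t : ℝ, g (t + β * I) := by
  have hline : ∀ y : ℝ, |y| ≤ |β| → Integrable (fun t : ℝ => g (t + y * I)) := by
    intro y hy
    refine Integrable.mono' ((integrable_exp_neg_mul_abs hc).const_mul C) ?_ ?_
    · apply Continuous.aestronglyMeasurable
      rw [continuous_iff_continuousAt]
      intro t
      have h1 : ContinuousAt g (t + y * I) := (hg _ (by simpa using hy)).continuousAt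
      exact ContinuousAt.comp (f := fun t : ℝ => (t + y * I : ℂ)) h1 (by fun_prop)
    · refine Eventually.of_forall (fun t => ?_)
      have := hb (t + y * I) (by simpa using hy)
      simpa using this
  have i0 : Integrable (fun t : ℝ => g t) := by
    have := hline 0 (by simp)
    simpa using this
  have i1 := hline β le_rfl
  have t0 := intervalIntegral_tendsto_integral i0 tendsto_neg_atTop_atBot tendsto_id
  have t1 := intervalIntegral_tendsto_integral i1 tendsto_neg_atTop_atBot tendsto_id
  have hvert : ∀ σ : ℝ → ℝ, (∀ X, |σ X| = |X|) →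
      Tendsto (fun X : ℝ => I * (∫ s in (0 : ℝ)..β, g (σ X + s * I))) atTop (𝓝 0) := by
    intro σ hσ
    have hbd : ∀ᶠ X : ℝ in atTop, ‖I * (∫ s in (0 : ℝ)..β, g (σ X + s * I))‖ ≤
        C * Real.exp (-(c * X)) * |β| := by
      filter_upwards [eventually_ge_atTop (0 : ℝ)] with X hX
      rw [norm_mul, Complex.norm_I, one_mul]
      have := intervalIntegral.norm_integral_le_of_norm_le_const (a := 0) (b := β)
        (f := fun s : ℝ => g (σ X + s * I)) (C := C * Real.exp (-(c * X))) (by
          intro s hs
          have hs' : |s| ≤ |β| := by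
            rw [uIoc, mem_Ioc] at hs
            rcases le_total 0 β with h | h
            · rw [min_eq_left h, max_eq_right h] at hs
              rw [abs_of_pos hs.1, abs_of_nonneg h]
              exact hs.2
            · rw [min_eq_right h, max_eq_left h] at hs
              rw [abs_of_nonpos hs.2, abs_of_nonpos h]
              linarith [hs.1]
          have h1 := hb (σ X + s * I) (by simpa using hs')
          have e1 : (σ X + s * I : ℂ).re = σ X := by simp
          rw [e1, hσ, abs_of_nonneg hX] at h1
          exact h1)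
      rw [sub_zero] at this
      exact this
    have hlim : Tendsto (fun X : ℝ => C * Real.exp (-(c * X)) * |β|) atTop (𝓝 0) := by
      have h1 : Tendsto (fun X : ℝ => Real.exp (-(c * X))) atTop (𝓝 0) := by
        apply Real.tendsto_exp_neg_atTop_nhds_zero.comp
        exact tendsto_id.const_mul_atTop hc
      have := (h1.const_mul C).mul_const |β|
      simpa using this
    exact squeeze_zero_norm' hbd hlim
  have t2 := hvert (fun X => X) (fun X => rfl)
  have t3 := hvert (fun X => -X) (fun X => abs_neg X)
  have t4 := ((t0.sub t1).add t2).sub t3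
  have key : ∀ X : ℝ, (∫ t in (-X)..(id X), g t) - (∫ t in (-X)..(id X), g (t + β * I)) +
      I * (∫ s in (0 : ℝ)..β, g (X + s * I)) -
      I * (∫ s in (0 : ℝ)..β, g ((-X : ℝ) + s * I)) = 0 := by
    intro X
    have h := Complex.integral_boundary_rect_eq_zero_of_differentiableOn g
      ((-X : ℝ) : ℂ) (X + β * I) (by
        intro z hz
        rw [Complex.mem_reProdIm] at hz
        have h2 := hz.2
        have e2 : (X + β * I : ℂ).im = β := by simp
        rw [e2, Complex.ofReal_im] at h2
        apply (hg z ?_).differentiableWithinAt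
        rcases le_total 0 β with h | h
        · rw [uIcc_of_le h] at h2
          rw [abs_of_nonneg h2.1, abs_of_nonneg h]
          exact h2.2
        · rw [uIcc_of_ge h] at h2
          rw [abs_of_nonpos h2.2, abs_of_nonpos h]
          linarith [h2.1])
    simp only [Complex.ofReal_re, Complex.ofReal_im, Complex.add_re, Complex.add_im,
      Complex.mul_re, Complex.mul_im, Complex.I_re, Complex.I_im, mul_zero, mul_one, sub_zero,
      zero_mul, add_zero, zero_add, smul_eq_mul, Complex.ofReal_zero] at h
    simpa using h
  have t5 : Tendsto (fun _ : ℝ => (0 : ℂ)) atTop (𝓝 ((∫ t : ℝ, g t) - (∫ t : ℝ, g (t + β * I)) +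
      0 - 0)) := by
    refine t4.congr (fun X => ?_)
    exact key X
  have t6 := tendsto_nhds_unique t5 tendsto_const_nhds
  linear_combination t6

end Pool.Agent.H10
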