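import Pool.Agent.H10.Even

/-!
# Bounds for the Riemann kernel in the strip and horizontal contour shifts
-/

namespace Pool.Agent.H10

open MeasureTheory Complex Filter Topology Set

lemma pow_mul_exp_neg_le {y : ℝ} (hy : 0 < y) (N : ℕ) :
    Real.exp (-y) ≤ (N.factorial : ℝ) * (y ^ N)⁻¹ := by
  have h := Real.pow_div_factorial_le_exp y hy.le N
  have hf : (0 : ℝ) < N.factorial := by exact_mod_cast Nat.factorial_pos N
  have hyN : 0 < y ^ N := by positivity
  rw [Real.exp_neg, ← inv_inv (N.factorial : ℝ), ← mul_inv]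
  apply inv_anti₀ (by positivity)
  calc ((N.factorial : ℝ))⁻¹ * y ^ N = y ^ N / N.factorial := by field_simp
    _ ≤ Real.exp y := h

lemma exists_ff_bound (N : ℕ) (hN : 3 ≤ N) : ∃ C : ℝ, 0 < C ∧ ∀ u : ℂ, 0 < u.re → 1 ≤ ‖u‖ →
    ‖ff u‖ ≤ C * ‖u‖ * (u.re ^ N)⁻¹ := by
  have hs : Summable (fun n : ℕ => (((n : ℝ) + 1) ^ 2)⁻¹) := by
    have := (summable_nat_add_iff (f := fun n : ℕ => ((n : ℝ) ^ 2)⁻¹) 1).2
      (Real.summable_nat_pow_inv.2 (by norm_num))
    refine this.congr ?_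
    intro n
    push_cast
    rfl
  set K : ℝ := (2 * Real.pi + 3) * (N.factorial : ℝ) with hK
  have hpi := Real.pi_pos
  have hf : (0 : ℝ) < N.factorial := by exact_mod_cast Nat.factorial_pos N
  have hKpos : 0 < K := by positivity
  refine ⟨K * (∑' n : ℕ, (((n : ℝ) + 1) ^ 2)⁻¹), ?_, ?_⟩
  · apply mul_pos hKpos
    exact hs.tsum_pos (fun n => by positivity) 0 (by norm_num)
  · intro u hu h1
    have hterm : ∀ n : ℕ, ‖fterm n u‖ ≤ K * ‖u‖ * (u.re ^ N)⁻¹ * (((n : ℝ) + 1) ^ 2)⁻¹ := by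
      intro n
      unfold fterm
      have hn : ‖((n : ℂ) + 1)‖ = (n : ℝ) + 1 := by
        have : ((n : ℂ) + 1) = (((n : ℝ) + 1 : ℝ) : ℂ) := by push_cast; rfl
        rw [this, Complex.norm_real, Real.norm_eq_abs, abs_of_nonneg (by positivity)]
      rw [norm_mul, norm_mul, norm_pow, hn]
      have hre : (-(Real.pi * ((n : ℂ) + 1) ^ 2 * u)).re =
          -(Real.pi * ((n : ℝ) + 1) ^ 2 * u.re) := by
        have : ((n : ℂ) + 1) ^ 2 = ((((n : ℝ) + 1) ^ 2 : ℝ) : ℂ) := by push_cast; rfl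
        rw [this, ← Complex.ofReal_mul, Complex.neg_re, Complex.re_ofReal_mul]
      have h3 : (1 : ℝ) ≤ (n : ℝ) + 1 := by
        have : (0 : ℝ) ≤ n := Nat.cast_nonneg n
        linarith
      have e1 : ‖(2 * Real.pi * ((n : ℂ) + 1) ^ 2 * u - 3 : ℂ)‖ ≤
          (2 * Real.pi + 3) * ((n : ℝ) + 1) ^ 2 * ‖u‖ := by
        refine (norm_sub_le _ _).trans ?_
        rw [norm_mul, norm_mul, norm_mul, norm_pow, hn]
        simp only [Complex.norm_real, Real.norm_eq_abs, abs_of_pos Real.pi_pos, Complex.norm_ofNat]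
        have : (1 : ℝ) ≤ ((n : ℝ) + 1) ^ 2 * ‖u‖ := by
          have : (1 : ℝ) ≤ ((n : ℝ) + 1) ^ 2 := by nlinarith
          nlinarith
        nlinarith
      rw [Complex.norm_exp, hre]
      set m : ℝ := (n : ℝ) + 1 with hm
      have hm0 : 0 < m := by linarith
      have hy : 0 < Real.pi * m ^ 2 * u.re := by positivity
      have e2 := pow_mul_exp_neg_le hy N
      have e3 : ((Real.pi * m ^ 2 * u.re) ^ N)⁻¹ ≤ (m ^ 6 * u.re ^ N)⁻¹ := by
        apply inv_anti₀ (by positivity)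
        rw [mul_pow, mul_pow]
        have p1 : 1 ≤ Real.pi ^ N := one_le_pow₀ (by linarith [Real.pi_gt_three])
        have p2 : m ^ 6 ≤ (m ^ 2) ^ N := by
          rw [← pow_mul]
          exact pow_le_pow_right₀ h3 (by omega)
        have p3 : 0 < u.re ^ N := by positivity
        calc m ^ 6 * u.re ^ N = 1 * m ^ 6 * u.re ^ N := by ring
          _ ≤ Real.pi ^ N * (m ^ 2) ^ N * u.re ^ N := by gcongr
      calc m ^ 2 * ‖(2 * Real.pi * ((n : ℂ) + 1) ^ 2 * u - 3 : ℂ)‖ *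
          Real.exp (-(Real.pi * m ^ 2 * u.re))
          ≤ m ^ 2 * ((2 * Real.pi + 3) * m ^ 2 * ‖u‖) *
            ((N.factorial : ℝ) * (m ^ 6 * u.re ^ N)⁻¹) := by
            gcongr
            exact e2.trans (by gcongr)
        _ = K * ‖u‖ * (u.re ^ N)⁻¹ * (m ^ 2)⁻¹ := by
            rw [hK]
            have : u.re ^ N ≠ 0 := by positivity
            field_simp
    have hs2 : Summable (fun n : ℕ => K * ‖u‖ * (u.re ^ N)⁻¹ * (((n : ℝ) + 1) ^ 2)⁻¹) :=
      hs.mul_left _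
    calc ‖ff u‖ ≤ ∑' n : ℕ, K * ‖u‖ * (u.re ^ N)⁻¹ * (((n : ℝ) + 1) ^ 2)⁻¹ :=
          tsum_of_norm_bounded hs2.hasSum hterm
      _ = K * ‖u‖ * (u.re ^ N)⁻¹ * ∑' n : ℕ, (((n : ℝ) + 1) ^ 2)⁻¹ := tsum_mul_left
      _ = _ := by ring

lemma cos_four_pos {y : ℝ} (hy : |y| < Real.pi / 8) : 0 < Real.cos (4 * y) := by
  rw [abs_lt] at hy
  exact Real.cos_pos_of_mem_Ioo ⟨by linarith, by linarith⟩

lemma norm_exp_four_mul (t : ℂ) : ‖cexp (4 * t)‖ = Real.exp (4 * t.re) := by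
  rw [Complex.norm_exp]
  simp

lemma norm_exp_five_mul (t : ℂ) : ‖cexp (5 * t)‖ = Real.exp (5 * t.re) := by
  rw [Complex.norm_exp]
  simp

lemma exists_PhiC_strip_bound (N : ℕ) (hN : 3 ≤ N) : ∃ C : ℝ, 0 < C ∧ ∀ t ∈ strip,
    ‖PhiC t‖ ≤ C * Real.exp (-((4 * N - 9) * |t.re|)) * (Real.cos (4 * t.im) ^ N)⁻¹ := by
  obtain ⟨C, hC, hb⟩ := exists_ff_bound N hN
  have hpi := Real.pi_pos
  refine ⟨Real.pi * C, by positivity, ?_⟩
  have main : ∀ t ∈ strip, 0 ≤ t.re →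
      ‖PhiC t‖ ≤ Real.pi * C * Real.exp (-((4 * N - 9) * |t.re|)) *
        (Real.cos (4 * t.im) ^ N)⁻¹ := by
    intro t ht h0
    have h1 := hb (cexp (4 * t)) (re_exp_pos ht) (by
      rw [norm_exp_four_mul]
      exact Real.one_le_exp (by linarith))
    have hc := cos_four_pos (show |t.im| < Real.pi / 8 from ht)
    unfold PhiC
    rw [norm_mul, norm_mul, norm_exp_five_mul, Complex.norm_real, Real.norm_eq_abs,
      abs_of_pos hpi]
    rw [norm_exp_four_mul, re_exp_four_mul] at h1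
    rw [abs_of_nonneg h0]
    have e1 : Real.exp (-((4 * N - 9) * t.re)) =
        Real.exp (5 * t.re) * Real.exp (4 * t.re) * (Real.exp (4 * t.re) ^ N)⁻¹ := by
      rw [← Real.exp_nat_mul, ← Real.exp_neg, ← Real.exp_add, ← Real.exp_add]
      congr 1
      ring
    rw [e1]
    calc Real.pi * Real.exp (5 * t.re) * ‖ff (cexp (4 * t))‖ ≤
        Real.pi * Real.exp (5 * t.re) * (C * Real.exp (4 * t.re) *
          ((Real.exp (4 * t.re) * Real.cos (4 * t.im)) ^ N)⁻¹) := by gcongr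
      _ = _ := by
        rw [mul_pow, mul_inv]
        ring
  intro t ht
  rcases le_total 0 t.re with h0 | h0
  · exact main t ht h0
  · have := main (-t) (neg_mem_strip ht) (by simpa using h0)
    rw [PhiC_neg ht] at this
    simpa using this

end Pool.Agent.H10
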