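import Pool.Agent.H10.HTerm

/-!
# Numerical tail bounds for `h` and `h'`
-/

namespace Pool.Agent.H10

open MeasureTheory Complex Filter Topology Set

/-- `exp (-x) ≤ 1 / (partial exponential sum)` for `x ≥ y ≥ 0`. -/
lemma exp_neg_le_of_le {x y : ℝ} (hy : 0 ≤ y) (hxy : y ≤ x) (n : ℕ) {c : ℝ} (hc : 0 < c)
    (h : 1 ≤ c * ∑ i ∈ Finset.range n, y ^ i / (i.factorial : ℝ)) : Real.exp (-x) ≤ c := by
  have h1 : ∑ i ∈ Finset.range n, y ^ i / (i.factorial : ℝ) ≤ Real.exp y :=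
    Real.sum_le_exp_of_nonneg hy n
  have h2 : Real.exp (-x) ≤ Real.exp (-y) := Real.exp_le_exp.2 (by linarith)
  refine h2.trans ?_
  rw [Real.exp_neg, inv_le_comm₀ (Real.exp_pos _) hc]
  have h3 : c⁻¹ ≤ ∑ i ∈ Finset.range n, y ^ i / (i.factorial : ℝ) := by
    rw [inv_le_iff_one_le_mul₀' hc]
    exact h
  exact h3.trans h1

/-- `q = exp(-7π/25)`. -/
noncomputable def qq : ℝ := Real.exp (-(Real.pi * (7 / 25)))

lemma qq_pos : 0 < qq := Real.exp_pos _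

lemma qq_le : qq ≤ 0.4151 := by
  unfold qq
  apply exp_neg_le_of_le (y := 0.8796) (by norm_num) _ 8 (by norm_num)
  · norm_num [Finset.sum_range_succ, Nat.factorial]
  · have := Real.pi_gt_d4
    linarith

lemma natpow_le (n : ℕ) : ((n : ℝ) + 4) ≤ 4 * (5 / 4) ^ n := by
  have h := one_add_mul_le_pow (a := (1 / 4 : ℝ)) (by norm_num) n
  have h2 : (1 + 1 / 4 : ℝ) = 5 / 4 := by norm_num
  rw [h2] at h
  linarith

lemma exp_tail_le {a : ℝ} (ha : 7 / 25 ≤ a) (n : ℕ) :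
    Real.exp (-(Real.pi * ((((n + 3 : ℕ) : ℝ) + 1) ^ 2 - 1) * a)) ≤ qq ^ 15 * (qq ^ 8) ^ n := by
  unfold qq
  rw [← Real.exp_nat_mul, ← Real.exp_nat_mul, ← Real.exp_nat_mul, ← Real.exp_add]
  apply Real.exp_le_exp.2
  push_cast
  have hn : (0 : ℝ) ≤ n := Nat.cast_nonneg n
  have hpi := Real.pi_pos
  have h1 : (0 : ℝ) ≤ ((n : ℝ) + 3 + 1) ^ 2 - 1 := by nlinarith
  have h2 : Real.pi * (((n : ℝ) + 3 + 1) ^ 2 - 1) * (7 / 25) ≤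
      Real.pi * (((n : ℝ) + 3 + 1) ^ 2 - 1) * a := by gcongr
  have h3 : Real.pi * (7 / 25) * (15 + 8 * n) ≤
      Real.pi * (((n : ℝ) + 3 + 1) ^ 2 - 1) * (7 / 25) := by
    have : (15 + 8 * (n : ℝ)) ≤ ((n : ℝ) + 3 + 1) ^ 2 - 1 := by nlinarith
    calc Real.pi * (7 / 25) * (15 + 8 * n) ≤ Real.pi * (7 / 25) * (((n : ℝ) + 3 + 1) ^ 2 - 1) := by
          gcongr
      _ = _ := by ring
  linarith

lemma tail_hterm {u : ℂ} (ha : 7 / 25 ≤ u.re) (hn : 1 ≤ ‖u‖) :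
    ‖∑' n : ℕ, hterm (n + 3) u‖ ≤ 0.004 * ‖u‖ := by
  have hq := qq_le
  have hq0 := qq_pos
  have hr0 : 0 ≤ (5 / 4) ^ 4 * qq ^ 8 := by positivity
  have hr1 : (5 / 4) ^ 4 * qq ^ 8 ≤ 0.003 := by
    calc (5 / 4) ^ 4 * qq ^ 8 ≤ (5 / 4) ^ 4 * 0.4151 ^ 8 := by gcongr
      _ ≤ 0.003 := by norm_num
  have hg : HasSum (fun n : ℕ => 6.5 * ‖u‖ * 256 * qq ^ 15 * ((5 / 4) ^ 4 * qq ^ 8) ^ n)
      (6.5 * ‖u‖ * 256 * qq ^ 15 * (1 - (5 / 4) ^ 4 * qq ^ 8)⁻¹) :=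
    (hasSum_geometric_of_lt_one hr0 (by linarith)).mul_left _
  have hb : ∀ n : ℕ, ‖hterm (n + 3) u‖ ≤
      6.5 * ‖u‖ * 256 * qq ^ 15 * ((5 / 4) ^ 4 * qq ^ 8) ^ n := by
    intro n
    refine (norm_hterm_le' (n + 3)).trans ?_
    have e := exp_tail_le ha n
    have hN : (((n + 3 : ℕ) : ℝ) + 1) = (n : ℝ) + 4 := by push_cast; ring
    have hn0 : (0 : ℝ) ≤ n := Nat.cast_nonneg n
    have hp := natpow_le n
    have h4 : ((n : ℝ) + 4) ^ 4 ≤ 256 * ((5 / 4) ^ 4) ^ n := by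
      calc ((n : ℝ) + 4) ^ 4 ≤ (4 * (5 / 4) ^ n) ^ 4 := by gcongr
        _ = 256 * ((5 / 4) ^ 4) ^ n := by rw [mul_pow, ← pow_mul, ← pow_mul]; norm_num [mul_comm]
    have hc : (2 * Real.pi * ‖u‖ * (((n + 3 : ℕ) : ℝ) + 1) ^ 4 + 3 * (((n + 3 : ℕ) : ℝ) + 1) ^ 2) ≤
        6.5 * ‖u‖ * (256 * ((5 / 4) ^ 4) ^ n) := by
      rw [hN]
      have hpi := Real.pi_lt_d4
      have h24 : 16 * ((n : ℝ) + 4) ^ 2 ≤ ((n : ℝ) + 4) ^ 4 := by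
        have : (16 : ℝ) ≤ ((n : ℝ) + 4) ^ 2 := by nlinarith
        calc 16 * ((n : ℝ) + 4) ^ 2 ≤ ((n : ℝ) + 4) ^ 2 * ((n : ℝ) + 4) ^ 2 := by gcongr
          _ = _ := by ring
      have h5 : 3 * ((n : ℝ) + 4) ^ 2 ≤ (3 / 16) * ‖u‖ * ((n : ℝ) + 4) ^ 4 := by
        nlinarith [sq_nonneg (((n : ℝ) + 4) ^ 2)]
      have h6 : (2 * Real.pi + 3 / 16) ≤ 6.5 := by linarith
      calc 2 * Real.pi * ‖u‖ * ((n : ℝ) + 4) ^ 4 + 3 * ((n : ℝ) + 4) ^ 2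
          ≤ 2 * Real.pi * ‖u‖ * ((n : ℝ) + 4) ^ 4 + (3 / 16) * ‖u‖ * ((n : ℝ) + 4) ^ 4 := by
            linarith
        _ = (2 * Real.pi + 3 / 16) * ‖u‖ * ((n : ℝ) + 4) ^ 4 := by ring
        _ ≤ 6.5 * ‖u‖ * (256 * ((5 / 4) ^ 4) ^ n) := by gcongr
    calc (2 * Real.pi * ‖u‖ * (((n + 3 : ℕ) : ℝ) + 1) ^ 4 + 3 * (((n + 3 : ℕ) : ℝ) + 1) ^ 2) *
          Real.exp (-(Real.pi * ((((n + 3 : ℕ) : ℝ) + 1) ^ 2 - 1) * u.re))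
        ≤ (6.5 * ‖u‖ * (256 * ((5 / 4) ^ 4) ^ n)) * (qq ^ 15 * (qq ^ 8) ^ n) := by gcongr
      _ = _ := by rw [mul_pow]; ring
  refine (tsum_of_norm_bounded hg hb).trans ?_
  have h1 : (1 - (5 / 4) ^ 4 * qq ^ 8)⁻¹ ≤ 1.01 := by
    rw [inv_le_comm₀ (by linarith) (by norm_num)]
    norm_num
    linarith
  have h2 : qq ^ 15 ≤ 0.4151 ^ 15 := by gcongr
  calc 6.5 * ‖u‖ * 256 * qq ^ 15 * (1 - (5 / 4) ^ 4 * qq ^ 8)⁻¹
      ≤ 6.5 * ‖u‖ * 256 * 0.4151 ^ 15 * 1.01 := by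
        gcongr
        exact inv_nonneg.2 (by linarith)
    _ = (6.5 * 256 * 0.4151 ^ 15 * 1.01) * ‖u‖ := by ring
    _ ≤ 0.004 * ‖u‖ := by
        gcongr
        norm_num

lemma tail_hterm1 {u : ℂ} (ha : 7 / 25 ≤ u.re) (hn : ‖u‖ ≤ 1.1) :
    ‖∑' n : ℕ, hterm1 (n + 3) u‖ ≤ 0.2 := by
  have hq := qq_le
  have hq0 := qq_pos
  have hr0 : 0 ≤ (5 / 4) ^ 6 * qq ^ 8 := by positivity
  have hr1 : (5 / 4) ^ 6 * qq ^ 8 ≤ 0.005 := by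
    calc (5 / 4) ^ 6 * qq ^ 8 ≤ (5 / 4) ^ 6 * 0.4151 ^ 8 := by gcongr
      _ ≤ 0.005 := by norm_num
  have hg : HasSum (fun n : ℕ => 22.8 * 4096 * qq ^ 15 * ((5 / 4) ^ 6 * qq ^ 8) ^ n)
      (22.8 * 4096 * qq ^ 15 * (1 - (5 / 4) ^ 6 * qq ^ 8)⁻¹) :=
    (hasSum_geometric_of_lt_one hr0 (by linarith)).mul_left _
  have hb : ∀ n : ℕ, ‖hterm1 (n + 3) u‖ ≤
      22.8 * 4096 * qq ^ 15 * ((5 / 4) ^ 6 * qq ^ 8) ^ n := by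
    intro n
    refine (norm_hterm1_le' (n + 3)).trans ?_
    have e := exp_tail_le ha n
    have hN : (((n + 3 : ℕ) : ℝ) + 1) = (n : ℝ) + 4 := by push_cast; ring
    have hn0 : (0 : ℝ) ≤ n := Nat.cast_nonneg n
    have hp := natpow_le n
    have h4 : ((n : ℝ) + 4) ^ 6 ≤ 4096 * ((5 / 4) ^ 6) ^ n := by
      calc ((n : ℝ) + 4) ^ 6 ≤ (4 * (5 / 4) ^ n) ^ 6 := by gcongr
        _ = 4096 * ((5 / 4) ^ 6) ^ n := by rw [mul_pow, ← pow_mul, ← pow_mul]; norm_num [mul_comm]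
    have hc : Real.pi * (2 * Real.pi * ‖u‖ * (((n + 3 : ℕ) : ℝ) + 1) ^ 6 +
          5 * (((n + 3 : ℕ) : ℝ) + 1) ^ 4) ≤ 22.8 * (4096 * ((5 / 4) ^ 6) ^ n) := by
      rw [hN]
      have hpi := Real.pi_lt_d4
      have hpi0 := Real.pi_pos
      have h24 : 16 * ((n : ℝ) + 4) ^ 4 ≤ ((n : ℝ) + 4) ^ 6 := by
        have : (16 : ℝ) ≤ ((n : ℝ) + 4) ^ 2 := by nlinarith
        calc 16 * ((n : ℝ) + 4) ^ 4 ≤ ((n : ℝ) + 4) ^ 2 * ((n : ℝ) + 4) ^ 4 := by gcongr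
          _ = _ := by ring
      have h5 : Real.pi * (2 * Real.pi * 1.1 + 5 / 16) ≤ 22.8 := by nlinarith
      calc Real.pi * (2 * Real.pi * ‖u‖ * ((n : ℝ) + 4) ^ 6 + 5 * ((n : ℝ) + 4) ^ 4)
          ≤ Real.pi * (2 * Real.pi * 1.1 * ((n : ℝ) + 4) ^ 6 + 5 / 16 * ((n : ℝ) + 4) ^ 6) := by
            have h6 : 5 * ((n : ℝ) + 4) ^ 4 ≤ 5 / 16 * ((n : ℝ) + 4) ^ 6 := by linarith
            have h7 : 2 * Real.pi * ‖u‖ * ((n : ℝ) + 4) ^ 6 ≤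
              2 * Real.pi * 1.1 * ((n : ℝ) + 4) ^ 6 := by gcongr
            exact mul_le_mul_of_nonneg_left (add_le_add h7 h6) hpi0.le
        _ = Real.pi * (2 * Real.pi * 1.1 + 5 / 16) * ((n : ℝ) + 4) ^ 6 := by ring
        _ ≤ 22.8 * (4096 * ((5 / 4) ^ 6) ^ n) := by gcongr
    calc Real.pi * (2 * Real.pi * ‖u‖ * (((n + 3 : ℕ) : ℝ) + 1) ^ 6 +
          5 * (((n + 3 : ℕ) : ℝ) + 1) ^ 4) *
          Real.exp (-(Real.pi * ((((n + 3 : ℕ) : ℝ) + 1) ^ 2 - 1) * u.re))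
        ≤ (22.8 * (4096 * ((5 / 4) ^ 6) ^ n)) * (qq ^ 15 * (qq ^ 8) ^ n) := by gcongr
      _ = _ := by rw [mul_pow]; ring
  refine (tsum_of_norm_bounded hg hb).trans ?_
  have h1 : (1 - (5 / 4) ^ 6 * qq ^ 8)⁻¹ ≤ 1.01 := by
    rw [inv_le_comm₀ (by linarith) (by norm_num)]
    norm_num
    linarith
  have h2 : qq ^ 15 ≤ 0.4151 ^ 15 := by gcongr
  calc 22.8 * 4096 * qq ^ 15 * (1 - (5 / 4) ^ 6 * qq ^ 8)⁻¹
      ≤ 22.8 * 4096 * 0.4151 ^ 15 * 1.01 := by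
        gcongr
        exact inv_nonneg.2 (by linarith)
    _ ≤ 0.2 := by norm_num

/-- `h(u) = (2πu-3) + 4(8πu-3)e^{-3πu} + 9(18πu-3)e^{-8πu} + tail`. -/
lemma hh_split {u : ℂ} (hu : 0 < u.re) :
    hh u = (2 * Real.pi * u - 3) + 4 * (8 * Real.pi * u - 3) * cexp (-(3 * Real.pi * u)) +
      9 * (18 * Real.pi * u - 3) * cexp (-(8 * Real.pi * u)) + ∑' n : ℕ, hterm (n + 3) u := by
  unfold hh
  rw [← (summable_hterm hu).sum_add_tsum_nat_add 3]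
  congr 1
  rw [Finset.sum_range_succ, Finset.sum_range_succ, Finset.sum_range_succ, Finset.sum_range_zero]
  unfold hterm
  have e0 : cexp (-(Real.pi * ((((0 : ℕ) : ℂ) + 1) ^ 2 - 1) * u)) = 1 := by
    have : (-(Real.pi * ((((0 : ℕ) : ℂ) + 1) ^ 2 - 1) * u)) = 0 := by push_cast; ring
    rw [this, Complex.exp_zero]
  have e1 : cexp (-(Real.pi * ((((1 : ℕ) : ℂ) + 1) ^ 2 - 1) * u)) = cexp (-(3 * Real.pi * u)) := by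
    congr 1; push_cast; ring
  have e2 : cexp (-(Real.pi * ((((2 : ℕ) : ℂ) + 1) ^ 2 - 1) * u)) = cexp (-(8 * Real.pi * u)) := by
    congr 1; push_cast; ring
  rw [e0, e1, e2]
  push_cast
  ring

/-- `u h'(u)` expanded. -/
lemma hh1_split {u : ℂ} (hu : 0 < u.re) :
    u * hh1 u = 2 * Real.pi * u +
      (68 * Real.pi * u - 96 * Real.pi ^ 2 * u ^ 2) * cexp (-(3 * Real.pi * u)) +
      9 * (42 * Real.pi * u - 144 * Real.pi ^ 2 * u ^ 2) * cexp (-(8 * Real.pi * u)) +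
      u * ∑' n : ℕ, hterm1 (n + 3) u := by
  unfold hh1
  rw [← (summable_hterm1 hu).sum_add_tsum_nat_add 3, mul_add]
  congr 1
  rw [Finset.sum_range_succ, Finset.sum_range_succ, Finset.sum_range_succ, Finset.sum_range_zero]
  unfold hterm1
  have e0 : cexp (-(Real.pi * ((((0 : ℕ) : ℂ) + 1) ^ 2 - 1) * u)) = 1 := by
    have : (-(Real.pi * ((((0 : ℕ) : ℂ) + 1) ^ 2 - 1) * u)) = 0 := by push_cast; ring
    rw [this, Complex.exp_zero]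
  have e1 : cexp (-(Real.pi * ((((1 : ℕ) : ℂ) + 1) ^ 2 - 1) * u)) = cexp (-(3 * Real.pi * u)) := by
    congr 1; push_cast; ring
  have e2 : cexp (-(Real.pi * ((((2 : ℕ) : ℂ) + 1) ^ 2 - 1) * u)) = cexp (-(8 * Real.pi * u)) := by
    congr 1; push_cast; ring
  rw [e0, e1, e2]
  push_cast
  ring

end Pool.Agent.H10
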