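import Pool.Agent.H10.Expand
import Mathlib.NumberTheory.LSeries.RiemannZeta
import Mathlib.NumberTheory.LSeries.Nonvanishing

/-!
# The case `α = 1`: `F_1` has a non-real zero if and only if the Riemann hypothesis fails
-/

namespace Pool.Agent.H10

open MeasureTheory Complex Filter Topology Set

/-- the entire function `w (w - 1) Λ(w)` -/
noncomputable def xiE (w : ℂ) : ℂ := w * (w - 1) * completedRiemannZeta₀ w + 1

lemma differentiable_xiE : Differentiable ℂ xiE := by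
  unfold xiE
  have h := differentiable_completedZeta₀
  fun_prop

lemma xiE_eq {w : ℂ} (h0 : w ≠ 0) (h1 : w ≠ 1) : xiE w = w * (w - 1) * completedRiemannZeta w := by
  unfold xiE
  rw [completedRiemannZeta_eq]
  have h2 : (1 - w) ≠ 0 := sub_ne_zero.2 (Ne.symm h1)
  field_simp
  ring

lemma one_div_pi_cpow (u : ℂ) {n : ℕ} :
    (1 / ((Real.pi * ((n + 1 : ℕ) : ℝ) ^ 2 : ℝ) : ℂ)) ^ u =
      (Real.pi : ℂ) ^ (-u) * (((n : ℂ) + 1) ^ (2 * u))⁻¹ := by
  have hpi := Real.pi_pos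
  have hn : (0 : ℝ) < ((n + 1 : ℕ) : ℝ) := by positivity
  have e1 : (1 / ((Real.pi * ((n + 1 : ℕ) : ℝ) ^ 2 : ℝ) : ℂ)) =
      (((Real.pi)⁻¹ : ℝ) : ℂ) * ((((((n + 1 : ℕ) : ℝ)) ^ 2)⁻¹ : ℝ) : ℂ) := by
    push_cast
    field_simp
  rw [e1, Complex.mul_cpow_ofReal_nonneg (by positivity) (by positivity)]
  have e2 : ((((Real.pi)⁻¹ : ℝ) : ℂ)) ^ u = (Real.pi : ℂ) ^ (-u) := by
    push_cast
    rw [Complex.inv_cpow, Complex.cpow_neg]
    rw [Complex.arg_ofReal_of_nonneg hpi.le]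
    exact hpi.ne
  have e3 : ((((((n + 1 : ℕ) : ℝ)) ^ 2)⁻¹ : ℝ) : ℂ) ^ u = (((n : ℂ) + 1) ^ (2 * u))⁻¹ := by
    have e4 : ((((((n + 1 : ℕ) : ℝ)) ^ 2)⁻¹ : ℝ) : ℂ) = ((((n + 1 : ℕ) : ℝ) ^ 2 : ℝ) : ℂ)⁻¹ := by
      push_cast
      rfl
    rw [e4, Complex.inv_cpow]
    · congr 1
      have e5 : ((((n + 1 : ℕ) : ℝ) ^ 2 : ℝ) : ℂ) =
          (((n + 1 : ℕ) : ℝ) : ℂ) * (((n + 1 : ℕ) : ℝ) : ℂ) := by
        push_cast
        ring
      rw [e5, Complex.mul_cpow_ofReal_nonneg hn.le hn.le, two_mul, Complex.cpow_add]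
      · push_cast
        rfl
      · exact_mod_cast (Nat.succ_ne_zero n)
    · rw [Complex.arg_ofReal_of_nonneg (by positivity)]
      exact hpi.ne
  rw [e2, e3]

lemma pw_one (s : ℂ) (x : ℕ ⊕ ℕ) : pw (k := 1) s (fun _ => x) = s + 9 / 4 - cd x := by
  unfold pw pd
  simp

lemma term_inl (s : ℂ) (n : ℕ) : term (k := 1) s (fun _ => Sum.inl n) =
    (Real.pi : ℂ) ^ (-(s + 1 / 4)) / 2 * Complex.Gamma (s + 9 / 4) *
      (1 / ((n : ℂ) + 1) ^ (2 * s + 1 / 2)) := by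
  have hpi : (Real.pi : ℂ) ≠ 0 := by exact_mod_cast Real.pi_ne_zero
  have hn : ((n : ℂ) + 1) ≠ 0 := by exact_mod_cast (Nat.succ_ne_zero n)
  unfold term
  rw [pw_one]
  have e1 : pA (k := 1) (fun _ => Sum.inl n) = 2 * Real.pi ^ 2 * ((n : ℝ) + 1) ^ 4 := by
    unfold pA ca
    simp
  have e2 : pL (k := 1) (fun _ => Sum.inl n) = ((n + 1 : ℕ) : ℝ) ^ 2 := by
    unfold pL cn
    simp
  have e3 : (cd (Sum.inl n) : ℂ) = 0 := by simp [cd]
  rw [e1, e2, e3, sub_zero, one_div_pi_cpow]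
  have e4 : (Real.pi : ℂ) ^ (-(s + 9 / 4)) = (Real.pi : ℂ) ^ (-(s + 1 / 4)) / (Real.pi : ℂ) ^ 2 := by
    have : -(s + 9 / 4) = -(s + 1 / 4) - ((2 : ℕ) : ℂ) := by
      push_cast
      ring
    rw [this, Complex.cpow_sub _ _ hpi, Complex.cpow_natCast]
  have e5 : ((n : ℂ) + 1) ^ (2 * (s + 9 / 4)) =
      ((n : ℂ) + 1) ^ (2 * s + 1 / 2) * ((n : ℂ) + 1) ^ 4 := by
    have : 2 * (s + 9 / 4) = (2 * s + 1 / 2) + ((4 : ℕ) : ℂ) := by
      push_cast
      ring
    rw [this, Complex.cpow_add _ _ hn, Complex.cpow_natCast]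
  rw [e4, e5]
  push_cast
  have h6 : ((n : ℂ) + 1) ^ (2 * s + 1 / 2) ≠ 0 := by
    rw [Complex.cpow_ne_zero_iff]
    exact Or.inl hn
  field_simp
  ring

lemma term_inr (s : ℂ) (n : ℕ) : term (k := 1) s (fun _ => Sum.inr n) =
    -(3 / 4 * (Real.pi : ℂ) ^ (-(s + 1 / 4)) * Complex.Gamma (s + 5 / 4)) *
      (1 / ((n : ℂ) + 1) ^ (2 * s + 1 / 2)) := by
  have hpi : (Real.pi : ℂ) ≠ 0 := by exact_mod_cast Real.pi_ne_zero
  have hn : ((n : ℂ) + 1) ≠ 0 := by exact_mod_cast (Nat.succ_ne_zero n)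
  unfold term
  rw [pw_one]
  have e1 : pA (k := 1) (fun _ => Sum.inr n) = -(3 * Real.pi * ((n : ℝ) + 1) ^ 2) := by
    unfold pA ca
    simp
  have e2 : pL (k := 1) (fun _ => Sum.inr n) = ((n + 1 : ℕ) : ℝ) ^ 2 := by
    unfold pL cn
    simp
  have e3 : s + 9 / 4 - (cd (Sum.inr n) : ℂ) = s + 5 / 4 := by
    simp [cd]
    ring
  rw [e1, e2, e3, one_div_pi_cpow]
  have e4 : (Real.pi : ℂ) ^ (-(s + 5 / 4)) = (Real.pi : ℂ) ^ (-(s + 1 / 4)) / (Real.pi : ℂ) := by
    have : -(s + 5 / 4) = -(s + 1 / 4) - 1 := by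
      ring
    rw [this, Complex.cpow_sub _ _ hpi, Complex.cpow_one]
  have e5 : ((n : ℂ) + 1) ^ (2 * (s + 5 / 4)) =
      ((n : ℂ) + 1) ^ (2 * s + 1 / 2) * ((n : ℂ) + 1) ^ 2 := by
    have : 2 * (s + 5 / 4) = (2 * s + 1 / 2) + ((2 : ℕ) : ℂ) := by
      push_cast
      ring
    rw [this, Complex.cpow_add _ _ hn, Complex.cpow_natCast]
  rw [e4, e5]
  push_cast
  have h6 : ((n : ℂ) + 1) ^ (2 * s + 1 / 2) ≠ 0 := by
    rw [Complex.cpow_ne_zero_iff]
    exact Or.inl hn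
  field_simp

lemma hasSum_zeta {w : ℂ} (hw : 1 < w.re) :
    HasSum (fun n : ℕ => 1 / ((n : ℂ) + 1) ^ w) (riemannZeta w) := by
  rw [zeta_eq_tsum_one_div_nat_add_one_cpow hw]
  apply Summable.hasSum
  have h := (summable_nat_add_iff (f := fun n : ℕ => 1 / (n : ℂ) ^ w) 1).2
    (Complex.summable_one_div_nat_cpow.2 hw)
  refine h.congr ?_
  intro n
  push_cast
  rfl

lemma MM_one_eq_of_re {s : ℂ} (hs : 2 ≤ s.re) : MM 1 s = 1 / 8 * xiE (2 * s + 1 / 2) := by
  have h := hasSum_MM (k := 1) le_rfl (s := s) (by push_cast; linarith)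
  have h2 := (Equiv.funUnique (Fin 1) (ℕ ⊕ ℕ)).symm.hasSum_iff.2 h
  have hw : 1 < (2 * s + 1 / 2).re := by
    simp
    norm_num
    linarith
  set w := 2 * s + 1 / 2 with hwd
  have hz := hasSum_zeta hw
  have hl : HasSum (fun n : ℕ => term (k := 1) s (fun _ => Sum.inl n))
      ((Real.pi : ℂ) ^ (-(s + 1 / 4)) / 2 * Complex.Gamma (s + 9 / 4) * riemannZeta w) := by
    refine (hz.mul_left _).congr_fun ?_
    intro n
    rw [term_inl]
  have hr : HasSum (fun n : ℕ => term (k := 1) s (fun _ => Sum.inr n))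
      (-(3 / 4 * (Real.pi : ℂ) ^ (-(s + 1 / 4)) * Complex.Gamma (s + 5 / 4)) * riemannZeta w) := by
    refine (hz.mul_left _).congr_fun ?_
    intro n
    rw [term_inr]
  have h3 : HasSum (fun x : ℕ ⊕ ℕ => term (k := 1) s (fun _ => x))
      ((Real.pi : ℂ) ^ (-(s + 1 / 4)) / 2 * Complex.Gamma (s + 9 / 4) * riemannZeta w +
      (-(3 / 4 * (Real.pi : ℂ) ^ (-(s + 1 / 4)) * Complex.Gamma (s + 5 / 4)) * riemannZeta w)) :=
    HasSum.sum hl hr
  have h4 : MM 1 s = _ := h2.unique h3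
  rw [h4]
  have hw0 : w ≠ 0 := by
    intro h
    rw [h] at hw
    simp at hw
    linarith
  have hw1 : w ≠ 1 := by
    intro h
    rw [h] at hw
    simp at hw
  rw [xiE_eq hw0 hw1]
  have hG : Gammaℝ w ≠ 0 := Gammaℝ_ne_zero_of_re_pos (by linarith)
  have e1 : completedRiemannZeta w = riemannZeta w * Gammaℝ w := by
    rw [riemannZeta_def_of_ne_zero hw0]
    field_simp
  rw [e1, Gammaℝ_def]
  have e2 : -w / 2 = -(s + 1 / 4) := by
    rw [hwd]
    ring
  have e3 : w / 2 = s + 1 / 4 := by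
    rw [hwd]
    ring
  have h0 : s + 1 / 4 ≠ 0 := by
    rw [← e3]
    exact div_ne_zero hw0 two_ne_zero
  have h5 : s + 5 / 4 ≠ 0 := by
    intro h
    have := congrArg Complex.re h
    simp at this
    norm_num at this
    linarith
  have e4 : Complex.Gamma (s + 5 / 4) = (s + 1 / 4) * Complex.Gamma (s + 1 / 4) := by
    have : s + 5 / 4 = (s + 1 / 4) + 1 := by ring
    rw [this, Complex.Gamma_add_one _ h0]
  have e5 : Complex.Gamma (s + 9 / 4) = (s + 5 / 4) * Complex.Gamma (s + 5 / 4) := by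
    have : s + 9 / 4 = (s + 5 / 4) + 1 := by ring
    rw [this, Complex.Gamma_add_one _ h5]
  rw [e2, e3, e5, e4]
  have e6 : w = 2 * (s + 1 / 4) := by
    rw [hwd]
    ring
  rw [e6]
  ring

theorem MM_one_eq (s : ℂ) : MM 1 s = 1 / 8 * xiE (2 * s + 1 / 2) := by
  have h1 : AnalyticOnNhd ℂ (MM 1) univ :=
    (differentiable_MM (k := 1) le_rfl).differentiableOn.analyticOnNhd isOpen_univ
  have hd : Differentiable ℂ (fun s : ℂ => 1 / 8 * xiE (2 * s + 1 / 2)) :=
    (differentiable_xiE.comp (by fun_prop : Differentiable ℂ (fun s : ℂ => 2 * s + 1 / 2))).const_mul _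
  have h2 : AnalyticOnNhd ℂ (fun s : ℂ => 1 / 8 * xiE (2 * s + 1 / 2)) univ :=
    hd.differentiableOn.analyticOnNhd isOpen_univ
  have h3 : MM 1 =ᶠ[𝓝 (3 : ℂ)] (fun s : ℂ => 1 / 8 * xiE (2 * s + 1 / 2)) := by
    have ho : IsOpen {s : ℂ | 2 < s.re} := isOpen_lt continuous_const Complex.continuous_re
    filter_upwards [ho.mem_nhds (show (3 : ℂ) ∈ {s : ℂ | 2 < s.re} by simp; norm_num)] with s hs
    exact MM_one_eq_of_re (le_of_lt hs)
  have h4 := h1.eq_of_eventuallyEq h2 h3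
  exact congrFun h4 s

/-- `F_1(z) = ξ(1/2 + i z / 2) / 8`, with `w(w-1)Λ(w) = 2 ξ(w)`. -/
theorem cosTransform_one (z : ℂ) : cosTransform 1 z = 1 / 16 * xiE (1 / 2 + I * z / 2) := by
  have h := MM_eq_cosTransform (k := 1) le_rfl (I * z / 4)
  rw [MM_one_eq] at h
  have e : (4 * I * (I * z / 4) : ℂ) = -z := by
    have := Complex.I_mul_I
    linear_combination z * this
  rw [e, cosTransform_neg] at h
  have e2 : (2 * (I * z / 4) + 1 / 2 : ℂ) = 1 / 2 + I * z / 2 := by ring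
  rw [e2] at h
  have e3 : ((1 : ℕ) : ℝ) = 1 := by norm_num
  rw [e3] at h
  linear_combination -(1 / 2) * h

lemma xiE_zero_ne {w : ℂ} (h : xiE w = 0) : w ≠ 0 ∧ w ≠ 1 := by
  constructor
  · rintro rfl
    unfold xiE at h
    simp at h
  · rintro rfl
    unfold xiE at h
    simp at h

/-- the Riemann hypothesis in terms of `xiE` -/
theorem riemannHypothesis_iff : RiemannHypothesis ↔ ∀ w : ℂ, xiE w = 0 → w.re = 1 / 2 := by
  constructor
  · intro hRH w hw
    obtain ⟨h0, h1⟩ := xiE_zero_ne hw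
    have hL : completedRiemannZeta w = 0 := by
      rw [xiE_eq h0 h1] at hw
      have := mul_ne_zero h0 (sub_ne_zero.2 h1)
      exact (mul_eq_zero.1 hw).resolve_left this
    have hz : riemannZeta w = 0 := by
      rw [riemannZeta_def_of_ne_zero h0, hL, zero_div]
    refine hRH w hz ?_ h1
    rintro ⟨n, hn⟩
    -- the functional equation excludes the trivial zeros
    have h2 : completedRiemannZeta (1 - w) = 0 := by
      rw [completedRiemannZeta_one_sub, hL]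
    have h3 : riemannZeta (1 - w) = 0 := by
      rw [riemannZeta_def_of_ne_zero (sub_ne_zero.2 (Ne.symm h1)), h2, zero_div]
    refine riemannZeta_ne_zero_of_one_le_re ?_ h3
    rw [hn]
    simp
    positivity
  · intro h s hs hnt hs1
    have h0 : s ≠ 0 := by
      rintro rfl
      rw [riemannZeta_zero] at hs
      norm_num at hs
    have hG : Gammaℝ s ≠ 0 := by
      intro hG
      rw [Gammaℝ_eq_zero_iff] at hG
      obtain ⟨n, hn⟩ := hG
      rcases n with _ | n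
      · apply h0
        rw [hn]
        simp
      · apply hnt
        refine ⟨n, ?_⟩
        rw [hn]
        push_cast
        ring
    have hL : completedRiemannZeta s = 0 := by
      rw [riemannZeta_def_of_ne_zero h0] at hs
      exact (div_eq_zero_iff.1 hs).resolve_right hG
    apply h
    rw [xiE_eq h0 hs1, hL, mul_zero]

/-- `F_1` has a non-real zero if and only if the Riemann hypothesis fails. -/
theorem exists_nonreal_zero_one_iff :
    (∃ z : ℂ, z.im ≠ 0 ∧ cosTransform 1 z = 0) ↔ ¬ RiemannHypothesis := by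
  rw [riemannHypothesis_iff]
  constructor
  · rintro ⟨z, hz, h0⟩ h
    rw [cosTransform_one] at h0
    have h1 : xiE (1 / 2 + I * z / 2) = 0 := by
      have : (1 / 16 : ℂ) ≠ 0 := by norm_num
      exact (mul_eq_zero.1 h0).resolve_left this
    have h2 := h _ h1
    apply hz
    simp at h2
    exact h2
  · intro h
    push Not at h
    obtain ⟨w, hw, hre⟩ := h
    refine ⟨2 * (w - 1 / 2) / I, ?_, ?_⟩
    · intro him
      apply hre
      have : (2 * (w - 1 / 2) / I).im = -(2 * (w.re - 1 / 2)) := by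
        rw [Complex.div_I]
        simp
      rw [this] at him
      linarith
    · rw [cosTransform_one]
      have : (1 / 2 + I * (2 * (w - 1 / 2) / I) / 2 : ℂ) = w := by
        have := Complex.I_ne_zero
        field_simp
        ring
      rw [this, hw, mul_zero]

end Pool.Agent.H10
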